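import Pool.Agent.H24.GC.Count

/-!
# JOB GC-8: straight cuts

Let `f, φ` be a partial cover. For a cut arc `r = (p, q)` the equality `av f φ r = bv f φ r` says
`f p = φ q p` and `φ p q = f q`. So it is enough to prove `av r = bv r` for all cut arcs `r`; for the other
darts use `PCov.unc`.

`straight_one`: `n x = {w | f w = x}.ncard`, `count_one`, `card_fibres` and `Mult` give the hypotheses of
`dd_symm` (with `P = Ty H (π p) (π q)`, `arc_av`, `arc_bv`); `dd_cases` with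
`a₁ = a₂ = b₂ = av r`, `b₁ = bv r`: in the first two cases `av r = bv r`; the third one would give
`av r = (av r).swap`, impossible for an arc.

`straight_two`: `P = Ty (r₁) ∨ Ty (r₂)`. `dd_cases` with `a₁ = av r₁`, `a₂ = av r₂`, `b₁ = bv r₁`,
`b₂ = bv r₂`. First case: done. Second case: `a₁ = b₂`; the components of `a₁` are similar (`Sim`) to
`π r₁.1, π r₁.2`, those of `b₂` to `π r₂.1, π r₂.2`, so `Ty H (π r₁.1) (π r₁.2) (π r₂.1) (π r₂.2)`,
contradiction. Third case: `a₂ = a₁.swap` gives the same contradiction. (Different edges: `r₁ = r₂` or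
`r₁ = r₂.swap` would also contradict the hypothesis on the types.)

`straight_sided`: `P = Ty (r₁)`; the arcs of `r₂` satisfy it too, as `π r₂.1 ~ π r₁.1`,
`π r₂.2 ~ π r₁.2`. Let `n₁ x`, `n₂ y` be the numbers in `count_sided`. Then `n = n₁ + n₂` is
`{w | f w = x}.ncard` and `n x - n y = (n₁ x - n₂ y) - (n₁ y - n₂ x) = DD x y - DD y x`. So
`n x = 2 * M` for all `x` (`n_const`), and `dd_symm`, `dd_cases`. Second case, `av r₁ = bv r₂`:
`φ r₁.1 r₁.2 = f r₂.2 = φ r₁.1 r₂.2`, the last equality because the edge `r₁.1 r₂.2` is not cut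
(`r₁.2 ≠ r₂.2`, `r₁.1 ≠ r₂.1`, and `(r₂.2, r₁.1)` is not `r₁` or `r₂` since `sd r₂.2 = false`); this
contradicts the injectivity of `φ r₁.1` on the neighbours of `r₁.1`. Third case: let `h x = n₁ x - M`.
Then `n₂ y = 2 * M - n₁ y = M - h y`, so `h x + h y = n₁ x - n₂ y = DD x y` along the edges, contradiction to
`no_exotic`.
-/

namespace Pool.Agent.H24.GC

variable {V : Type} {H : SimpleGraph V} {K : Kit H}

theorem Straight_red {r₁ r₂ : K.W × K.W} {cut : K.W → K.W → Prop}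
    (hcut : ∀ w w', cut w w' → (w, w') = r₁ ∨ (w, w') = r₂) {f : K.W → V} {φ : K.W → K.W → V}
    (h : PCov H K.gr K.π cut f φ) (h₁ : av f φ r₁ = bv f φ r₁) (h₂ : av f φ r₂ = bv f φ r₂)
    (w w' : K.W) (hw : K.gr.Adj w w') : φ w w' = f w' := by
  have e1 : f r₁.1 = φ r₁.2 r₁.1 := congrArg Prod.fst h₁
  have e2 : φ r₁.1 r₁.2 = f r₁.2 := congrArg Prod.snd h₁
  have e3 : f r₂.1 = φ r₂.2 r₂.1 := congrArg Prod.fst h₂
  have e4 : φ r₂.1 r₂.2 = f r₂.2 := congrArg Prod.snd h₂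
  by_cases c1 : cut w w'
  · rcases hcut w w' c1 with h3 | h3
    · rw [← h3] at e2
      exact e2
    · rw [← h3] at e4
      exact e4
  · by_cases c2 : cut w' w
    · rcases hcut w' w c2 with h3 | h3
      · rw [← h3] at e1
        exact e1.symm
      · rw [← h3] at e3
        exact e3.symm
    · exact h.unc w w' hw c1 c2

theorem Straight_arc {P P' : V → V → Prop} (hPP : ∀ x y, P x y → P' x y) {a : V × V}
    (h : Arc H P a) : Arc H P' a := ⟨h.1, hPP _ _ h.2.1, hPP _ _ h.2.2⟩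

theorem Straight_ty [Finite V] {a b a' b' x y : V} (ha : Sim H a a') (hb : Sim H b b')
    (h : Ty H a b x y) : Ty H a' b' x y := by
  rcases h with ⟨h1, h2⟩ | ⟨h1, h2⟩
  · exact Or.inl ⟨sim_trans h1 ha, sim_trans h2 hb⟩
  · exact Or.inr ⟨sim_trans h1 hb, sim_trans h2 ha⟩

theorem Straight_sum [Finite V] [Fintype V] {c : ℕ} (hc : K.Mult c) (f : K.W → V) :
    ∑ x, ({w | f w = x}.ncard : ℤ) = (c : ℤ) * Fintype.card V := by
  rw [card_fibres f, ← Nat.card_eq_fintype_card]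
  have h1 : Nat.card K.W = c * Nat.card V := hc
  rw [h1]
  push_cast
  rfl

theorem straight_one [Finite V] {c : ℕ} (hc : K.Mult c) {r : K.W × K.W} (hr : K.gr.Adj r.1 r.2)
    (hP : NoCut H (Ty H (K.π r.1) (K.π r.2))) : Straight H K.gr K.π (cut1 r) := by
  have := Fintype.ofFinite V
  intro f φ h
  have ha := arc_av h hr
  have hb := arc_bv h hr
  have hsym := dd_symm hP ha ha hb ha (n := fun x => ({w | f w = x}.ncard : ℤ))
    (fun x y hxy => count_one hr h x y hxy) (Straight_sum hc f)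
  have key : av f φ r = bv f φ r := by
    rcases dd_cases ha.1.ne ha.1.ne hb.1.ne ha.1.ne hsym with h1 | h1 | h1
    · exact h1.1
    · exact h1.2
    · exfalso
      exact ha.1.ne (congrArg Prod.fst h1.1)
  exact Straight_red (r₁ := r) (r₂ := r) (fun w w' hw => Or.inl hw) h key key

theorem straight_two [Finite V] {c : ℕ} (hc : K.Mult c) {r₁ r₂ : K.W × K.W}
    (hr₁ : K.gr.Adj r₁.1 r₁.2) (hr₂ : K.gr.Adj r₂.1 r₂.2)
    (ht : ¬ Ty H (K.π r₁.1) (K.π r₁.2) (K.π r₂.1) (K.π r₂.2))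
    (hP : NoCut H (fun x y => Ty H (K.π r₁.1) (K.π r₁.2) x y ∨ Ty H (K.π r₂.1) (K.π r₂.2) x y)) :
    Straight H K.gr K.π (cut2 r₁ r₂) := by
  have := Fintype.ofFinite V
  intro f φ h
  have hne : r₁ ≠ r₂ := by
    intro h0
    apply ht
    rw [h0]
    exact Or.inl ⟨sim_refl H _, sim_refl H _⟩
  have hne' : r₁ ≠ r₂.swap := by
    intro h0
    apply ht
    rw [h0]
    exact Or.inr ⟨sim_refl H _, sim_refl H _⟩
  have ha₁ := Straight_arc (P' := fun x y => Ty H (K.π r₁.1) (K.π r₁.2) x y ∨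
    Ty H (K.π r₂.1) (K.π r₂.2) x y) (fun _ _ h3 => Or.inl h3) (arc_av h hr₁)
  have hb₁ := Straight_arc (P' := fun x y => Ty H (K.π r₁.1) (K.π r₁.2) x y ∨
    Ty H (K.π r₂.1) (K.π r₂.2) x y) (fun _ _ h3 => Or.inl h3) (arc_bv h hr₁)
  have ha₂ := Straight_arc (P' := fun x y => Ty H (K.π r₁.1) (K.π r₁.2) x y ∨
    Ty H (K.π r₂.1) (K.π r₂.2) x y) (fun _ _ h3 => Or.inr h3) (arc_av h hr₂)
  have hb₂ := Straight_arc (P' := fun x y => Ty H (K.π r₁.1) (K.π r₁.2) x y ∨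
    Ty H (K.π r₂.1) (K.π r₂.2) x y) (fun _ _ h3 => Or.inr h3) (arc_bv h hr₂)
  have hsym := dd_symm hP ha₁ ha₂ hb₁ hb₂ (n := fun x => ({w | f w = x}.ncard : ℤ))
    (fun x y hxy => count_two hr₁ hr₂ hne hne' h x y hxy) (Straight_sum hc f)
  rcases dd_cases ha₁.1.ne ha₂.1.ne hb₁.1.ne hb₂.1.ne hsym with h1 | h1 | h1
  · exact Straight_red (r₁ := r₁) (r₂ := r₂) (fun w w' hw => hw) h h1.1 h1.2
  · exfalso
    apply ht
    have e1 : f r₁.1 = φ r₂.2 r₂.1 := congrArg Prod.fst h1.1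
    have e2 : φ r₁.1 r₁.2 = f r₂.2 := congrArg Prod.snd h1.1
    have s1 := h.simf r₁.1
    rw [e1] at s1
    have s2 := h.simp r₁.1 r₁.2 hr₁
    rw [e2] at s2
    exact Or.inl ⟨sim_trans (sim_symm (h.simp r₂.2 r₂.1 hr₂.symm)) s1,
      sim_trans (sim_symm (h.simf r₂.2)) s2⟩
  · exfalso
    apply ht
    have e1 : f r₂.1 = φ r₁.1 r₁.2 := congrArg Prod.fst h1.1
    have e2 : φ r₂.1 r₂.2 = f r₁.1 := congrArg Prod.snd h1.1
    have s1 := h.simf r₂.1
    rw [e1] at s1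
    have s2 := h.simp r₂.1 r₂.2 hr₂
    rw [e2] at s2
    exact Or.inr ⟨sim_trans (sim_symm s1) (h.simp r₁.1 r₁.2 hr₁),
      sim_trans (sim_symm s2) (h.simf r₁.1)⟩

theorem straight_sided [Finite V] {M : ℕ} (hc : K.Mult (2 * M)) {sd : K.W → Bool}
    (hsd : ∀ u v, K.gr.Adj u v → sd u ≠ sd v) {r₁ r₂ : K.W × K.W}
    (hr₁ : K.gr.Adj r₁.1 r₁.2) (hr₂ : K.gr.Adj r₂.1 r₂.2) (hr : K.gr.Adj r₁.1 r₂.2)
    (hs : sd r₁.1 = true) (h₁ : r₁.1 ≠ r₂.1) (h₂ : r₁.2 ≠ r₂.2)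
    (ht₁ : Sim H (K.π r₂.1) (K.π r₁.1)) (ht₂ : Sim H (K.π r₂.2) (K.π r₁.2))
    (hP : NoCut H (Ty H (K.π r₁.1) (K.π r₁.2))) : Straight H K.gr K.π (cut2 r₁ r₂) := by
  have := Fintype.ofFinite V
  intro f φ h
  have hne : r₁ ≠ r₂ := fun h0 => h₁ (congrArg Prod.fst h0)
  have hs22 : sd r₂.2 = false := by
    have h3 := hsd _ _ hr
    rw [hs] at h3
    cases hv : sd r₂.2
    · rfl
    · exact absurd hv.symm h3
  have hs21 : sd r₂.1 = true := by
    have h3 := hsd _ _ hr₂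
    rw [hs22] at h3
    cases hv : sd r₂.1
    · exact absurd hv h3
    · rfl
  have ha₁ := arc_av h hr₁
  have hb₁ := arc_bv h hr₁
  have ha₂ := Straight_arc (fun _ _ h3 => Straight_ty ht₁ ht₂ h3) (arc_av h hr₂)
  have hb₂ := Straight_arc (fun _ _ h3 => Straight_ty ht₁ ht₂ h3) (arc_bv h hr₂)
  have hsum : ∀ x, ({w | f w = x}.ncard : ℤ) =
      ({w | sd w = true ∧ f w = x}.ncard : ℤ) + {w | sd w = false ∧ f w = x}.ncard := by
    intro x
    rw [← Nat.cast_add]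
    congr 1
    rw [← Set.ncard_union_eq]
    · congr 1
      ext w
      simp only [Set.mem_union, Set.mem_ofPred_eq]
      constructor
      · intro h3
        cases hv : sd w
        · exact Or.inr ⟨rfl, h3⟩
        · exact Or.inl ⟨rfl, h3⟩
      · rintro (h3 | h3)
        · exact h3.2
        · exact h3.2
    · rw [Set.disjoint_left]
      rintro w ⟨h3, _⟩ ⟨h4, _⟩
      rw [h3] at h4
      exact Bool.noConfusion h4
  have hcs := count_sided hsd hr₁ hr₂ hne hs hs21 h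
  have hn : ∀ x y, H.Adj x y → ({w | f w = x}.ncard : ℤ) - {w | f w = y}.ncard =
      DD (av f φ r₁) (av f φ r₂) (bv f φ r₁) (bv f φ r₂) x y -
      DD (av f φ r₁) (av f φ r₂) (bv f φ r₁) (bv f φ r₂) y x := by
    intro x y hxy
    rw [← hcs x y hxy, ← hcs y x hxy.symm, hsum, hsum]
    ring
  have hconst := n_const hP ha₁ ha₂ hb₁ hb₂ (n := fun x => ({w | f w = x}.ncard : ℤ)) hn
    (Straight_sum hc f)
  have hsym := dd_symm hP ha₁ ha₂ hb₁ hb₂ (n := fun x => ({w | f w = x}.ncard : ℤ)) hn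
    (Straight_sum hc f)
  rcases dd_cases ha₁.1.ne ha₂.1.ne hb₁.1.ne hb₂.1.ne hsym with h1 | h1 | ⟨h1, h2, h3, h4⟩
  · exact Straight_red (r₁ := r₁) (r₂ := r₂) (fun w w' hw => hw) h h1.1 h1.2
  · exfalso
    have e2 : φ r₁.1 r₁.2 = f r₂.2 := congrArg Prod.snd h1.1
    have e3 : φ r₁.1 r₂.2 = f r₂.2 := by
      refine h.unc _ _ hr ?_ ?_
      · rintro (h3 | h3)
        · exact h₂ (congrArg Prod.snd h3).symm
        · exact h₁ (Prod.ext_iff.1 h3).1
      · rintro (h3 | h3)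
        · have h4 : r₂.2 = r₁.1 := congrArg Prod.fst h3
          rw [h4, hs] at hs22
          exact Bool.noConfusion hs22
        · have h4 : r₂.2 = r₂.1 := congrArg Prod.fst h3
          exact hr₂.ne h4.symm
    exact h₂ ((h.bij r₁.1).injOn hr₁ hr (e2.trans e3.symm))
  · exfalso
    refine no_exotic hP ha₁ hb₁ h3 h4
      (h := fun x => ({w | sd w = true ∧ f w = x}.ncard : ℤ) - M) ?_
    intro x y hxy
    have e1 := hcs x y hxy
    rw [h1, h2] at e1
    rw [← e1]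
    have e2 : ({w | f w = y}.ncard : ℤ) = ((2 * M : ℕ) : ℤ) := hconst y
    rw [hsum] at e2
    push_cast at e2
    linarith

end Pool.Agent.H24.GC
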