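import Pool.Agent.H24.GC.HardDef
import Pool.Agent.H24.GC.Straight

/-!
# JOB GC-20: binary definable relations

`BDef K c c' S`: the relation `S` between arcs of the types `c` and `c'` is defined by killer pieces.
`BDef.symm`: `PDef.comap` with `Bool.not`. `BDef.and`: `PDef.and`. `BDef.comp`: on the variables
`Bool ⊕ Unit` (types `c, c''` and `c'`) take the conjunction of the two relations (`PDef.comap` with
`false ↦ inl false, true ↦ inr ()` and `false ↦ inr (), true ↦ inl true`), then `PDef.ex`.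
`sameTail_def`: `a` and `b` have the same tail: the killer piece with the cut arcs `(p, u)`, `(p, o)`
(`Kl`: `straight_two`, the types are different: `Ty H (π p) (π u) (π p) (π o)` would give `π o ~ π u`
directly, or `π p ~ π u` and `π o ~ π p`, so `π o ~ π u` again; `straight_one`; all `NoCut` conditions from
`hP : NoCut H (fun _ _ => True)` by `NoCut.mono`). If `KR K (p, u) (p, o) a b` with the cover `f` then
`a = (f p, f u)`, `b = (f p, f o)` and the classes are right by `cover_sim`. Conversely let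
`a = (x, y)`, `b = (x, z)` be arcs of the right types. `cp_two` gives `σ` with `CP H (π p) x σ`,
`σ (π u) = y`, `σ (π o) = z` (`π u ≠ π o` as they are not similar; the same for `y, z`). `cp_one` gives
`τ v` for every `v ∈ N(π p)` with `CP H v (σ v) (τ v)`, `τ v (π p) = x`
(`Sim H v (σ v)`, `x ∈ N(σ v)`). `K.Univ p` gives the cover. (`PDef.atom`, `PDef.congr`; the definition is
for the variables `false, true`.)
`sameHead_def`: the killer piece with the cut arcs `(p, u)`, `(o, u)`; types: `Ty H (π p) (π u) (π o) (π u)`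
would give `π o ~ π p`. For `a = (x, y)`, `b = (v, y)`: `cp_one` gives `σ` with `CP H (π p) x σ`,
`σ (π u) = y`, and `cp_two` gives `τ (π u)` with `CP H (π u) y (τ (π u))`, `τ (π u) (π p) = x`,
`τ (π u) (π o) = v`; the other `τ w` by `cp_one`. Then `K.Univ p` (`π` is injective on `N(p)`, so
`u` is the only neighbour of `p` over `π u`; `f o = τ (π u) (π o)`).
-/

namespace Pool.Agent.H24.GC

variable {V : Type} {H : SimpleGraph V}

/-- `a` is an arc of the type `c` -/
def IsC (H : SimpleGraph V) (c a : V × V) : Prop := H.Adj a.1 a.2 ∧ Sim H a.1 c.1 ∧ Sim H a.2 c.2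

/-- the relation `S` between arcs of the types `c` and `c'` is defined by killer pieces -/
def BDef (K : Kit H) (c c' : V × V) (S : V × V → V × V → Prop) : Prop :=
  PDef K (fun b : Bool => if b then c' else c) (fun v => S (v false) (v true))

theorem NoCut.mono {P Q : V → V → Prop} (h : NoCut H Q) (hPQ : ∀ x y, P x y → Q x y) :
    NoCut H P :=
  fun S hS hSc h' => h S hS hSc (fun x hx y hy hxy => hPQ _ _ (h' x hx y hy hxy))

theorem BDef.congr {K : Kit H} {c c' : V × V} {S S' : V × V → V × V → Prop}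
    (h : BDef K c c' S) (hS : ∀ a b, S a b ↔ S' a b) : BDef K c c' S' :=
  PDef.congr h (fun _ => hS _ _)

theorem BDef.symm [Finite V] {K : Kit H} {c c' : V × V} {S : V × V → V × V → Prop}
    (h : BDef K c c' S) : BDef K c' c (fun a b => S b a) := by
  have h1 := PDef.comap (tX' := fun b : Bool => if b then c else c') h Bool.not (by
    intro x
    cases x
    · exact ⟨sim_refl H _, sim_refl H _⟩
    · exact ⟨sim_refl H _, sim_refl H _⟩)
  exact h1

theorem BDef.and {K : Kit H} {c c' : V × V} {S S' : V × V → V × V → Prop}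
    (h : BDef K c c' S) (h' : BDef K c c' S') : BDef K c c' (fun a b => S a b ∧ S' a b) :=
  PDef.and h h'

theorem BDef.comp [Finite V] {K : Kit H} {c c' c'' : V × V} {S S' : V × V → V × V → Prop}
    (h : BDef K c c' S) (h' : BDef K c' c'' S') :
    BDef K c c'' (fun a b => ∃ e, S a e ∧ S' e b) := by
  have h1 : PDef K (Sum.elim (fun b : Bool => if b then c'' else c) (fun _ : Unit => c'))
      (fun w => S (w (Sum.inl false)) (w (Sum.inr ()))) := by
    refine PDef.congr (PDef.comap h
      (fun b : Bool => if b then (Sum.inr () : Bool ⊕ Unit) else Sum.inl false) ?_)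
      (fun v => Iff.rfl)
    intro x
    cases x
    · exact ⟨sim_refl H _, sim_refl H _⟩
    · exact ⟨sim_refl H _, sim_refl H _⟩
  have h2 : PDef K (Sum.elim (fun b : Bool => if b then c'' else c) (fun _ : Unit => c'))
      (fun w => S' (w (Sum.inr ())) (w (Sum.inl true))) := by
    refine PDef.congr (PDef.comap h'
      (fun b : Bool => if b then (Sum.inl true : Bool ⊕ Unit) else Sum.inr ()) ?_)
      (fun v => Iff.rfl)
    intro x
    cases x
    · exact ⟨sim_refl H _, sim_refl H _⟩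
    · exact ⟨sim_refl H _, sim_refl H _⟩
  have h3 := PDef.ex (h1.and h2)
  refine PDef.congr h3 fun v => ?_
  constructor
  · rintro ⟨u, hu⟩
    exact ⟨u (), hu⟩
  · rintro ⟨e, he⟩
    exact ⟨fun _ => e, he⟩

theorem sameTail_def [Finite V] {K : Kit H} {M : ℕ} (hM : K.Mult M)
    (hP : NoCut H (fun _ _ => True)) {p : K.W} (hU : K.Univ p) {u o : K.W}
    (hu : K.gr.Adj p u) (ho : K.gr.Adj p o) (huo : ¬ Sim H (K.π u) (K.π o)) :
    BDef K (K.π p, K.π u) (K.π p, K.π o)
      (fun a b => IsC H (K.π p, K.π u) a ∧ IsC H (K.π p, K.π o) b ∧ a.1 = b.1) := by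
  have hkl : Kl K (p, u) (p, o) :=
    { adj₁ := hu
      adj₂ := ho
      ne := by
        intro h
        have h1 : u = o := (Prod.ext_iff.1 h).2
        exact huo (h1 ▸ sim_refl H _)
      ne' := by
        intro h
        have h1 : p = o := (Prod.ext_iff.1 h).1
        exact ho.ne h1
      str := by
        refine straight_two hM hu ho ?_ (NoCut.mono hP (fun _ _ _ => trivial))
        rintro (⟨_, h⟩ | ⟨h, h'⟩)
        · exact huo (sim_symm h)
        · exact huo (sim_symm (sim_trans h' h))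
      str₁ := straight_one hM hu (NoCut.mono hP (fun _ _ _ => trivial))
      str₂ := straight_one hM ho (NoCut.mono hP (fun _ _ _ => trivial)) }
  have hpu : H.Adj (K.π p) (K.π u) := (K.cov p).mapsTo hu
  have hpo : H.Adj (K.π p) (K.π o) := (K.cov p).mapsTo ho
  refine PDef.congr (PDef.atom (i := false) (j := true) hkl ⟨sim_refl H _, sim_refl H _⟩
    ⟨sim_refl H _, sim_refl H _⟩) fun v => ?_
  constructor
  · rintro ⟨f, hf, h1, h2⟩
    show IsC H (K.π p, K.π u) (v false) ∧ IsC H (K.π p, K.π o) (v true) ∧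
      (v false).1 = (v true).1
    rw [← h1, ← h2]
    exact ⟨⟨(hf p).mapsTo hu, cover_sim hf K.cov p, cover_sim hf K.cov u⟩,
      ⟨(hf p).mapsTo ho, cover_sim hf K.cov p, cover_sim hf K.cov o⟩, rfl⟩
  · show IsC H (K.π p, K.π u) (v false) ∧ IsC H (K.π p, K.π o) (v true) ∧
      (v false).1 = (v true).1 → _
    generalize v false = a
    generalize v true = b
    rintro ⟨⟨ha, ha1, ha2⟩, ⟨hb, hb1, hb2⟩, hab⟩
    have hne : K.π u ≠ K.π o := fun h => huo (h ▸ sim_refl H _)
    have hne' : a.2 ≠ b.2 := fun h => huo (sim_trans (sim_symm ha2) (h ▸ hb2))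
    obtain ⟨σ, hσ, hσu, hσo⟩ := cp_two (sim_symm ha1) hpu ha (sim_symm ha2) hpo
      (hab ▸ hb) (sim_symm hb2) hne hne'
    have hτ : ∀ w, ∃ τ' : Equiv.Perm V, H.Adj (K.π p) w →
        CP H w (σ w) τ' ∧ τ' (K.π p) = a.1 := by
      intro w
      by_cases hw : H.Adj (K.π p) w
      · obtain ⟨τ', h1, h2⟩ := cp_one (sim_symm (hσ.1 w)) hw.symm ((hσ.2 w).1 hw).symm
          (sim_symm ha1)
        exact ⟨τ', fun _ => ⟨h1, h2⟩⟩
      · exact ⟨Equiv.refl V, fun h => (hw h).elim⟩
    choose τ hτ using hτ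
    obtain ⟨f, hf, hfp, hf1, _⟩ := hU a.1 σ τ (sim_symm ha1) hσ hτ
    refine ⟨f, hf, ?_, ?_⟩
    · show (f p, f u) = a
      rw [hfp, hf1 u hu, hσu]
    · show (f p, f o) = b
      rw [hfp, hf1 o ho, hσo, hab]

theorem sameHead_def [Finite V] {K : Kit H} {M : ℕ} (hM : K.Mult M)
    (hP : NoCut H (fun _ _ => True)) {p : K.W} (hU : K.Univ p) {u o : K.W}
    (hu : K.gr.Adj p u) (ho : K.gr.Adj u o) (hpo : ¬ Sim H (K.π o) (K.π p)) :
    BDef K (K.π p, K.π u) (K.π o, K.π u)
      (fun a b => IsC H (K.π p, K.π u) a ∧ IsC H (K.π o, K.π u) b ∧ a.2 = b.2) := by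
  have hkl : Kl K (p, u) (o, u) :=
    { adj₁ := hu
      adj₂ := ho.symm
      ne := by
        intro h
        have h1 : p = o := (Prod.ext_iff.1 h).1
        exact hpo (h1 ▸ sim_refl H _)
      ne' := by
        intro h
        have h1 : p = u := (Prod.ext_iff.1 h).1
        exact hu.ne h1
      str := by
        refine straight_two hM hu ho.symm ?_ (NoCut.mono hP (fun _ _ _ => trivial))
        rintro (⟨h, _⟩ | ⟨h, h'⟩)
        · exact hpo h
        · exact hpo (sim_trans h h')
      str₁ := straight_one hM hu (NoCut.mono hP (fun _ _ _ => trivial))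
      str₂ := straight_one hM ho.symm (NoCut.mono hP (fun _ _ _ => trivial)) }
  have hpu : H.Adj (K.π p) (K.π u) := (K.cov p).mapsTo hu
  have huo : H.Adj (K.π u) (K.π o) := (K.cov u).mapsTo ho
  refine PDef.congr (PDef.atom (i := false) (j := true) hkl ⟨sim_refl H _, sim_refl H _⟩
    ⟨sim_refl H _, sim_refl H _⟩) fun v => ?_
  constructor
  · rintro ⟨f, hf, h1, h2⟩
    show IsC H (K.π p, K.π u) (v false) ∧ IsC H (K.π o, K.π u) (v true) ∧
      (v false).2 = (v true).2
    rw [← h1, ← h2]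
    exact ⟨⟨(hf p).mapsTo hu, cover_sim hf K.cov p, cover_sim hf K.cov u⟩,
      ⟨(hf o).mapsTo ho.symm, cover_sim hf K.cov o, cover_sim hf K.cov u⟩, rfl⟩
  · show IsC H (K.π p, K.π u) (v false) ∧ IsC H (K.π o, K.π u) (v true) ∧
      (v false).2 = (v true).2 → _
    generalize v false = a
    generalize v true = b
    rintro ⟨⟨ha, ha1, ha2⟩, ⟨hb, hb1, hb2⟩, hab⟩
    have hne : K.π p ≠ K.π o := fun h => hpo (h ▸ sim_refl H _)
    have hne' : a.1 ≠ b.1 := fun h => hpo (sim_symm (sim_trans (sim_symm ha1) (h ▸ hb1)))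
    obtain ⟨σ, hσ, hσu⟩ := cp_one (sim_symm ha1) hpu ha (sim_symm ha2)
    obtain ⟨τ₀, hτ₀, hτp, hτo⟩ := cp_two (sim_symm ha2) hpu.symm ha.symm (sim_symm ha1) huo
      (hab ▸ hb.symm) (sim_symm hb1) hne hne'
    have hτ : ∀ w, ∃ τ' : Equiv.Perm V, (H.Adj (K.π p) w →
        CP H w (σ w) τ' ∧ τ' (K.π p) = a.1) ∧ (w = K.π u → τ' (K.π o) = b.1) := by
      intro w
      by_cases hwu : w = K.π u
      · subst hwu
        exact ⟨τ₀, fun _ => ⟨hσu ▸ hτ₀, hτp⟩, fun _ => hτo⟩
      · by_cases hw : H.Adj (K.π p) w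
        · obtain ⟨τ', h1, h2⟩ := cp_one (sim_symm (hσ.1 w)) hw.symm ((hσ.2 w).1 hw).symm
            (sim_symm ha1)
          exact ⟨τ', fun _ => ⟨h1, h2⟩, fun h => (hwu h).elim⟩
        · exact ⟨Equiv.refl V, fun h => (hw h).elim, fun h => (hwu h).elim⟩
    choose τ hτ using hτ
    obtain ⟨f, hf, hfp, hf1, hf2⟩ := hU a.1 σ τ (sim_symm ha1) hσ (fun w hw => (hτ w).1 hw)
    refine ⟨f, hf, ?_, ?_⟩
    · show (f p, f u) = a
      rw [hfp, hf1 u hu, hσu]
    · show (f o, f u) = b
      rw [hf2 u o hu ho, (hτ (K.π u)).2 rfl, hf1 u hu, hσu, hab]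

end Pool.Agent.H24.GC
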