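import Pool.Agent.H24.GC.Kit

/-!
# JOB GC-23: covers with prescribed values on a star

`exists_beta`: for every `x ~ x₀` the set `nbc H x y₀` has `d = (nbc H x₀ y₀).ncard` elements
(`nbc_ncard`), so there is a map `V → Fin d` injective on it; `β (x, y)` is the value of the map for
`x` at `y` (and `0` if `x` is not similar to `x₀`).
`exists_gamma`: an enumeration of `nbc H x₀ y₀`.
`star_cover`: `cp_two` with `w = K.π p`, `x`, `w₁ = K.π q₀`, `x₁ = y`, `w₂ = K.π q₁`, `x₂ = y'` gives `σ`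
(`K.π q₀ ≠ K.π q₁` as `K.cov` is injective on the neighbours of `p`); `cp_one` gives `τ u` for the
neighbours `u` of `K.π p` (`CP H u (σ u) (τ u)`, `τ u (K.π p) = x`); `K.Univ p`.
`star_cover_one`: the same with one neighbour (`cp_one`).
`lift_adj`: `K.cov p` is surjective onto the neighbours of `K.π p`.
-/

namespace Pool.Agent.H24.GC

variable {V : Type} {H : SimpleGraph V}

theorem exists_beta [Finite V] {x₀ y₀ : V} (hd : 0 < (nbc H x₀ y₀).ncard) :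
    ∃ β : V × V → Fin (nbc H x₀ y₀).ncard, ∀ x y y', Sim H x x₀ → y ∈ nbc H x y₀ →
      y' ∈ nbc H x y₀ → y ≠ y' → β (x, y) ≠ β (x, y') := by
  classical
  have he : ∀ x, ∃ g : V → Fin (nbc H x₀ y₀).ncard, Sim H x x₀ → ∀ y y', y ∈ nbc H x y₀ →
      y' ∈ nbc H x y₀ → y ≠ y' → g y ≠ g y' := by
    intro x
    by_cases hx : Sim H x x₀
    · have hc : Nat.card (nbc H x y₀) = (nbc H x₀ y₀).ncard := by
        rw [Nat.card_coe_set_eq]
        exact nbc_ncard hx (sim_refl H y₀)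
      let e := Finite.equivFinOfCardEq hc
      refine ⟨fun y => if hy : y ∈ nbc H x y₀ then e ⟨y, hy⟩ else ⟨0, hd⟩, ?_⟩
      intro _ y y' hy hy' hne h1
      simp only [dif_pos hy, dif_pos hy'] at h1
      exact hne (congrArg Subtype.val (e.injective h1))
    · exact ⟨fun _ => ⟨0, hd⟩, fun h => absurd h hx⟩
  choose g hg using he
  exact ⟨fun e => g e.1 e.2, fun x y y' hx hy hy' hne => hg x hx y y' hy hy' hne⟩

theorem exists_gamma [Finite V] (x₀ y₀ : V) :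
    ∃ γ : Fin (nbc H x₀ y₀).ncard → V, Function.Injective γ ∧ ∀ i, γ i ∈ nbc H x₀ y₀ := by
  let e := Finite.equivFinOfCardEq (Nat.card_coe_set_eq (nbc H x₀ y₀))
  refine ⟨fun i => (e.symm i).1, ?_, fun i => (e.symm i).2⟩
  intro i j h
  exact e.symm.injective (Subtype.ext h)

private theorem star_ext [Finite V] {K : Kit H} {p : K.W} (hU : K.Univ p) {x : V}
    (hx : Sim H (K.π p) x) {σ : Equiv.Perm V} (hσ : CP H (K.π p) x σ) :
    ∃ f : K.W → V, IsCover K.gr H f ∧ f p = x ∧ ∀ u, K.gr.Adj p u → f u = σ (K.π u) := by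
  have h1 : ∀ u, ∃ τ : Equiv.Perm V, H.Adj (K.π p) u → CP H u (σ u) τ ∧ τ (K.π p) = x := by
    intro u
    by_cases hu : H.Adj (K.π p) u
    · obtain ⟨τ, h2, h3⟩ := cp_one (sim_symm (hσ.1 u)) hu.symm ((hσ.2 u).1 hu).symm hx
      exact ⟨τ, fun _ => ⟨h2, h3⟩⟩
    · exact ⟨Equiv.refl V, fun h => absurd h hu⟩
  choose τ hτ using h1
  obtain ⟨f, hf, h2, h3, -⟩ := hU x σ τ hx hσ hτ
  exact ⟨f, hf, h2, h3⟩

theorem star_cover_one [Finite V] {K : Kit H} {p : K.W} (hU : K.Univ p) {q : K.W}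
    (hq : K.gr.Adj p q) {x y : V} (hx : Sim H (K.π p) x) (hxy : H.Adj x y)
    (hy : Sim H (K.π q) y) : ∃ f : K.W → V, IsCover K.gr H f ∧ f p = x ∧ f q = y := by
  obtain ⟨σ, hσ, h1⟩ := cp_one hx ((K.cov p).mapsTo hq) hxy hy
  obtain ⟨f, hf, h2, h3⟩ := star_ext hU hx hσ
  exact ⟨f, hf, h2, (h3 q hq).trans h1⟩

theorem star_cover [Finite V] {K : Kit H} {p : K.W} (hU : K.Univ p) {q₀ q₁ : K.W}
    (hq₀ : K.gr.Adj p q₀) (hq₁ : K.gr.Adj p q₁) (hq : q₀ ≠ q₁) {x y y' : V}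
    (hx : Sim H (K.π p) x) (hxy : H.Adj x y) (hxy' : H.Adj x y') (hyy : y ≠ y')
    (hy : Sim H (K.π q₀) y) (hy' : Sim H (K.π q₁) y') :
    ∃ f : K.W → V, IsCover K.gr H f ∧ f p = x ∧ f q₀ = y ∧ f q₁ = y' := by
  have hne : K.π q₀ ≠ K.π q₁ := fun h => hq ((K.cov p).injOn hq₀ hq₁ h)
  obtain ⟨σ, hσ, h1, h1'⟩ := cp_two hx ((K.cov p).mapsTo hq₀) hxy hy ((K.cov p).mapsTo hq₁)
    hxy' hy' hne hyy
  obtain ⟨f, hf, h2, h3⟩ := star_ext hU hx hσ
  exact ⟨f, hf, h2, (h3 q₀ hq₀).trans h1, (h3 q₁ hq₁).trans h1'⟩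

theorem lift_adj (K : Kit H) {p : K.W} {y : V} (hy : H.Adj (K.π p) y) :
    ∃ q, K.gr.Adj p q ∧ K.π q = y := by
  obtain ⟨q, hq, h⟩ := (K.cov p).surjOn hy
  exact ⟨q, hq, h⟩

end Pool.Agent.H24.GC
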