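import Pool.Agent.H24.GC.DihB
import Pool.Agent.H24.GC.Star

/-!
# JOB GC-28: two neighbours in one class with different neighbourhoods

`walkB`: in the sided kit. Induction on `L`. `L = 0`: `w = p`, `u = u₀`. Given `w, u`: the neighbours of `u`
over the class of `x₀` are two (`cover_class` for `K.π`), let `w'` be the one `≠ w`; let `u'` be the
neighbour `≠ u` of `w'` over the class of `y₀`. `sd w' = sd w`. For a cover `f` the pair
`(f w', f u)` is an arc of the type (`cover_sim`) with head `f u`, different from `(f w, f u)`, so it is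
`i₂` of it, and `(f w', f u')` is `i₁` of this one (`dihB_unique`), so together `τ` is applied.
`case_B`. `y₁ ≠ y₀` are both in `nbc H x₀ y₀`, so it has exactly two elements; `nbc H y₀ x₀` and
`nbc H y₁ x₀` have the same number of elements, at most `2`, contain `x₀` and are different, so this
number is `2`. Let `D` be from `exists_dihB`, `a₀ = (x₀, y₀)`, `n = D.per a₀ ≥ 3` (`dihB_per`). By `exists_other`
`x₀` has a neighbour `m` not similar to `y₀`, and `y₀` has a neighbour `m'` not similar to `x₀`.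
Let `K₀, sd, M, p` be from `kit_exists H x₀`, `K = K₀.add`, `Mult (2 * M + 1)`. Let `u₀, o₀` be the
neighbours of `p` over `y₀, m`, and `v₀` a neighbour of `u₀` over `m'` (`lift_adj`). Let `(w, u)` be
from `walkB` for `L = n / 2`, and `o` a neighbour of `w` over the class of `m` (`K₀.π w ~ x₀`, `nbc_ncard`).
Apply `ring_hard` with `K`, `c = (x₀, m)`, `S = lk H x₀ y₀` (`step_def` in `K` at `inl p`, `add_univ`), `hT` from
`tail_def`, `hstep` from `dihB_step`, `rF = (inl p, inl o₀)`, `rF' = (inl w, inl o)`, `rC = (inr x₀, inr m)`.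
`hne`: if `p = w` then with the cover `K₀.π`: `tl (τ ^ L a₀) = tl a₀`, so `n ∣ L` (`tl_iff_dvd`), but
`0 < L < n`. `hne'`: `sd p = true = sd w`, so `sd o = false`, `p ≠ o`. `hF1`: restrict `f` to `K₀`
(`add_cover`); `b = (f p, f u₀)` has the tail of `a`, so `b = a` or `b = i₁ a`, and
`f w = tl (τ ^ L b)`; for `b = i₁ a` use `tau_i₁`. `hF2`: `star_cover_one` gives a cover of `K₀` with
`(f p, f u₀) = a`, extend by the identity. `hC`: `f` restricted to the copy of `H` is an automorphism `e`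
(`auto_of_cover`, `conn_of_nocut`), `f (inr x₀) = e x₀` is the tail of the state `b` of `dihB_iso` for `a₀`.
`hdeg`: `exists_adj` and `lift_adj`.
-/

namespace Pool.Agent.H24.GC

variable {V : Type} {H : SimpleGraph V}

theorem caseB_two {α : Type} {s : Set α} (h : s.ncard = 2) (a : α) : ∃ b ∈ s, b ≠ a :=
  Set.exists_ne_of_one_lt_ncard (by omega) a

theorem caseB_isC [Finite V] {x₀ y₀ : V} {K : Kit H} {f : K.W → V} (hf : IsCover K.gr H f)
    {w u : K.W} (hwu : K.gr.Adj w u) (hw : Sim H (K.π w) x₀) (hu : Sim H (K.π u) y₀) :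
    IsC H (x₀, y₀) (f w, f u) :=
  ⟨(hf w).mapsTo hwu, sim_trans (cover_sim hf K.cov w) hw, sim_trans (cover_sim hf K.cov u) hu⟩

theorem walkB [Finite V] {x₀ y₀ : V} (h : (nbc H x₀ y₀).ncard = 2)
    (h' : (nbc H y₀ x₀).ncard = 2) {D : Dih {a : V × V // IsC H (x₀, y₀) a} V}
    (hD : IsDihB H x₀ y₀ D) {K : Kit H} {sd : K.W → Bool}
    (hsd : ∀ u v, K.gr.Adj u v → sd u ≠ sd v) {p u₀ : K.W} (hp : K.π p = x₀)
    (hu₀ : K.π u₀ = y₀) (hpu : K.gr.Adj p u₀) (L : ℕ) :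
    ∃ w u : K.W, K.gr.Adj w u ∧ sd w = sd p ∧ Sim H (K.π w) x₀ ∧ Sim H (K.π u) y₀ ∧
      ∀ f : K.W → V, IsCover K.gr H f → ∀ a : {a : V × V // IsC H (x₀, y₀) a},
        a.1 = (f p, f u₀) → ((D.tau ^ (L : ℤ)) a).1 = (f w, f u) := by
  induction L with
  | zero =>
    refine ⟨p, u₀, hpu, rfl, hp ▸ sim_refl H _, hu₀ ▸ sim_refl H _, ?_⟩
    intro f _ a ha
    simpa using ha
  | succ L ih =>
    obtain ⟨w, u, hwu, hsw, hw, hu, hf⟩ := ih
    -- the other neighbour of `u`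
    have c1 : {v | K.gr.Adj u v ∧ Sim H (K.π v) x₀}.ncard = 2 := by
      have e := (cover_class K.cov K.cov u x₀)
      rw [← e.injOn.ncard_image, e.image_eq, nbc_ncard hu (sim_refl H x₀), h']
    obtain ⟨w', ⟨huw', hw'⟩, hne⟩ := caseB_two c1 w
    have c2 : {v | K.gr.Adj w' v ∧ Sim H (K.π v) y₀}.ncard = 2 := by
      have e := (cover_class K.cov K.cov w' y₀)
      rw [← e.injOn.ncard_image, e.image_eq, nbc_ncard hw' (sim_refl H y₀), h]
    obtain ⟨u', ⟨hwu', hu'⟩, hne'⟩ := caseB_two c2 u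
    refine ⟨w', u', hwu', ?_, hw', hu', ?_⟩
    · have s1 := hsd u w hwu.symm
      have s2 := hsd u w' huw'
      rw [← hsw]
      cases h1 : sd u <;> cases h3 : sd w <;> cases h4 : sd w' <;> simp_all
    · intro f hfc a ha
      have hb := hf f hfc a ha
      set b := (D.tau ^ (L : ℤ)) a with hbd
      have e0 : (D.tau ^ ((L + 1 : ℕ) : ℤ)) a = D.i₁ (D.i₂ b) := by
        have : ((L + 1 : ℕ) : ℤ) = 1 + (L : ℤ) := by push_cast; ring
        rw [this, zpow_one_add, Equiv.Perm.mul_apply]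
        rfl
      let c : {a : V × V // IsC H (x₀, y₀) a} := ⟨(f w', f u), caseB_isC hfc huw'.symm hw' hu⟩
      let d : {a : V × V // IsC H (x₀, y₀) a} := ⟨(f w', f u'), caseB_isC hfc hwu' hw' hu'⟩
      have hc : c = D.i₂ b := by
        rcases (dihB_unique h h' hD b c).2 (by rw [hb]) with h1 | h1
        · exfalso
          have h2 : f w' = f w := by
            have := congrArg (fun z => z.1.1) h1
            simp only [hb] at this
            exact this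
          exact hne ((hfc u).injOn huw' hwu.symm h2)
        · exact h1
      have hd : d = D.i₁ c := by
        rcases (dihB_unique h h' hD c d).1 rfl with h1 | h1
        · exfalso
          have h2 : f u' = f u := congrArg (fun z => z.1.2) h1
          exact hne' ((hfc w').injOn hwu' huw'.symm h2)
        · exact h1
      rw [e0, ← hc, ← hd]

theorem case_B [Finite V] (hP : NoCut H (fun _ _ => True)) (h2 : ∀ x y, (nbc H x y).ncard ≤ 2)
    {x₀ y₀ y₁ : V} (hxy : H.Adj x₀ y₀) (hxy' : H.Adj x₀ y₁) (hyy : Sim H y₀ y₁)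
    (hne : nbc H y₀ x₀ ≠ nbc H y₁ x₀) : HardH H := by
  classical
  have : Nonempty V := ⟨x₀⟩
  have hy : y₀ ≠ y₁ := fun h => hne (by rw [h])
  have h : (nbc H x₀ y₀).ncard = 2 := by
    refine le_antisymm (h2 _ _) ?_
    have : ({y₀, y₁} : Set V) ⊆ nbc H x₀ y₀ := by
      rintro z (rfl | rfl)
      · exact ⟨hxy, sim_refl H _⟩
      · exact ⟨hxy', sim_symm hyy⟩
    have := Set.ncard_le_ncard this
    rwa [Set.ncard_pair hy] at this
  have hx1 : x₀ ∈ nbc H y₀ x₀ := ⟨hxy.symm, sim_refl H _⟩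
  have hx2 : x₀ ∈ nbc H y₁ x₀ := ⟨hxy'.symm, sim_refl H _⟩
  have h' : (nbc H y₀ x₀).ncard = 2 := by
    have e1 : (nbc H y₀ x₀).ncard = (nbc H y₁ x₀).ncard := nbc_ncard hyy (sim_refl H _)
    have e2 := h2 y₀ x₀
    have e3 : 0 < (nbc H y₀ x₀).ncard := (Set.ncard_pos (Set.toFinite _)).2 ⟨x₀, hx1⟩
    by_contra hcon
    have e4 : (nbc H y₀ x₀).ncard = 1 := by omega
    obtain ⟨z, hz⟩ := Set.ncard_eq_one.1 e4
    obtain ⟨z', hz'⟩ := Set.ncard_eq_one.1 (e1 ▸ e4)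
    rw [hz] at hx1
    rw [hz'] at hx2
    apply hne
    rw [hz, hz', ← Set.mem_singleton_iff.1 hx1, ← Set.mem_singleton_iff.1 hx2]
  obtain ⟨D, hD⟩ := exists_dihB hxy h h'
  have hC0 : IsC H (x₀, y₀) (x₀, y₀) := ⟨hxy, sim_refl H _, sim_refl H _⟩
  have hC1 : IsC H (x₀, y₀) (x₀, y₁) := ⟨hxy', sim_refl H _, sim_symm hyy⟩
  set a₀ : {a : V × V // IsC H (x₀, y₀) a} := ⟨(x₀, y₀), hC0⟩ with ha₀
  have hn : 3 ≤ D.per a₀ := dihB_per h h' hD hC0 hC1 hne
  set n := D.per a₀ with hnd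
  obtain ⟨m, hm, hm'⟩ := exists_other hP hxy.ne (lt_of_le_of_lt (h2 x₀ y₀) (by norm_num))
  obtain ⟨q, hq, hq'⟩ := exists_other hP hxy.ne' (lt_of_le_of_lt (h2 y₀ x₀) (by norm_num))
  obtain ⟨K₀, sd, M, p, hsd, hM, hp, -, hU⟩ := kit_exists H x₀
  obtain ⟨u₀, hpu, hu₀⟩ := lift_adj K₀ (p := p) (y := y₀) (by rw [hp]; exact hxy)
  obtain ⟨o₀, hpo, ho₀⟩ := lift_adj K₀ (p := p) (y := m) (by rw [hp]; exact hm)
  obtain ⟨v₀, huv, hv₀⟩ := lift_adj K₀ (p := u₀) (y := q) (by rw [hu₀]; exact hq)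
  obtain ⟨w, u, hwu, hsw, hw, hu, hwalk⟩ := walkB h h' hD hsd hp hu₀ hpu (n / 2)
  obtain ⟨o, hwo, ho⟩ : ∃ o, K₀.gr.Adj w o ∧ Sim H (K₀.π o) m := by
    have e1 : (nbc H (K₀.π w) m).ncard = (nbc H x₀ m).ncard := nbc_ncard hw (sim_refl H _)
    have e2 : 0 < (nbc H x₀ m).ncard := (Set.ncard_pos (Set.toFinite _)).2 ⟨m, hm, sim_refl H _⟩
    obtain ⟨z, hz, hz'⟩ := (Set.ncard_pos (Set.toFinite _)).1 (e1 ▸ e2)
    obtain ⟨o, ho, hoz⟩ := lift_adj K₀ hz
    exact ⟨o, ho, hoz ▸ hz'⟩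
  have hUK : K₀.add.Univ (Sum.inl p : K₀.W ⊕ V) := add_univ hU
  have hMK : K₀.add.Mult (2 * M + 1) := add_mult hM
  have hS : TD K₀.add (x₀, m) (lk H x₀ y₀) := by
    have := step_def (K := K₀.add) hMK hP (p := (Sum.inl p : K₀.W ⊕ V)) hUK
      (u := (Sum.inl u₀ : K₀.W ⊕ V)) (o := (Sum.inl o₀ : K₀.W ⊕ V)) (v := (Sum.inl v₀ : K₀.W ⊕ V))
      hpu hpo (fun hh => hm' (by
        have hh' : Sim H (K₀.π u₀) (K₀.π o₀) := hh
        rw [hu₀, ho₀] at hh'
        exact sim_symm hh')) huv (fun hh => hq' (by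
        have hh' : Sim H (K₀.π v₀) (K₀.π p) := hh
        rw [hv₀, hp] at hh'
        exact hh'))
    have this' : TD K₀.add (K₀.π p, K₀.π o₀) (lk H (K₀.π p) (K₀.π u₀)) := this
    rw [hp, ho₀, hu₀] at this'
    exact this'
  have hT : TD K₀.add (x₀, m) (fun x y => x = y) := by
    have := tail_def (K := K₀.add) hMK hP (p := (Sum.inl p : K₀.W ⊕ V)) hUK
      (u := (Sum.inl u₀ : K₀.W ⊕ V)) (o := (Sum.inl o₀ : K₀.W ⊕ V))
      hpu hpo (fun hh => hm' (by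
        have hh' : Sim H (K₀.π u₀) (K₀.π o₀) := hh
        rw [hu₀, ho₀] at hh'
        exact sim_symm hh'))
    have this' : TD K₀.add (K₀.π p, K₀.π o₀) (fun x y => x = y) := this
    rw [hp, ho₀] at this'
    exact this'
  have hdeg : ∀ z : K₀.W ⊕ V, ∃ z' : K₀.W ⊕ V, K₀.add.gr.Adj z z' := by
    have hex : ∀ v : V, ∃ v', H.Adj v v' := by
      intro v
      by_cases hv : v = x₀
      · exact ⟨y₀, hv ▸ hxy⟩
      · exact exists_adj hP hv
    rintro (z | z)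
    · obtain ⟨v', hv'⟩ := hex (K₀.π z)
      obtain ⟨z', hz', -⟩ := lift_adj K₀ hv'
      exact ⟨Sum.inl z', hz'⟩
    · obtain ⟨v', hv'⟩ := hex z
      exact ⟨Sum.inr v', hv'⟩
  have hL : D.tl a₀ = x₀ := hD.tl a₀
  refine ring_hard (K := K₀.add) hdeg hP hMK (c := (x₀, m)) hm hS hT D (n := n) hn
    (fun a => by rw [hD.tl a]; exact a.2.2.1)
    (fun a _ x' => dihB_step h h' hD a x')
    (rF := ((Sum.inl p : K₀.W ⊕ V), (Sum.inl o₀ : K₀.W ⊕ V)))
    (rF' := ((Sum.inl w : K₀.W ⊕ V), (Sum.inl o : K₀.W ⊕ V)))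
    (rC := ((Sum.inr x₀ : K₀.W ⊕ V), (Sum.inr m : K₀.W ⊕ V)))
    hpo hwo hm ⟨hp ▸ sim_refl H _, ho₀ ▸ sim_refl H _⟩ ⟨hw, ho⟩ ⟨sim_refl H _, sim_refl H _⟩
    ?_ ?_ ?_ ?_ ?_
  · intro hcon
    have hpw : p = w := Sum.inl_injective (Prod.ext_iff.1 hcon).1
    have h3 := hwalk K₀.π K₀.cov a₀ (by rw [hp, hu₀])
    have h4 : D.tl ((D.tau ^ ((n / 2 : ℕ) : ℤ)) a₀) = D.tl ((D.tau ^ (0 : ℤ)) a₀) := by
      rw [hD.tl, h3, ← hpw, hp, zpow_zero, Equiv.Perm.one_apply, hL]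
    rw [D.tl_iff_dvd, sub_zero, ← hnd] at h4
    have h5 := Nat.le_of_dvd (by omega) (Int.natCast_dvd_natCast.1 h4)
    omega
  · intro hcon
    have hpo' : p = o := Sum.inl_injective (Prod.ext_iff.1 hcon).1
    exact hsd w o hwo (by rw [← hpo', hsw])
  · intro f hf a ha hfa
    have hf0 := ((add_cover K₀ f).1 hf).1
    set f₀ : K₀.W → V := fun z => f (Sum.inl z) with hf₀
    let b : {a : V × V // IsC H (x₀, y₀) a} := ⟨(f₀ p, f₀ u₀),
      caseB_isC hf0 hpu (hp ▸ sim_refl H _) (hu₀ ▸ sim_refl H _)⟩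
    have h3 := hwalk f₀ hf0 b rfl
    have h4 : D.tl ((D.tau ^ ((n / 2 : ℕ) : ℤ)) b) = f₀ w := by rw [hD.tl, h3]
    have h5 : b.1.1 = a.1.1 := by rw [← hD.tl a]; exact hfa
    rcases (dihB_unique h h' hD a b).1 h5 with h6 | h6
    · left
      rw [← h6, h4]
    · right
      rw [h6, D.tau_i₁] at h4
      rw [← (show D.tl (D.i₁ ((D.tau ^ (-((n / 2 : ℕ) : ℤ))) a)) =
        D.tl ((D.tau ^ (-((n / 2 : ℕ) : ℤ))) a) by rw [hD.tl, hD.tl, hD.t₁]), h4]
  · intro a _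
    obtain ⟨f₀, hf₀, h3, h4⟩ := star_cover_one hU hpu (x := a.1.1) (y := a.1.2)
      (by rw [hp]; exact sim_symm a.2.2.1) a.2.1 (by rw [hu₀]; exact sim_symm a.2.2.2)
    refine ⟨Sum.elim f₀ id, (add_cover K₀ _).2 ⟨hf₀, iso_cover SimpleGraph.Iso.refl⟩, ?_, ?_⟩
    · rw [hD.tl a]; exact h3
    · have h5 := hwalk f₀ hf₀ a (by rw [h3, h4])
      rw [hD.tl, h5]
      rfl
  · intro f hf
    obtain ⟨e, he⟩ := auto_of_cover (conn_of_nocut hP) ((add_cover K₀ f).1 hf).2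
    obtain ⟨b, hb, hb'⟩ := dihB_iso h h' hD e a₀
    refine ⟨b, hb', ?_⟩
    rw [hD.tl b, hb]
    exact (he x₀).symm

end Pool.Agent.H24.GC
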