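import Pool.Agent.H24.GC.DihC
import Pool.Agent.H24.GC.Star

/-!
# JOB GC-30: two swaps which do not commute

`walkC`: induction on `L`, `w = p` for `L = 0`. Given `w` for `L`, let `e` be the label of
`τ ^ L (x, false)` (`dihC_lab`, it does not depend on `x`), `u` a neighbour of `w` over the class of `c e`
(`nbc_ncard`, `h.adj`, `lift_adj`), and `w'` a neighbour `≠ w` of `u` over the class of `x₀`
(`nbc H (K.π u) x₀` has two elements, `cover_class`). For a cover `f`: `f w'` is in `nbc H (f u) x₀`,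
different from `f w` and from the class of `x₀`, `f u ~ c e` (`cover_sim`), so by `IsDihC.h₂` it is
the first component of `i₂ (f w, e)`, which is the one of `τ (f w, e)` (`dihC_tau`).
`case_C`. Let `D` be from `exists_dihC`, `a₀ = (x, false)` the state in the hypothesis, `n = D.per a₀`; it is
even (`dihC_even`), positive and does not divide `4` (`dihC_per`), so `n ≥ 6`. By `exists_other` (and `h2`)
the vertices `c false`, `c true` have neighbours not similar to `x₀`.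
Let `K₀, sd, M, p` be from `kit_exists H x` (`x ~ x₀`), `K = K₀.add`; `u₀, o₀` neighbours of `p` over the
classes of `c false`, `c true`; `v, v'` neighbours of `u₀, o₀` over classes different from the one of `x₀`.
`w` from `walkC` for `L = n / 2`, `o` a neighbour of `w` over the class of `c true`. Apply `ring_hard` with `K`,
`c = (K₀.π p, K₀.π o₀)`, `S` the conjunction in `dihC_step` (in the form with `lk H (K₀.π p) ...`; `lk`
depends only on the classes), definable by `step_def`, `step_def'`, `TD.comp`, `TD.and`; `hT`: `tail_def`;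
`hstep`: `dihC_step`. `rF = (inl p, inl o₀)`, `rF' = (inl w, inl o)`, `rC = (inr x, inr (K₀.π o₀))`.
`hne`, `hne'`, `hC`, `hdeg` as in `case_B` (`dihC_iso`). `hF1`: let `f p = tl a` and
`b = (f p, false)`; `b = a` or `b = i₁ a`, and `f w = tl (τ ^ L b)`. `hF2`: for `a = (z, e)` let `f` be a
cover of `K₀` with `f p = z` (`star_cover_one`), extended by the identity. If `e = false` done. If
`e = true` then `(z, false) = i₁ a`, `f w = tl (τ ^ L (i₁ a)) = tl (τ ^ (-L) a) = tl (τ ^ L a)`, as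
`n ∣ 2 L = n` (`tl_iff_dvd`).
-/

namespace Pool.Agent.H24.GC

variable {V : Type} {H : SimpleGraph V}

theorem caseC_nb [Finite V] {x₀ : V} {c : Bool → V} (h : HypC H x₀ c) {K : Kit H} {w : K.W}
    (hw : Sim H (K.π w) x₀) (e : Bool) : ∃ u, K.gr.Adj w u ∧ Sim H (K.π u) (c e) := by
  obtain ⟨y, hy, hxy⟩ := h.adj e
  have h1 : 0 < (nbc H x₀ (c e)).ncard :=
    (Set.ncard_pos (Set.toFinite _)).2 ⟨y, hxy, hy⟩
  rw [← nbc_ncard hw (sim_refl H (c e))] at h1
  obtain ⟨z, hz, hz'⟩ := (Set.ncard_pos (Set.toFinite _)).1 h1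
  obtain ⟨u, hu, hu'⟩ := lift_adj K hz
  refine ⟨u, hu, ?_⟩
  rw [hu']
  exact hz'

theorem walkC [Finite V] {x₀ : V} {c : Bool → V} (h : HypC H x₀ c)
    {D : Dih ({x : V // Sim H x x₀} × Bool) V} (hD : IsDihC H x₀ c D) {K : Kit H}
    {sd : K.W → Bool} (hsd : ∀ u v, K.gr.Adj u v → sd u ≠ sd v) {p : K.W}
    (hp : Sim H (K.π p) x₀) (L : ℕ) :
    ∃ w : K.W, sd w = sd p ∧ Sim H (K.π w) x₀ ∧ ∀ f : K.W → V, IsCover K.gr H f →
      ∀ a : {x : V // Sim H x x₀} × Bool, a.1.1 = f p → a.2 = false →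
        D.tl ((D.tau ^ (L : ℤ)) a) = f w := by
  induction L with
  | zero =>
    refine ⟨p, rfl, hp, ?_⟩
    intro f hf a ha ha'
    rw [hD.tl]
    exact ha
  | succ L ih =>
    obtain ⟨w, hw1, hw2, hw3⟩ := ih
    obtain ⟨u, hu1, hu2⟩ := caseC_nb h hw2 (false.xor (decide (L % 2 = 1)))
    have hcard : (nbc H (K.π u) x₀).ncard = 2 := by
      rw [nbc_ncard hu2 (sim_refl H x₀)]
      exact h.two _
    have hmem : K.π w ∈ nbc H (K.π u) x₀ := ⟨(K.cov u).mapsTo hu1.symm, hw2⟩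
    obtain ⟨z, hz, hzw⟩ : ∃ z ∈ nbc H (K.π u) x₀, z ≠ K.π w := by
      by_contra hcon
      push Not at hcon
      have hsub : nbc H (K.π u) x₀ ⊆ {K.π w} := fun z hz => hcon z hz
      have := Set.ncard_le_ncard hsub (Set.toFinite _)
      rw [hcard, Set.ncard_singleton] at this
      omega
    obtain ⟨w', hw'1, hw'2⟩ := lift_adj K hz.1
    have hww : w' ≠ w := by
      intro heq
      rw [heq] at hw'2
      exact hzw hw'2.symm
    refine ⟨w', ?_, ?_, ?_⟩
    · have h1 := hsd w u hu1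
      have h2 := hsd u w' hw'1
      rw [← hw1]
      revert h1 h2
      cases sd w <;> cases sd u <;> cases sd w' <;> simp
    · rw [hw'2]
      exact hz.2
    · intro f hf a ha ha'
      have key := hw3 f hf a ha ha'
      have hlab := dihC_lab hD a L
      rw [ha'] at hlab
      have e1 : (D.tau ^ ((L + 1 : ℕ) : ℤ)) a = D.tau ((D.tau ^ (L : ℤ)) a) := by
        rw [Nat.cast_add, Nat.cast_one, add_comm, zpow_add, zpow_one]
        rfl
      rw [e1, (dihC_tau hD _).1, hD.tl]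
      set b := (D.tau ^ (L : ℤ)) a with hb
      rw [hD.tl] at key
      have hadj1 : H.Adj (f w) (f u) := (hf w).mapsTo hu1
      have hadj2 : H.Adj (f u) (f w') := (hf u).mapsTo hw'1
      have hsu : Sim H (f u) (c b.2) := by
        rw [hlab]
        exact sim_trans (cover_sim hf K.cov u) hu2
      have hset := hD.h₂ b (f u) hsu (by rw [key]; exact hadj1)
      have hmem' : f w' ∈ nbc H (f u) x₀ := by
        refine ⟨hadj2, sim_trans (cover_sim hf K.cov w') ?_⟩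
        rw [hw'2]
        exact hz.2
      rw [hset] at hmem'
      rcases hmem' with h3 | h3
      · exfalso
        rw [key] at h3
        exact hww ((hf u).injOn hw'1 hu1.symm h3)
      · exact h3.symm

theorem caseC_lk [Finite V] {x₀ x₁ c₀ c₁ : V} (hx : Sim H x₁ x₀) (hc : Sim H c₁ c₀) :
    lk H x₁ c₁ = lk H x₀ c₀ := by
  have e1 : ∀ z, Sim H z x₁ ↔ Sim H z x₀ := fun z =>
    ⟨fun h => sim_trans h hx, fun h => sim_trans h (sim_symm hx)⟩
  have e2 : ∀ z, Sim H z c₁ ↔ Sim H z c₀ := fun z =>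
    ⟨fun h => sim_trans h hc, fun h => sim_trans h (sim_symm hc)⟩
  funext x y
  unfold lk
  simp only [e1, e2]

theorem caseC_other [Finite V] (hP : NoCut H (fun _ _ => True))
    (h2 : ∀ x y, (nbc H x y).ncard ≤ 2) {K : Kit H} {p u : K.W} (hpu : K.gr.Adj p u) :
    ∃ v, K.gr.Adj u v ∧ ¬ Sim H (K.π v) (K.π p) := by
  have h1 : H.Adj (K.π u) (K.π p) := (K.cov u).mapsTo hpu.symm
  have h3 := h2 (K.π u) (K.π p)
  obtain ⟨z, hz, hz'⟩ := exists_other hP h1.ne (by omega)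
  obtain ⟨v, hv, hv'⟩ := lift_adj K hz
  exact ⟨v, hv, by rw [hv']; exact hz'⟩

theorem case_C [Finite V] (hP : NoCut H (fun _ _ => True)) (h2 : ∀ x y, (nbc H x y).ncard ≤ 2)
    {x₀ : V} {c : Bool → V} (h : HypC H x₀ c) (hcd : ¬ Sim H (c false) (c true))
    {D : Dih ({x : V // Sim H x x₀} × Bool) V} (hD : IsDihC H x₀ c D)
    (x : {x : V // Sim H x x₀})
    (hne : (D.i₂ ((D.i₂ (x, false)).1, true)).1 ≠ (D.i₂ ((D.i₂ (x, true)).1, false)).1) :
    HardH H := by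
  have hNE : Nonempty V := ⟨x₀⟩
  obtain ⟨n, hn⟩ : ∃ n, n = D.per (x, false) := ⟨_, rfl⟩
  have hn4 : ¬ n ∣ 4 := by
    rw [hn]
    exact dihC_per h hD x hne
  have hn2 : 2 ∣ n := by
    rw [hn]
    exact dihC_even hD _
  have hn0 : 0 < n := by
    rw [hn]
    exact D.per_pos _
  have hn6 : 6 ≤ n := by
    by_contra hcon
    have : n = 2 ∨ n = 4 := by omega
    rcases this with h1 | h1 <;> rw [h1] at hn4 <;> exact hn4 (by norm_num)
  obtain ⟨L, hL⟩ : ∃ L, L = n / 2 := ⟨_, rfl⟩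
  have hL2 : 2 * L = n := by omega
  obtain ⟨K₀, sd, M, p, hsd, hM, hp, -, hU⟩ := kit_exists H x.1
  have hpx : Sim H (K₀.π p) x₀ := by
    rw [hp]
    exact x.2
  obtain ⟨u₀, hu₀, hcu₀⟩ := caseC_nb h hpx false
  obtain ⟨o₀, ho₀, hco₀⟩ := caseC_nb h hpx true
  obtain ⟨v, hv, hvp⟩ := caseC_other hP h2 hu₀
  obtain ⟨v', hv', hvp'⟩ := caseC_other hP h2 ho₀
  obtain ⟨w, hw1, hw2, hw3⟩ := walkC h hD hsd hpx L
  obtain ⟨o, ho, hco⟩ := caseC_nb h hw2 true
  have huo : ¬ Sim H (K₀.π u₀) (K₀.π o₀) := fun hs =>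
    hcd (sim_trans (sim_symm hcu₀) (sim_trans hs hco₀))
  have hMa : K₀.add.Mult (2 * M + 1) := add_mult hM
  have hUa : K₀.add.Univ (Sum.inl p : K₀.W ⊕ V) := add_univ hU
  have au : K₀.add.gr.Adj (Sum.inl p : K₀.W ⊕ V) (Sum.inl u₀ : K₀.W ⊕ V) := hu₀
  have ao : K₀.add.gr.Adj (Sum.inl p : K₀.W ⊕ V) (Sum.inl o₀ : K₀.W ⊕ V) := ho₀
  have av : K₀.add.gr.Adj (Sum.inl u₀ : K₀.W ⊕ V) (Sum.inl v : K₀.W ⊕ V) := hv
  have av' : K₀.add.gr.Adj (Sum.inl o₀ : K₀.W ⊕ V) (Sum.inl v' : K₀.W ⊕ V) := hv'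
  have hc : H.Adj (K₀.π p) (K₀.π o₀) := (K₀.cov p).mapsTo ho₀
  have hT : TD K₀.add (K₀.π p, K₀.π o₀) (fun x y => x = y) :=
    tail_def hMa hP hUa au ao huo
  have hS1 : TD K₀.add (K₀.π p, K₀.π o₀) (lk H (K₀.π p) (K₀.π u₀)) :=
    step_def hMa hP hUa au ao huo av hvp
  have hS2 : TD K₀.add (K₀.π p, K₀.π o₀) (lk H (K₀.π p) (K₀.π o₀)) :=
    step_def' hMa hP hUa au ao huo av' hvp'
  rw [caseC_lk hpx hcu₀] at hS1
  rw [caseC_lk hpx hco₀] at hS2
  have hS := TD.and (TD.comp hc hS1 hS2) (TD.comp hc hS2 hS1)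
  have hD1 : ∀ a, Sim H (D.tl a) x₀ := by
    intro a
    rw [hD.tl]
    exact a.1.2
  have hi1 : ∀ a, D.tl (D.i₁ a) = D.tl a := fun a => (D.tl_iff _ _).2 (Or.inr (D.inv₁ a).symm)
  have hwalk : ∀ f : K₀.W → V, IsCover K₀.gr H f → ∀ a, f p = D.tl a →
      (a.2 = false ∧ f w = D.tl ((D.tau ^ (L : ℤ)) a)) ∨
        f w = D.tl ((D.tau ^ (-(L : ℤ))) a) := by
    intro f hf a ha
    cases ha2 : a.2 with
    | false =>
      left
      refine ⟨rfl, (hw3 f hf a ?_ ha2).symm⟩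
      rw [ha, hD.tl]
    | true =>
      right
      have h1 : (D.i₁ a).1.1 = f p := by
        rw [hD.i₁, ha, hD.tl]
      have h3 : (D.i₁ a).2 = false := by
        rw [hD.i₁]
        simp [ha2]
      have h4 := hw3 f hf (D.i₁ a) h1 h3
      rw [D.tau_i₁, hi1] at h4
      exact h4.symm
  refine ring_hard (K := K₀.add) (M := 2 * M + 1) (c := (K₀.π p, K₀.π o₀)) (n := n) ?_ hP hMa hc
    hS hT D (by omega) ?_ ?_ (rF := (Sum.inl p, Sum.inl o₀)) (rF' := (Sum.inl w, Sum.inl o))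
    (rC := (Sum.inr x.1, Sum.inr (K₀.π o₀))) ho₀ ho ?_ ?_ ?_ ?_ ?_ ?_ ?_ ?_ ?_
  · -- degrees
    have hdeg : ∀ y : V, ∃ z, H.Adj y z := by
      intro y
      by_cases hy : y = K₀.π p
      · rw [hy]
        exact ⟨_, hc⟩
      · exact exists_adj hP hy
    rintro (q | y)
    · obtain ⟨z, hz⟩ := hdeg (K₀.π q)
      obtain ⟨q', hq', -⟩ := lift_adj K₀ hz
      exact ⟨Sum.inl q', hq'⟩
    · obtain ⟨z, hz⟩ := hdeg y
      exact ⟨Sum.inr z, hz⟩
  · intro a
    exact sim_trans (hD1 a) (sim_symm hpx)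
  · intro a ha x'
    have h1 := dihC_step h hD a (by rw [ha]; exact hn4) x'
    have e1 : ∀ z, Sim H z (K₀.π p) ↔ Sim H z x₀ := fun z =>
      ⟨fun h => sim_trans h hpx, fun h => sim_trans h (sim_symm hpx)⟩
    rw [← h1]
    simp only [e1]
  · show H.Adj x.1 (K₀.π o₀)
    rw [← hp]
    exact hc
  · exact ⟨sim_refl H _, sim_refl H _⟩
  · exact ⟨sim_trans hw2 (sim_symm hpx), sim_trans hco (sim_symm hco₀)⟩
  · refine ⟨?_, sim_refl H _⟩
    show Sim H x.1 (K₀.π p)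
    rw [hp]
    exact sim_refl H _
  · intro heq
    have h1 : p = w := Sum.inl.inj (congrArg Prod.fst heq)
    have h3 := hw3 K₀.π K₀.cov (x, false) hp.symm rfl
    rw [← h1, hp] at h3
    have h4 : D.tl ((D.tau ^ (L : ℤ)) (x, false)) = D.tl ((D.tau ^ (0 : ℤ)) (x, false)) := by
      rw [h3, zpow_zero, Equiv.Perm.one_apply, hD.tl]
    rw [D.tl_iff_dvd, ← hn, sub_zero] at h4
    have h5 : n ∣ L := by exact_mod_cast h4
    have := Nat.le_of_dvd (by omega) h5
    omega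
  · intro heq
    have h1 : p = o := Sum.inl.inj (congrArg Prod.fst heq)
    have h3 := hsd w o ho
    rw [← h1] at h3
    exact h3 hw1
  · intro f hf a ha hfa
    have hf' := ((add_cover K₀ f).1 hf).1
    rw [← hL]
    rcases hwalk _ hf' a hfa with h3 | h3
    · exact Or.inl h3.2
    · exact Or.inr h3
  · intro a ha
    obtain ⟨y, hy, hay⟩ : ∃ y, Sim H y (c true) ∧ H.Adj (D.tl a) y := by
      have h1 : 0 < (nbc H x₀ (c true)).ncard := by
        obtain ⟨y, hy, hxy⟩ := h.adj true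
        exact (Set.ncard_pos (Set.toFinite _)).2 ⟨y, hxy, hy⟩
      rw [← nbc_ncard (hD1 a) (sim_refl H (c true))] at h1
      obtain ⟨z, hz, hz'⟩ := (Set.ncard_pos (Set.toFinite _)).1 h1
      exact ⟨z, hz', hz⟩
    obtain ⟨f, hf, hfp, -⟩ := star_cover_one hUa ao (x := D.tl a) (y := y)
      (sim_trans hpx (sim_symm (hD1 a))) hay (sim_trans hco₀ (sim_symm hy))
    refine ⟨f, hf, hfp, ?_⟩
    have hf' := ((add_cover K₀ f).1 hf).1
    rw [← hL]
    rcases hwalk _ hf' a hfp with h3 | h3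
    · exact h3.2
    · refine Eq.trans h3 ?_
      rw [D.tl_iff_dvd, ha, ← hL2]
      exact ⟨-1, by push_cast; ring⟩
  · intro f hf
    have hf' := ((add_cover K₀ f).1 hf).2
    obtain ⟨g, hg⟩ := auto_of_cover (conn_of_nocut hP) hf'
    obtain ⟨b, hb1, -, hb3⟩ := dihC_iso h hD g (x, false)
    refine ⟨b, hb3.trans hn.symm, ?_⟩
    rw [hD.tl, hb1]
    exact (hg x.1).symm

end Pool.Agent.H24.GC
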