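import Pool.Agent.H24.GC.Equit

/-!
# JOB GC-22: edge cuts

`nocut_of_edgeConnected`: let `S`, `Sᶜ` be nonempty, `u ∈ S`, `v ∉ S`, and suppose that
`E = {e | e.1 ∈ S, e.2 ∉ S, H.Adj e.1 e.2}` has at most two elements. Let `s ⊆ Sym2 V` be the set of the edges
`s(e.1, e.2)`, `e ∈ E`; `s.encard ≤ 2 < 3`. By `h u v` (`SimpleGraph.IsEdgeReachable`) `v` is reachable from `u` in
`H.deleteEdges s`; but no edge of this graph leaves `S`, contradiction (induct along a walk, or use
`SimpleGraph.Reachable` with a set closed under adjacency).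
`conn_of_nocut`: otherwise let `S` be the set of the vertices reachable from some `u`, not everything:
no edge leaves `S`, so the set in `NoCut` is empty, contradiction to `3 ≤ 0`.
`deg_of_nocut`: `S = {v}`; the pairs in `NoCut` are the pairs `(v, u)`, `u ∈ N(v)`.
`exists_adj`: if `v` has no neighbour then `S = {v}` contradicts `NoCut` (the complement contains `w`).
`exists_other`: `v` has at least three neighbours; if all of them were in the class of `y`, then
`nbc H v y` would have at least three elements.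
`nocut_congr`: `Ty H a b x y ↔ Ty H a' b' x y` by `sim_trans`, `sim_symm`.
-/

namespace Pool.Agent.H24.GC

variable {V : Type} {H : SimpleGraph V}

theorem Conn_closed {G : SimpleGraph V} {S : Set V} (hS : ∀ x y, G.Adj x y → x ∈ S → y ∈ S)
    {u v : V} (h : G.Reachable u v) (hu : u ∈ S) : v ∈ S := by
  obtain ⟨p⟩ := h
  induction p with
  | nil => exact hu
  | cons hadj _ ih => exact ih (hS _ _ hadj hu)

theorem nocut_of_edgeConnected [Finite V] (h : H.IsEdgeConnected 3) (P : V → V → Prop) :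
    NoCut H P := by
  intro S hS hSc _
  by_contra hlt
  obtain ⟨u, hu⟩ := hS
  obtain ⟨v, hv⟩ := hSc
  set E : Set (V × V) := {e : V × V | e.1 ∈ S ∧ e.2 ∈ Sᶜ ∧ H.Adj e.1 e.2} with hE
  have hfin : E.Finite := Set.toFinite E
  have hcard : ((fun e : V × V => s(e.1, e.2)) '' E).encard < 3 := by
    refine lt_of_le_of_lt (Set.encard_image_le _ E) ?_
    rw [← hfin.cast_ncard_eq]
    have : E.ncard < 3 := not_le.1 hlt
    exact_mod_cast this
  have hr := h u v hcard
  refine hv (Conn_closed (S := S) ?_ hr hu)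
  intro x y hxy hx
  by_contra hy
  rw [SimpleGraph.deleteEdges_adj] at hxy
  exact hxy.2 ⟨(x, y), ⟨hx, hy, hxy.1⟩, rfl⟩

theorem conn_of_nocut [Nonempty V] {P : V → V → Prop} (h : NoCut H P) : H.Connected := by
  refine ⟨fun u v => ?_⟩
  by_contra hcon
  have h3 := h {w | H.Reachable u w} ⟨u, SimpleGraph.Reachable.refl u⟩ ⟨v, hcon⟩ ?_
  · have hem : {e : V × V | e.1 ∈ {w | H.Reachable u w} ∧ e.2 ∈ {w | H.Reachable u w}ᶜ ∧
        H.Adj e.1 e.2} = ∅ := by
      rw [Set.eq_empty_iff_forall_notMem]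
      rintro ⟨x, y⟩ ⟨h1, h2, h4⟩
      exact h2 (SimpleGraph.Reachable.trans h1 h4.reachable)
    rw [hem, Set.ncard_empty] at h3
    omega
  · intro x hx y hy hxy
    exact absurd (SimpleGraph.Reachable.trans hx hxy.reachable) hy

theorem exists_adj {P : V → V → Prop} (h : NoCut H P) {v w : V} (hvw : v ≠ w) :
    ∃ u, H.Adj v u := by
  by_contra hcon
  push Not at hcon
  have h3 := h {v} ⟨v, rfl⟩ ⟨w, fun h1 => hvw h1.symm⟩ ?_
  · have hem : {e : V × V | e.1 ∈ ({v} : Set V) ∧ e.2 ∈ ({v} : Set V)ᶜ ∧ H.Adj e.1 e.2} = ∅ := by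
      rw [Set.eq_empty_iff_forall_notMem]
      rintro ⟨x, y⟩ ⟨h1, _, h4⟩
      have h1' : x = v := h1
      rw [h1'] at h4
      exact hcon y h4
    rw [hem, Set.ncard_empty] at h3
    omega
  · intro x hx y _ hxy
    have hx' : x = v := hx
    rw [hx'] at hxy
    exact absurd hxy (hcon y)

theorem deg_of_nocut [Finite V] (h : NoCut H (fun _ _ => True)) {v w : V} (hvw : v ≠ w) :
    3 ≤ (H.neighborSet v).ncard := by
  have h3 := h {v} ⟨v, rfl⟩ ⟨w, fun h1 => hvw h1.symm⟩ (fun _ _ _ _ _ => trivial)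
  have hem : {e : V × V | e.1 ∈ ({v} : Set V) ∧ e.2 ∈ ({v} : Set V)ᶜ ∧ H.Adj e.1 e.2} ⊆
      (fun u => (v, u)) '' H.neighborSet v := by
    rintro ⟨x, y⟩ ⟨h1, _, h4⟩
    have h1' : x = v := h1
    rw [h1'] at h4
    exact ⟨y, h4, by rw [h1']⟩
  calc 3 ≤ _ := h3
    _ ≤ ((fun u => (v, u)) '' H.neighborSet v).ncard := Set.ncard_le_ncard hem (Set.toFinite _)
    _ ≤ _ := Set.ncard_image_le (Set.toFinite _)

theorem exists_other [Finite V] (h : NoCut H (fun _ _ => True)) {v y : V} (hvy : v ≠ y)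
    (h2 : (nbc H v y).ncard < 3) : ∃ z, H.Adj v z ∧ ¬ Sim H z y := by
  by_contra hcon
  push Not at hcon
  have h3 := deg_of_nocut h hvy
  have hsub : H.neighborSet v ⊆ nbc H v y := fun z hz => ⟨hz, hcon z hz⟩
  have := Set.ncard_le_ncard hsub (Set.toFinite _)
  omega

theorem ty_congr [Finite V] {a b a' b' : V} (h : Sim H a a') (h' : Sim H b b') (x y : V) :
    Ty H a b x y ↔ Ty H a' b' x y := by
  constructor
  · rintro (⟨h1, h2⟩ | ⟨h1, h2⟩)
    · exact Or.inl ⟨sim_trans h1 h, sim_trans h2 h'⟩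
    · exact Or.inr ⟨sim_trans h1 h', sim_trans h2 h⟩
  · rintro (⟨h1, h2⟩ | ⟨h1, h2⟩)
    · exact Or.inl ⟨sim_trans h1 (sim_symm h), sim_trans h2 (sim_symm h')⟩
    · exact Or.inr ⟨sim_trans h1 (sim_symm h'), sim_trans h2 (sim_symm h)⟩

end Pool.Agent.H24.GC
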