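import Pool.Agent.H24.GC.HardDef
import Pool.Agent.H24.GC.Straight
import Pool.Agent.H24.GC.Star
import Pool.Agent.H24.GC.Conn

/-!
# JOB GC-24: a vertex with three neighbours in one class

`case_K2`. Let `K, sd, M, p` be from `kit_exists H x₀` (`K.π p = x₀`, `sd p = true`). Let
`NJ = {s | K.gr.Adj p s ∧ Sim H (K.π s) y₀}`; `K.π` maps it bijectively onto `nbc H x₀ y₀`
(`cover_class` with `f = g = K.π`), choose `q₀ ≠ q₁` in `NJ` (`q c` for `c : Bool`). Let
`Z = {z : K.W × K.W // z.2 ∈ NJ ∧ K.gr.Adj z.2 z.1 ∧ Sim H (K.π z.1) x₀ ∧ z.1 ≠ p}`. For every `s ∈ NJ` there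
is `r` with `(r, s) ∈ Z`, since `s` has at least two neighbours over the class of `x₀`
(`cover_class`, `nbc_ncard`, `h2`). Relation
`R v = ∀ i : {i : Bool × Z // i.2.1.2 ≠ q i.1}, KR K (p, q i.1) i.2.1 (v (inl i.1)) (v (inr i.2))`, definable by
`PDef.all` and `PDef.atom`: for `z = (r, s)`, `s ≠ q c` the arcs `(p, q c)`, `(r, s)` form a killer piece by
`straight_sided` (`p ~ s` is an edge, `sd p = true`, `p ≠ r`, `q c ≠ s`, the types agree) and
`straight_one`; all `NoCut` conditions follow from `hcut` by `ty_congr`; `(p, q c) ≠ (s, r)` since `p ≠ s`.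
`Q = Unit`, `np _ = ()`, `ar z = z.1`, hub type `τ = (x₀, y₀)`, `tZ _ = (x₀, y₀)`.
`hinj`: `z.1 = z'.1.swap` is impossible: `z.2 ∈ N(p)` and `sd z.2 = false`, `sd z.1 = true` for all `z ∈ Z`.
`hdeg`: lift a neighbour of `K.π w` (`exists_adj`, `lift_adj`).
`β` from `exists_beta`, `γ i = (x₀, γ' i)` from `exists_gamma`, `d = (nbc H x₀ y₀).ncard`.
(h1) Let `FinRel ... a b` with the values `v` and the cover `f` with `(f z.1, f z.2) = v z` for `z ∈ Z`.
Claim: the hub `c` has the value `(f p, f (q c))`. Let `(x, y)` be its value. For every `z = (r, s) ∈ Z` with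
`s ≠ q c` there is a cover `g` with `(g p, g (q c)) = (x, y)`, `(g r, g s) = (f r, f s)`. There is such a
`z`. Then `x = g p` is adjacent to `g s = f s` and `x ~ x₀` (`cover_sim`), so `x = f u` for some `u ∈ N(s)`,
`K.π u ~ x₀` (`cover_class` for `f` at `s`). If `u ≠ p` then `z' = (u, s) ∈ Z` gives a cover `g'` with
`g' p = x = f u = g' u`, impossible, as `p ≠ u` are neighbours of `s`. So `x = f p`. Next `y = g (q c)` is
adjacent to `x = f p`, `y ~ y₀`, so `y = f u` with `u ∈ NJ`. If `u ≠ q c`, take `z = (r, u) ∈ Z`: the cover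
`g` for it has `g u = f u = y = g (q c)`, impossible (`u ≠ q c` are neighbours of `p`). So `y = f (q c)`.
Hence `a = (f p, f q₀)`, `b = (f p, f q₁)`, `f q₀ ≠ f q₁`, and `β a ≠ β b` (`f p ~ x₀`, `f (q c) ~ y₀`).
(h2) For `y ≠ y'` in `nbc H x₀ y₀` take `f` from `star_cover` (`x = x₀`), `v z = (f z.1, f z.2)`; all the
relations `KR` hold with the cover `f` itself.
-/


namespace Pool.Agent.H24.GC

variable {V : Type} {H : SimpleGraph V}

theorem ck_nocut {P P' : V → V → Prop} (h : NoCut H P) (hPP : ∀ x y, P x y ↔ P' x y) :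
    NoCut H P' := by
  intro S h1 h2 h3
  exact h S h1 h2 fun x hx y hy hxy => (hPP x y).2 (h3 x hx y hy hxy)

/-- everything about the base vertex which is used below -/
structure CKData (H : SimpleGraph V) (x₀ y₀ : V) (K : Kit H) (sd : K.W → Bool) (p : K.W)
    (q : Bool → K.W) : Prop where
  hsd : ∀ u v, K.gr.Adj u v → sd u ≠ sd v
  hπ : K.π p = x₀
  hp : sd p = true
  hq : ∀ c, K.gr.Adj p (q c) ∧ Sim H (K.π (q c)) y₀
  hne : q false ≠ q true
  /-- a second neighbour over the class of `x₀` -/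
  hr : ∀ s, K.gr.Adj p s → Sim H (K.π s) y₀ → ∃ r, K.gr.Adj s r ∧ Sim H (K.π r) x₀ ∧ r ≠ p

/-- the terminal variables -/
abbrev CKZ {x₀ y₀ : V} {K : Kit H} {sd : K.W → Bool} {p : K.W} {q : Bool → K.W}
    (_ : CKData H x₀ y₀ K sd p q) : Type :=
  {z : K.W × K.W // (K.gr.Adj p z.2 ∧ Sim H (K.π z.2) y₀) ∧ K.gr.Adj z.2 z.1 ∧
    Sim H (K.π z.1) x₀ ∧ z.1 ≠ p}

/-- the relation -/
def CKR {x₀ y₀ : V} {K : Kit H} {sd : K.W → Bool} {p : K.W} {q : Bool → K.W}
    (D : CKData H x₀ y₀ K sd p q) (v : Bool ⊕ CKZ D → V × V) : Prop :=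
  ∀ i : {i : Bool × CKZ D // i.2.1.2 ≠ q i.1},
    KR K (p, q i.1.1) i.1.2.1 (v (Sum.inl i.1.1)) (v (Sum.inr i.1.2))

theorem ck_str1 [Finite V] {x₀ y₀ : V} {K : Kit H} {c : ℕ} (hM : K.Mult c)
    (hcut : NoCut H (Ty H x₀ y₀)) {r s : K.W} (hrs : K.gr.Adj r s) (hr : Sim H (K.π r) x₀)
    (hs : Sim H (K.π s) y₀) : Straight H K.gr K.π (cut1 (r, s)) := by
  refine straight_one hM hrs ?_
  exact ck_nocut hcut fun x y => ty_congr (sim_symm hr) (sim_symm hs) x y

theorem ck_kl [Finite V] {x₀ y₀ : V} {K : Kit H} {sd : K.W → Bool} {p : K.W} {q : Bool → K.W}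
    (D : CKData H x₀ y₀ K sd p q) {M : ℕ} (hM : K.Mult (2 * M)) (hcut : NoCut H (Ty H x₀ y₀))
    (c : Bool) (z : CKZ D) (hz : z.1.2 ≠ q c) : Kl K (p, q c) z.1 := by
  obtain ⟨⟨r, s⟩, ⟨hps, hs⟩, hsr, hr, hrp⟩ := z
  simp only at hps hs hsr hr hrp hz ⊢
  have hp' : Sim H (K.π p) x₀ := by rw [D.hπ]; exact sim_refl H x₀
  have e1 : Sim H (K.π r) (K.π p) := sim_trans hr (sim_symm hp')
  have e2 : Sim H (K.π s) (K.π (q c)) := sim_trans hs (sim_symm (D.hq c).2)
  refine ⟨(D.hq c).1, hsr.symm, ?_, ?_, ?_, ?_, ?_⟩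
  · intro h
    exact hrp (congrArg Prod.fst h).symm
  · intro h
    have h2 : p = s := congrArg Prod.fst h
    exact hps.ne h2
  · exact straight_sided hM D.hsd (r₁ := (p, q c)) (r₂ := (r, s)) (D.hq c).1 hsr.symm hps D.hp
      (Ne.symm hrp) (Ne.symm hz) e1 e2
      (ck_nocut hcut fun x y => ty_congr (sim_symm hp') (sim_symm (D.hq c).2) x y)
  · exact ck_str1 hM hcut (D.hq c).1 hp' (D.hq c).2
  · exact ck_str1 hM hcut hsr.symm hr hs

theorem ck_def [Finite V] {x₀ y₀ : V} {K : Kit H} {sd : K.W → Bool} {p : K.W} {q : Bool → K.W}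
    (D : CKData H x₀ y₀ K sd p q) {M : ℕ} (hM : K.Mult (2 * M)) (hcut : NoCut H (Ty H x₀ y₀)) :
    PDef K (Sum.elim (fun _ : Bool => (x₀, y₀)) (fun _ : CKZ D => (x₀, y₀))) (CKR D) := by
  unfold CKR
  refine PDef.all fun i => ?_
  have hp' : Sim H (K.π p) x₀ := by rw [D.hπ]; exact sim_refl H x₀
  refine PDef.atom (ck_kl D hM hcut i.1.1 i.1.2 i.2) ?_ ?_
  · exact ⟨hp', (D.hq _).2⟩
  · exact ⟨i.1.2.2.2.2.1, i.1.2.2.1.2⟩

/-- the value of the hub -/
theorem ck_hub [Finite V] {x₀ y₀ : V} {K : Kit H} {sd : K.W → Bool} {p : K.W} {q : Bool → K.W}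
    (D : CKData H x₀ y₀ K sd p q) (c : Bool) (xy : V × V) {f : K.W → V} (hf : IsCover K.gr H f)
    (h : ∀ z : CKZ D, z.1.2 ≠ q c → KR K (p, q c) z.1 xy (f z.1.1, f z.1.2)) :
    xy = (f p, f (q c)) := by
  have hp' : Sim H (K.π p) x₀ := by rw [D.hπ]; exact sim_refl H x₀
  have hinj : ∀ (g : K.W → V), IsCover K.gr H g → ∀ w u v, K.gr.Adj w u → K.gr.Adj w v →
      g u = g v → u = v := fun g hg w u v hu hv huv => (hg w).injOn hu hv huv
  -- first component
  have hx : xy.1 = f p := by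
    -- a neighbour of `p` different from `q c`
    have hs : K.gr.Adj p (q (!c)) ∧ Sim H (K.π (q (!c))) y₀ := D.hq _
    have hne : q (!c) ≠ q c := by
      cases c
      · exact D.hne.symm
      · exact D.hne
    obtain ⟨r, hsr, hr, hrp⟩ := D.hr _ hs.1 hs.2
    obtain ⟨g, hg, hg1, hg2⟩ := h ⟨(r, q (!c)), hs, hsr, hr, hrp⟩ hne
    simp only at hg1 hg2
    have hgs : g (q (!c)) = f (q (!c)) := congrArg Prod.snd hg2
    have hgp : g p = xy.1 := congrArg Prod.fst hg1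
    have hadj : H.Adj (f (q (!c))) xy.1 := by
      rw [← hgs, ← hgp]
      exact (hg (q (!c))).mapsTo hs.1.symm
    have hsim : Sim H xy.1 x₀ := by
      rw [← hgp]
      exact sim_trans (cover_sim hg K.cov p) hp'
    obtain ⟨u, ⟨hu1, hu2⟩, hu3⟩ := (cover_class hf K.cov (q (!c)) x₀).surjOn ⟨hadj, hsim⟩
    by_cases hup : u = p
    · rw [← hu3, hup]
    · exfalso
      obtain ⟨g', hg', hg1', hg2'⟩ := h ⟨(u, q (!c)), hs, hu1, hu2, hup⟩ hne
      simp only at hg1' hg2'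
      have e1 : g' p = xy.1 := congrArg Prod.fst hg1'
      have e2 : g' u = f u := congrArg Prod.fst hg2'
      exact hup (hinj g' hg' _ _ _ hu1 hs.1.symm (by rw [e2, e1, hu3]))
  have hy : xy.2 = f (q c) := by
    have hs : K.gr.Adj p (q (!c)) ∧ Sim H (K.π (q (!c))) y₀ := D.hq _
    have hne : q (!c) ≠ q c := by
      cases c
      · exact D.hne.symm
      · exact D.hne
    obtain ⟨r, hsr, hr, hrp⟩ := D.hr _ hs.1 hs.2
    obtain ⟨g, hg, hg1, hg2⟩ := h ⟨(r, q (!c)), hs, hsr, hr, hrp⟩ hne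
    simp only at hg1 hg2
    have hgp : g p = xy.1 := congrArg Prod.fst hg1
    have hgq : g (q c) = xy.2 := congrArg Prod.snd hg1
    have hadj : H.Adj (f p) xy.2 := by
      rw [← hx, ← hgq, ← hgp]
      exact (hg p).mapsTo (D.hq c).1
    have hsim : Sim H xy.2 y₀ := by
      rw [← hgq]
      exact sim_trans (cover_sim hg K.cov (q c)) (D.hq c).2
    obtain ⟨u, ⟨hu1, hu2⟩, hu3⟩ := (cover_class hf K.cov p y₀).surjOn ⟨hadj, hsim⟩
    by_cases huq : u = q c
    · rw [← hu3, huq]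
    · exfalso
      obtain ⟨r', hsr', hr', hrp'⟩ := D.hr _ hu1 hu2
      obtain ⟨g', hg', hg1', hg2'⟩ := h ⟨(r', u), ⟨hu1, hu2⟩, hsr', hr', hrp'⟩ huq
      simp only at hg1' hg2'
      have e1 : g' (q c) = xy.2 := congrArg Prod.snd hg1'
      have e2 : g' u = f u := congrArg Prod.snd hg2'
      exact huq (hinj g' hg' _ _ _ hu1 (D.hq c).1 (by rw [e2, e1, hu3]))
  exact Prod.ext hx hy

theorem case_K2 [Finite V] {x₀ y₀ : V} (hxy : H.Adj x₀ y₀) (h3 : 3 ≤ (nbc H x₀ y₀).ncard)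
    (h2 : 2 ≤ (nbc H y₀ x₀).ncard) (hcut : NoCut H (Ty H x₀ y₀)) : HardH H := by
  have : Nonempty V := ⟨x₀⟩
  obtain ⟨K, sd, M, p, hsd, hM, hπ, hp, hU⟩ := kit_exists H x₀
  have hclass := cover_class K.cov K.cov
  -- two neighbours of `p` over the class of `y₀`
  have hNJ : 1 < {s | K.gr.Adj p s ∧ Sim H (K.π s) y₀}.ncard := by
    have e := (hclass p y₀)
    have e1 : (nbc H (K.π p) y₀).ncard = {s | K.gr.Adj p s ∧ Sim H (K.π s) y₀}.ncard := by
      rw [← e.image_eq, e.injOn.ncard_image]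
    rw [← e1, hπ]
    omega
  obtain ⟨q₀, q₁, hq₀, hq₁, hq⟩ := (Set.one_lt_ncard_iff (Set.toFinite _)).1 hNJ
  have D : CKData H x₀ y₀ K sd p (fun c => if c then q₁ else q₀) := by
    refine ⟨hsd, hπ, hp, ?_, ?_, ?_⟩
    · intro c
      cases c
      · exact hq₀
      · exact hq₁
    · simpa using hq
    · intro s hps hs
      have e := hclass s x₀
      have e1 : (nbc H (K.π s) x₀).ncard = {u | K.gr.Adj s u ∧ Sim H (K.π u) x₀}.ncard := by
        rw [← e.image_eq, e.injOn.ncard_image]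
      have e2 : 1 < {u | K.gr.Adj s u ∧ Sim H (K.π u) x₀}.ncard := by
        rw [← e1, nbc_ncard hs (sim_refl H x₀)]
        omega
      obtain ⟨r, hr, hrp⟩ := Set.exists_ne_of_one_lt_ncard e2 p
      exact ⟨r, hr.1, hr.2, hrp⟩
  set q : Bool → K.W := fun c => if c then q₁ else q₀ with hqdef
  have hp' : Sim H (K.π p) x₀ := by rw [hπ]; exact sim_refl H x₀
  obtain ⟨β, hβ⟩ := exists_beta (H := H) (x₀ := x₀) (y₀ := y₀) (by omega)
  obtain ⟨γ, hγ, hγn⟩ := exists_gamma (H := H) x₀ y₀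
  refine hard_of_def (Q := Unit) (ck_def D hM hcut) (np := fun _ => ()) (ar := fun z => z.1)
    ?_ ?_ ?_ ?_ ?_ h3 β (fun i => (x₀, γ i)) ?_ ?_
  · intro z
    exact z.2.2.1.symm
  · intro z
    exact ⟨z.2.2.2.1, z.2.1.2⟩
  · intro z
    exact ck_str1 hM hcut z.2.2.1.symm z.2.2.2.1 z.2.1.2
  · intro z z' _ hzz
    rcases hzz with hzz | hzz
    · exact Subtype.ext hzz
    · exfalso
      have e1 : sd z.1.1 = sd z'.1.2 := by rw [hzz]; rfl
      have e2 := hsd _ _ z.2.1.1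
      have e3 := hsd _ _ z.2.2.1
      have e4 := hsd _ _ z'.2.1.1
      rw [hp] at e2 e4
      have e5 : sd z.1.2 = false := by
        cases h : sd z.1.2
        · rfl
        · exact absurd h.symm e2
      have e6 : sd z'.1.2 = false := by
        cases h : sd z'.1.2
        · rfl
        · exact absurd h.symm e4
      rw [e5, e1, e6] at e3
      exact e3 rfl
  · intro w
    have hne : ∃ v, K.π w ≠ v := by
      by_cases h : K.π w = x₀
      · exact ⟨y₀, by rw [h]; exact hxy.ne⟩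
      · exact ⟨x₀, h⟩
    obtain ⟨v, hv⟩ := hne
    obtain ⟨u, hu⟩ := exists_adj hcut hv
    obtain ⟨w', hw', -⟩ := lift_adj K hu
    exact ⟨w', hw'⟩
  · intro a b hab
    obtain ⟨v, hR, hQ⟩ := hab
    obtain ⟨f, hf, hfv⟩ := hQ ()
    have hval : ∀ c : Bool, (if c then b else a) = (f p, f (q c)) := by
      intro c
      refine ck_hub D c _ hf fun z hz => ?_
      have h1 := hR ⟨(c, z), hz⟩
      simp only [Sum.elim_inl, Sum.elim_inr] at h1
      rw [hfv z rfl]
      exact h1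
    have ha : a = (f p, f (q false)) := by simpa using hval false
    have hb : b = (f p, f (q true)) := by simpa using hval true
    rw [ha, hb]
    have hmem : ∀ c, f (q c) ∈ nbc H (f p) y₀ := fun c =>
      ⟨(hf p).mapsTo (D.hq c).1, sim_trans (cover_sim hf K.cov (q c)) (D.hq c).2⟩
    refine hβ _ _ _ (sim_trans (cover_sim hf K.cov p) hp') (hmem false) (hmem true) ?_
    intro h
    exact D.hne ((hf p).injOn (D.hq false).1 (D.hq true).1 h)
  · intro s t hst
    obtain ⟨f, hf, hfp, hf0, hf1⟩ := star_cover hU (D.hq false).1 (D.hq true).1 D.hne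
      (x := x₀) (y := γ s) (y' := γ t) (by rw [hπ]; exact sim_refl H x₀) (hγn s).1 (hγn t).1
      (fun h => hst (hγ h)) (sim_trans (D.hq false).2 (sim_symm (hγn s).2))
      (sim_trans (D.hq true).2 (sim_symm (hγn t).2))
    refine ⟨fun z => (f z.1.1, f z.1.2), ?_, ?_⟩
    · rintro ⟨⟨c, z⟩, hz⟩
      refine ⟨f, hf, ?_, rfl⟩
      cases c
      · simp only [Sum.elim_inl]
        rw [hfp, hf0]
        simp
      · simp only [Sum.elim_inl]
        rw [hfp, hf1]
        simp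
    · intro _
      exact ⟨f, hf, fun z _ => rfl⟩

end Pool.Agent.H24.GC
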