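import Pool.Agent.H24.GC.HardDef
import Pool.Agent.H24.GC.Star
import Pool.Agent.H24.GC.Conn
import Pool.Agent.H24.GC.Straight

/-!
# JOB GC-31: a vertex with three neighbours in one class, each of degree one back

`case_K1`. Let `K, sd, M, p` be from `kit_exists H x₀`, `NJ = {s | K.gr.Adj p s ∧ Sim H (K.π s) y₀}`,
`q₀ ≠ q₁ ∈ NJ` (`cover_class`: `NJ` has as many elements as `nbc H x₀ y₀`; write `q c` for `c : Bool`), `sd p = true`. Let `o c` be a
neighbour of `q c` over the class of `m` (`nbc_ncard`: `K.π (q c) ~ y₀` has a neighbour `~ m`; `lift_adj`).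
`Z = Bool`, `ar c = (o c, q c)`, `Q = Unit`, types `(m, y₀)`, hub type `(x₀, y₀)`.
`R v = ∀ c, KR K (p, q c) (o c, q c) (v (inl c)) (v (inr c))`: killer pieces by `straight_two`:
`Ty H (π p) (π (q c)) (π (o c)) (π (q c))` would give `π (o c) ~ π p ~ x₀` (directly, or
`π (o c) ~ π (q c)` and `π (q c) ~ π p`), so `m ~ x₀`. All `NoCut` conditions from `hcut`.
`hinj`: `ar false = (ar true).swap` would give `o false = q true`, but `sd (q c) = false`, `sd (o c) = true`.
(h1) the hub `c` with the value `(x, y)` and the cover `f` of the node: there is a cover `g` with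
`(g p, g (q c)) = (x, y)`, `g (q c) = f (q c)`. So `y = f (q c)`, and `x`, `f p` are both in
`nbc H (f (q c)) x₀`, which has one element (`h1`, `nbc_ncard`), so `x = f p`. So `a = (f p, f q₀)`, `b = (f p, f q₁)` and `β a ≠ β b` (`exists_beta`).
(h2) For `y ≠ y'` in `nbc H x₀ y₀` (`γ i = (x₀, γ' i)`, `exists_gamma`) take `f` from `star_cover` (`x = x₀`), `v c = (f (o c), f (q c))`; all
the relations `KR` hold with the cover `f` itself. `hdeg`: lift a neighbour of `K.π w` (`exists_adj`, `lift_adj`).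
-/

namespace Pool.Agent.H24.GC

variable {V : Type} {H : SimpleGraph V}

theorem casek1_mono {P Q : V → V → Prop} (h : NoCut H Q) (hPQ : ∀ x y, P x y → Q x y) :
    NoCut H P :=
  fun S h1 h2 h3 => h S h1 h2 fun x hx y hy hxy => hPQ _ _ (h3 x hx y hy hxy)

theorem case_K1 [Finite V] {x₀ y₀ m : V} (hxy : H.Adj x₀ y₀) (h3 : 3 ≤ (nbc H x₀ y₀).ncard)
    (h1 : (nbc H y₀ x₀).ncard = 1) (hm : H.Adj y₀ m) (hmx : ¬ Sim H m x₀)
    (hcut : NoCut H (fun x y => Ty H x₀ y₀ x y ∨ Ty H m y₀ x y)) : HardH H := by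
  classical
  have : Nonempty V := ⟨x₀⟩
  obtain ⟨K, sd, M, p, hsd, hMult, hπp, hsp, hU⟩ := kit_exists H x₀
  -- the two neighbours
  obtain ⟨y₁, hy₁, y₂, hy₂, hyy⟩ : ∃ y₁ ∈ nbc H x₀ y₀, ∃ y₂ ∈ nbc H x₀ y₀, y₁ ≠ y₂ := by
    have h : 1 < (nbc H x₀ y₀).ncard := by omega
    exact (Set.one_lt_ncard (Set.toFinite _)).1 h
  obtain ⟨q₀, hq₀, hq₀'⟩ : ∃ q, K.gr.Adj p q ∧ K.π q = y₁ := lift_adj K (by rw [hπp]; exact hy₁.1)
  obtain ⟨q₁, hq₁, hq₁'⟩ : ∃ q, K.gr.Adj p q ∧ K.π q = y₂ := lift_adj K (by rw [hπp]; exact hy₂.1)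
  obtain ⟨q, hqadj, hqs, hqne⟩ : ∃ q : Bool → K.W, (∀ c, K.gr.Adj p (q c)) ∧
      (∀ c, Sim H (K.π (q c)) y₀) ∧ q false ≠ q true := by
    refine ⟨fun c => if c then q₁ else q₀, ?_, ?_, ?_⟩
    · intro c
      cases c
      · exact hq₀
      · exact hq₁
    · intro c
      cases c
      · show Sim H (K.π q₀) y₀
        rw [hq₀']
        exact hy₁.2
      · show Sim H (K.π q₁) y₀
        rw [hq₁']
        exact hy₂.2
    · show q₀ ≠ q₁
      intro h
      apply hyy
      rw [← hq₀', ← hq₁', h]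
  have hqinj : ∀ c c', q c = q c' → c = c' := by
    intro c c' h
    cases c <;> cases c'
    · rfl
    · exact absurd h hqne
    · exact absurd h.symm hqne
    · rfl
  have hsq : ∀ c, sd (q c) = false := by
    intro c
    have h := hsd _ _ (hqadj c)
    rw [hsp] at h
    cases h' : sd (q c)
    · rfl
    · exact absurd h'.symm h
  have ho : ∀ c, ∃ o, K.gr.Adj (q c) o ∧ Sim H (K.π o) m := by
    intro c
    have hpos : 0 < (nbc H (K.π (q c)) m).ncard := by
      rw [nbc_ncard (hqs c) (sim_refl H m), Set.ncard_pos (Set.toFinite _)]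
      exact ⟨m, hm, sim_refl H m⟩
    obtain ⟨m', hm'⟩ := (Set.ncard_pos (Set.toFinite _)).1 hpos
    obtain ⟨o, ho1, ho2⟩ := lift_adj K hm'.1
    exact ⟨o, ho1, by rw [ho2]; exact hm'.2⟩
  choose o hoadj hos using ho
  have hso : ∀ c, sd (o c) = true := by
    intro c
    have h := hsd _ _ (hoadj c)
    rw [hsq c] at h
    cases h' : sd (o c)
    · exact absurd h'.symm h
    · rfl
  have hps : Sim H (K.π p) x₀ := by rw [hπp]; exact sim_refl H x₀
  have hpo : ∀ c, ¬ Sim H (K.π (o c)) (K.π p) := fun c h =>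
    hmx (sim_trans (sim_symm (hos c)) (sim_trans h hps))
  have hcut2 : ∀ c, NoCut H (fun x y => Ty H (K.π p) (K.π (q c)) x y ∨
      Ty H (K.π (o c)) (K.π (q c)) x y) := by
    intro c
    refine casek1_mono hcut fun x y h => ?_
    rcases h with h | h
    · exact Or.inl ((ty_congr hps (hqs c) x y).1 h)
    · exact Or.inr ((ty_congr (hos c) (hqs c) x y).1 h)
  have hstr₁ : ∀ c, Straight H K.gr K.π (cut1 (p, q c)) := fun c =>
    straight_one hMult (r := (p, q c)) (hqadj c) (casek1_mono (hcut2 c) fun x y h => Or.inl h)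
  have hstr₂ : ∀ c, Straight H K.gr K.π (cut1 (o c, q c)) := fun c =>
    straight_one hMult (r := (o c, q c)) (hoadj c).symm
      (casek1_mono (hcut2 c) fun x y h => Or.inr h)
  have hKl : ∀ c, Kl K (p, q c) (o c, q c) := by
    intro c
    refine ⟨hqadj c, (hoadj c).symm, ?_, ?_, ?_, hstr₁ c, hstr₂ c⟩
    · intro h
      have h' : p = o c := congrArg Prod.fst h
      exact hpo c (by rw [← h']; exact sim_refl H _)
    · intro h
      have h' : p = q c := congrArg Prod.fst h
      exact (hqadj c).ne h'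
    · refine straight_two hMult (r₁ := (p, q c)) (r₂ := (o c, q c)) (hqadj c) (hoadj c).symm ?_
        (hcut2 c)
      rintro (⟨h, -⟩ | ⟨h, h'⟩)
      · exact hpo c h
      · exact hpo c (sim_trans h h')
  have hR : PDef K (Sum.elim (fun _ : Bool => ((x₀, y₀) : V × V)) fun _ : Bool => (m, y₀))
      (fun v => ∀ c : Bool, KR K (p, q c) (o c, q c) (v (Sum.inl c)) (v (Sum.inr c))) :=
    PDef.all fun c => PDef.atom (hKl c) ⟨hps, hqs c⟩ ⟨hos c, hqs c⟩
  have hdeg : ∀ w : K.W, ∃ w', K.gr.Adj w w' := by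
    intro w
    have h : ∃ u, K.π w ≠ u := by
      by_cases hw : K.π w = x₀
      · exact ⟨y₀, by rw [hw]; exact hxy.ne⟩
      · exact ⟨x₀, hw⟩
    obtain ⟨u, hu⟩ := h
    obtain ⟨z, hz⟩ := exists_adj hcut hu
    obtain ⟨w', hw', -⟩ := lift_adj K hz
    exact ⟨w', hw'⟩
  obtain ⟨β, hβ⟩ := exists_beta (H := H) (x₀ := x₀) (y₀ := y₀) (by omega)
  obtain ⟨γ, hγ, hγm⟩ := exists_gamma (H := H) x₀ y₀
  refine hard_of_def (Z := Bool) (Q := Unit) hR (np := fun _ => ()) (ar := fun c => (o c, q c))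
    (fun c => (hoadj c).symm) (fun c => ⟨hos c, hqs c⟩) hstr₂ ?_ hdeg h3 β
    (fun i => (x₀, γ i)) ?_ ?_
  · intro z z' _ h
    rcases h with h | h
    · exact hqinj z z' (congrArg Prod.snd h)
    · have h' : o z = q z' := congrArg Prod.fst h
      have h'' := hso z
      rw [h', hsq z'] at h''
      exact absurd h'' (by simp)
  · rintro a b ⟨v, hRv, hQ⟩
    obtain ⟨f, hf, hfv⟩ := hQ ()
    have key : ∀ c : Bool, (if c then b else a) = (f p, f (q c)) := by
      intro c
      obtain ⟨g, hg, hg1, hg2⟩ := hRv c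
      have hg1' : (g p, g (q c)) = if c then b else a := hg1
      have hg2' : (g (o c), g (q c)) = (f (o c), f (q c)) := hg2.trans (hfv c rfl).symm
      have hgq : g (q c) = f (q c) := congrArg Prod.snd hg2'
      have hfs : Sim H (f (q c)) y₀ := sim_trans (cover_sim hf K.cov (q c)) (hqs c)
      have hone : (nbc H (f (q c)) x₀).ncard = 1 := by
        rw [nbc_ncard hfs (sim_refl H x₀), h1]
      obtain ⟨e, he⟩ := Set.ncard_eq_one.1 hone
      have hgp : g p ∈ nbc H (f (q c)) x₀ := by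
        refine ⟨?_, sim_trans (cover_sim hg K.cov p) hps⟩
        rw [← hgq]
        exact (hg (q c)).mapsTo (hqadj c).symm
      have hfp : f p ∈ nbc H (f (q c)) x₀ :=
        ⟨(hf (q c)).mapsTo (hqadj c).symm, sim_trans (cover_sim hf K.cov p) hps⟩
      rw [he, Set.mem_singleton_iff] at hgp hfp
      rw [← hg1', hgq, hgp, hfp]
    have ha : a = (f p, f (q false)) := key false
    have hb : b = (f p, f (q true)) := key true
    rw [ha, hb]
    refine hβ (f p) (f (q false)) (f (q true)) (sim_trans (cover_sim hf K.cov p) hps)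
      ⟨(hf p).mapsTo (hqadj false), sim_trans (cover_sim hf K.cov _) (hqs false)⟩
      ⟨(hf p).mapsTo (hqadj true), sim_trans (cover_sim hf K.cov _) (hqs true)⟩ ?_
    intro h
    exact hqne ((hf p).injOn (hqadj false) (hqadj true) h)
  · intro s t hst
    obtain ⟨f, hf, hf1, hf2, hf3⟩ := star_cover hU (hqadj false) (hqadj true) hqne hps
      (hγm s).1 (hγm t).1 (fun h => hst (hγ h))
      (sim_trans (hqs false) (sim_symm (hγm s).2)) (sim_trans (hqs true) (sim_symm (hγm t).2))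
    refine ⟨fun c => (f (o c), f (q c)), ?_, fun _ => ⟨f, hf, fun z _ => rfl⟩⟩
    intro c
    refine ⟨f, hf, ?_, rfl⟩
    cases c
    · show (f p, f (q false)) = (x₀, γ s)
      rw [hf1, hf2]
    · show (f p, f (q true)) = (x₀, γ t)
      rw [hf1, hf3]

end Pool.Agent.H24.GC
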