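import Pool.Agent.H24.GC.Count

/-!
# JOB GC-9: the graph of an instance

Pieces `p : I.P` and spacers `o : I.O` are copies of the graph `g` on `W`. The piece `p` lacks the edges
`ar o` of its occurrences `o` (`pc o = p`), the spacer `o` lacks the edge `ar o`. The edge `vert` joins
the tail of `ar o` in the piece `pc o` to the head of `ar o` in the spacer `o`; the edge `cross` joins
the tail of `ar o` in the spacer `o` to the head of `ar (sg o)` in the piece `pc (sg o)`.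

`exists_nu`: define `nu q w w'` by cases (classical), using
* `q = inl p`: if there is `o` with `pc o = p`, `ar o = (w, w')` (unique by `inj`): `(inr o, w')`; else if
  there is `o` with `pc o = p`, `ar o = (w', w)`: `(inr (sg⁻¹ o), (ar (sg⁻¹ o)).1)`; else `(inl p, w')`;
* `q = inr o`: if `ar o = (w, w')`: `(inl (pc (sg o)), (ar (sg o)).2)`; else if `ar o = (w', w)`:
  `(inl (pc o), w')`; else `(inr o, w')`.
The formulas follow (`(ar o).1 ≠ (ar o).2`, and by `inj` an arc of `p` and its reverse are not both cut).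
The image of `g.neighborSet w` under `nu q w` is the neighbourhood of `(q, w)`: go through the four kinds
of edges, in both directions. Injectivity on `g.neighborSet w`, `q = inl p`: the values `(inl p, w')`
(uncut), `(inr o, w')` with `ar o = (w, w')`, and `(inr o₁, (ar o₁).1)` with `ar (sg o₁) = (w', w)`
determine `w'`; two of different kinds are different: first components, or if
`(inr o, (ar o).2) = (inr o₁, (ar o₁).1)` then `(ar o).2 = (ar o).1`, impossible. For `q = inr o`: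
if `w` is neither end of `ar o` then all values are `(inr o, w')`; if `w = (ar o).1` there is one further
value, of the form `(inl _, _)`; the same if `w = (ar o).2`.
-/

namespace Pool.Agent.H24.GC

variable {V : Type} {H : SimpleGraph V}

/-- an instance: pieces, occurrences, the piece and the arc of an occurrence, and the cyclic order of
the occurrences of each variable -/
structure Inst (W : Type) where
  P : Type
  O : Type
  pc : O → P
  ar : O → W × W
  sg : Equiv.Perm O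

/-- the vertices of the graph of an instance -/
abbrev Inst.Vx {W : Type} (I : Inst W) : Type := (I.P ⊕ I.O) × W

/-- the edges of the graph of an instance, in one direction -/
def Inst.Ed {W : Type} (I : Inst W) (g : SimpleGraph W) (x y : I.Vx) : Prop :=
  (∃ p w w', g.Adj w w' ∧ (∀ o, I.pc o = p → I.ar o ≠ (w, w') ∧ I.ar o ≠ (w', w)) ∧
    x = (Sum.inl p, w) ∧ y = (Sum.inl p, w')) ∨
  (∃ o w w', g.Adj w w' ∧ I.ar o ≠ (w, w') ∧ I.ar o ≠ (w', w) ∧
    x = (Sum.inr o, w) ∧ y = (Sum.inr o, w')) ∨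
  (∃ o, x = (Sum.inl (I.pc o), (I.ar o).1) ∧ y = (Sum.inr o, (I.ar o).2)) ∨
  (∃ o, x = (Sum.inr o, (I.ar o).1) ∧ y = (Sum.inl (I.pc (I.sg o)), (I.ar (I.sg o)).2))

/-- the graph of an instance -/
def Inst.graph {W : Type} (I : Inst W) (g : SimpleGraph W) : SimpleGraph I.Vx where
  Adj x y := I.Ed g x y ∨ I.Ed g y x
  symm := ⟨fun _ _ h => h.symm⟩
  loopless := ⟨by
    intro x h
    have h' : I.Ed g x x := h.elim id id
    rcases h' with ⟨p, w, w', hw, -, h1, h2⟩ | ⟨p, w, w', hw, -, -, h1, h2⟩ | ⟨o, h1, h2⟩ |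
      ⟨o, h1, h2⟩
    · rw [h1] at h2
      exact hw.ne (Prod.ext_iff.1 h2).2
    · rw [h1] at h2
      exact hw.ne (Prod.ext_iff.1 h2).2
    · rw [h1] at h2
      exact absurd (Prod.ext_iff.1 h2).1 (by simp)
    · rw [h1] at h2
      exact absurd (Prod.ext_iff.1 h2).1 (by simp)⟩

open Classical in
/-- the neighbour function -/
noncomputable def CoreA_nu {W : Type} (I : Inst W) (q : I.P ⊕ I.O) (w w' : W) : I.Vx :=
  match q with
  | Sum.inl p =>
    if h : ∃ o, I.pc o = p ∧ I.ar o = (w, w') then (Sum.inr h.choose, w')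
    else if h : ∃ o, I.pc (I.sg o) = p ∧ I.ar (I.sg o) = (w', w) then
      (Sum.inr h.choose, (I.ar h.choose).1)
    else (Sum.inl p, w')
  | Sum.inr o =>
    if I.ar o = (w, w') then (Sum.inl (I.pc (I.sg o)), (I.ar (I.sg o)).2)
    else if I.ar o = (w', w) then (Sum.inl (I.pc o), w')
    else (Sum.inr o, w')

theorem CoreA_spec_inl {W : Type} (I : Inst W) (p : I.P) (w w' : W) :
    (∃ o, I.pc o = p ∧ I.ar o = (w, w') ∧ CoreA_nu I (Sum.inl p) w w' = (Sum.inr o, w')) ∨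
    (∃ o, I.pc (I.sg o) = p ∧ I.ar (I.sg o) = (w', w) ∧
      CoreA_nu I (Sum.inl p) w w' = (Sum.inr o, (I.ar o).1)) ∨
    ((∀ o, I.pc o = p → I.ar o ≠ (w, w') ∧ I.ar o ≠ (w', w)) ∧
      CoreA_nu I (Sum.inl p) w w' = (Sum.inl p, w')) := by
  by_cases h1 : ∃ o, I.pc o = p ∧ I.ar o = (w, w')
  · left
    refine ⟨h1.choose, h1.choose_spec.1, h1.choose_spec.2, ?_⟩
    simp only [CoreA_nu, dif_pos h1]
  · by_cases h2 : ∃ o, I.pc (I.sg o) = p ∧ I.ar (I.sg o) = (w', w)
    · right; left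
      refine ⟨h2.choose, h2.choose_spec.1, h2.choose_spec.2, ?_⟩
      simp only [CoreA_nu, dif_neg h1, dif_pos h2]
    · right; right
      refine ⟨fun o ho => ⟨fun h3 => h1 ⟨o, ho, h3⟩, fun h3 => h2 ⟨I.sg⁻¹ o, ?_, ?_⟩⟩, ?_⟩
      · rw [show I.sg (I.sg⁻¹ o) = o from I.sg.apply_symm_apply o]
        exact ho
      · rw [show I.sg (I.sg⁻¹ o) = o from I.sg.apply_symm_apply o]
        exact h3
      · simp only [CoreA_nu, dif_neg h1, dif_neg h2]

theorem CoreA_spec_inr {W : Type} (I : Inst W) (o : I.O) (w w' : W) :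
    (I.ar o = (w, w') ∧
      CoreA_nu I (Sum.inr o) w w' = (Sum.inl (I.pc (I.sg o)), (I.ar (I.sg o)).2)) ∨
    (I.ar o = (w', w) ∧ CoreA_nu I (Sum.inr o) w w' = (Sum.inl (I.pc o), w')) ∨
    (I.ar o ≠ (w, w') ∧ I.ar o ≠ (w', w) ∧ CoreA_nu I (Sum.inr o) w w' = (Sum.inr o, w')) := by
  by_cases h1 : I.ar o = (w, w')
  · left
    refine ⟨h1, ?_⟩
    simp only [CoreA_nu, if_pos h1]
  · by_cases h2 : I.ar o = (w', w)
    · right; left
      refine ⟨h2, ?_⟩
      simp only [CoreA_nu, if_neg h1, if_pos h2]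
    · right; right
      refine ⟨h1, h2, ?_⟩
      simp only [CoreA_nu, if_neg h1, if_neg h2]

theorem exists_nu {W : Type} {g : SimpleGraph W} {I : Inst W}
    (hadj : ∀ o, g.Adj (I.ar o).1 (I.ar o).2)
    (hinj : ∀ o o', I.pc o = I.pc o' → (I.ar o = I.ar o' ∨ I.ar o = (I.ar o').swap) → o = o') :
    ∃ nu : I.P ⊕ I.O → W → W → I.Vx,
      (∀ q w, Set.BijOn (nu q w) (g.neighborSet w) ((I.graph g).neighborSet (q, w))) ∧
      (∀ p w w', g.Adj w w' → (∀ o, I.pc o = p → I.ar o ≠ (w, w') ∧ I.ar o ≠ (w', w)) →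
        nu (Sum.inl p) w w' = (Sum.inl p, w')) ∧
      (∀ o w w', g.Adj w w' → I.ar o ≠ (w, w') → I.ar o ≠ (w', w) →
        nu (Sum.inr o) w w' = (Sum.inr o, w')) ∧
      (∀ o, nu (Sum.inl (I.pc o)) (I.ar o).1 (I.ar o).2 = (Sum.inr o, (I.ar o).2)) ∧
      (∀ o, nu (Sum.inr o) (I.ar o).2 (I.ar o).1 = (Sum.inl (I.pc o), (I.ar o).1)) ∧
      (∀ o, nu (Sum.inr o) (I.ar o).1 (I.ar o).2 =
        (Sum.inl (I.pc (I.sg o)), (I.ar (I.sg o)).2)) ∧
      (∀ o, nu (Sum.inl (I.pc (I.sg o))) (I.ar (I.sg o)).2 (I.ar (I.sg o)).1 =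
        (Sum.inr o, (I.ar o).1)) := by
  have hne : ∀ o, (I.ar o).1 ≠ (I.ar o).2 := fun o => (hadj o).ne
  -- formulas
  have F1 : ∀ p w w', (∀ o, I.pc o = p → I.ar o ≠ (w, w') ∧ I.ar o ≠ (w', w)) →
      CoreA_nu I (Sum.inl p) w w' = (Sum.inl p, w') := by
    intro p w w' h
    rcases CoreA_spec_inl I p w w' with ⟨o, h1, h2, -⟩ | ⟨o, h1, h2, -⟩ | ⟨-, h2⟩
    · exact absurd h2 (h o h1).1
    · exact absurd h2 (h _ h1).2
    · exact h2
  have F2 : ∀ o w w', I.ar o ≠ (w, w') → I.ar o ≠ (w', w) →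
      CoreA_nu I (Sum.inr o) w w' = (Sum.inr o, w') := by
    intro o w w' h h'
    rcases CoreA_spec_inr I o w w' with ⟨h1, -⟩ | ⟨h1, -⟩ | ⟨-, -, h1⟩
    · exact absurd h1 h
    · exact absurd h1 h'
    · exact h1
  have F3 : ∀ o, CoreA_nu I (Sum.inl (I.pc o)) (I.ar o).1 (I.ar o).2 =
      (Sum.inr o, (I.ar o).2) := by
    intro o
    rcases CoreA_spec_inl I (I.pc o) (I.ar o).1 (I.ar o).2 with
      ⟨o', h1, h2, h3⟩ | ⟨o', h1, h2, -⟩ | ⟨h1, -⟩
    · have h4 : o' = o := hinj o' o h1 (Or.inl h2)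
      rw [h3, h4]
    · exfalso
      have h4 : I.sg o' = o := hinj (I.sg o') o h1 (Or.inr h2)
      rw [h4] at h2
      exact hne o (Prod.ext_iff.1 h2).1
    · exact absurd rfl (h1 o rfl).1
  have F4 : ∀ o, CoreA_nu I (Sum.inr o) (I.ar o).2 (I.ar o).1 =
      (Sum.inl (I.pc o), (I.ar o).1) := by
    intro o
    rcases CoreA_spec_inr I o (I.ar o).2 (I.ar o).1 with ⟨h1, -⟩ | ⟨-, h1⟩ | ⟨-, h1, -⟩
    · exact absurd (Prod.ext_iff.1 h1).1 (hne o)
    · exact h1
    · exact absurd rfl h1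
  have F5 : ∀ o, CoreA_nu I (Sum.inr o) (I.ar o).1 (I.ar o).2 =
      (Sum.inl (I.pc (I.sg o)), (I.ar (I.sg o)).2) := by
    intro o
    rcases CoreA_spec_inr I o (I.ar o).1 (I.ar o).2 with ⟨-, h1⟩ | ⟨h1, -⟩ | ⟨h1, -, -⟩
    · exact h1
    · exact absurd (Prod.ext_iff.1 h1).1 (hne o)
    · exact absurd rfl h1
  have F6 : ∀ o, CoreA_nu I (Sum.inl (I.pc (I.sg o))) (I.ar (I.sg o)).2 (I.ar (I.sg o)).1 =
      (Sum.inr o, (I.ar o).1) := by
    intro o
    rcases CoreA_spec_inl I (I.pc (I.sg o)) (I.ar (I.sg o)).2 (I.ar (I.sg o)).1 with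
      ⟨o', h1, h2, -⟩ | ⟨o', h1, h2, h3⟩ | ⟨h1, -⟩
    · exfalso
      have h4 : o' = I.sg o := hinj o' (I.sg o) h1 (Or.inr h2)
      rw [h4] at h2
      exact hne (I.sg o) (Prod.ext_iff.1 h2).1
    · have h4 : I.sg o' = I.sg o := hinj (I.sg o') (I.sg o) h1 (Or.inl h2)
      have h5 : o' = o := I.sg.injective h4
      rw [h3, h5]
    · exact absurd rfl (h1 (I.sg o) rfl).2
  refine ⟨CoreA_nu I, ?_, fun p w w' _ h => F1 p w w' h, fun o w w' _ h h' => F2 o w w' h h',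
    F3, F4, F5, F6⟩
  intro q w
  refine ⟨?_, ?_, ?_⟩
  · -- maps to
    intro w' hw'
    have hw : g.Adj w w' := hw'
    show I.Ed g (q, w) (CoreA_nu I q w w') ∨ I.Ed g (CoreA_nu I q w w') (q, w)
    rcases q with p | o
    · rcases CoreA_spec_inl I p w w' with ⟨o, h1, h2, h3⟩ | ⟨o, h1, h2, h3⟩ | ⟨h1, h2⟩
      · left; right; right; left
        refine ⟨o, ?_, ?_⟩
        · rw [h1, h2]
        · rw [h3, h2]
      · right; right; right; right
        refine ⟨o, h3, ?_⟩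
        rw [h1, h2]
      · left; left
        exact ⟨p, w, w', hw, h1, rfl, h2⟩
    · rcases CoreA_spec_inr I o w w' with ⟨h1, h2⟩ | ⟨h1, h2⟩ | ⟨h1, h2, h3⟩
      · left; right; right; right
        refine ⟨o, ?_, h2⟩
        rw [h1]
      · right; right; right; left
        refine ⟨o, ?_, ?_⟩
        · rw [h2, h1]
        · rw [h1]
      · left; right; left
        exact ⟨o, w, w', hw, h1, h2, rfl, h3⟩
  · -- injective
    intro w1 hw1 w2 hw2 heq
    have ha1 : g.Adj w w1 := hw1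
    have ha2 : g.Adj w w2 := hw2
    rcases q with p | o
    · rcases CoreA_spec_inl I p w w1 with ⟨o1, a1, b1, c1⟩ | ⟨o1, a1, b1, c1⟩ | ⟨a1, c1⟩ <;>
      rcases CoreA_spec_inl I p w w2 with ⟨o2, a2, b2, c2⟩ | ⟨o2, a2, b2, c2⟩ | ⟨a2, c2⟩ <;>
      rw [c1, c2, Prod.ext_iff] at heq
      · exact heq.2
      · exfalso
        have h1 : o1 = o2 := Sum.inr_injective heq.1
        have h2 : w1 = (I.ar o2).1 := heq.2
        rw [← h1, b1] at h2
        exact ha1.ne h2.symm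
      · exact absurd heq.1 (by simp)
      · exfalso
        have h1 : o1 = o2 := Sum.inr_injective heq.1
        have h2 : (I.ar o1).1 = w2 := heq.2
        rw [h1, b2] at h2
        exact ha2.ne h2
      · have h1 : o1 = o2 := Sum.inr_injective heq.1
        rw [h1, b2, Prod.ext_iff] at b1
        exact b1.1.symm
      · exact absurd heq.1 (by simp)
      · exact absurd heq.1 (by simp)
      · exact absurd heq.1 (by simp)
      · exact heq.2
    · rcases CoreA_spec_inr I o w w1 with ⟨b1, c1⟩ | ⟨b1, c1⟩ | ⟨b1, b1', c1⟩ <;>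
      rcases CoreA_spec_inr I o w w2 with ⟨b2, c2⟩ | ⟨b2, c2⟩ | ⟨b2, b2', c2⟩ <;>
      rw [c1, c2, Prod.ext_iff] at heq
      · rw [b1, Prod.ext_iff] at b2
        exact b2.2
      · exfalso
        rw [b1, Prod.ext_iff] at b2
        exact ha2.ne b2.1
      · exact absurd heq.1 (by simp)
      · exfalso
        rw [b1, Prod.ext_iff] at b2
        exact ha1.ne b2.1.symm
      · exact heq.2
      · exact absurd heq.1 (by simp)
      · exact absurd heq.1 (by simp)
      · exact absurd heq.1 (by simp)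
      · exact heq.2
  · -- surjective
    intro v hv
    have hv' : I.Ed g (q, w) v ∨ I.Ed g v (q, w) := hv
    rcases hv' with h | h
    · rcases h with ⟨p, w1, w2, h1, h2, h3, h4⟩ | ⟨o, w1, w2, h1, h2, h2', h3, h4⟩ |
        ⟨o, h3, h4⟩ | ⟨o, h3, h4⟩
      · obtain ⟨rfl, rfl⟩ := Prod.mk.inj h3
        exact ⟨w2, h1, (F1 p _ w2 h2).trans h4.symm⟩
      · obtain ⟨rfl, rfl⟩ := Prod.mk.inj h3
        exact ⟨w2, h1, (F2 o _ w2 h2 h2').trans h4.symm⟩
      · obtain ⟨rfl, rfl⟩ := Prod.mk.inj h3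
        exact ⟨(I.ar o).2, hadj o, (F3 o).trans h4.symm⟩
      · obtain ⟨rfl, rfl⟩ := Prod.mk.inj h3
        exact ⟨(I.ar o).2, hadj o, (F5 o).trans h4.symm⟩
    · rcases h with ⟨p, w1, w2, h1, h2, h3, h4⟩ | ⟨o, w1, w2, h1, h2, h2', h3, h4⟩ |
        ⟨o, h3, h4⟩ | ⟨o, h3, h4⟩
      · obtain ⟨rfl, rfl⟩ := Prod.mk.inj h4
        exact ⟨w1, h1.symm, (F1 p _ w1 (fun o ho => ⟨(h2 o ho).2, (h2 o ho).1⟩)).trans h3.symm⟩
      · obtain ⟨rfl, rfl⟩ := Prod.mk.inj h4
        exact ⟨w1, h1.symm, (F2 o _ w1 h2' h2).trans h3.symm⟩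
      · obtain ⟨rfl, rfl⟩ := Prod.mk.inj h4
        exact ⟨(I.ar o).1, (hadj o).symm, (F4 o).trans h3.symm⟩
      · obtain ⟨rfl, rfl⟩ := Prod.mk.inj h4
        exact ⟨(I.ar (I.sg o)).1, (hadj (I.sg o)).symm, (F6 o).trans h3.symm⟩

end Pool.Agent.H24.GC
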