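import Mathlib

/-!
# JOB GC-10: cyclic orders

`const_of_cycle`: if the cycle of `o` contains an element `b` that is not good, then all its other elements
are good, and by induction on `i` (`i <` the length of the cycle of `b`) `a (sg ^ i b) = a b`: as long as
`sg (sg ^ i b) ≠ b` this element is good. If it contains no such element, then `a (sg u) = a u` for
all its elements. (`Equiv.Perm.SameCycle`; as `D` is finite `SameCycle o o'` gives `n : ℕ` with
`(sg ^ n) o = o'`, take the least such `n`.)

`exists_cyc`: for `z : Z` let `L z = fib l vr z`, `Nodup`. Put `sg o = (L (vr o)).formPerm o`, with inverse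
`o ↦ (L (vr o)).formPerm⁻¹ o`. As `formPerm` of a list permutes its elements and fixes the others
(`List.formPerm_apply_mem_iff_mem` or `List.formPerm_mem_iff_mem`, `List.formPerm_apply_of_notMem`), `vr (sg o) = vr o` in all
cases and `o ∈ l ↔ sg o ∈ l`. By induction `(sg ^ n) o = ((L (vr o)).formPerm ^ n) o`; with
`List.formPerm_pow_apply_getElem` any two elements of `L z` are in the same cycle. Finally
`List.formPerm_apply_getElem`: `sg (L z)[i] = (L z)[(i + 1) % (L z).length]`, which is
`(L z ++ L z).getD (i + 1) d`, for `i < (L z).length`.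
-/

namespace Pool.Agent.H24.GC

/-- the elements of `l` with value `z`, in the order of `l` -/
def fib {D Z : Type} [DecidableEq Z] (l : List D) (vr : D → Z) (z : Z) : List D :=
  l.filter (fun o => decide (vr o = z))

/-- the pairs of consecutive elements, in the cyclic order, of the lists `fib l vr z` -/
def crossPairs {D Z : Type} [DecidableEq Z] (l : List D) (vr : D → Z) (d : D) : List (D × D) :=
  ((l.map vr).dedup).flatMap (fun z => (List.range (fib l vr z).length).map
    (fun i => ((fib l vr z).getD i d, ((fib l vr z) ++ (fib l vr z)).getD (i + 1) d)))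

theorem const_of_cycle {D β : Type} [Finite D] {sg : Equiv.Perm D} {a : D → β} {good : D → Prop}
    (h : ∀ o, good (sg o) → a (sg o) = a o)
    (hc : ∀ o o', sg.SameCycle o o' → ¬ good o → ¬ good o' → o = o') {o o' : D}
    (hoo : sg.SameCycle o o') : a o = a o' := by
  by_cases hb : ∃ b, sg.SameCycle o b ∧ ¬ good b
  · obtain ⟨b, hb1, hb2⟩ := hb
    have key : ∀ n : ℕ, a ((sg ^ n) b) = a b := by
      intro n
      induction n with
      | zero => rfl
      | succ n ih =>
        have h1 : (sg ^ (n + 1)) b = sg ((sg ^ n) b) := by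
          rw [pow_succ']
          rfl
        by_cases hg : good ((sg ^ (n + 1)) b)
        · rw [h1] at hg ⊢
          rw [h _ hg, ih]
        · have h2 : sg.SameCycle b ((sg ^ (n + 1)) b) := ⟨(n + 1 : ℕ), by rw [zpow_natCast]⟩
          rw [← hc b _ h2 hb2 hg]
    have h3 : ∀ u, sg.SameCycle o u → a u = a b := by
      intro u hu
      obtain ⟨n, hn⟩ := (hb1.symm.trans hu).exists_nat_pow_eq
      rw [← hn]
      exact key n
    rw [h3 o (Equiv.Perm.SameCycle.refl _ _), h3 o' hoo]
  · push Not at hb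
    have key : ∀ n : ℕ, a ((sg ^ n) o) = a o := by
      intro n
      induction n with
      | zero => rfl
      | succ n ih =>
        have h1 : (sg ^ (n + 1)) o = sg ((sg ^ n) o) := by
          rw [pow_succ']
          rfl
        have h2 : good ((sg ^ (n + 1)) o) := hb _ ⟨(n + 1 : ℕ), by rw [zpow_natCast]⟩
        rw [h1] at h2 ⊢
        rw [h _ h2, ih]
    obtain ⟨n, hn⟩ := hoo.exists_nat_pow_eq
    rw [← hn]
    exact (key n).symm

theorem Cyc_mem_fib {D Z : Type} [DecidableEq Z] {l : List D} {vr : D → Z} {z : Z} {o : D} :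
    o ∈ fib l vr z ↔ o ∈ l ∧ vr o = z := by
  unfold fib
  rw [List.mem_filter, decide_eq_true_eq]

theorem Cyc_vr {D Z : Type} [DecidableEq D] [DecidableEq Z] {l : List D} {vr : D → Z} {z : Z}
    {o : D} (h : vr o = z) : vr ((fib l vr z).formPerm o) = z := by
  by_cases ho : o ∈ fib l vr z
  · exact (Cyc_mem_fib.1 (List.formPerm_apply_mem_of_mem ho)).2
  · rw [List.formPerm_apply_of_notMem ho, h]

theorem Cyc_vr' {D Z : Type} [DecidableEq D] [DecidableEq Z] {l : List D} {vr : D → Z} {z : Z}
    {o : D} (h : vr o = z) : vr ((fib l vr z).formPerm⁻¹ o) = z := by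
  by_cases ho : (fib l vr z).formPerm⁻¹ o ∈ fib l vr z
  · exact (Cyc_mem_fib.1 ho).2
  · have h1 := List.formPerm_apply_of_notMem ho
    have h2 : (fib l vr z).formPerm ((fib l vr z).formPerm⁻¹ o) = o :=
      (fib l vr z).formPerm.apply_symm_apply o
    rw [h2] at h1
    rw [← h1, h]

theorem Cyc_getD {D : Type} (L : List D) (d : D) (i : ℕ) (h : i < L.length) :
    (L ++ L).getD (i + 1) d = L[(i + 1) % L.length]'(Nat.mod_lt _ (by omega)) := by
  have h1 : i + 1 < (L ++ L).length := by
    rw [List.length_append]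
    omega
  rw [List.getD_eq_getElem _ _ h1]
  by_cases h2 : i + 1 < L.length
  · rw [List.getElem_append_left h2]
    congr 1
    exact (Nat.mod_eq_of_lt h2).symm
  · have h3 : i + 1 = L.length := by omega
    rw [List.getElem_append_right (by omega)]
    congr 1
    rw [h3, Nat.mod_self, Nat.sub_self]

theorem exists_cyc {D Z : Type} [DecidableEq D] [DecidableEq Z] (l : List D) (hl : l.Nodup)
    (vr : D → Z) (d : D) : ∃ sg : Equiv.Perm D, (∀ o, o ∈ l ↔ sg o ∈ l) ∧
      (∀ o, vr (sg o) = vr o) ∧ (∀ o ∈ l, ∀ o' ∈ l, vr o = vr o' → sg.SameCycle o o') ∧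
      ∀ e, e ∈ crossPairs l vr d ↔ e.1 ∈ l ∧ e.2 = sg e.1 := by
  let sg : Equiv.Perm D :=
    { toFun := fun o => (fib l vr (vr o)).formPerm o
      invFun := fun o => (fib l vr (vr o)).formPerm⁻¹ o
      left_inv := by
        intro o
        have h1 : vr ((fib l vr (vr o)).formPerm o) = vr o := Cyc_vr rfl
        simp only [h1]
        exact (fib l vr (vr o)).formPerm.symm_apply_apply o
      right_inv := by
        intro o
        have h1 : vr ((fib l vr (vr o)).formPerm⁻¹ o) = vr o := Cyc_vr' rfl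
        simp only [h1]
        exact (fib l vr (vr o)).formPerm.apply_symm_apply o }
  have hsg : ∀ o, sg o = (fib l vr (vr o)).formPerm o := fun _ => rfl
  have hnd : ∀ z, (fib l vr z).Nodup := fun z => hl.filter _
  have hvr : ∀ o, vr (sg o) = vr o := fun o => Cyc_vr (l := l) (vr := vr) (z := vr o) rfl
  have hpow : ∀ (n : ℕ) (o : D), (sg ^ n) o = ((fib l vr (vr o)).formPerm ^ n) o ∧
      vr ((sg ^ n) o) = vr o := by
    intro n o
    induction n with
    | zero => exact ⟨rfl, rfl⟩
    | succ n ih =>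
      have h1 : (sg ^ (n + 1)) o = sg ((sg ^ n) o) := by
        rw [pow_succ']
        rfl
      refine ⟨?_, ?_⟩
      · rw [h1, hsg, ih.2, ih.1, pow_succ']
        rfl
      · rw [h1, hvr, ih.2]
  have hget : ∀ (z : Z) (i : ℕ) (hi : i < (fib l vr z).length),
      sg ((fib l vr z)[i]) = (fib l vr z)[(i + 1) % (fib l vr z).length]'(Nat.mod_lt _ (by omega))
      := by
    intro z i hi
    have h1 : vr ((fib l vr z)[i]) = z := (Cyc_mem_fib.1 (List.getElem_mem hi)).2
    rw [hsg, h1]
    exact List.formPerm_apply_getElem _ (hnd z) i hi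
  refine ⟨sg, ?_, hvr, ?_, ?_⟩
  · intro o
    have h1 : o ∈ fib l vr (vr o) ↔ o ∈ l := by
      rw [Cyc_mem_fib]
      exact and_iff_left rfl
    have h2 : sg o ∈ fib l vr (vr o) ↔ sg o ∈ l := by
      rw [Cyc_mem_fib]
      exact and_iff_left (hvr o)
    rw [← h1, ← h2, hsg, List.formPerm_mem_iff_mem]
  · intro o ho o' ho' hoo
    have h1 : o ∈ fib l vr (vr o) := Cyc_mem_fib.2 ⟨ho, rfl⟩
    have h2 : o' ∈ fib l vr (vr o) := Cyc_mem_fib.2 ⟨ho', hoo.symm⟩
    obtain ⟨i, hi, hi'⟩ := List.mem_iff_getElem.1 h1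
    obtain ⟨j, hj, hj'⟩ := List.mem_iff_getElem.1 h2
    refine ⟨((j + (fib l vr (vr o)).length - i : ℕ) : ℤ), ?_⟩
    rw [zpow_natCast, (hpow _ o).1]
    have h3 := List.formPerm_pow_apply_getElem (fib l vr (vr o)) (hnd _)
      (j + (fib l vr (vr o)).length - i) i hi
    have h4 : (i + (j + (fib l vr (vr o)).length - i)) % (fib l vr (vr o)).length = j := by
      have : i + (j + (fib l vr (vr o)).length - i) = j + (fib l vr (vr o)).length := by omega
      rw [this, Nat.add_mod_right, Nat.mod_eq_of_lt hj]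
    simp only [h4] at h3
    rw [hi', hj'] at h3
    exact h3
  · intro e
    unfold crossPairs
    simp only [List.mem_flatMap, List.mem_map, List.mem_range, List.mem_dedup]
    constructor
    · rintro ⟨z, -, i, hi, rfl⟩
      simp only
      rw [Cyc_getD _ _ _ hi, List.getD_eq_getElem _ _ hi]
      exact ⟨(Cyc_mem_fib.1 (List.getElem_mem hi)).1, (hget z i hi).symm⟩
    · rintro ⟨h1, h2⟩
      have h3 : e.1 ∈ fib l vr (vr e.1) := Cyc_mem_fib.2 ⟨h1, rfl⟩
      obtain ⟨i, hi, hi'⟩ := List.mem_iff_getElem.1 h3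
      refine ⟨vr e.1, ⟨e.1, h1, rfl⟩, i, hi, ?_⟩
      rw [Cyc_getD _ _ _ hi, List.getD_eq_getElem _ _ hi, ← hget _ i hi, hi', ← h2]

end Pool.Agent.H24.GC
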