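import Pool.Agent.H24.GC.CoreA
import Pool.Agent.H24.GC.Cyc

/-!
# JOB GC-11: the core theorem

Let `nu` be the function of `exists_nu` and `ρ (q, w) = π w`.

(⇒) Let `F` be a cover of the graph.
(1) `Typed` holds for `ρ`: for the vertex `(q, w)` take `e b = π w'` for `b = nu q w w'`, `w' ∈ N(w)`
(`Set.InjOn`, `Function.invFunOn (nu q w) (N w)`); `e` is bijective onto `N_H(π w)` since `K.cov` is a
cover, and `Sim (π w') (ρ (nu q w w'))` by the formulas for `nu` and `sim1`, `sim2` (`sim_refl`,
`sim_symm`). So `Sim (F (q, w)) (π w)` by `sim_of_cover`.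
(2) For every `q` the functions `w ↦ F (q, w)`, `w w' ↦ F (nu q w w')` form a `PCov` with respect to the
cut arcs of `q` (for `q = inl p`: `∃ o, pc o = p ∧ ar o = (w, w')`; for `q = inr o`: `cut1 (ar o)`).
(3) Let `a' o = (F (inr o, (ar o).1), F (inr o, (ar o).2))`. The spacers are straight (`str1`):
`F (inl (pc o), (ar o).1) = (a' o).1` and `F (inl (pc (sg o)), (ar (sg o)).2) = (a' o).2`.
(4) If `kil (pc (sg o))` then `a' (sg o) = a' o`: by `str` for the piece `pc (sg o)`,
`(a' o).1 = F (nu (inl (pc (sg o))) (ar (sg o)).2 (ar (sg o)).1) = F (inl (pc (sg o)), (ar (sg o)).1)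
= (a' (sg o)).1`, and
`(a' (sg o)).2 = F (nu (inl (pc (sg o))) (ar (sg o)).1 (ar (sg o)).2) =
F (inl (pc (sg o)), (ar (sg o)).2) = (a' o).2`.
(5) By `const_of_cycle` (`good o = kil (pc o)`, `cyc`, `non`, `var_sg`) `a' o = a' o'` if
`var o = var o'`. (`SameCycle o o'` implies `var o = var o'` by `var_sg`.) Let `a z = a' o` for some `o`
with `var o = z` (anything if there is none, `Nonempty V`).
(6) Let `p` be a piece, `f w = F (inl p, w)`. For `w ~ w'` we have `F (nu (inl p) w w') = f w'`: clear if
uncut. If `ar o = (w, w')`, `pc o = p`: the left side is `F (inr o, (ar o).2) = (a' o).2`, the right side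
is, with `o = sg o₁`, `(a' o₁).2 = (a' o).2`. If `ar o = (w', w)`, `o = sg o₁`: the left side is
`F (inr o₁, (ar o₁).1) = (a' o₁).1 = (a' o).1`, the right side is `F (inl (pc o), (ar o).1) = (a' o).1`.
So `f` is a cover with `(f (ar o).1, f (ar o).2) = a' o = a (var o)`.

(⇐) Choose covers `f p` and let `F (inl p, w) = f p w`, `F (inr o, w) = f (pc o) w`. Then
`F (nu q w w')` is the value of the cover belonging to `q` at `w'` for all `w ~ w'` (go through the
formulas for `nu`; for the two cross formulas use that both sides are components of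
`a (var (sg o)) = a (var o)`). So `F` is a cover (`Set.BijOn.comp`, compare the image of `N(w)`).
-/

namespace Pool.Agent.H24.GC

variable {V : Type} {H : SimpleGraph V}

/-- the conditions on an instance; `var o` is the variable of the occurrence `o`, the pieces `p` with
`kil p` are the killer pieces -/
structure Inst.OK (K : Kit H) (I : Inst K.W) {Z : Type} (var : I.O → Z) (kil : I.P → Prop) :
    Prop where
  fin : Finite I.O
  adj : ∀ o, K.gr.Adj (I.ar o).1 (I.ar o).2
  inj : ∀ o o', I.pc o = I.pc o' → (I.ar o = I.ar o' ∨ I.ar o = (I.ar o').swap) → o = o'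
  sim1 : ∀ o, Sim H (K.π (I.ar (I.sg o)).1) (K.π (I.ar o).1)
  sim2 : ∀ o, Sim H (K.π (I.ar (I.sg o)).2) (K.π (I.ar o).2)
  var_sg : ∀ o, var (I.sg o) = var o
  cyc : ∀ o o', var o = var o' → I.sg.SameCycle o o'
  non : ∀ o o', var o = var o' → ¬ kil (I.pc o) → ¬ kil (I.pc o') → o = o'
  str : ∀ p, kil p → Straight H K.gr K.π (fun w w' => ∃ o, I.pc o = p ∧ I.ar o = (w, w'))
  str1 : ∀ o, Straight H K.gr K.π (cut1 (I.ar o))

theorem coreB_bijOn {α β γ : Type} {s : Set α} {t : Set β} {u : Set γ} {h : α → β} {F : β → γ}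
    (h1 : Set.BijOn h s t) (h2 : Set.BijOn (fun x => F (h x)) s u) : Set.BijOn F t u := by
  refine ⟨?_, ?_, ?_⟩
  · intro b hb
    obtain ⟨x, hx, rfl⟩ := h1.surjOn hb
    exact h2.mapsTo hx
  · intro b hb b' hb' e
    obtain ⟨x, hx, rfl⟩ := h1.surjOn hb
    obtain ⟨x', hx', rfl⟩ := h1.surjOn hb'
    rw [h2.injOn hx hx' e]
  · intro y hy
    obtain ⟨x, hx, rfl⟩ := h2.surjOn hy
    exact ⟨h x, h1.mapsTo hx, rfl⟩

/-- the case distinction for a dart `(w, w')` of the piece `p` -/
theorem coreB_cases {W : Type} (I : Inst W) (p : I.P) (w w' : W) :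
    (∃ o, I.pc o = p ∧ I.ar o = (w, w')) ∨ (∃ o, I.pc o = p ∧ I.ar o = (w', w)) ∨
      (∀ o, I.pc o = p → I.ar o ≠ (w, w') ∧ I.ar o ≠ (w', w)) := by
  by_cases h1 : ∃ o, I.pc o = p ∧ I.ar o = (w, w')
  · exact Or.inl h1
  · by_cases h2 : ∃ o, I.pc o = p ∧ I.ar o = (w', w)
    · exact Or.inr (Or.inl h2)
    · exact Or.inr (Or.inr fun o ho => ⟨fun e => h1 ⟨o, ho, e⟩, fun e => h2 ⟨o, ho, e⟩⟩)

theorem coreB_var {O Z : Type} {sg : Equiv.Perm O} {var : O → Z} (h : ∀ o, var (sg o) = var o)
    {o o' : O} (hs : sg.SameCycle o o') : var o = var o' := by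
  have hn : ∀ (n : ℕ) (o : O), var ((sg ^ n) o) = var o := by
    intro n
    induction n with
    | zero => intro o; rfl
    | succ n ih =>
      intro o
      rw [pow_succ, Equiv.Perm.mul_apply, ih, h]
  obtain ⟨i, hi⟩ := hs
  rcases Int.le_total 0 i with h0 | h0
  · obtain ⟨n, rfl⟩ := Int.eq_ofNat_of_zero_le h0
    rw [← hi]
    exact (hn n o).symm
  · obtain ⟨n, hn'⟩ := Int.eq_ofNat_of_zero_le (Int.neg_nonneg_of_nonpos h0)
    have e : (sg ^ n) o' = o := by
      rw [← hi, ← zpow_natCast sg n, ← Equiv.Perm.mul_apply, ← zpow_add]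
      have e0 : (n : ℤ) + i = 0 := by omega
      rw [e0, zpow_zero]
      rfl
    rw [← e]
    exact hn n o'

theorem core [Finite V] [Nonempty V] {K : Kit H} {I : Inst K.W} {Z : Type} {var : I.O → Z}
    {kil : I.P → Prop} (hI : I.OK K var kil) :
    Covers (I.graph K.gr) H ↔ ∃ a : Z → V × V, ∀ p, ∃ f : K.W → V, IsCover K.gr H f ∧
      ∀ o, I.pc o = p → (f (I.ar o).1, f (I.ar o).2) = a (var o) := by
  classical
  obtain ⟨nu, hbij, hin1, hin2, hv1, hv2, hc1, hc2⟩ := exists_nu (g := K.gr) hI.adj hI.inj
  have := hI.fin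
  constructor
  · rintro ⟨F, hF⟩
    -- types of the values of `nu`
    have hnu : ∀ q w w', K.gr.Adj w w' → Sim H (K.π w') (K.π (nu q w w').2) := by
      intro q w w' hw
      rcases q with p | o
      · rcases coreB_cases I p w w' with ⟨o, ho, har⟩ | ⟨o, ho, har⟩ | hun
        · have e := hv1 o
          rw [ho, har] at e
          rw [e]
          exact sim_refl H _
        · have e := hc2 (I.sg.symm o)
          have h1 := hI.sim1 (I.sg.symm o)
          rw [Equiv.apply_symm_apply] at e h1
          rw [ho, har] at e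
          rw [e]
          rw [har] at h1
          exact h1
        · rw [hin1 p w w' hw hun]
          exact sim_refl H _
      · by_cases h1 : I.ar o = (w, w')
        · have e := hc1 o
          rw [h1] at e
          rw [e]
          have h2 := hI.sim2 o
          rw [h1] at h2
          exact sim_symm h2
        · by_cases h2 : I.ar o = (w', w)
          · have e := hv2 o
            rw [h2] at e
            rw [e]
            exact sim_refl H _
          · rw [hin2 o w w' hw h1 h2]
            exact sim_refl H _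
    have htyped : Typed (I.graph K.gr) H (fun x : I.Vx => K.π x.2) := by
      rintro ⟨q, w⟩
      by_cases hne : Nonempty K.W
      · have hb := hbij q w
        refine ⟨fun b => K.π (Function.invFunOn (nu q w) (K.gr.neighborSet w) b), ?_, ?_⟩
        · refine coreB_bijOn hb ?_
          have hcov := K.cov w
          refine hcov.congr ?_
          intro w' hw'
          show K.π w' = K.π (Function.invFunOn (nu q w) (K.gr.neighborSet w) (nu q w w'))
          rw [hb.injOn.leftInvOn_invFunOn hw']
        · intro b hadj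
          obtain ⟨w', hw', e⟩ := hb.surjOn (show b ∈ (I.graph K.gr).neighborSet (q, w) from hadj)
          have e2 : Function.invFunOn (nu q w) (K.gr.neighborSet w) b = w' := by
            rw [← e]
            exact hb.injOn.leftInvOn_invFunOn hw'
          show Sim H (K.π (Function.invFunOn (nu q w) (K.gr.neighborSet w) b)) (K.π b.2)
          rw [e2, ← e]
          exact hnu q w w' hw'
      · exact absurd ⟨w⟩ hne
    have hsim : ∀ x : I.Vx, Sim H (F x) (K.π x.2) := fun x => sim_of_cover htyped hF x
    have hpcov : ∀ (q : I.P ⊕ I.O) (cut : K.W → K.W → Prop),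
        (∀ w w', K.gr.Adj w w' → ¬ cut w w' → ¬ cut w' w → nu q w w' = (q, w')) →
        PCov H K.gr K.π cut (fun w => F (q, w)) (fun w w' => F (nu q w w')) := by
      intro q cut hcut
      refine ⟨fun w => (hF (q, w)).comp (hbij q w), ?_, fun w => hsim (q, w), ?_⟩
      · intro w w' hw h1 h2
        show F (nu q w w') = F (q, w')
        rw [hcut w w' hw h1 h2]
      · intro w w' hw
        exact sim_trans (hsim (nu q w w')) (sim_symm (hnu q w w' hw))
    -- the spacers are straight
    have hsp : ∀ o w w', K.gr.Adj w w' → F (nu (Sum.inr o) w w') = F (Sum.inr o, w') := by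
      intro o
      refine hI.str1 o _ _ (hpcov (Sum.inr o) (cut1 (I.ar o)) ?_)
      intro w w' hw h1 h2
      exact hin2 o w w' hw (fun e => h1 e.symm) (fun e => h2 e.symm)
    have hsp1 : ∀ o, F (Sum.inl (I.pc o), (I.ar o).1) = F (Sum.inr o, (I.ar o).1) := by
      intro o
      have h := hsp o _ _ (hI.adj o).symm
      rw [hv2 o] at h
      exact h
    have hsp2 : ∀ o, F (Sum.inl (I.pc (I.sg o)), (I.ar (I.sg o)).2) =
        F (Sum.inr o, (I.ar o).2) := by
      intro o
      have h := hsp o _ _ (hI.adj o)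
      rw [hc1 o] at h
      exact h
    -- the killer pieces
    have hkil : ∀ o, kil (I.pc (I.sg o)) →
        (F (Sum.inr (I.sg o), (I.ar (I.sg o)).1), F (Sum.inr (I.sg o), (I.ar (I.sg o)).2)) =
        (F (Sum.inr o, (I.ar o).1), F (Sum.inr o, (I.ar o).2)) := by
      intro o hk
      have hst : ∀ w w', K.gr.Adj w w' →
          F (nu (Sum.inl (I.pc (I.sg o))) w w') = F (Sum.inl (I.pc (I.sg o)), w') := by
        refine hI.str _ hk _ _ (hpcov (Sum.inl (I.pc (I.sg o))) _ ?_)
        intro w w' hw h1 h2
        refine hin1 _ w w' hw (fun o' ho' => ⟨fun e => h1 ⟨o', ho', e⟩, fun e => h2 ⟨o', ho', e⟩⟩)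
      have e1 := hst _ _ (hI.adj (I.sg o)).symm
      rw [hc2 o] at e1
      have e2 := hst _ _ (hI.adj (I.sg o))
      rw [hv1 (I.sg o)] at e2
      rw [← hsp1 (I.sg o), ← e1, e2, hsp2 o]
    have hvar : ∀ o o', I.sg.SameCycle o o' → var o = var o' := fun o o' h =>
      coreB_var hI.var_sg h
    have hconst : ∀ o o', var o = var o' →
        (F (Sum.inr o, (I.ar o).1), F (Sum.inr o, (I.ar o).2)) =
        (F (Sum.inr o', (I.ar o').1), F (Sum.inr o', (I.ar o').2)) := by
      intro o o' h
      exact const_of_cycle (sg := I.sg)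
        (a := fun o => (F (Sum.inr o, (I.ar o).1), F (Sum.inr o, (I.ar o).2)))
        (good := fun o => kil (I.pc o)) hkil
        (fun u u' hu h1 h2 => hI.non u u' (hvar u u' hu) h1 h2) (hI.cyc o o' h)
    obtain ⟨v0⟩ := (inferInstance : Nonempty V)
    have hpre : ∀ o, var (I.sg.symm o) = var o := fun o => by
      have h := hI.var_sg (I.sg.symm o)
      rw [Equiv.apply_symm_apply] at h
      exact h.symm
    -- the values at the heads in the pieces
    have hhead : ∀ o, F (Sum.inl (I.pc o), (I.ar o).2) = F (Sum.inr o, (I.ar o).2) := by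
      intro o
      have h := hsp2 (I.sg.symm o)
      rw [Equiv.apply_symm_apply] at h
      rw [h]
      exact (Prod.ext_iff.1 (hconst _ _ (hpre o))).2
    refine ⟨fun z => if h : ∃ o, var o = z then
      (F (Sum.inr h.choose, (I.ar h.choose).1), F (Sum.inr h.choose, (I.ar h.choose).2))
      else (v0, v0), fun p => ⟨fun w => F (Sum.inl p, w), ?_, ?_⟩⟩
    · intro w
      have h1 : Set.BijOn (fun w' => F (nu (Sum.inl p) w w')) (K.gr.neighborSet w)
          (H.neighborSet (F (Sum.inl p, w))) := (hF (Sum.inl p, w)).comp (hbij (Sum.inl p) w)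
      refine h1.congr ?_
      intro w' hw'
      show F (nu (Sum.inl p) w w') = F (Sum.inl p, w')
      rcases coreB_cases I p w w' with ⟨o, ho, har⟩ | ⟨o, ho, har⟩ | hun
      · have e := hv1 o
        have e2 := hhead o
        rw [ho, har] at e
        rw [ho, har] at e2
        rw [e, e2]
      · have e := hc2 (I.sg.symm o)
        have e2 := hsp1 o
        have e3 := (Prod.ext_iff.1 (hconst _ _ (hpre o))).1
        rw [Equiv.apply_symm_apply] at e
        rw [ho, har] at e
        rw [ho, har] at e2
        rw [har] at e3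
        rw [e, e2]
        exact e3
      · rw [hin1 p w w' hw' hun]
    · intro o ho
      have hex : ∃ o', var o' = var o := ⟨o, rfl⟩
      show (F (Sum.inl p, (I.ar o).1), F (Sum.inl p, (I.ar o).2)) =
        (if h : ∃ o', var o' = var o then
          (F (Sum.inr h.choose, (I.ar h.choose).1), F (Sum.inr h.choose, (I.ar h.choose).2))
          else (v0, v0))
      rw [dif_pos hex, ← hconst o hex.choose hex.choose_spec.symm, ← ho, hsp1 o, hhead o]
  · rintro ⟨a, ha⟩
    choose f hf hfa using ha
    have hf1 : ∀ o, f (I.pc o) (I.ar o).1 = (a (var o)).1 := fun o =>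
      (Prod.ext_iff.1 (hfa (I.pc o) o rfl)).1
    have hf2 : ∀ o, f (I.pc o) (I.ar o).2 = (a (var o)).2 := fun o =>
      (Prod.ext_iff.1 (hfa (I.pc o) o rfl)).2
    -- the cover belonging to a copy
    set fq : I.P ⊕ I.O → K.W → V := fun q => Sum.elim f (fun o => f (I.pc o)) q with hfq
    have hkey : ∀ q w w', K.gr.Adj w w' → fq (nu q w w').1 (nu q w w').2 = fq q w' := by
      intro q w w' hw
      rcases q with p | o
      · rcases coreB_cases I p w w' with ⟨o, ho, har⟩ | ⟨o, ho, har⟩ | hun
        · have e := hv1 o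
          rw [ho, har] at e
          rw [e]
          show f (I.pc o) w' = f p w'
          rw [ho]
        · have e := hc2 (I.sg.symm o)
          have e1 := hf1 (I.sg.symm o)
          have e2 := hf1 o
          have e3 := hI.var_sg (I.sg.symm o)
          rw [Equiv.apply_symm_apply] at e e3
          rw [ho, har] at e
          rw [ho, har, e3] at e2
          rw [e]
          show f (I.pc (I.sg.symm o)) (I.ar (I.sg.symm o)).1 = f p w'
          rw [e1]
          exact e2.symm
        · rw [hin1 p w w' hw hun]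
      · by_cases h1 : I.ar o = (w, w')
        · have e := hc1 o
          have e1 := hf2 (I.sg o)
          have e2 := hf2 o
          rw [hI.var_sg o] at e1
          rw [h1] at e e2
          rw [e]
          show f (I.pc (I.sg o)) (I.ar (I.sg o)).2 = f (I.pc o) w'
          rw [e1]
          exact e2.symm
        · by_cases h2 : I.ar o = (w', w)
          · have e := hv2 o
            rw [h2] at e
            rw [e]
            rfl
          · rw [hin2 o w w' hw h1 h2]
    refine ⟨fun x => fq x.1 x.2, ?_⟩
    rintro ⟨q, w⟩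
    refine coreB_bijOn (hbij q w) ?_
    have hcov : Set.BijOn (fq q) (K.gr.neighborSet w) (H.neighborSet (fq q w)) := by
      rcases q with p | o
      · exact hf p w
      · exact hf (I.pc o) w
    refine hcov.congr ?_
    intro w' hw'
    exact (hkey q w w' hw').symm

end Pool.Agent.H24.GC
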