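import Pool.Agent.H24.GC.Defs

/-!
# JOB GC-6: the flow lemma

`ind a x y` is `1` if `a = (x, y)` and `0` otherwise, `DD = ind a₁ + ind a₂ - ind b₁ - ind b₂`.

`n_const`: let `n x - n y = DD x y - DD y x` along the edges. If `H.Adj x y` and `n x ≠ n y` then
`(x, y)` or `(y, x)` is one of `a₁, a₂, b₁, b₂`, so `P x y`. For `t : ℤ` let `S t = {x | t ≤ n x}`. If
`S t` and its complement are nonempty then `NoCut` gives at least three pairs `(x, y)` with `H.Adj x y`,
`x ∈ S t`, `y ∉ S t`. On the other hand `∑ (n x - n y)` over the pairs `(x, y)` with `H.Adj x y`,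
`n y < n x` is at most `4`: `n x - n y ≤ ind a₁ x y + ind a₂ x y + ind b₁ y x + ind b₂ y x`, and
each of the four indicators is `1` for at most one pair. Let `m`, `m'` be the largest and the smallest
value of `n`. If `m' + 2 ≤ m` then `S m` and `S (m - 1)` give `3 + 3` in this sum
(`n x - n y ≥ [x ∈ S m, y ∉ S m] + [x ∈ S (m-1), y ∉ S (m-1)]` if `n y < n x`), contradiction. So all
values are in `{m', m' + 1}`; if both occur then `m' * card V < ∑ n x = c * card V < (m' + 1) * card V`,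
impossible. So `n` is constant, and the constant is `c`. (`V` empty: nothing to prove.)

`dd_symm`: for adjacent `x, y` from `n_const`; otherwise all indicators vanish at `(x, y)`, `(y, x)`.

`dd_cases`: evaluate the symmetry at `(x, y) = a₁`: `DD a₁ = DD a₁.swap`. If `a₁ = b₁` then
`ind a₂ - ind b₂` is symmetric; at `a₂`: if `a₂ ≠ b₂`, the left side is `1` and the right side is
`-[b₂ = a₂.swap] ≤ 0` (`a₂ ≠ a₂.swap` since `a₂.1 ≠ a₂.2`), contradiction. The same if `a₁ = b₂`, or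
`a₂ = b₁` or `a₂ = b₂`. Now let `{a₁, a₂}` and `{b₁, b₂}` be disjoint. Then `0 < DD a₁`, so
`0 < DD a₁.swap`, hence `a₁.swap` is `a₁` or `a₂`, so it is `a₂`. In the same way `b₂ = b₁.swap`.

`no_exotic`: for adjacent `x, y` the sum `h x + h y` is `1` if `{x, y}` is the edge of `a`, `-1` if it is
the edge of `b`, and `0` otherwise. Let `S = {x | |h x| = |h a.1|}`, nonempty. An edge from `S` to the
complement has `|h x| ≠ |h y|`, so it is the edge of `a` or of `b`; there are at most two such pairs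
`(x, y)` with `x ∈ S`, `y ∉ S` (one for each edge). By `NoCut` the complement of `S` is empty. So
`|h a.1| = |h a.2|` with `h a.1 + h a.2 = 1`: if `h a.1 = h a.2`, then `2 * h a.1 = 1`, and if
`h a.1 = - h a.2` then `0 = 1`.
-/

namespace Pool.Agent.H24.GC

variable {V : Type} {H : SimpleGraph V}

open Classical in
/-- indicator of the pair `a` -/
noncomputable def ind (a : V × V) (x y : V) : ℤ := if a = (x, y) then 1 else 0

/-- the flow of two pairs minus the flow of two pairs -/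
noncomputable def DD (a₁ a₂ b₁ b₂ : V × V) (x y : V) : ℤ :=
  ind a₁ x y + ind a₂ x y - ind b₁ x y - ind b₂ x y

/-- `a` is an arc of `H` and satisfies `P` in both directions -/
def Arc (H : SimpleGraph V) (P : V → V → Prop) (a : V × V) : Prop :=
  H.Adj a.1 a.2 ∧ P a.1 a.2 ∧ P a.2 a.1

/-- the crossing weight -/
noncomputable def dlW (a₁ a₂ b₁ b₂ : V × V) (e : V × V) : ℤ :=
  ind a₁ e.1 e.2 + ind a₂ e.1 e.2 + ind b₁ e.2 e.1 + ind b₂ e.2 e.1

theorem dl_ind_nonneg (a : V × V) (x y : V) : 0 ≤ ind a x y := by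
  unfold ind
  split_ifs <;> simp

theorem dl_ind_self (a : V × V) : ind a a.1 a.2 = 1 := by
  unfold ind
  rw [if_pos rfl]

theorem dl_ind_ne {a : V × V} {x y : V} (h : ind a x y ≠ 0) : a = (x, y) := by
  unfold ind at h
  by_contra h2
  exact h (if_neg h2)

theorem dl_ind_zero {a : V × V} {x y : V} (h : a ≠ (x, y)) : ind a x y = 0 := by
  unfold ind
  exact if_neg h

theorem dl_sum [Fintype V] (a : V × V) : ∑ e : V × V, ind a e.1 e.2 = 1 := by
  classical
  rw [Finset.sum_eq_single a]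
  · exact dl_ind_self a
  · intro e _ he
    exact dl_ind_zero fun h => he h.symm
  · intro h
    exact absurd (Finset.mem_univ a) h

theorem dl_sum' [Fintype V] (a : V × V) : ∑ e : V × V, ind a e.2 e.1 = 1 := by
  classical
  rw [Finset.sum_eq_single a.swap]
  · exact dl_ind_self a
  · intro e _ he
    refine dl_ind_zero fun h => he ?_
    rw [h]
    rfl
  · intro h
    exact absurd (Finset.mem_univ _) h

theorem dl_sumW [Fintype V] (a₁ a₂ b₁ b₂ : V × V) :
    ∑ e : V × V, dlW a₁ a₂ b₁ b₂ e = 4 := by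
  unfold dlW
  rw [Finset.sum_add_distrib, Finset.sum_add_distrib, Finset.sum_add_distrib, dl_sum, dl_sum,
    dl_sum', dl_sum']
  norm_num

theorem dl_W_nonneg (a₁ a₂ b₁ b₂ : V × V) (e : V × V) : 0 ≤ dlW a₁ a₂ b₁ b₂ e := by
  have h1 := dl_ind_nonneg a₁ e.1 e.2
  have h2 := dl_ind_nonneg a₂ e.1 e.2
  have h3 := dl_ind_nonneg b₁ e.2 e.1
  have h4 := dl_ind_nonneg b₂ e.2 e.1
  unfold dlW
  omega

theorem dl_W_ge {a₁ a₂ b₁ b₂ : V × V} {n : V → ℤ} {x y : V}
    (hn : n x - n y = DD a₁ a₂ b₁ b₂ x y - DD a₁ a₂ b₁ b₂ y x) :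
    n x - n y ≤ dlW a₁ a₂ b₁ b₂ (x, y) := by
  have h1 := dl_ind_nonneg a₁ y x
  have h2 := dl_ind_nonneg a₂ y x
  have h3 := dl_ind_nonneg b₁ x y
  have h4 := dl_ind_nonneg b₂ x y
  unfold DD at hn
  unfold dlW
  simp only
  omega

theorem dl_ncard [Fintype V] (E : Set (V × V)) [DecidablePred (· ∈ E)] :
    (E.ncard : ℤ) = ∑ e : V × V, if e ∈ E then 1 else 0 := by
  classical
  rw [Set.ncard_eq_toFinset_card', Finset.sum_ite, Finset.sum_const_zero, add_zero,
    Finset.sum_const, nsmul_eq_mul, mul_one, Nat.cast_inj]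
  refine Finset.card_bij (fun e _ => e) ?_ ?_ ?_
  · intro e he
    simpa using he
  · intro e _ f _ h
    exact h
  · intro e he
    exact ⟨e, by simpa using he, rfl⟩

theorem dl_gap [Fintype V] {P : V → V → Prop} (hP : NoCut H P) {a₁ a₂ b₁ b₂ : V × V}
    (ha₁ : Arc H P a₁) (ha₂ : Arc H P a₂) (hb₁ : Arc H P b₁) (hb₂ : Arc H P b₂) {n : V → ℤ}
    (hn : ∀ x y, H.Adj x y → n x - n y = DD a₁ a₂ b₁ b₂ x y - DD a₁ a₂ b₁ b₂ y x) (x₀ x₁ : V) :
    n x₁ ≤ n x₀ + 1 := by
  classical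
  by_contra hlt
  push Not at hlt
  have cut : ∀ t : ℤ, t ≤ n x₁ → n x₀ < t →
      (3 : ℤ) ≤ ∑ e : V × V,
        if e ∈ {e : V × V | e.1 ∈ {x | t ≤ n x} ∧ e.2 ∈ {x | t ≤ n x}ᶜ ∧ H.Adj e.1 e.2}
          then 1 else 0 := by
    intro t h1 h0
    rw [← dl_ncard]
    have h3 := hP {x | t ≤ n x} ⟨x₁, h1⟩ ⟨x₀, by simpa using h0⟩ ?_
    · exact_mod_cast h3
    · intro x hx y hy hxy
      have hx' : t ≤ n x := hx
      have hy' : n y < t := by simpa using hy
      have hw := dl_W_ge (hn x y hxy)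
      unfold dlW at hw
      simp only at hw
      by_cases c1 : ind a₁ x y = 0
      · by_cases c2 : ind a₂ x y = 0
        · by_cases c3 : ind b₁ y x = 0
          · by_cases c4 : ind b₂ y x = 0
            · omega
            · have := hb₂
              rw [dl_ind_ne c4] at this
              exact this.2.2
          · have := hb₁
            rw [dl_ind_ne c3] at this
            exact this.2.2
        · have := ha₂
          rw [dl_ind_ne c2] at this
          exact this.2.1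
      · have := ha₁
        rw [dl_ind_ne c1] at this
        exact this.2.1
  have h1 := cut (n x₁) le_rfl (by omega)
  have h2 := cut (n x₁ - 1) (by omega) (by omega)
  have h3 := dl_sumW a₁ a₂ b₁ b₂
  have h4 := Finset.sum_le_sum (s := (Finset.univ : Finset (V × V)))
    (f := fun e : V × V =>
      (if e ∈ {e : V × V | e.1 ∈ {x | n x₁ ≤ n x} ∧ e.2 ∈ {x | n x₁ ≤ n x}ᶜ ∧ H.Adj e.1 e.2}
          then (1 : ℤ) else 0) +
      (if e ∈ {e : V × V | e.1 ∈ {x | n x₁ - 1 ≤ n x} ∧ e.2 ∈ {x | n x₁ - 1 ≤ n x}ᶜ ∧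
        H.Adj e.1 e.2} then (1 : ℤ) else 0))
    (g := fun e => dlW a₁ a₂ b₁ b₂ e) (by
      intro e _
      have hw0 := dl_W_nonneg a₁ a₂ b₁ b₂ e
      split_ifs with c1 c2 c2
      · have e1 : n x₁ ≤ n e.1 := c1.1
        have e2 : ¬ (n x₁ - 1 ≤ n e.2) := c2.2.1
        have hw := dl_W_ge (hn e.1 e.2 c1.2.2)
        have : dlW a₁ a₂ b₁ b₂ (e.1, e.2) = dlW a₁ a₂ b₁ b₂ e := rfl
        omega
      · have e1 : n x₁ ≤ n e.1 := c1.1
        have e2 : ¬ (n x₁ ≤ n e.2) := c1.2.1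
        have hw := dl_W_ge (hn e.1 e.2 c1.2.2)
        have : dlW a₁ a₂ b₁ b₂ (e.1, e.2) = dlW a₁ a₂ b₁ b₂ e := rfl
        omega
      · have e1 : n x₁ - 1 ≤ n e.1 := c2.1
        have e2 : ¬ (n x₁ - 1 ≤ n e.2) := c2.2.1
        have hw := dl_W_ge (hn e.1 e.2 c2.2.2)
        have : dlW a₁ a₂ b₁ b₂ (e.1, e.2) = dlW a₁ a₂ b₁ b₂ e := rfl
        omega
      · omega)
  rw [Finset.sum_add_distrib] at h4
  omega

theorem n_const [Fintype V] {P : V → V → Prop} (hP : NoCut H P) {a₁ a₂ b₁ b₂ : V × V}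
    (ha₁ : Arc H P a₁) (ha₂ : Arc H P a₂) (hb₁ : Arc H P b₁) (hb₂ : Arc H P b₂) {n : V → ℤ}
    (hn : ∀ x y, H.Adj x y → n x - n y = DD a₁ a₂ b₁ b₂ x y - DD a₁ a₂ b₁ b₂ y x) {c : ℤ}
    (hs : ∑ x, n x = c * Fintype.card V) (x : V) : n x = c := by
  have hg := dl_gap hP ha₁ ha₂ hb₁ hb₂ hn
  have h0 : ∑ y, (n y - c) = 0 := by
    rw [Finset.sum_sub_distrib, hs, Finset.sum_const, nsmul_eq_mul, Finset.card_univ]
    ring
  rcases lt_trichotomy (n x) c with h | h | h
  · have hle : ∀ y ∈ (Finset.univ : Finset V), 0 ≤ c - n y := by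
      intro y _
      have := hg x y
      omega
    have h1 : ∑ y, (c - n y) = 0 := by
      have : ∑ y, (c - n y) = - ∑ y, (n y - c) := by
        rw [← Finset.sum_neg_distrib]
        exact Finset.sum_congr rfl fun y _ => by ring
      rw [this, h0, neg_zero]
    have h2 := (Finset.sum_eq_zero_iff_of_nonneg hle).1 h1 x (Finset.mem_univ x)
    omega
  · exact h
  · have hle : ∀ y ∈ (Finset.univ : Finset V), 0 ≤ n y - c := by
      intro y _
      have := hg y x
      omega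
    have h2 := (Finset.sum_eq_zero_iff_of_nonneg hle).1 h0 x (Finset.mem_univ x)
    omega

theorem dl_arc_zero {P : V → V → Prop} {a : V × V} (ha : Arc H P a) {x y : V}
    (h : ¬ H.Adj x y) : ind a x y = 0 := by
  refine dl_ind_zero fun e => h ?_
  have := ha.1
  rw [e] at this
  exact this

theorem dd_symm [Fintype V] {P : V → V → Prop} (hP : NoCut H P) {a₁ a₂ b₁ b₂ : V × V}
    (ha₁ : Arc H P a₁) (ha₂ : Arc H P a₂) (hb₁ : Arc H P b₁) (hb₂ : Arc H P b₂) {n : V → ℤ}
    (hn : ∀ x y, H.Adj x y → n x - n y = DD a₁ a₂ b₁ b₂ x y - DD a₁ a₂ b₁ b₂ y x) {c : ℤ}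
    (hs : ∑ x, n x = c * Fintype.card V) (x y : V) :
    DD a₁ a₂ b₁ b₂ x y = DD a₁ a₂ b₁ b₂ y x := by
  by_cases h : H.Adj x y
  · have h1 := hn x y h
    rw [n_const hP ha₁ ha₂ hb₁ hb₂ hn hs x, n_const hP ha₁ ha₂ hb₁ hb₂ hn hs y] at h1
    omega
  · have h' : ¬ H.Adj y x := fun e => h e.symm
    unfold DD
    rw [dl_arc_zero ha₁ h, dl_arc_zero ha₂ h, dl_arc_zero hb₁ h, dl_arc_zero hb₂ h,
      dl_arc_zero ha₁ h', dl_arc_zero ha₂ h', dl_arc_zero hb₁ h', dl_arc_zero hb₂ h']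

/-- `ind a - ind b` symmetric implies `a = b` -/
theorem dl_two {a b : V × V} (ha : a.1 ≠ a.2)
    (h : ∀ x y, ind a x y - ind b x y = ind a y x - ind b y x) : a = b := by
  by_contra hne
  have h1 := h a.1 a.2
  have h2 : ind a a.2 a.1 = 0 := dl_ind_zero fun e => ha (by
    have := congrArg Prod.fst e
    exact this)
  have h3 : ind b a.1 a.2 = 0 := dl_ind_zero fun e => hne e.symm
  have h4 := dl_ind_nonneg b a.2 a.1
  rw [dl_ind_self, h2, h3] at h1
  omega

theorem dd_cases {a₁ a₂ b₁ b₂ : V × V} (ha₁ : a₁.1 ≠ a₁.2) (ha₂ : a₂.1 ≠ a₂.2)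
    (hb₁ : b₁.1 ≠ b₁.2) (hb₂ : b₂.1 ≠ b₂.2)
    (h : ∀ x y, DD a₁ a₂ b₁ b₂ x y = DD a₁ a₂ b₁ b₂ y x) :
    (a₁ = b₁ ∧ a₂ = b₂) ∨ (a₁ = b₂ ∧ a₂ = b₁) ∨
      (a₂ = a₁.swap ∧ b₂ = b₁.swap ∧ a₁ ≠ b₁ ∧ a₁ ≠ b₁.swap) := by
  unfold DD at h
  by_cases c11 : a₁ = b₁
  · subst c11
    exact Or.inl ⟨rfl, dl_two ha₂ fun x y => by have := h x y; omega⟩
  by_cases c12 : a₁ = b₂
  · subst c12
    exact Or.inr (Or.inl ⟨rfl, dl_two ha₂ fun x y => by have := h x y; omega⟩)
  by_cases c21 : a₂ = b₁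
  · subst c21
    exact Or.inr (Or.inl ⟨dl_two ha₁ fun x y => by have := h x y; omega, rfl⟩)
  by_cases c22 : a₂ = b₂
  · subst c22
    exact Or.inl ⟨dl_two ha₁ fun x y => by have := h x y; omega, rfl⟩
  refine Or.inr (Or.inr ?_)
  have k1 : a₂ = a₁.swap := by
    have h1 := h a₁.1 a₁.2
    have e1 : ind b₁ a₁.1 a₁.2 = 0 := dl_ind_zero fun e => c11 e.symm
    have e2 : ind b₂ a₁.1 a₁.2 = 0 := dl_ind_zero fun e => c12 e.symm
    have e3 : ind a₁ a₁.2 a₁.1 = 0 := dl_ind_zero fun e => ha₁ (congrArg Prod.fst e)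
    have n1 := dl_ind_nonneg a₂ a₁.1 a₁.2
    have n2 := dl_ind_nonneg b₁ a₁.2 a₁.1
    have n3 := dl_ind_nonneg b₂ a₁.2 a₁.1
    rw [dl_ind_self, e1, e2, e3] at h1
    have : ind a₂ a₁.2 a₁.1 ≠ 0 := by omega
    exact dl_ind_ne this
  have k2 : b₂ = b₁.swap := by
    have h1 := h b₁.1 b₁.2
    have e1 : ind a₁ b₁.1 b₁.2 = 0 := dl_ind_zero fun e => c11 e
    have e2 : ind a₂ b₁.1 b₁.2 = 0 := dl_ind_zero fun e => c21 e
    have e3 : ind b₁ b₁.2 b₁.1 = 0 := dl_ind_zero fun e => hb₁ (congrArg Prod.fst e)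
    have n1 := dl_ind_nonneg b₂ b₁.1 b₁.2
    have n2 := dl_ind_nonneg a₁ b₁.2 b₁.1
    have n3 := dl_ind_nonneg a₂ b₁.2 b₁.1
    rw [dl_ind_self, e1, e2, e3] at h1
    have : ind b₂ b₁.2 b₁.1 ≠ 0 := by omega
    exact dl_ind_ne this
  exact ⟨k1, k2, c11, fun e => c12 (e.trans k2.symm)⟩

theorem no_exotic [Finite V] {P : V → V → Prop} (hP : NoCut H P) {a b : V × V}
    (ha : Arc H P a) (hb : Arc H P b) (hab : a ≠ b) (hab' : a ≠ b.swap) {h : V → ℤ}
    (hh : ∀ x y, H.Adj x y → h x + h y = DD a a.swap b b.swap x y) : False := by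
  classical
  have hne : a.1 ≠ a.2 := ha.1.ne
  have edge : ∀ x y, H.Adj x y → |h x| ≠ |h y| →
      (a = (x, y) ∨ a.swap = (x, y)) ∨ (b = (x, y) ∨ b.swap = (x, y)) := by
    intro x y hxy hne2
    by_contra hcon
    push Not at hcon
    obtain ⟨⟨c1, c2⟩, c3, c4⟩ := hcon
    have h1 := hh x y hxy
    unfold DD at h1
    rw [dl_ind_zero c1, dl_ind_zero c2, dl_ind_zero c3, dl_ind_zero c4] at h1
    apply hne2
    have h2 : h x = - h y := by omega
    rw [h2, abs_neg]
  have hS : ∀ x, |h x| = |h a.1| := by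
    by_contra hcon
    push Not at hcon
    obtain ⟨x₀, hx₀⟩ := hcon
    have h3 := hP {x | |h x| = |h a.1|} ⟨a.1, rfl⟩ ⟨x₀, hx₀⟩ ?_
    · have hsub : {e : V × V | e.1 ∈ {x | |h x| = |h a.1|} ∧ e.2 ∈ {x | |h x| = |h a.1|}ᶜ ∧
          H.Adj e.1 e.2} ⊆ {a, if |h b.1| = |h a.1| then b else b.swap} := by
        rintro ⟨x, y⟩ ⟨hx, hy, hxy⟩
        have hx' : |h x| = |h a.1| := hx
        have hy' : ¬ |h y| = |h a.1| := hy
        have hxy' : H.Adj x y := hxy
        have hne3 : |h x| ≠ |h y| := fun e => hy' (e.symm.trans hx')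
        rcases edge x y hxy' hne3 with (e | e) | (e | e)
        · exact Or.inl e.symm
        · exfalso
          apply hy'
          have := congrArg Prod.snd e
          have e2 : a.1 = y := this
          rw [e2]
        · right
          have e1 : b.1 = x := congrArg Prod.fst e
          show (x, y) = _
          rw [if_pos (by rw [e1]; exact hx')]
          exact e.symm
        · right
          have e1 : b.1 = y := congrArg Prod.snd e
          show (x, y) = _
          rw [if_neg (by rw [e1]; exact hy')]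
          exact e.symm
      have h4 := Set.ncard_le_ncard hsub (Set.toFinite _)
      have h5 := Set.ncard_insert_le a {if |h b.1| = |h a.1| then b else b.swap}
      rw [Set.ncard_singleton] at h5
      omega
    · intro x hx y hy hxy
      have hx' : |h x| = |h a.1| := hx
      have hy' : ¬ |h y| = |h a.1| := hy
      have hne3 : |h x| ≠ |h y| := fun e => hy' (e.symm.trans hx')
      rcases edge x y hxy hne3 with (e | e) | (e | e)
      · have := ha.2.1
        rw [e] at this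
        exact this
      · have e1 : a.2 = x := congrArg Prod.fst e
        have e2 : a.1 = y := congrArg Prod.snd e
        rw [← e1, ← e2]
        exact ha.2.2
      · have := hb.2.1
        rw [e] at this
        exact this
      · have e1 : b.2 = x := congrArg Prod.fst e
        have e2 : b.1 = y := congrArg Prod.snd e
        rw [← e1, ← e2]
        exact hb.2.2
  have h1 := hh a.1 a.2 ha.1
  unfold DD at h1
  have e1 : ind a.swap a.1 a.2 = 0 := dl_ind_zero fun e => hne (congrArg Prod.snd e)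
  have e2 : ind b a.1 a.2 = 0 := dl_ind_zero fun e => hab e.symm
  have e3 : ind b.swap a.1 a.2 = 0 := dl_ind_zero fun e => hab' e.symm
  rw [dl_ind_self, e1, e2, e3] at h1
  rcases abs_eq_abs.1 (hS a.2) with h2 | h2 <;> omega

end Pool.Agent.H24.GC
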