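import Pool.Agent.H24.GC.Kit
import Pool.Agent.H24.GC.DLem

/-!
# JOB GC-7: counting darts

Let `f, φ` be a partial cover of the kit `K` with respect to the cut arcs `r₁ = (p, q)`,
`r₂ = (r, s)`, different edges. For `r = (p, q)` let `av r = (f p, φ p q)`, `bv r = (φ q p, f q)`.

`count_two`: let `H.Adj x y`. For every `w` with `f w = x` there is exactly one neighbour `w'` of `w` with
`φ w w' = y` (`PCov.bij`), so `n x = {w | f w = x}.ncard` is the number of the darts `(w, w')`
(`K.gr.Adj w w'`) with `f w = x`, `φ w w' = y`. The darts different from `(p, q), (q, p), (r, s), (s, r)`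
are uncut, and for them `φ w w' = f w'`; the number `U x y` of the uncut darts with `f w = x`, `f w' = y`
is symmetric, `U x y = U y x` (swap). The four other darts contribute
`ind (av r₁) x y + ind (bv r₁) y x + ind (av r₂) x y + ind (bv r₂) y x`. So
`n x = U x y + ind (av r₁) x y + ind (bv r₁) y x + ind (av r₂) x y + ind (bv r₂) y x`, the same for
`n y` with `x, y` exchanged; subtract.
`count_one`: the same with one cut arc; `DD a a b a = ind a - ind b`.
`count_sided`: here `n₁ x` is the number of the darts `(w, w')` with `sd w = true`, `f w = x`,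
`φ w w' = y`, and `n₂ y` is the number of the darts `(w', w)` with `sd w' = false`, `f w' = y`,
`φ w' w = x`. The uncut ones correspond to each other by the swap (`sd w ≠ sd w'` for adjacent `w, w'`).
The cut ones contribute `ind (av r₁) x y + ind (av r₂) x y` to `n₁ x` and
`ind (bv r₁) x y + ind (bv r₂) x y` to `n₂ y`.
`card_fibres`: `∑ x, {w | f w = x}.ncard = Nat.card K.W` (`Finset.card_eq_sum_card_fiberwise`).
`arc_av`, `arc_bv`: `H.Adj (f w) (φ w w')` for `K.gr.Adj w w'` by `PCov.bij` (`MapsTo`), and the types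
are given by `simf` and `simp`: with `P = Ty H (π p) (π q)` the pair `av (p, q)` satisfies `P` in both
directions, and so does `bv (p, q)`.
-/

namespace Pool.Agent.H24.GC

variable {V : Type} {H : SimpleGraph V} {K : Kit H}

/-- the cut with one arc -/
def cut1 {W : Type} (r : W × W) (w w' : W) : Prop := (w, w') = r

/-- the cut with two arcs -/
def cut2 {W : Type} (r₁ r₂ : W × W) (w w' : W) : Prop := (w, w') = r₁ ∨ (w, w') = r₂

/-- the value of the arc at its tail -/
def av {W : Type} (f : W → V) (φ : W → W → V) (r : W × W) : V × V := (f r.1, φ r.1 r.2)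

/-- the value of the arc at its head -/
def bv {W : Type} (f : W → V) (φ : W → W → V) (r : W × W) : V × V := (φ r.2 r.1, f r.2)

open Classical in
private theorem gc7_ncard {W : Type} [Fintype W] (P : W → Prop) :
    ({w | P w}.ncard : ℤ) = ∑ w : W, if P w then (1 : ℤ) else 0 := by
  rw [Finset.sum_boole, Set.ncard_eq_toFinset_card']
  congr 2
  ext w
  simp

open Classical in
theorem card_fibres [Fintype V] (f : K.W → V) :
    ∑ x, ({w | f w = x}.ncard : ℤ) = Nat.card K.W := by
  have : Fintype K.W := Fintype.ofFinite _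
  simp only [gc7_ncard]
  rw [Finset.sum_comm]
  have h : ∀ w : K.W, (∑ x : V, if f w = x then (1 : ℤ) else 0) = 1 := by
    intro w
    rw [Finset.sum_ite_eq]
    simp
  simp only [h]
  rw [Finset.sum_const, Finset.card_univ, Nat.card_eq_fintype_card]
  simp

theorem arc_av {cut : K.W → K.W → Prop} {f : K.W → V} {φ : K.W → K.W → V}
    (h : PCov H K.gr K.π cut f φ) {r : K.W × K.W} (hr : K.gr.Adj r.1 r.2) :
    Arc H (Ty H (K.π r.1) (K.π r.2)) (av f φ r) := by
  refine ⟨?_, Or.inl ⟨h.simf _, h.simp _ _ hr⟩, Or.inr ⟨h.simp _ _ hr, h.simf _⟩⟩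
  exact (h.bij r.1).mapsTo hr

theorem arc_bv {cut : K.W → K.W → Prop} {f : K.W → V} {φ : K.W → K.W → V}
    (h : PCov H K.gr K.π cut f φ) {r : K.W × K.W} (hr : K.gr.Adj r.1 r.2) :
    Arc H (Ty H (K.π r.1) (K.π r.2)) (bv f φ r) := by
  refine ⟨?_, Or.inl ⟨h.simp _ _ hr.symm, h.simf _⟩, Or.inr ⟨h.simf _, h.simp _ _ hr.symm⟩⟩
  exact ((h.bij r.2).mapsTo hr.symm).symm

open Classical in
/-- the contribution of a dart -/
private noncomputable def gc7E {W : Type} (g : SimpleGraph W) (f : W → V) (φ : W → W → V)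
    (x y : V) (e : W × W) : ℤ :=
  (if g.Adj e.1 e.2 ∧ f e.1 = x ∧ φ e.1 e.2 = y then 1 else 0) -
    (if g.Adj e.1 e.2 ∧ f e.2 = y ∧ φ e.2 e.1 = x then 1 else 0)

open Classical in
private theorem gc7_fibre {W : Type} [Fintype W] {g : SimpleGraph W} {π : W → V}
    {cut : W → W → Prop} {f : W → V} {φ : W → W → V} (h : PCov H g π cut f φ) {x y : V}
    (hxy : H.Adj x y) (s : W → Prop) :
    ({w | s w ∧ f w = x}.ncard : ℤ) = ∑ e : W × W,
      if s e.1 then (if g.Adj e.1 e.2 ∧ f e.1 = x ∧ φ e.1 e.2 = y then (1 : ℤ) else 0) else 0 := by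
  rw [gc7_ncard, Fintype.sum_prod_type]
  refine Finset.sum_congr rfl fun w _ => ?_
  by_cases hs : s w
  · simp only [hs, true_and, if_true]
    by_cases hx : f w = x
    · simp only [hx, true_and, if_true]
      have h1 : y ∈ H.neighborSet (f w) := by
        rw [hx]
        exact hxy
      obtain ⟨w', hw', hy⟩ := (h.bij w).surjOn h1
      rw [Finset.sum_eq_single w']
      · rw [if_pos ⟨hw', hy⟩]
      · intro w'' _ hne
        rw [if_neg]
        rintro ⟨hadj, hy'⟩
        exact hne ((h.bij w).injOn hadj hw' (hy'.trans hy.symm))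
      · intro hn
        exact absurd (Finset.mem_univ _) hn
    · simp only [hx, false_and, and_false, if_false, Finset.sum_const_zero]
  · simp only [hs, false_and, if_false, Finset.sum_const_zero]

open Classical in
private theorem gc7_diff {W : Type} [Fintype W] {g : SimpleGraph W} {π : W → V}
    {cut : W → W → Prop} {f : W → V} {φ : W → W → V} (h : PCov H g π cut f φ) {x y : V}
    (hxy : H.Adj x y) (s s' : W → Prop) (hs : ∀ w w', g.Adj w w' → (s' w' ↔ s w)) :
    ({w | s w ∧ f w = x}.ncard : ℤ) - {w | s' w ∧ f w = y}.ncard =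
      ∑ e : W × W, if s e.1 then gc7E g f φ x y e else 0 := by
  rw [gc7_fibre h hxy s, gc7_fibre h hxy.symm s']
  rw [← Equiv.sum_comp (Equiv.prodComm W W) (fun e : W × W =>
    if s' e.1 then (if g.Adj e.1 e.2 ∧ f e.1 = y ∧ φ e.1 e.2 = x then (1 : ℤ) else 0) else 0)]
  rw [← Finset.sum_sub_distrib]
  refine Finset.sum_congr rfl fun e _ => ?_
  simp only [Equiv.prodComm_apply, Prod.fst_swap, Prod.snd_swap, gc7E]
  by_cases hadj : g.Adj e.1 e.2
  · have h1 := hs e.1 e.2 hadj
    by_cases hse : s e.1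
    · have h2 := h1.2 hse
      simp only [hse, h2, if_true, hadj, hadj.symm]
    · have h2 : ¬ s' e.2 := fun h3 => hse (h1.1 h3)
      simp only [hse, h2, if_false]
      rfl
  · have h2 : ¬ g.Adj e.2 e.1 := fun h3 => hadj h3.symm
    simp only [hadj, h2, false_and, if_false]
    simp

private theorem gc7_unc {W : Type} {g : SimpleGraph W} {π : W → V}
    {cut : W → W → Prop} {f : W → V} {φ : W → W → V} (h : PCov H g π cut f φ) (x y : V)
    (e : W × W) (h1 : ¬ cut e.1 e.2) (h2 : ¬ cut e.2 e.1) : gc7E g f φ x y e = 0 := by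
  unfold gc7E
  by_cases hadj : g.Adj e.1 e.2
  · rw [h.unc _ _ hadj h1 h2, h.unc _ _ hadj.symm h2 h1]
    by_cases ha : f e.1 = x <;> by_cases hb : f e.2 = y <;> simp [hadj, ha, hb]
  · simp only [hadj, false_and, if_false, sub_self]

private theorem gc7_val {W : Type} {g : SimpleGraph W} (f : W → V) (φ : W → W → V) (x y : V)
    {r : W × W} (hr : g.Adj r.1 r.2) :
    gc7E g f φ x y r = ind (av f φ r) x y - ind (bv f φ r) x y := by
  unfold gc7E ind av bv
  by_cases h1 : f r.2 = y <;> by_cases h2 : φ r.2 r.1 = x <;> by_cases h3 : f r.1 = x <;>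
    by_cases h4 : φ r.1 r.2 = y <;> simp [hr, h1, h2, h3, h4]

private theorem gc7_val' {W : Type} {g : SimpleGraph W} (f : W → V) (φ : W → W → V) (x y : V)
    {r : W × W} (hr : g.Adj r.1 r.2) :
    gc7E g f φ x y r.swap = ind (bv f φ r) y x - ind (av f φ r) y x := by
  have hr' : g.Adj r.2 r.1 := hr.symm
  unfold gc7E ind av bv
  simp only [Prod.fst_swap, Prod.snd_swap, Prod.mk.injEq]
  by_cases h1 : f r.2 = x <;> by_cases h2 : φ r.2 r.1 = y <;> by_cases h3 : f r.1 = y <;>
    by_cases h4 : φ r.1 r.2 = x <;> simp [hr', h1, h2, h3, h4]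

theorem count_one {r : K.W × K.W} (hr : K.gr.Adj r.1 r.2) {f : K.W → V} {φ : K.W → K.W → V}
    (h : PCov H K.gr K.π (cut1 r) f φ) (x y : V) (hxy : H.Adj x y) :
    ({w | f w = x}.ncard : ℤ) - {w | f w = y}.ncard =
      DD (av f φ r) (av f φ r) (bv f φ r) (av f φ r) x y -
      DD (av f φ r) (av f φ r) (bv f φ r) (av f φ r) y x := by
  classical
  have : Fintype K.W := Fintype.ofFinite _
  have h1 := gc7_diff h hxy (fun _ => True) (fun _ => True) (fun _ _ _ => Iff.rfl)
  simp only [true_and, if_true] at h1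
  rw [h1]
  have hne : r ≠ r.swap := by
    intro he
    have h2 : r.1 = r.2 := congrArg Prod.fst he
    rw [h2] at hr
    exact hr.ne rfl
  have h3 : ∑ e : K.W × K.W, gc7E K.gr f φ x y e =
      ∑ e ∈ ({r, r.swap} : Finset (K.W × K.W)), gc7E K.gr f φ x y e := by
    symm
    apply Finset.sum_subset (Finset.subset_univ _)
    intro e _ he
    simp only [Finset.mem_insert, Finset.mem_singleton, not_or] at he
    apply gc7_unc h x y e
    · exact fun h4 => he.1 h4
    · intro h4
      apply he.2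
      have h5 : (e.2, e.1) = r := h4
      rw [← h5]
      rfl
  rw [h3, Finset.sum_pair hne, gc7_val f φ x y hr, gc7_val' f φ x y hr]
  unfold DD
  ring

private theorem gc7_four {W : Type} [DecidableEq W] {r₁ r₂ : W × W} (h1 : r₁.1 ≠ r₁.2)
    (h2 : r₂.1 ≠ r₂.2) (hr : r₁ ≠ r₂) (hr' : r₁ ≠ r₂.swap) (F : W × W → ℤ) :
    ∑ e ∈ ({r₁, r₁.swap, r₂, r₂.swap} : Finset (W × W)), F e =
      F r₁ + F r₁.swap + F r₂ + F r₂.swap := by
  have hne1 : r₁ ≠ r₁.swap := fun he => h1 (congrArg Prod.fst he)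
  have hne2 : r₂ ≠ r₂.swap := fun he => h2 (congrArg Prod.fst he)
  have hne3 : r₁.swap ≠ r₂ := by
    intro he
    apply hr'
    rw [← he, Prod.swap_swap]
  have hne4 : r₁.swap ≠ r₂.swap := fun he => hr (Prod.swap_injective he)
  rw [Finset.sum_insert, Finset.sum_insert, Finset.sum_pair hne2]
  · ring
  · simp only [Finset.mem_insert, Finset.mem_singleton, not_or]
    exact ⟨hne3, hne4⟩
  · simp only [Finset.mem_insert, Finset.mem_singleton, not_or]
    exact ⟨hne1, hr, hr'⟩

private theorem gc7_out {W : Type} [DecidableEq W] {r₁ r₂ : W × W} {e : W × W}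
    (he : e ∉ ({r₁, r₁.swap, r₂, r₂.swap} : Finset (W × W))) :
    ¬ cut2 r₁ r₂ e.1 e.2 ∧ ¬ cut2 r₁ r₂ e.2 e.1 := by
  simp only [Finset.mem_insert, Finset.mem_singleton, not_or] at he
  obtain ⟨h1, h2, h3, h4⟩ := he
  constructor
  · rintro (h | h)
    · exact h1 h
    · exact h3 h
  · rintro (h | h)
    · apply h2
      rw [← h]
      rfl
    · apply h4
      rw [← h]
      rfl

theorem count_two {r₁ r₂ : K.W × K.W} (hr₁ : K.gr.Adj r₁.1 r₁.2) (hr₂ : K.gr.Adj r₂.1 r₂.2)
    (hr : r₁ ≠ r₂) (hr' : r₁ ≠ r₂.swap) {f : K.W → V} {φ : K.W → K.W → V}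
    (h : PCov H K.gr K.π (cut2 r₁ r₂) f φ) (x y : V) (hxy : H.Adj x y) :
    ({w | f w = x}.ncard : ℤ) - {w | f w = y}.ncard =
      DD (av f φ r₁) (av f φ r₂) (bv f φ r₁) (bv f φ r₂) x y -
      DD (av f φ r₁) (av f φ r₂) (bv f φ r₁) (bv f φ r₂) y x := by
  classical
  have : Fintype K.W := Fintype.ofFinite _
  have h1 := gc7_diff h hxy (fun _ => True) (fun _ => True) (fun _ _ _ => Iff.rfl)
  simp only [true_and, if_true] at h1
  rw [h1]
  have h3 : ∑ e : K.W × K.W, gc7E K.gr f φ x y e =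
      ∑ e ∈ ({r₁, r₁.swap, r₂, r₂.swap} : Finset (K.W × K.W)), gc7E K.gr f φ x y e := by
    symm
    apply Finset.sum_subset (Finset.subset_univ _)
    intro e _ he
    obtain ⟨h4, h5⟩ := gc7_out he
    exact gc7_unc h x y e h4 h5
  rw [h3, gc7_four hr₁.ne hr₂.ne hr hr', gc7_val f φ x y hr₁, gc7_val' f φ x y hr₁,
    gc7_val f φ x y hr₂, gc7_val' f φ x y hr₂]
  unfold DD
  ring

theorem count_sided {sd : K.W → Bool} (hsd : ∀ u v, K.gr.Adj u v → sd u ≠ sd v)
    {r₁ r₂ : K.W × K.W} (hr₁ : K.gr.Adj r₁.1 r₁.2) (hr₂ : K.gr.Adj r₂.1 r₂.2) (hr : r₁ ≠ r₂)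
    (hs₁ : sd r₁.1 = true) (hs₂ : sd r₂.1 = true) {f : K.W → V} {φ : K.W → K.W → V}
    (h : PCov H K.gr K.π (cut2 r₁ r₂) f φ) (x y : V) (hxy : H.Adj x y) :
    ({w | sd w = true ∧ f w = x}.ncard : ℤ) - {w | sd w = false ∧ f w = y}.ncard =
      DD (av f φ r₁) (av f φ r₂) (bv f φ r₁) (bv f φ r₂) x y := by
  classical
  have : Fintype K.W := Fintype.ofFinite _
  have hs1' : sd r₁.2 ≠ true := fun he => hsd _ _ hr₁ (hs₁.trans he.symm)
  have hs2' : sd r₂.2 ≠ true := fun he => hsd _ _ hr₂ (hs₂.trans he.symm)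
  have hr' : r₁ ≠ r₂.swap := by
    intro he
    apply hs2'
    have h2 : r₁.1 = r₂.2 := congrArg Prod.fst he
    rw [← h2]
    exact hs₁
  rw [gc7_diff h hxy (fun w => sd w = true) (fun w => sd w = false) (by
    intro w w' hadj
    have h1 := hsd _ _ hadj
    cases h2 : sd w <;> cases h3 : sd w' <;> simp_all)]
  have h3 : ∑ e : K.W × K.W, (if sd e.1 = true then gc7E K.gr f φ x y e else 0) =
      ∑ e ∈ ({r₁, r₁.swap, r₂, r₂.swap} : Finset (K.W × K.W)),
        (if sd e.1 = true then gc7E K.gr f φ x y e else 0) := by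
    symm
    apply Finset.sum_subset (Finset.subset_univ _)
    intro e _ he
    obtain ⟨h4, h5⟩ := gc7_out he
    rw [gc7_unc h x y e h4 h5, ite_self]
  trans ∑ e : K.W × K.W, (if sd e.1 = true then gc7E K.gr f φ x y e else 0)
  · refine Finset.sum_congr rfl fun e _ => ?_
    by_cases hse : sd e.1 = true <;> simp [hse]
  rw [h3, gc7_four hr₁.ne hr₂.ne hr hr']
  simp only [Prod.fst_swap, hs₁, hs₂, if_true, if_neg hs1', if_neg hs2', add_zero]
  rw [gc7_val f φ x y hr₁, gc7_val f φ x y hr₂]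
  unfold DD
  ring

end Pool.Agent.H24.GC
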