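import Mathlib
import Pool.Agent.H79.Thr.Defs

/-!
# Graph covers: definitions

Project GC (helper24), MP_cb20e7_lc: the complexity of deciding whether a graph `G` covers a fixed
graph `H`. THEOREM: let `H` be 3-edge-connected. If some vertex has three neighbours in one class of
the degree partition of `H`, or some vertex has two neighbours in one class whose neighbourhoods in
the class of this vertex differ, then `H`-LBHOM is NP-complete.
-/

namespace Pool.Agent.H24.GC

open Pool.Agent.PPS Pool.Agent.H64.Cook Pool.Agent.H79.Thr

variable {A V : Type}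

/-- `f` is a locally bijective homomorphism (a covering projection) from `G` to `H`: it maps the
neighbourhood of every vertex `v` bijectively onto the neighbourhood of `f v`. -/
def IsCover (G : SimpleGraph A) (H : SimpleGraph V) (f : A → V) : Prop :=
  ∀ v, Set.BijOn f (G.neighborSet v) (H.neighborSet (f v))

/-- `G` covers `H` -/
def Covers (G : SimpleGraph A) (H : SimpleGraph V) : Prop := ∃ f : A → V, IsCover G H f

/-- the partition into the classes of `s` is equitable: two vertices of the same class have the same
number of neighbours in each class -/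
def Equitable (H : SimpleGraph V) (s : Setoid V) : Prop :=
  ∀ x y z, s x y →
    (H.neighborSet x ∩ {w | s w z}).ncard = (H.neighborSet y ∩ {w | s w z}).ncard

/-- `x` and `y` are in the same class of the degree partition of `H` (the coarsest equitable
partition): some equitable partition has a class which contains both -/
def Sim (H : SimpleGraph V) (x y : V) : Prop := ∃ s : Setoid V, Equitable H s ∧ s x y

/-- the neighbours of `x` in the class of `y` -/
def nbc (H : SimpleGraph V) (x y : V) : Set V := {w | H.Adj x w ∧ Sim H w y}

/-- the pair `x y` is of the type of the pair `a b`, in one of the two orders -/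
def Ty (H : SimpleGraph V) (a b x y : V) : Prop :=
  (Sim H x a ∧ Sim H y b) ∨ (Sim H x b ∧ Sim H y a)

/-- every edge cut all edges of which satisfy `P` has at least three edges -/
def NoCut (H : SimpleGraph V) (P : V → V → Prop) : Prop :=
  ∀ S : Set V, S.Nonempty → Sᶜ.Nonempty → (∀ x ∈ S, ∀ y ∈ Sᶜ, H.Adj x y → P x y) →
    3 ≤ {e : V × V | e.1 ∈ S ∧ e.2 ∈ Sᶜ ∧ H.Adj e.1 e.2}.ncard

/-- The decision problem `Q` (for graphs on `Fin n`, encoded by their adjacency matrices) is
NP-complete: the set of the words `enc G`, where `G` has property `Q`, is in `NP`, and for every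
language `L` in `NP` there is a function `φ`, computed in polynomial time, that maps every word `x`
to the word `enc G` of some graph `G` which has property `Q` iff `x ∈ L`. -/
def NPComplete (Q : ∀ n : ℕ, SimpleGraph (Fin n) → Prop) : Prop :=
  {x : List Bool | ∃ (n : ℕ) (G : SimpleGraph (Fin n)), x = enc G ∧ Q n G} ∈ NP ∧
  ∀ L ∈ NP, ∃ φ ∈ FP, ∀ x, ∃ (n : ℕ) (G : SimpleGraph (Fin n)), φ x = enc G ∧ (x ∈ L ↔ Q n G)

/-- the hardness part of `NPComplete` for covers of `H` -/
def HardH (H : SimpleGraph V) : Prop :=
  ∀ L ∈ NP, ∃ φ ∈ FP, ∀ x, ∃ (n : ℕ) (G : SimpleGraph (Fin n)),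
    φ x = enc G ∧ (x ∈ L ↔ Covers G H)

/-- `f` on the vertices and `φ w` on the neighbourhood of `w` behave like a cover; they agree except
along the arcs of `cut` (in both directions), and they respect the classes of `π` -/
structure PCov (H : SimpleGraph V) {W : Type} (gW : SimpleGraph W) (π : W → V)
    (cut : W → W → Prop) (f : W → V) (φ : W → W → V) : Prop where
  bij : ∀ w, Set.BijOn (φ w) (gW.neighborSet w) (H.neighborSet (f w))
  unc : ∀ w w', gW.Adj w w' → ¬ cut w w' → ¬ cut w' w → φ w w' = f w'
  simf : ∀ w, Sim H (f w) (π w)
  simp : ∀ w w', gW.Adj w w' → Sim H (φ w w') (π w')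

/-- every partial cover with respect to `cut` is a cover -/
def Straight (H : SimpleGraph V) {W : Type} (gW : SimpleGraph W) (π : W → V)
    (cut : W → W → Prop) : Prop :=
  ∀ f φ, PCov H gW π cut f φ → ∀ w w', gW.Adj w w' → φ w w' = f w'

end Pool.Agent.H24.GC
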