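import Mathlib

/-!
# JOB GC-19: two involutions

States `Ω` with two involutions `i₁, i₂` without fixed points, and a map `tl` to `V` whose fibres are
the pairs `{a, i₁ a}`. `tau = i₁ ∘ i₂`. Write `τ` for `tau`.

`tau_i₁`: `i₁ ∘ τ ∘ i₁ = i₂ ∘ i₁ = τ⁻¹` (as functions), so `τ ^ t (i₁ a) = i₁ (τ ^ (-t) a)` for all
integers `t` (for instance `MulAut.conj`/induction; `i₁` is a permutation with inverse itself).
`i₁_ne`: let `i₁ (τ ^ t a) = a`, that is `i₁ a = τ ^ t a`. For `b = τ ^ r a` we get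
`i₁ b = τ ^ (-r) (i₁ a) = τ ^ (t - r) a`. If `t = 2 r` this is `b`, contradiction. If `t = 2 r + 1` it is
`τ b = i₁ (i₂ b)`, so `b = i₂ b`, contradiction.
`tl_iff_dvd`: `tl (τ ^ s a) = tl (τ ^ t a)` iff `τ ^ t a = τ ^ s a` or `τ ^ t a = i₁ (τ ^ s a)`; the second
is impossible by `i₁_ne` (apply it to `τ ^ t a`, with `τ ^ s a = τ ^ (s - t) (τ ^ t a)`), the first means
`per a ∣ s - t` (`Function.minimalPeriod`; `Equiv.Perm` integer powers:
`zpow_smul_eq_iff_minimalPeriod_dvd` or reduce to natural powers).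
`per_pow`, `per_i₁`: clear (`τ ^ k` fixes `τ ^ t a` iff it fixes `a`; `τ ^ k (i₁ a) = i₁ a` iff
`τ ^ (-k) a = a`). `per_map`: if `φ` is injective and commutes with `i₁, i₂` then it commutes with `τ`.
`per_pos`: `Ω` finite.
`exists_lab`: for `x : V` in a ring of length `n` (`x = tl (τ ^ t a)`, `per a = n`) let
`O x = {tl (τ ^ s a) | s}`; it does not depend on `a`, and `O x = O y` for `y ∈ O x`: if
`tl (τ ^ t a) = tl (τ ^ s b)` then `τ ^ s b` is `τ ^ t a` or `i₁ (τ ^ t a)`, so the sets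
for `a` and `b` agree (`tau_i₁`). `O x` has exactly `n` elements (`tl_iff_dvd`), choose an equivalence with
`Fin n` for each set of this kind (a function of the set) and let `lab x` be the image of `x`.
`ring_ne`: (⇒) `0 < |t| ≤ 2 * (n / 2) - 1 < n`, so `n ∤ t`. (⇐) let `x' = tl (τ ^ t a) ≠ tl a`; we may
replace `t` by `t % n`, `0 < t < n`; if `t ≤ 2 * (n / 2) - 1` take `t`; otherwise `n` is odd and
`t = n - 1`: take `-1`.
-/

namespace Pool.Agent.H24.GC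

/-- two involutions without fixed points; the fibres of `tl` are the orbits of the first one -/
structure Dih (Ω V : Type) where
  i₁ : Ω → Ω
  i₂ : Ω → Ω
  tl : Ω → V
  inv₁ : ∀ a, i₁ (i₁ a) = a
  inv₂ : ∀ a, i₂ (i₂ a) = a
  ne₁ : ∀ a, i₁ a ≠ a
  ne₂ : ∀ a, i₂ a ≠ a
  tl_iff : ∀ a b, tl a = tl b ↔ b = a ∨ b = i₁ a

variable {Ω V : Type}

/-- the product of the two involutions -/
def Dih.tau (D : Dih Ω V) : Equiv.Perm Ω where
  toFun a := D.i₁ (D.i₂ a)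
  invFun a := D.i₂ (D.i₁ a)
  left_inv a := by
    show D.i₂ (D.i₁ (D.i₁ (D.i₂ a))) = a
    rw [D.inv₁, D.inv₂]
  right_inv a := by
    show D.i₁ (D.i₂ (D.i₂ (D.i₁ a))) = a
    rw [D.inv₂, D.inv₁]

/-- the length of the ring of `a` -/
noncomputable def Dih.per (D : Dih Ω V) (a : Ω) : ℕ := Function.minimalPeriod D.tau a

theorem Dih_tau_apply (D : Dih Ω V) (a : Ω) : D.tau a = D.i₁ (D.i₂ a) := rfl

theorem Dih_tau_symm_apply (D : Dih Ω V) (a : Ω) : D.tau⁻¹ a = D.i₂ (D.i₁ a) := rfl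

theorem Dih_tau_i₁_nat (D : Dih Ω V) (t : ℕ) (a : Ω) :
    (D.tau ^ t) (D.i₁ a) = D.i₁ ((D.tau⁻¹ ^ t) a) := by
  induction t generalizing a with
  | zero => rfl
  | succ t ih =>
    rw [pow_succ, pow_succ, Equiv.Perm.mul_apply, Equiv.Perm.mul_apply, Dih_tau_apply,
      ih, Dih_tau_symm_apply]

theorem Dih.tau_i₁ (D : Dih Ω V) (t : ℤ) (a : Ω) :
    (D.tau ^ t) (D.i₁ a) = D.i₁ ((D.tau ^ (-t)) a) := by
  obtain ⟨n, rfl | rfl⟩ := t.eq_nat_or_neg
  · rw [zpow_neg, zpow_natCast, ← inv_pow]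
    exact Dih_tau_i₁_nat D n a
  · rw [neg_neg, zpow_neg, zpow_natCast]
    have h2 : (D.tau ^ n) (D.i₁ ((D.tau ^ n) a)) = D.i₁ a := by
      rw [Dih_tau_i₁_nat, inv_pow, ← Equiv.Perm.mul_apply, inv_mul_cancel, Equiv.Perm.one_apply]
    rw [Equiv.Perm.inv_eq_iff_eq, h2]

theorem Dih.i₁_ne (D : Dih Ω V) (t : ℤ) (a : Ω) : D.i₁ ((D.tau ^ t) a) ≠ a := by
  intro h
  -- `i₁ a = τ ^ t a`
  have h1 : D.i₁ a = (D.tau ^ t) a := by rw [← D.inv₁ ((D.tau ^ t) a), h]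
  obtain ⟨r, hr⟩ := t.even_or_odd'
  have hb : D.i₁ ((D.tau ^ r) a) = (D.tau ^ (t - r)) a := by
    have h2 := D.tau_i₁ (-r) a
    rw [neg_neg] at h2
    rw [← h2, h1, ← Equiv.Perm.mul_apply, ← zpow_add]
    congr 2
    ring
  rcases hr with hr | hr
  · have : t - r = r := by omega
    rw [this] at hb
    exact D.ne₁ _ hb
  · have : t - r = 1 + r := by omega
    rw [this, zpow_add, zpow_one, Equiv.Perm.mul_apply, Dih_tau_apply] at hb
    have hb2 : (D.tau ^ r) a = D.i₂ ((D.tau ^ r) a) := by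
      have h3 := congrArg D.i₁ hb
      rwa [D.inv₁, D.inv₁] at h3
    exact D.ne₂ _ hb2.symm

theorem Dih_per_dvd (D : Dih Ω V) (a : Ω) (k : ℤ) :
    (D.tau ^ k) a = a ↔ (D.per a : ℤ) ∣ k := by
  have key : ∀ n : ℕ, (D.tau ^ n) a = a ↔ D.per a ∣ n := by
    intro n
    rw [Dih.per, ← Function.isPeriodicPt_iff_minimalPeriod_dvd, Function.IsPeriodicPt,
      Function.IsFixedPt, Equiv.Perm.iterate_eq_pow]
  obtain ⟨n, rfl | rfl⟩ := k.eq_nat_or_neg
  · rw [zpow_natCast, key, Int.natCast_dvd_natCast]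
  · rw [zpow_neg, zpow_natCast, Equiv.Perm.inv_eq_iff_eq, eq_comm, key, Int.dvd_neg,
      Int.natCast_dvd_natCast]

theorem Dih.per_pos [Finite Ω] (D : Dih Ω V) (a : Ω) : 0 < D.per a := by
  obtain ⟨n, hn, h⟩ := (isOfFinOrder_of_finite D.tau).exists_pow_eq_one
  have h1 : (D.tau ^ (n : ℤ)) a = a := by rw [zpow_natCast, h]; rfl
  rw [Dih_per_dvd, Int.natCast_dvd_natCast] at h1
  exact Nat.pos_of_dvd_of_pos h1 hn

theorem Dih_zpow_eq_iff (D : Dih Ω V) (s t : ℤ) (a : Ω) :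
    (D.tau ^ s) a = (D.tau ^ t) a ↔ (D.per a : ℤ) ∣ s - t := by
  rw [← Dih_per_dvd]
  have : s - t = -t + s := by ring
  rw [this, zpow_add, Equiv.Perm.mul_apply, zpow_neg, Equiv.Perm.inv_eq_iff_eq]

theorem Dih.tl_iff_dvd (D : Dih Ω V) (s t : ℤ) (a : Ω) :
    D.tl ((D.tau ^ s) a) = D.tl ((D.tau ^ t) a) ↔ (D.per a : ℤ) ∣ s - t := by
  rw [D.tl_iff, ← Dih_zpow_eq_iff]
  constructor
  · rintro (h | h)
    · exact h.symm
    · exfalso
      refine D.i₁_ne (s - t) ((D.tau ^ t) a) ?_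
      rw [← Equiv.Perm.mul_apply, ← zpow_add, sub_add_cancel]
      exact h.symm
  · intro h
    exact Or.inl h.symm

theorem Dih.per_pow (D : Dih Ω V) (t : ℤ) (a : Ω) : D.per ((D.tau ^ t) a) = D.per a := by
  apply Nat.dvd_antisymm
  · rw [← Int.natCast_dvd_natCast, ← Dih_per_dvd]
    rw [← Equiv.Perm.mul_apply, ← zpow_add, add_comm, zpow_add, Equiv.Perm.mul_apply,
      (Dih_per_dvd D a _).2 (dvd_refl _)]
  · rw [← Int.natCast_dvd_natCast, ← Dih_per_dvd]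
    have h := (Dih_per_dvd D ((D.tau ^ t) a) _).2 (dvd_refl _)
    rw [← Equiv.Perm.mul_apply, ← zpow_add, add_comm, zpow_add, Equiv.Perm.mul_apply] at h
    exact (D.tau ^ t).injective h

theorem Dih_per_eq (D : Dih Ω V) {a b : Ω} (h : ∀ k : ℤ, (D.tau ^ k) a = a ↔ (D.tau ^ k) b = b) :
    D.per a = D.per b := by
  apply Nat.dvd_antisymm
  · rw [← Int.natCast_dvd_natCast, ← Dih_per_dvd, h, Dih_per_dvd]
  · rw [← Int.natCast_dvd_natCast, ← Dih_per_dvd, ← h, Dih_per_dvd]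

theorem Dih.per_i₁ (D : Dih Ω V) (a : Ω) : D.per (D.i₁ a) = D.per a := by
  refine Dih_per_eq D fun k => ?_
  rw [D.tau_i₁, Dih_per_dvd D a k]
  constructor
  · intro h
    have h2 : (D.tau ^ (-k)) a = a := by
      rw [← D.inv₁ ((D.tau ^ (-k)) a), h, D.inv₁]
    rw [Dih_per_dvd, dvd_neg] at h2
    exact h2
  · intro h
    rw [(Dih_per_dvd D a (-k)).2 ((dvd_neg).2 h)]

theorem Dih.per_map (D : Dih Ω V) {φ : Ω → Ω} (hφ : Function.Injective φ)
    (h₁ : ∀ a, φ (D.i₁ a) = D.i₁ (φ a)) (h₂ : ∀ a, φ (D.i₂ a) = D.i₂ (φ a)) (a : Ω) :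
    D.per (φ a) = D.per a := by
  have key : ∀ (n : ℕ) (b : Ω), φ ((D.tau ^ n) b) = (D.tau ^ n) (φ b) := by
    intro n
    induction n with
    | zero => intro b; rfl
    | succ n ih =>
      intro b
      rw [pow_succ, Equiv.Perm.mul_apply, Equiv.Perm.mul_apply, ih, Dih_tau_apply, Dih_tau_apply,
        h₁, h₂]
  have key2 : ∀ (k : ℤ) (b : Ω), φ ((D.tau ^ k) b) = (D.tau ^ k) (φ b) := by
    intro k b
    obtain ⟨n, rfl | rfl⟩ := k.eq_nat_or_neg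
    · rw [zpow_natCast, key]
    · rw [zpow_neg, zpow_natCast, eq_comm, Equiv.Perm.inv_eq_iff_eq, ← key,
        ← Equiv.Perm.mul_apply, mul_inv_cancel, Equiv.Perm.one_apply]
  refine Dih_per_eq D fun k => ?_
  rw [← key2]
  exact hφ.eq_iff

/-- the ring of `a` -/
def Dih_ring (D : Dih Ω V) (a : Ω) : Set V := {x | ∃ s : ℤ, x = D.tl ((D.tau ^ s) a)}

theorem Dih_ring_pow (D : Dih Ω V) (a : Ω) (t : ℤ) :
    Dih_ring D ((D.tau ^ t) a) = Dih_ring D a := by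
  ext x
  constructor
  · rintro ⟨s, rfl⟩
    exact ⟨s + t, by rw [zpow_add, Equiv.Perm.mul_apply]⟩
  · rintro ⟨s, rfl⟩
    refine ⟨s - t, ?_⟩
    rw [← Equiv.Perm.mul_apply, ← zpow_add, sub_add_cancel]

theorem Dih_tl_i₁ (D : Dih Ω V) (a : Ω) : D.tl (D.i₁ a) = D.tl a := by
  rw [eq_comm, D.tl_iff]
  exact Or.inr rfl

theorem Dih_ring_i₁ (D : Dih Ω V) (a : Ω) : Dih_ring D (D.i₁ a) = Dih_ring D a := by
  ext x
  constructor
  · rintro ⟨s, rfl⟩
    exact ⟨-s, by rw [D.tau_i₁, Dih_tl_i₁]⟩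
  · rintro ⟨s, rfl⟩
    exact ⟨-s, by rw [D.tau_i₁, Dih_tl_i₁, neg_neg]⟩

theorem Dih_ring_tl (D : Dih Ω V) {a b : Ω} (h : D.tl a = D.tl b) :
    Dih_ring D a = Dih_ring D b := by
  rcases (D.tl_iff a b).1 h with h | h
  · rw [h]
  · rw [h, Dih_ring_i₁]

theorem Dih_ring_card [Finite Ω] (D : Dih Ω V) (a : Ω) :
    Nonempty (Dih_ring D a ≃ Fin (D.per a)) := by
  have hpos := D.per_pos a
  refine ⟨(Equiv.ofBijective (fun i : Fin (D.per a) =>
    (⟨D.tl ((D.tau ^ ((i : ℕ) : ℤ)) a), ⟨_, rfl⟩⟩ : Dih_ring D a)) ⟨?_, ?_⟩).symm⟩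
  · intro i j hij
    have h1 : D.tl ((D.tau ^ ((i : ℕ) : ℤ)) a) = D.tl ((D.tau ^ ((j : ℕ) : ℤ)) a) :=
      congrArg Subtype.val hij
    rw [D.tl_iff_dvd] at h1
    have hi := i.2
    have hj := j.2
    apply Fin.ext
    have h2 := Int.eq_zero_of_abs_lt_dvd h1 (by rw [abs_lt]; constructor <;> omega)
    omega
  · rintro ⟨x, s, rfl⟩
    have hp : (D.per a : ℤ) ≠ 0 := by exact_mod_cast hpos.ne'
    have h0 := Int.emod_nonneg s hp
    have h1 := Int.emod_lt_of_pos s (show (0 : ℤ) < D.per a by exact_mod_cast hpos)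
    refine ⟨⟨(s % (D.per a : ℤ)).toNat, by omega⟩, ?_⟩
    apply Subtype.ext
    show D.tl ((D.tau ^ (((s % (D.per a : ℤ)).toNat : ℕ) : ℤ)) a) = D.tl ((D.tau ^ s) a)
    rw [D.tl_iff_dvd, Int.toNat_of_nonneg h0]
    have := Int.emod_add_mul_ediv s (D.per a)
    refine ⟨-(s / (D.per a : ℤ)), ?_⟩
    linarith

theorem Dih.exists_lab [Finite Ω] (D : Dih Ω V) {n : ℕ} (hn : 0 < n) :
    ∃ lab : V → Fin n, ∀ a, D.per a = n → ∀ s t : ℤ,
      D.tl ((D.tau ^ s) a) ≠ D.tl ((D.tau ^ t) a) →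
      lab (D.tl ((D.tau ^ s) a)) ≠ lab (D.tl ((D.tau ^ t) a)) := by
  classical
  -- for each set `O`, an injection to `Fin n` if there is an equivalence
  let g : Set V → V → Fin n := fun O x =>
    if h : Nonempty (O ≃ Fin n) then
      if hx : x ∈ O then (Classical.choice h) ⟨x, hx⟩ else ⟨0, hn⟩
    else ⟨0, hn⟩
  let O : V → Set V := fun x => {y | ∃ a, D.tl a = x ∧ y ∈ Dih_ring D a}
  have hO : ∀ a, O (D.tl a) = Dih_ring D a := by
    intro a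
    ext y
    constructor
    · rintro ⟨b, hb, hy⟩
      rw [← Dih_ring_tl D hb]
      exact hy
    · intro hy
      exact ⟨a, rfl, hy⟩
  refine ⟨fun x => g (O x) x, ?_⟩
  intro a ha s t hst heq
  apply hst
  have e1 : O (D.tl ((D.tau ^ s) a)) = Dih_ring D a := by rw [hO, Dih_ring_pow]
  have e2 : O (D.tl ((D.tau ^ t) a)) = Dih_ring D a := by rw [hO, Dih_ring_pow]
  have hne : Nonempty (Dih_ring D a ≃ Fin n) := by
    rw [← ha]
    exact Dih_ring_card D a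
  have heq' : g (Dih_ring D a) (D.tl ((D.tau ^ s) a)) = g (Dih_ring D a) (D.tl ((D.tau ^ t) a)) := by
    have := heq
    simp only [e1, e2] at this
    exact this
  have m1 : D.tl ((D.tau ^ s) a) ∈ Dih_ring D a := ⟨s, rfl⟩
  have m2 : D.tl ((D.tau ^ t) a) ∈ Dih_ring D a := ⟨t, rfl⟩
  have f1 : ∀ x (hx : x ∈ Dih_ring D a), g (Dih_ring D a) x = (Classical.choice hne) ⟨x, hx⟩ := by
    intro x hx
    show (if h : Nonempty (Dih_ring D a ≃ Fin n) then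
      if hx : x ∈ Dih_ring D a then (Classical.choice h) ⟨x, hx⟩ else ⟨0, hn⟩
      else ⟨0, hn⟩) = _
    rw [dif_pos hne, dif_pos hx]
  rw [f1 _ m1, f1 _ m2] at heq'
  exact congrArg Subtype.val ((Classical.choice hne).injective heq')

theorem Dih.ring_ne (D : Dih Ω V) {a : Ω} (hn : 3 ≤ D.per a) (x' : V) :
    (∃ t : ℤ, t ≠ 0 ∧ |t| ≤ 2 * (D.per a / 2 : ℕ) - 1 ∧ x' = D.tl ((D.tau ^ t) a)) ↔
      (∃ t : ℤ, x' = D.tl ((D.tau ^ t) a)) ∧ x' ≠ D.tl a := by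
  have h0 : ∀ t : ℤ, D.tl ((D.tau ^ t) a) = D.tl a ↔ (D.per a : ℤ) ∣ t := by
    intro t
    have := D.tl_iff_dvd t 0 a
    rw [zpow_zero, sub_zero] at this
    exact this
  constructor
  · rintro ⟨t, ht, habs, rfl⟩
    refine ⟨⟨t, rfl⟩, ?_⟩
    rw [Ne, h0]
    intro hd
    apply ht
    refine Int.eq_zero_of_abs_lt_dvd hd ?_
    have : 2 * (D.per a / 2) ≤ D.per a := Nat.mul_div_le _ _
    have h2 : ((2 * (D.per a / 2) : ℕ) : ℤ) ≤ D.per a := by exact_mod_cast this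
    push_cast at h2 habs ⊢
    linarith
  · rintro ⟨⟨t, rfl⟩, hne⟩
    have hp : (0 : ℤ) < D.per a := by exact_mod_cast (by omega : 0 < D.per a)
    have hr0 := Int.emod_nonneg t hp.ne'
    have hr1 := Int.emod_lt_of_pos t hp
    have hdiv := Int.emod_add_mul_ediv t (D.per a)
    set r := t % (D.per a : ℤ) with hr
    have hrt : D.tl ((D.tau ^ t) a) = D.tl ((D.tau ^ r) a) := by
      rw [D.tl_iff_dvd]
      exact ⟨t / (D.per a : ℤ), by linarith⟩
    have hrne : r ≠ 0 := by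
      intro hz
      rw [hz, zpow_zero] at hrt
      exact hne hrt
    by_cases hle : r ≤ 2 * (D.per a / 2 : ℕ) - 1
    · refine ⟨r, hrne, ?_, hrt⟩
      rw [abs_of_nonneg hr0]
      exact hle
    · refine ⟨-1, by norm_num, ?_, ?_⟩
      · rw [abs_neg, abs_one]
        omega
      · rw [hrt, D.tl_iff_dvd]
        refine ⟨1, ?_⟩
        omega

end Pool.Agent.H24.GC
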