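import Pool.Agent.H24.GC.Kit
import Pool.Agent.H24.GC.Conn

/-!
# JOB GC-25: a kit with a copy of `H`

`Kit.add K` is the disjoint union of the kit and a copy of `H`. `cov`, `hdeg_add`: clear.
`add_mult`: `Nat.card (K.W ⊕ V) = Nat.card K.W + Nat.card V`. `add_univ`: extend the cover of `K` by the
identity on `V`. `add_cover`: a cover of `K.add` restricts to covers of the two parts; conversely two covers
give one (`Sum.elim`).
`auto_of_cover`: let `g : V → V` be a cover from the finite connected graph `H` to itself. Its range is closed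
under adjacency (`N(g v) = g '' N(v)`), so `g` is surjective, hence bijective (`V` finite). And
`H.Adj (g u) (g v) ↔ H.Adj u v`: (⇐) is clear; (⇒) `g v ∈ N(g u)`, so `g v = g w` with `w ∈ N(u)`, `w = v`.
`iso_cover`: an isomorphism is a cover. `iso_sim`: `cover_sim` with `f = e`, `g = id`.
-/

namespace Pool.Agent.H24.GC

variable {V : Type} {H : SimpleGraph V}

theorem KitAdd_bij {α β γ : Type} {i : α → β} (hi : Function.Injective i) {f : β → γ}
    {S : Set α} {T : Set γ} : Set.BijOn f (i '' S) T ↔ Set.BijOn (fun a => f (i a)) S T := by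
  constructor
  · rintro ⟨h1, h2, h3⟩
    refine ⟨fun a ha => h1 ⟨a, ha, rfl⟩, fun a ha b hb hab => hi (h2 ⟨a, ha, rfl⟩ ⟨b, hb, rfl⟩ hab),
      fun t ht => ?_⟩
    obtain ⟨_, ⟨a, ha, rfl⟩, h⟩ := h3 ht
    exact ⟨a, ha, h⟩
  · rintro ⟨h1, h2, h3⟩
    refine ⟨?_, ?_, fun t ht => ?_⟩
    · rintro _ ⟨a, ha, rfl⟩
      exact h1 ha
    · rintro _ ⟨a, ha, rfl⟩ _ ⟨b, hb, rfl⟩ hab
      exact congrArg i (h2 ha hb hab)
    · obtain ⟨a, ha, h⟩ := h3 ht
      exact ⟨i a, ⟨a, ha, rfl⟩, h⟩

theorem KitAdd_nl {W : Type} (G : SimpleGraph W) (H : SimpleGraph V) (w : W) :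
    (G ⊕g H).neighborSet (Sum.inl w) = Sum.inl '' G.neighborSet w := by
  ext u
  cases u with
  | inl u =>
    rw [SimpleGraph.mem_neighborSet]
    constructor
    · intro h
      exact ⟨u, h, rfl⟩
    · rintro ⟨a, ha, h⟩
      rw [← Sum.inl_injective h]
      exact ha
  | inr u =>
    rw [SimpleGraph.mem_neighborSet]
    constructor
    · intro h
      exact absurd h (by simp)
    · rintro ⟨a, _, h⟩
      exact absurd h (by simp)

theorem KitAdd_nr {W : Type} (G : SimpleGraph W) (H : SimpleGraph V) (w : V) :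
    (G ⊕g H).neighborSet (Sum.inr w) = Sum.inr '' H.neighborSet w := by
  ext u
  cases u with
  | inr u =>
    rw [SimpleGraph.mem_neighborSet]
    constructor
    · intro h
      exact ⟨u, h, rfl⟩
    · rintro ⟨a, ha, h⟩
      rw [← Sum.inr_injective h]
      exact ha
  | inl u =>
    rw [SimpleGraph.mem_neighborSet]
    constructor
    · intro h
      exact absurd h (by simp)
    · rintro ⟨a, _, h⟩
      exact absurd h (by simp)

theorem KitAdd_cover {W : Type} (G : SimpleGraph W) (H : SimpleGraph V) (f : W ⊕ V → V) :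
    IsCover (G ⊕g H) H f ↔
    IsCover G H (fun w => f (Sum.inl w)) ∧ IsCover H H (fun v => f (Sum.inr v)) := by
  constructor
  · intro h
    refine ⟨fun w => ?_, fun v => ?_⟩
    · have h1 := h (Sum.inl w)
      rw [KitAdd_nl] at h1
      exact (KitAdd_bij Sum.inl_injective).1 h1
    · have h1 := h (Sum.inr v)
      rw [KitAdd_nr] at h1
      exact (KitAdd_bij Sum.inr_injective).1 h1
  · rintro ⟨h1, h2⟩ (w | v)
    · rw [KitAdd_nl]
      exact (KitAdd_bij Sum.inl_injective).2 (h1 w)
    · rw [KitAdd_nr]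
      exact (KitAdd_bij Sum.inr_injective).2 (h2 v)

theorem KitAdd_id (H : SimpleGraph V) : IsCover H H (fun v => v) := fun _ => Set.bijOn_id _

/-- disjoint union of the kit and a copy of `H` -/
def Kit.add [Finite V] (K : Kit H) : Kit H where
  W := K.W ⊕ V
  fin := inferInstance
  gr := K.gr ⊕g H
  π := Sum.elim K.π id
  cov := by
    exact (KitAdd_cover K.gr H _).2 ⟨K.cov, KitAdd_id H⟩

theorem add_mult [Finite V] {K : Kit H} {c : ℕ} (h : K.Mult c) : K.add.Mult (c + 1) := by
  have h1 : Nat.card K.W = c * Nat.card V := h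
  show Nat.card (K.W ⊕ V) = (c + 1) * Nat.card V
  rw [Nat.card_sum, h1]
  ring

theorem add_univ [Finite V] {K : Kit H} {p : K.W} (h : K.Univ p) :
    K.add.Univ (Sum.inl p : K.W ⊕ V) := by
  intro x σ τ hx hσ hτ
  obtain ⟨f, hf, hfp, hf1, hf2⟩ := h x σ τ hx hσ hτ
  refine ⟨Sum.elim f id, (KitAdd_cover K.gr H _).2 ⟨hf, KitAdd_id H⟩, hfp, ?_, ?_⟩
  · rintro (u | u) hu
    · exact hf1 u hu
    · exact absurd hu (by
        show ¬ (K.gr ⊕g H).Adj (Sum.inl p) (Sum.inr u)
        simp)
  · rintro (u | u) v hu hv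
    · rcases v with v | v
      · exact hf2 u v hu hv
      · exact absurd hv (by
          show ¬ (K.gr ⊕g H).Adj (Sum.inl u) (Sum.inr v)
          simp)
    · exact absurd hu (by
        show ¬ (K.gr ⊕g H).Adj (Sum.inl p) (Sum.inr u)
        simp)

theorem add_cover [Finite V] (K : Kit H) (f : K.W ⊕ V → V) : IsCover K.add.gr H f ↔
    IsCover K.gr H (fun w => f (Sum.inl w)) ∧ IsCover H H (fun v => f (Sum.inr v)) := by
  exact KitAdd_cover K.gr H f

theorem auto_of_cover [Finite V] (hc : H.Connected) {g : V → V} (hg : IsCover H H g) :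
    ∃ e : H ≃g H, ∀ v, e v = g v := by
  have hsurj : Function.Surjective g := by
    obtain ⟨v0⟩ := hc.nonempty
    intro y
    have hr : H.Reachable (g v0) y := hc.preconnected _ _
    obtain ⟨p⟩ := hr
    have key : ∀ (a b : V) (_ : H.Walk a b), (∃ v, g v = a) → ∃ v, g v = b := by
      intro a b p
      induction p with
      | nil => exact id
      | cons hadj _ ih =>
        rintro ⟨v, rfl⟩
        apply ih
        obtain ⟨w, _, hw⟩ := (hg v).surjOn hadj
        exact ⟨w, hw⟩
    exact key _ _ p ⟨v0, rfl⟩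
  have hinj : Function.Injective g := Finite.injective_iff_surjective.2 hsurj
  refine ⟨⟨Equiv.ofBijective g ⟨hinj, hsurj⟩, ?_⟩, fun v => rfl⟩
  intro u v
  show H.Adj (g u) (g v) ↔ H.Adj u v
  constructor
  · intro h
    obtain ⟨w, hw, hwv⟩ := (hg u).surjOn h
    rw [← hinj hwv]
    exact hw
  · intro h
    exact (hg u).mapsTo h

theorem iso_cover (e : H ≃g H) : IsCover H H e := by
  intro v
  refine ⟨fun w hw => e.map_adj_iff.2 hw, e.injective.injOn, fun y hy => ?_⟩
  refine ⟨e.symm y, ?_, e.apply_symm_apply y⟩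
  show H.Adj v (e.symm y)
  rw [← e.map_adj_iff, e.apply_symm_apply]
  exact hy

theorem iso_sim [Finite V] (e : H ≃g H) (v : V) : Sim H (e v) v := by
  exact cover_sim (iso_cover e) (KitAdd_id H) v

end Pool.Agent.H24.GC
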