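import Pool.Agent.H24.GC.StepDef
import Pool.Agent.H24.GC.KitAdd

/-!
# JOB GC-27: the two involutions for a pair of classes of degrees two

States: arcs `a = (x, y)` of the type `(x₀, y₀)` (`IsC`), where every vertex of the class of `x₀` has
exactly two neighbours in the class of `y₀` and conversely. `i₁ (x, y) = (x, y')`, `y'` the other
element of `nbc H x y₀`; `i₂ (x, y) = (x', y)`, `x'` the other element of `nbc H y x₀`. (`nbc_ncard` gives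
`ncard = 2` for all `x ~ x₀`, `y ~ y₀`; `Set.ncard_eq_two`.)
`dihB_unique`: an arc of the type with the same tail as `a` is `a` or `i₁ a`; the same for heads and `i₂`.
`dihB_per`: `τ a = i₁ (i₂ a)` has the tail of `i₂ a`, different from the tail of `a`; so the period is not
`1`. If it is `2` then `τ a = τ⁻¹ a = i₂ (i₁ a)`, so the tails of `i₂ a` and `i₂ (i₁ a)` agree; with
`a = (x, y)`, `i₁ a = (x, y')` this gives `nbc H y x₀ = nbc H y' x₀` (both are `{x, x'}`). The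
period is positive (`Ω` is finite).
`dihB_step`: `lk H x₀ y₀ x x'` with `x = tl a`: the common neighbour is the head of `a` or of `i₁ a`, so
`x'` is `x`, or the tail of `i₂ a` or of `i₂ (i₁ a)`; and `tl (τ a) = tl (i₂ a)`,
`tl (τ⁻¹ a) = tl (i₂ (i₁ a))`.
`dihB_iso`: apply `Dih.per_map` to `φ (x, y) = (e x, e y)` (`iso_sim`, `dihB_unique`).
-/

namespace Pool.Agent.H24.GC

variable {V : Type} {H : SimpleGraph V}

/-- the involutions of the states `(x, y)` -/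
structure IsDihB (H : SimpleGraph V) (x₀ y₀ : V) (D : Dih {a : V × V // IsC H (x₀, y₀) a} V) :
    Prop where
  tl : ∀ a, D.tl a = a.1.1
  t₁ : ∀ a, (D.i₁ a).1.1 = a.1.1
  h₁ : ∀ a, (D.i₁ a).1.2 ≠ a.1.2
  t₂ : ∀ a, (D.i₂ a).1.1 ≠ a.1.1
  h₂ : ∀ a, (D.i₂ a).1.2 = a.1.2

theorem dihB_aux_other {s : Set V} (h : s.ncard = 2) {a : V} (ha : a ∈ s) :
    ∃ b ∈ s, b ≠ a ∧ ∀ c ∈ s, c = a ∨ c = b := by
  obtain ⟨x, y, hxy, rfl⟩ := Set.ncard_eq_two.1 h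
  rcases ha with ha | ha
  · refine ⟨y, Or.inr rfl, fun h1 => hxy (ha.symm.trans h1.symm), fun c hc => ?_⟩
    rcases hc with hc | hc
    · exact Or.inl (hc.trans ha.symm)
    · exact Or.inr hc
  · have ha' : a = y := ha
    refine ⟨x, Or.inl rfl, fun h1 => hxy (h1.trans ha'), fun c hc => ?_⟩
    rcases hc with hc | hc
    · exact Or.inr hc
    · exact Or.inl (Eq.trans hc ha'.symm)

theorem dihB_aux_two {s : Set V} (h : s.ncard = 2) {a b c : V} (ha : a ∈ s) (hb : b ∈ s)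
    (hab : b ≠ a) (hc : c ∈ s) : c = a ∨ c = b := by
  obtain ⟨d, _, _, hd⟩ := dihB_aux_other h ha
  rcases hd b hb with h1 | h1
  · exact absurd h1 hab
  · rw [h1]; exact hd c hc

theorem exists_dihB [Finite V] {x₀ y₀ : V} (hxy : H.Adj x₀ y₀) (h : (nbc H x₀ y₀).ncard = 2)
    (h' : (nbc H y₀ x₀).ncard = 2) :
    ∃ D : Dih {a : V × V // IsC H (x₀, y₀) a} V, IsDihB H x₀ y₀ D := by
  have k1 : ∀ a : {a : V × V // IsC H (x₀, y₀) a}, ∃ b ∈ nbc H a.1.1 y₀, b ≠ a.1.2 ∧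
      ∀ c ∈ nbc H a.1.1 y₀, c = a.1.2 ∨ c = b := fun a =>
    dihB_aux_other (by rw [nbc_ncard a.2.2.1 (sim_refl H y₀)]; exact h) ⟨a.2.1, a.2.2.2⟩
  have k2 : ∀ a : {a : V × V // IsC H (x₀, y₀) a}, ∃ b ∈ nbc H a.1.2 x₀, b ≠ a.1.1 ∧
      ∀ c ∈ nbc H a.1.2 x₀, c = a.1.1 ∨ c = b := fun a =>
    dihB_aux_other (by rw [nbc_ncard a.2.2.2 (sim_refl H x₀)]; exact h') ⟨a.2.1.symm, a.2.2.1⟩
  choose o1 m1 n1 u1 using k1
  choose o2 m2 n2 u2 using k2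
  let i1 : {a : V × V // IsC H (x₀, y₀) a} → {a : V × V // IsC H (x₀, y₀) a} := fun a =>
    ⟨(a.1.1, o1 a), (m1 a).1, a.2.2.1, (m1 a).2⟩
  let i2 : {a : V × V // IsC H (x₀, y₀) a} → {a : V × V // IsC H (x₀, y₀) a} := fun a =>
    ⟨(o2 a, a.1.2), (m2 a).1.symm, (m2 a).2, a.2.2.2⟩
  refine ⟨⟨i1, i2, fun a => a.1.1, ?_, ?_, ?_, ?_, ?_⟩, ⟨fun _ => rfl, fun _ => rfl, n1, n2,
    fun _ => rfl⟩⟩
  · intro a
    refine Subtype.ext (Prod.ext rfl ?_)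
    exact (u1 a _ (m1 (i1 a))).resolve_right (n1 (i1 a))
  · intro a
    refine Subtype.ext (Prod.ext ?_ rfl)
    exact (u2 a _ (m2 (i2 a))).resolve_right (n2 (i2 a))
  · intro a h1
    exact n1 a (congrArg (fun b : {a : V × V // IsC H (x₀, y₀) a} => b.1.2) h1)
  · intro a h1
    exact n2 a (congrArg (fun b : {a : V × V // IsC H (x₀, y₀) a} => b.1.1) h1)
  · intro a b
    constructor
    · intro h1
      have h1' : a.1.1 = b.1.1 := h1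
      have h2 : b.1.2 ∈ nbc H a.1.1 y₀ := by
        rw [h1']; exact ⟨b.2.1, b.2.2.2⟩
      rcases u1 a _ h2 with h3 | h3
      · exact Or.inl (Subtype.ext (Prod.ext h1'.symm h3))
      · exact Or.inr (Subtype.ext (Prod.ext h1'.symm h3))
    · rintro (rfl | rfl)
      · rfl
      · rfl

theorem dihB_unique [Finite V] {x₀ y₀ : V} (h : (nbc H x₀ y₀).ncard = 2)
    (h' : (nbc H y₀ x₀).ncard = 2) {D : Dih {a : V × V // IsC H (x₀, y₀) a} V}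
    (hD : IsDihB H x₀ y₀ D) (a b : {a : V × V // IsC H (x₀, y₀) a}) :
    (b.1.1 = a.1.1 → b = a ∨ b = D.i₁ a) ∧ (b.1.2 = a.1.2 → b = a ∨ b = D.i₂ a) := by
  constructor
  · intro h1
    refine (D.tl_iff a b).1 ?_
    rw [hD.tl, hD.tl, h1]
  · intro h1
    have c2 : (nbc H a.1.2 x₀).ncard = 2 := by
      rw [nbc_ncard a.2.2.2 (sim_refl H x₀)]; exact h'
    have e1 : a.1.1 ∈ nbc H a.1.2 x₀ := ⟨a.2.1.symm, a.2.2.1⟩
    have e2 : b.1.1 ∈ nbc H a.1.2 x₀ := by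
      rw [← h1]; exact ⟨b.2.1.symm, b.2.2.1⟩
    have e3 : (D.i₂ a).1.1 ∈ nbc H a.1.2 x₀ := by
      rw [← hD.h₂ a]; exact ⟨(D.i₂ a).2.1.symm, (D.i₂ a).2.2.1⟩
    rcases dihB_aux_two c2 e1 e3 (hD.t₂ a) e2 with h2 | h2
    · exact Or.inl (Subtype.ext (Prod.ext h2 h1))
    · exact Or.inr (Subtype.ext (Prod.ext h2 (h1.trans (hD.h₂ a).symm)))

theorem dihB_aux_nbc [Finite V] {x₀ y₀ : V} (h : (nbc H x₀ y₀).ncard = 2)
    (h' : (nbc H y₀ x₀).ncard = 2) {D : Dih {a : V × V // IsC H (x₀, y₀) a} V}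
    (hD : IsDihB H x₀ y₀ D) (a : {a : V × V // IsC H (x₀, y₀) a}) (z : V) :
    z ∈ nbc H a.1.2 x₀ ↔ z = a.1.1 ∨ z = (D.i₂ a).1.1 := by
  constructor
  · intro hz
    rcases (dihB_unique h h' hD a ⟨(z, a.1.2), hz.1.symm, hz.2, a.2.2.2⟩).2 rfl with h1 | h1
    · exact Or.inl (congrArg (fun b : {a : V × V // IsC H (x₀, y₀) a} => b.1.1) h1)
    · exact Or.inr (congrArg (fun b : {a : V × V // IsC H (x₀, y₀) a} => b.1.1) h1)
  · rintro (rfl | rfl)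
    · exact ⟨a.2.1.symm, a.2.2.1⟩
    · rw [← hD.h₂ a]; exact ⟨(D.i₂ a).2.1.symm, (D.i₂ a).2.2.1⟩

theorem dihB_per [Finite V] {x₀ y₀ : V} (h : (nbc H x₀ y₀).ncard = 2)
    (h' : (nbc H y₀ x₀).ncard = 2) {D : Dih {a : V × V // IsC H (x₀, y₀) a} V}
    (hD : IsDihB H x₀ y₀ D) {x y y' : V} (hxy : IsC H (x₀, y₀) (x, y))
    (hxy' : IsC H (x₀, y₀) (x, y')) (hne : nbc H y x₀ ≠ nbc H y' x₀) :
    3 ≤ D.per ⟨(x, y), hxy⟩ := by
  have hpos := D.per_pos (⟨(x, y), hxy⟩ : {a : V × V // IsC H (x₀, y₀) a})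
  have h1 : D.per ⟨(x, y), hxy⟩ ≠ 1 := by
    intro h1
    have h2 : D.tau ⟨(x, y), hxy⟩ = ⟨(x, y), hxy⟩ := by
      have h3 := Function.iterate_minimalPeriod (f := D.tau)
        (x := (⟨(x, y), hxy⟩ : {a : V × V // IsC H (x₀, y₀) a}))
      unfold Dih.per at h1
      rw [h1] at h3
      exact h3
    have h4 : (D.i₁ (D.i₂ ⟨(x, y), hxy⟩)).1.1 = x := by
      have h5 : D.i₁ (D.i₂ ⟨(x, y), hxy⟩) = ⟨(x, y), hxy⟩ := h2
      rw [h5]
    rw [hD.t₁] at h4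
    exact hD.t₂ ⟨(x, y), hxy⟩ h4
  have h2 : D.per ⟨(x, y), hxy⟩ ≠ 2 := by
    intro h2
    have h3 : D.tau (D.tau ⟨(x, y), hxy⟩) = ⟨(x, y), hxy⟩ := by
      have h3 := Function.iterate_minimalPeriod (f := D.tau)
        (x := (⟨(x, y), hxy⟩ : {a : V × V // IsC H (x₀, y₀) a}))
      unfold Dih.per at h2
      rw [h2] at h3
      exact h3
    have h4 : D.tau ⟨(x, y), hxy⟩ = D.tau.symm ⟨(x, y), hxy⟩ :=
      (Equiv.eq_symm_apply _).2 h3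
    have h5 : D.i₁ (D.i₂ ⟨(x, y), hxy⟩) = D.i₂ (D.i₁ ⟨(x, y), hxy⟩) := h4
    have h6 : (D.i₂ ⟨(x, y), hxy⟩).1.1 = (D.i₂ (D.i₁ ⟨(x, y), hxy⟩)).1.1 := by
      rw [← h5, hD.t₁]
    have h7 : (⟨(x, y'), hxy'⟩ : {a : V × V // IsC H (x₀, y₀) a}) = D.i₁ ⟨(x, y), hxy⟩ := by
      refine ((dihB_unique h h' hD ⟨(x, y), hxy⟩ ⟨(x, y'), hxy'⟩).1 rfl).resolve_left fun h8 => ?_
      have h9 : y' = y := congrArg (fun b : {a : V × V // IsC H (x₀, y₀) a} => b.1.2) h8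
      exact hne (by rw [h9])
    apply hne
    ext z
    have e1 := dihB_aux_nbc h h' hD ⟨(x, y), hxy⟩ z
    have e2 := dihB_aux_nbc h h' hD ⟨(x, y'), hxy'⟩ z
    rw [h7, ← h6, ← h7] at e2
    exact e1.trans e2.symm
  omega

theorem dihB_step [Finite V] {x₀ y₀ : V} (h : (nbc H x₀ y₀).ncard = 2)
    (h' : (nbc H y₀ x₀).ncard = 2) {D : Dih {a : V × V // IsC H (x₀, y₀) a} V}
    (hD : IsDihB H x₀ y₀ D) (a : {a : V × V // IsC H (x₀, y₀) a}) (x' : V) :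
    lk H x₀ y₀ (D.tl a) x' ↔ x' = D.tl a ∨ x' = D.tl (D.tau a) ∨ x' = D.tl (D.tau.symm a) := by
  have t1 : D.tl (D.tau a) = (D.i₂ a).1.1 := by
    rw [hD.tl]
    exact hD.t₁ (D.i₂ a)
  have t2 : D.tl (D.tau.symm a) = (D.i₂ (D.i₁ a)).1.1 := by
    rw [hD.tl]
    rfl
  rw [t1, t2, hD.tl]
  constructor
  · rintro ⟨h1, h2, y, h3, h4, h5⟩
    have e1 := (dihB_unique h h' hD a ⟨(a.1.1, y), h4, h1, h3⟩).1 rfl
    have e2 := (dihB_aux_nbc h h' hD ⟨(a.1.1, y), h4, h1, h3⟩ x').1 ⟨h5.symm, h2⟩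
    rcases e2 with e2 | e2
    · exact Or.inl e2
    · rcases e1 with e1 | e1
      · rw [e1] at e2; exact Or.inr (Or.inl e2)
      · rw [e1] at e2; exact Or.inr (Or.inr e2)
  · rintro (rfl | rfl | rfl)
    · exact ⟨a.2.2.1, a.2.2.1, a.1.2, a.2.2.2, a.2.1, a.2.1⟩
    · refine ⟨a.2.2.1, (D.i₂ a).2.2.1, a.1.2, a.2.2.2, a.2.1, ?_⟩
      have := (D.i₂ a).2.1
      rwa [hD.h₂] at this
    · refine ⟨a.2.2.1, (D.i₂ (D.i₁ a)).2.2.1, (D.i₁ a).1.2, (D.i₁ a).2.2.2, ?_, ?_⟩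
      · have := (D.i₁ a).2.1
        rwa [hD.t₁] at this
      · have := (D.i₂ (D.i₁ a)).2.1
        rwa [hD.h₂] at this

theorem dihB_iso [Finite V] {x₀ y₀ : V} (h : (nbc H x₀ y₀).ncard = 2)
    (h' : (nbc H y₀ x₀).ncard = 2) {D : Dih {a : V × V // IsC H (x₀, y₀) a} V}
    (hD : IsDihB H x₀ y₀ D) (e : H ≃g H) (a : {a : V × V // IsC H (x₀, y₀) a}) :
    ∃ b : {a : V × V // IsC H (x₀, y₀) a}, b.1 = (e a.1.1, e a.1.2) ∧ D.per b = D.per a := by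
  let φ : {a : V × V // IsC H (x₀, y₀) a} → {a : V × V // IsC H (x₀, y₀) a} := fun a =>
    ⟨(e a.1.1, e a.1.2), e.map_adj_iff.2 a.2.1, sim_trans (iso_sim e a.1.1) a.2.2.1,
      sim_trans (iso_sim e a.1.2) a.2.2.2⟩
  have hφ : Function.Injective φ := by
    intro a b hab
    have h1 : e a.1.1 = e b.1.1 :=
      congrArg (fun b : {a : V × V // IsC H (x₀, y₀) a} => b.1.1) hab
    have h2 : e a.1.2 = e b.1.2 :=
      congrArg (fun b : {a : V × V // IsC H (x₀, y₀) a} => b.1.2) hab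
    exact Subtype.ext (Prod.ext (e.injective h1) (e.injective h2))
  refine ⟨φ a, rfl, D.per_map hφ (fun b => ?_) (fun b => ?_) a⟩
  · refine ((dihB_unique h h' hD (φ b) (φ (D.i₁ b))).1 ?_).resolve_left fun h1 =>
      D.ne₁ b (hφ h1)
    exact congrArg e (hD.t₁ b)
  · refine ((dihB_unique h h' hD (φ b) (φ (D.i₂ b))).2 ?_).resolve_left fun h1 =>
      D.ne₂ b (hφ h1)
    exact congrArg e (hD.h₂ b)

end Pool.Agent.H24.GC
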