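import Pool.Agent.H24.GC.StepDef
import Pool.Agent.H24.GC.KitAdd

/-!
# JOB GC-29: the two involutions for two swaps of a class

`c : Bool → V` gives two classes, both adjacent to the class of `x₀`, such that every vertex of the class
of `c e` has exactly two neighbours in the class of `x₀` (`hc2`). By `hb` the set `nbc H y x₀` is the
same for all neighbours `y` of `x` in the class of `c e` (note `nbc H y x = nbc H y x₀` for `x ~ x₀`); let
`s e x` be its other element. States: `(x, e)`; `i₁ (x, e) = (x, !e)`, `i₂ (x, e) = (s e x, e)`,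
`tl (x, e) = x`. `s e (s e x) = x`: for `y` adjacent to `x` in the class of `c e`, `nbc H y x₀ = {x, s e x}`.
`dihC_unique`: if `y ~ c e` is adjacent to `x` and `x'`, then `x' = x` or `x' = s e x`.
`dihC_even`: `τ (x, e) = (s e x, !e)`; if `τ ^ n a = a` then `n` is even.
`dihC_step`: let `x = tl a`. `lk H x₀ (c e) z z' ↔ z' = z ∨ z' = s e z` (for `z ~ x₀`, `z' : V`). So the left
side says: `x'` is one of `x, s₀ x, s₁ x, s₁ (s₀ x)` and one of `x, s₀ x, s₁ x, s₀ (s₁ x)`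
(`s₀ = s false`, `s₁ = s true`). If `s₁ (s₀ x) ≠ s₀ (s₁ x)` this is `x, s₀ x, s₁ x`, which are
`tl a`, `tl (τ a)`, `tl (τ⁻¹ a)` in some order (`τ⁻¹ (x, e) = (s (!e) x, !e)`). And
`{s₁ (s₀ x), s₀ (s₁ x)} = {tl (τ ^ 2 a), tl (τ ^ (-2) a)}`; if they were equal then `D.per a ∣ 4`
(`Dih.tl_iff_dvd`), excluded.
`dihC_per`: for `a = (x, false)`: `tl (τ ^ 2 a) = s₁ (s₀ x)`, `tl (τ ^ (-2) a) = s₀ (s₁ x)`; they are
different, so `D.per a` does not divide `4`.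
`dihC_iso`: apply `Dih.per_map` to `φ (x, e) = (g x, e)` (`iso_sim`; `g (s e x) = s e (g x)`).
-/

namespace Pool.Agent.H24.GC

variable {V : Type} {H : SimpleGraph V}

/-- the involutions of the states `(x, e)` -/
structure IsDihC (H : SimpleGraph V) (x₀ : V) (c : Bool → V)
    (D : Dih ({x : V // Sim H x x₀} × Bool) V) : Prop where
  tl : ∀ a, D.tl a = a.1.1
  i₁ : ∀ a, D.i₁ a = (a.1, !a.2)
  l₂ : ∀ a, (D.i₂ a).2 = a.2
  t₂ : ∀ a, (D.i₂ a).1 ≠ a.1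
  h₂ : ∀ a y, Sim H y (c a.2) → H.Adj a.1.1 y → nbc H y x₀ = {a.1.1, (D.i₂ a).1.1}

/-- the hypotheses -/
structure HypC (H : SimpleGraph V) (x₀ : V) (c : Bool → V) : Prop where
  adj : ∀ e, ∃ y, Sim H y (c e) ∧ H.Adj x₀ y
  two : ∀ e, (nbc H (c e) x₀).ncard = 2
  hb : ∀ x y y', H.Adj x y → H.Adj x y' → Sim H y y' → nbc H y x = nbc H y' x

theorem dihCx_nbc [Finite V] {x x₀ y : V} (h : Sim H x x₀) : nbc H y x = nbc H y x₀ := by
  ext w
  show H.Adj y w ∧ Sim H w x ↔ H.Adj y w ∧ Sim H w x₀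
  exact ⟨fun h1 => ⟨h1.1, sim_trans h1.2 h⟩, fun h1 => ⟨h1.1, sim_trans h1.2 (sim_symm h)⟩⟩

theorem dihCx_ex [Finite V] {x₀ : V} {c : Bool → V} (h : HypC H x₀ c) {x : V}
    (hx : Sim H x x₀) (e : Bool) : ∃ y, Sim H y (c e) ∧ H.Adj x y := by
  obtain ⟨y, hy1, hy2⟩ := h.adj e
  have h1 : (nbc H x (c e)).ncard = (nbc H x₀ (c e)).ncard := nbc_ncard hx (sim_refl H (c e))
  have h2 : (nbc H x₀ (c e)).Nonempty := ⟨y, hy2, hy1⟩
  have h3 : 0 < (nbc H x₀ (c e)).ncard := (Set.ncard_pos (Set.toFinite _)).2 h2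
  rw [← h1] at h3
  obtain ⟨z, hz⟩ := (Set.ncard_pos (Set.toFinite _)).1 h3
  exact ⟨z, hz.2, hz.1⟩

theorem dihCx_two [Finite V] {x₀ : V} {c : Bool → V} (h : HypC H x₀ c) {e : Bool} {y : V}
    (hy : Sim H y (c e)) : (nbc H y x₀).ncard = 2 := by
  rw [← h.two e]
  exact nbc_ncard hy (sim_refl H x₀)

theorem dihCx_s [Finite V] {x₀ : V} {c : Bool → V} (h : HypC H x₀ c)
    (a : {x : V // Sim H x x₀} × Bool) : ∃ z : {x : V // Sim H x x₀}, z ≠ a.1 ∧
      ∀ y, Sim H y (c a.2) → H.Adj a.1.1 y → nbc H y x₀ = {a.1.1, z.1} := by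
  obtain ⟨⟨x, hx⟩, e⟩ := a
  obtain ⟨y, hy1, hy2⟩ := dihCx_ex h hx e
  obtain ⟨u, v, huv, hset⟩ := Set.ncard_eq_two.1 (dihCx_two h hy1)
  have hxm : x ∈ nbc H y x₀ := ⟨hy2.symm, hx⟩
  have key : ∃ z, z ≠ x ∧ nbc H y x₀ = {x, z} := by
    rw [hset] at hxm
    rcases hxm with h1 | h1
    · exact ⟨v, fun e1 => huv (h1.symm.trans e1.symm), by rw [hset, h1]⟩
    · have h2 : x = v := h1
      exact ⟨u, fun e1 => huv (e1.trans h2), by rw [hset, h2, Set.pair_comm]⟩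
  obtain ⟨z, hzx, hz⟩ := key
  have hzm : z ∈ nbc H y x₀ := by
    rw [hz]
    exact Or.inr rfl
  refine ⟨⟨z, hzm.2⟩, fun e1 => hzx (congrArg Subtype.val e1), ?_⟩
  intro y' hy' hadj
  have h1 := h.hb x y y' hy2 hadj (sim_trans hy1 (sim_symm hy'))
  rw [dihCx_nbc hx, dihCx_nbc hx] at h1
  rw [← h1, hz]

theorem dihCx_invol [Finite V] {x₀ : V} {c : Bool → V} (h : HypC H x₀ c)
    (s : {x : V // Sim H x x₀} × Bool → {x : V // Sim H x x₀}) (hs1 : ∀ a, s a ≠ a.1)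
    (hs2 : ∀ a y, Sim H y (c a.2) → H.Adj a.1.1 y → nbc H y x₀ = {a.1.1, (s a).1})
    (a : {x : V // Sim H x x₀} × Bool) : s (s a, a.2) = a.1 := by
  obtain ⟨y, hy1, hy2⟩ := dihCx_ex h a.1.2 a.2
  have h1 := hs2 a y hy1 hy2
  have h2 : (s a).1 ∈ nbc H y x₀ := by
    rw [h1]
    exact Or.inr rfl
  have h3 := hs2 (s a, a.2) y hy1 h2.1.symm
  have h4 : a.1.1 ∈ nbc H y x₀ := by
    rw [h1]
    exact Or.inl rfl
  rw [h3] at h4
  rcases h4 with h5 | h5
  · exact absurd (Subtype.ext h5.symm) (hs1 a)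
  · exact Subtype.ext (Eq.symm h5)

theorem exists_dihC [Finite V] {x₀ : V} {c : Bool → V} (h : HypC H x₀ c) :
    ∃ D : Dih ({x : V // Sim H x x₀} × Bool) V, IsDihC H x₀ c D := by
  choose s hs1 hs2 using dihCx_s h
  refine ⟨{ i₁ := fun a => (a.1, !a.2)
            i₂ := fun a => (s a, a.2)
            tl := fun a => a.1.1
            inv₁ := ?_
            inv₂ := ?_
            ne₁ := ?_
            ne₂ := ?_
            tl_iff := ?_ }, ⟨fun _ => rfl, fun _ => rfl, fun _ => rfl, hs1, hs2⟩⟩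
  · rintro ⟨x, e⟩
    simp
  · intro a
    exact Prod.ext (dihCx_invol h s hs1 hs2 a) rfl
  · rintro ⟨x, e⟩ h1
    have h2 : (!e) = e := congrArg Prod.snd h1
    cases e <;> simp at h2
  · intro a h1
    exact hs1 a (congrArg Prod.fst h1)
  · rintro ⟨x, e⟩ ⟨x', e'⟩
    constructor
    · intro h1
      have h2 : x = x' := Subtype.ext h1
      subst h2
      by_cases he : e' = e
      · left
        rw [he]
      · right
        have : e' = !e := by
          cases e <;> cases e' <;> simp at he ⊢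
        rw [this]
    · rintro (h1 | h1)
      · have h2 : x' = x := congrArg Prod.fst h1
        rw [h2]
      · have h2 : x' = x := congrArg Prod.fst h1
        rw [h2]

theorem dihC_tau [Finite V] {x₀ : V} {c : Bool → V} {D : Dih ({x : V // Sim H x x₀} × Bool) V}
    (hD : IsDihC H x₀ c D) (a : {x : V // Sim H x x₀} × Bool) :
    D.tau a = ((D.i₂ a).1, !a.2) ∧ D.tau.symm a = ((D.i₂ (a.1, !a.2)).1, !a.2) := by
  constructor
  · show D.i₁ (D.i₂ a) = ((D.i₂ a).1, !a.2)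
    rw [hD.i₁, hD.l₂]
  · show D.i₂ (D.i₁ a) = ((D.i₂ (a.1, !a.2)).1, !a.2)
    rw [hD.i₁]
    exact Prod.ext rfl (hD.l₂ _)

theorem dihC_lab [Finite V] {x₀ : V} {c : Bool → V} {D : Dih ({x : V // Sim H x x₀} × Bool) V}
    (hD : IsDihC H x₀ c D) (a : {x : V // Sim H x x₀} × Bool) (t : ℕ) :
    ((D.tau ^ (t : ℤ)) a).2 = a.2.xor (decide (t % 2 = 1)) := by
  induction t with
  | zero => simp
  | succ t ih =>
    have h1 : (D.tau ^ ((t + 1 : ℕ) : ℤ)) a = D.tau ((D.tau ^ (t : ℤ)) a) := by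
      rw [Nat.cast_add, Nat.cast_one, add_comm, zpow_add, zpow_one]
      rfl
    rw [h1, (dihC_tau hD _).1]
    show (!((D.tau ^ (t : ℤ)) a).2) = _
    rw [ih]
    rcases Nat.mod_two_eq_zero_or_one t with h2 | h2
    · have h3 : (t + 1) % 2 = 1 := by omega
      rw [h2, h3]
      cases a.2 <;> rfl
    · have h3 : (t + 1) % 2 = 0 := by omega
      rw [h2, h3]
      cases a.2 <;> rfl

theorem dihC_even [Finite V] {x₀ : V} {c : Bool → V} {D : Dih ({x : V // Sim H x x₀} × Bool) V}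
    (hD : IsDihC H x₀ c D) (a : {x : V // Sim H x x₀} × Bool) : 2 ∣ D.per a := by
  have h1 : (D.tau ^ ((D.per a : ℕ) : ℤ)) a = a := by
    rw [zpow_natCast, ← Equiv.Perm.iterate_eq_pow]
    exact Function.iterate_minimalPeriod
  have h2 := dihC_lab hD a (D.per a)
  rw [h1] at h2
  rcases Nat.mod_two_eq_zero_or_one (D.per a) with h3 | h3
  · exact Nat.dvd_of_mod_eq_zero h3
  · exfalso
    rw [h3] at h2
    revert h2
    cases a.2 <;> simp

theorem dihCx_sq [Finite V] {x₀ : V} {c : Bool → V} {D : Dih ({x : V // Sim H x x₀} × Bool) V}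
    (hD : IsDihC H x₀ c D) (a : {x : V // Sim H x x₀} × Bool) :
    D.tl ((D.tau ^ (2 : ℤ)) a) = (D.i₂ ((D.i₂ a).1, !a.2)).1.1 ∧
      D.tl ((D.tau ^ (-2 : ℤ)) a) = (D.i₂ ((D.i₂ (a.1, !a.2)).1, a.2)).1.1 := by
  constructor
  · have h1 : (D.tau ^ (2 : ℤ)) a = D.tau (D.tau a) := by
      rw [zpow_two]
      rfl
    rw [h1, (dihC_tau hD a).1, (dihC_tau hD _).1, hD.tl]
  · have h1 : (D.tau ^ (-2 : ℤ)) a = D.tau.symm (D.tau.symm a) := by
      rw [zpow_neg, zpow_two, mul_inv_rev]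
      rfl
    rw [h1, (dihC_tau hD a).2, (dihC_tau hD _).2, hD.tl]
    show (D.i₂ ((D.i₂ (a.1, !a.2)).1, !(!a.2))).1.1 = _
    rw [Bool.not_not]

theorem dihCx_four [Finite V] {x₀ : V} {c : Bool → V} {D : Dih ({x : V // Sim H x x₀} × Bool) V}
    (hD : IsDihC H x₀ c D) (a : {x : V // Sim H x x₀} × Bool) :
    D.per a ∣ 4 ↔
      (D.i₂ ((D.i₂ a).1, !a.2)).1 = (D.i₂ ((D.i₂ (a.1, !a.2)).1, a.2)).1 := by
  have h1 := D.tl_iff_dvd 2 (-2) a
  rw [(dihCx_sq hD a).1, (dihCx_sq hD a).2] at h1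
  have h2 : (2 : ℤ) - (-2) = ((4 : ℕ) : ℤ) := by norm_num
  rw [h2, Int.natCast_dvd_natCast] at h1
  rw [← h1, Subtype.ext_iff]

theorem dihCx_lk [Finite V] {x₀ : V} {c : Bool → V} (h : HypC H x₀ c)
    {D : Dih ({x : V // Sim H x x₀} × Bool) V} (hD : IsDihC H x₀ c D) (e : Bool)
    (z : {x : V // Sim H x x₀}) (z' : V) :
    lk H x₀ (c e) z.1 z' ↔ z' = z.1 ∨ z' = (D.i₂ (z, e)).1.1 := by
  constructor
  · rintro ⟨_, h2, y, h3, h4, h5⟩
    have h6 := hD.h₂ (z, e) y h3 h4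
    have h7 : z' ∈ nbc H y x₀ := ⟨h5.symm, h2⟩
    rw [h6] at h7
    exact h7
  · intro hz
    obtain ⟨y, hy1, hy2⟩ := dihCx_ex h z.2 e
    have h6 := hD.h₂ (z, e) y hy1 hy2
    have h7 : z' ∈ nbc H y x₀ := by
      rw [h6]
      exact hz
    exact ⟨z.2, h7.2, y, hy1, hy2, h7.1.symm⟩

theorem dihC_step [Finite V] {x₀ : V} {c : Bool → V} (h : HypC H x₀ c)
    {D : Dih ({x : V // Sim H x x₀} × Bool) V} (hD : IsDihC H x₀ c D)
    (a : {x : V // Sim H x x₀} × Bool) (ha : ¬ D.per a ∣ 4) (x' : V) :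
    ((∃ z, Sim H z x₀ ∧ lk H x₀ (c false) (D.tl a) z ∧ lk H x₀ (c true) z x') ∧
      (∃ z, Sim H z x₀ ∧ lk H x₀ (c true) (D.tl a) z ∧ lk H x₀ (c false) z x')) ↔
      x' = D.tl a ∨ x' = D.tl (D.tau a) ∨ x' = D.tl (D.tau.symm a) := by
  have hcomp : ∀ e e' : Bool, (∃ z, Sim H z x₀ ∧ lk H x₀ (c e) (D.tl a) z ∧ lk H x₀ (c e') z x') ↔
      (x' = a.1.1 ∨ x' = (D.i₂ (a.1, e')).1.1 ∨ x' = (D.i₂ (a.1, e)).1.1 ∨
        x' = (D.i₂ ((D.i₂ (a.1, e)).1, e')).1.1) := by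
    intro e e'
    rw [hD.tl]
    constructor
    · rintro ⟨z, hz, h1, h2⟩
      rw [dihCx_lk h hD] at h1
      rcases h1 with h1 | h1
      · rw [h1, dihCx_lk h hD] at h2
        rcases h2 with h2 | h2
        · exact Or.inl h2
        · exact Or.inr (Or.inl h2)
      · rw [h1, dihCx_lk h hD] at h2
        rcases h2 with h2 | h2
        · exact Or.inr (Or.inr (Or.inl h2))
        · exact Or.inr (Or.inr (Or.inr h2))
    · rintro (h1 | h1 | h1 | h1)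
      · exact ⟨a.1.1, a.1.2, (dihCx_lk h hD e _ _).2 (Or.inl rfl),
          (dihCx_lk h hD e' _ _).2 (Or.inl h1)⟩
      · exact ⟨a.1.1, a.1.2, (dihCx_lk h hD e _ _).2 (Or.inl rfl),
          (dihCx_lk h hD e' _ _).2 (Or.inr h1)⟩
      · exact ⟨(D.i₂ (a.1, e)).1.1, (D.i₂ (a.1, e)).1.2, (dihCx_lk h hD e _ _).2 (Or.inr rfl),
          (dihCx_lk h hD e' _ _).2 (Or.inl h1)⟩
      · exact ⟨(D.i₂ (a.1, e)).1.1, (D.i₂ (a.1, e)).1.2, (dihCx_lk h hD e _ _).2 (Or.inr rfl),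
          (dihCx_lk h hD e' _ _).2 (Or.inr h1)⟩
  rw [dihCx_four hD] at ha
  rw [hcomp, hcomp, (dihC_tau hD a).1, (dihC_tau hD a).2, hD.tl, hD.tl, hD.tl]
  obtain ⟨x, e⟩ := a
  have hne : (D.i₂ ((D.i₂ (x, false)).1, true)).1.1 ≠ (D.i₂ ((D.i₂ (x, true)).1, false)).1.1 := by
    intro h1
    apply ha
    have h2 := Subtype.ext h1
    cases e
    · exact h2
    · exact h2.symm
  constructor
  · rintro ⟨h1, h2⟩
    have h3 : x' = x.1 ∨ x' = (D.i₂ (x, false)).1.1 ∨ x' = (D.i₂ (x, true)).1.1 := by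
      rcases h1 with h1 | h1 | h1 | h1
      · exact Or.inl h1
      · exact Or.inr (Or.inr h1)
      · exact Or.inr (Or.inl h1)
      · rcases h2 with h2 | h2 | h2 | h2
        · exact Or.inl h2
        · exact Or.inr (Or.inl h2)
        · exact Or.inr (Or.inr h2)
        · exact absurd (h1.symm.trans h2) hne
    cases e
    · exact h3
    · rcases h3 with h3 | h3 | h3
      · exact Or.inl h3
      · exact Or.inr (Or.inr h3)
      · exact Or.inr (Or.inl h3)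
  · intro h3
    have h4 : x' = x.1 ∨ x' = (D.i₂ (x, false)).1.1 ∨ x' = (D.i₂ (x, true)).1.1 := by
      cases e
      · exact h3
      · rcases h3 with h3 | h3 | h3
        · exact Or.inl h3
        · exact Or.inr (Or.inr h3)
        · exact Or.inr (Or.inl h3)
    rcases h4 with h4 | h4 | h4
    · exact ⟨Or.inl h4, Or.inl h4⟩
    · exact ⟨Or.inr (Or.inr (Or.inl h4)), Or.inr (Or.inl h4)⟩
    · exact ⟨Or.inr (Or.inl h4), Or.inr (Or.inr (Or.inl h4))⟩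

theorem dihC_per [Finite V] {x₀ : V} {c : Bool → V} (h : HypC H x₀ c)
    {D : Dih ({x : V // Sim H x x₀} × Bool) V} (hD : IsDihC H x₀ c D)
    (x : {x : V // Sim H x x₀})
    (hne : (D.i₂ ((D.i₂ (x, false)).1, true)).1 ≠ (D.i₂ ((D.i₂ (x, true)).1, false)).1) :
    ¬ D.per (x, false) ∣ 4 := by
  rw [dihCx_four hD]
  exact hne

theorem dihC_iso [Finite V] {x₀ : V} {c : Bool → V} (h : HypC H x₀ c)
    {D : Dih ({x : V // Sim H x x₀} × Bool) V} (hD : IsDihC H x₀ c D) (g : H ≃g H)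
    (a : {x : V // Sim H x x₀} × Bool) :
    ∃ b : {x : V // Sim H x x₀} × Bool, b.1.1 = g a.1.1 ∧ b.2 = a.2 ∧ D.per b = D.per a := by
  let φ : {x : V // Sim H x x₀} × Bool → {x : V // Sim H x x₀} × Bool :=
    fun a => (⟨g a.1.1, sim_trans (iso_sim g a.1.1) a.1.2⟩, a.2)
  have hinj : Function.Injective φ := by
    intro a b hab
    have h1 : g a.1.1 = g b.1.1 := congrArg (fun q => q.1.1) hab
    have h2 : a.2 = b.2 := congrArg (fun q => q.2) hab
    exact Prod.ext (Subtype.ext (g.injective h1)) h2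
  refine ⟨φ a, rfl, rfl, D.per_map hinj ?_ ?_ a⟩
  · intro a
    rw [hD.i₁, hD.i₁]
  · intro a
    refine Prod.ext (Subtype.ext ?_) ?_
    · show g (D.i₂ a).1.1 = (D.i₂ (φ a)).1.1
      obtain ⟨y, hy1, hy2⟩ := dihCx_ex h a.1.2 a.2
      have h1 := hD.h₂ a y hy1 hy2
      have h2 : (D.i₂ a).1.1 ∈ nbc H y x₀ := by
        rw [h1]
        exact Or.inr rfl
      have h3 : H.Adj (g a.1.1) (g y) := g.map_adj_iff.2 hy2
      have h4 := hD.h₂ (φ a) (g y) (sim_trans (iso_sim g y) hy1) h3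
      have h5 : g (D.i₂ a).1.1 ∈ nbc H (g y) x₀ :=
        ⟨g.map_adj_iff.2 h2.1, sim_trans (iso_sim g _) h2.2⟩
      rw [h4] at h5
      rcases h5 with h5 | h5
      · have h6 : (D.i₂ a).1.1 = a.1.1 := g.injective h5
        exact absurd (Subtype.ext h6) (hD.t₂ a)
      · exact h5
    · show (D.i₂ a).2 = (D.i₂ (φ a)).2
      rw [hD.l₂, hD.l₂]

end Pool.Agent.H24.GC
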