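import Pool.Agent.H24.GC.Defs

/-!
# JOB GC-1: the degree partition

`sim_refl`: the equality setoid `⊥` is equitable. `sim_symm`: clear.
`ncard_inter_of_eq`: `N(x) ∩ C` is the disjoint union of the sets `N(x) ∩ [z]`, `[z]` the classes of
`s` contained in `C` (all `w ∈ C` have `[w] ⊆ C`); sum over the quotient (`Finite V`), for instance with
`Finset.card_eq_sum_card_fiberwise` for the map `Quotient.mk s` on `(N(x) ∩ C).toFinset`: the fibre over
`[z]` is `N(x) ∩ [z]` if `z ∈ C` and empty otherwise.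
`sim_trans`: let `s₁, s₂` be equitable with `s₁ x y`, `s₂ y z`, and `S = s₁ ⊔ s₂` (`Setoid.sup_eq_eqvGen`).
`S` is equitable: induct on `EqvGen`; if `s₁ u v` then, a class `C` of `S` being saturated for `s₁`,
`ncard_inter_of_eq` gives the equality; the same for `s₂`; reflexivity, symmetry and transitivity are clear.
`sim_sat`: by definition `s x y` for an equitable `s`, and `s ≤ Sim`, so a set saturated for `Sim` is
saturated for `s`.
`nbc_ncard`: `nbc H x y = N(x) ∩ {w | Sim H w y}`, this set is saturated (`sim_trans`, `sim_symm`), and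
`nbc H x y = nbc H x y'` as `Sim y y'`.
`edge_count`: both sides count the pairs `(x', y')` with `H.Adj x' y'`, `Sim x' x`, `Sim y' y`
(`nbc_ncard` says that `(nbc H x' y).ncard` is constant for `Sim x' x`; e.g. `Finset.sum_comm'` or
`Finset.sum_card_bipartiteAbove_eq_sum_card_bipartiteBelow`).
-/

namespace Pool.Agent.H24.GC

variable {V : Type} {H : SimpleGraph V}

theorem sim_refl (H : SimpleGraph V) (x : V) : Sim H x x := by
  refine ⟨⊥, ?_, Setoid.refl' _ x⟩
  intro a b z h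
  have h1 : a = b := h
  rw [h1]

theorem sim_symm {x y : V} (h : Sim H x y) : Sim H y x := by
  obtain ⟨s, hs, h⟩ := h
  exact ⟨s, hs, s.symm' h⟩

theorem Equit_fib [Finite V] (s : Setoid V) (A : Set V) :
    A.ncard = ∑ᶠ q : Quotient s, (A ∩ {w | Quotient.mk s w = q}).ncard := by
  classical
  have := Fintype.ofFinite V
  have := Fintype.ofFinite (Quotient s)
  rw [finsum_eq_sum_of_fintype, Set.ncard_eq_toFinset_card',
    Finset.card_eq_sum_card_fiberwise (f := Quotient.mk s) (t := Finset.univ)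
      (fun _ _ => Finset.mem_coe.2 (Finset.mem_univ _))]
  refine Finset.sum_congr rfl fun q _ => ?_
  rw [Set.ncard_eq_toFinset_card']
  congr 1
  ext w
  simp

theorem ncard_inter_of_eq [Finite V] {s : Setoid V} (hs : Equitable H s) {x y : V} (h : s x y)
    {C : Set V} (hC : ∀ u v, s u v → (u ∈ C ↔ v ∈ C)) :
    (H.neighborSet x ∩ C).ncard = (H.neighborSet y ∩ C).ncard := by
  rw [Equit_fib s (H.neighborSet x ∩ C), Equit_fib s (H.neighborSet y ∩ C)]
  refine finsum_congr fun q => ?_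
  obtain ⟨z, rfl⟩ := Quotient.exists_rep q
  have hq : ∀ w, (Quotient.mk s w = Quotient.mk s z) ↔ s w z := fun w => Quotient.eq
  by_cases hz : z ∈ C
  · have key : ∀ a : V, H.neighborSet a ∩ C ∩ {w | Quotient.mk s w = ⟦z⟧} =
        H.neighborSet a ∩ {w | s w z} := by
      intro a
      ext w
      simp only [Set.mem_inter_iff, Set.mem_ofPred_eq]
      constructor
      · rintro ⟨⟨h1, _⟩, h3⟩
        exact ⟨h1, (hq w).1 h3⟩
      · rintro ⟨h1, h3⟩
        exact ⟨⟨h1, (hC w z h3).2 hz⟩, (hq w).2 h3⟩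
    rw [key, key]
    exact hs x y z h
  · have key : ∀ a : V, H.neighborSet a ∩ C ∩ {w | Quotient.mk s w = ⟦z⟧} = ∅ := by
      intro a
      rw [Set.eq_empty_iff_forall_notMem]
      rintro w ⟨⟨_, h2⟩, h3⟩
      exact hz ((hC w z ((hq w).1 h3)).1 h2)
    rw [key, key]

theorem sim_trans [Finite V] {x y z : V} (h : Sim H x y) (h' : Sim H y z) : Sim H x z := by
  obtain ⟨s₁, hs₁, h₁⟩ := h
  obtain ⟨s₂, hs₂, h₂⟩ := h'
  have le₁ : s₁ ≤ s₁ ⊔ s₂ := le_sup_left
  have le₂ : s₂ ≤ s₁ ⊔ s₂ := le_sup_right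
  have hsat : ∀ (s : Setoid V) (_ : s ≤ s₁ ⊔ s₂) (c u v : V), s u v →
      (u ∈ {w | (s₁ ⊔ s₂) w c} ↔ v ∈ {w | (s₁ ⊔ s₂) w c}) := by
    intro s hs c u v huv
    constructor
    · intro hu
      exact (s₁ ⊔ s₂).trans' ((s₁ ⊔ s₂).symm' (hs huv)) hu
    · intro hv
      exact (s₁ ⊔ s₂).trans' (hs huv) hv
  have key : s₁ ⊔ s₂ ≤ Setoid.ker fun a : V => fun c : V =>
      (H.neighborSet a ∩ {w | (s₁ ⊔ s₂) w c}).ncard := by
    refine sup_le ?_ ?_
    · intro a b hab
      exact funext fun c => ncard_inter_of_eq hs₁ hab (hsat s₁ le₁ c)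
    · intro a b hab
      exact funext fun c => ncard_inter_of_eq hs₂ hab (hsat s₂ le₂ c)
  refine ⟨s₁ ⊔ s₂, ?_, (s₁ ⊔ s₂).trans' (le₁ h₁) (le₂ h₂)⟩
  intro a b c hab
  exact congrFun (key hab) c

theorem sim_sat [Finite V] {x y : V} (h : Sim H x y) {C : Set V}
    (hC : ∀ u v, Sim H u v → (u ∈ C ↔ v ∈ C)) :
    (H.neighborSet x ∩ C).ncard = (H.neighborSet y ∩ C).ncard := by
  obtain ⟨s, hs, h⟩ := h
  exact ncard_inter_of_eq hs h fun u v huv => hC u v ⟨s, hs, huv⟩

theorem nbc_ncard [Finite V] {x x' y y' : V} (h : Sim H x x') (h' : Sim H y y') :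
    (nbc H x y).ncard = (nbc H x' y').ncard := by
  have e1 : ∀ w, Sim H w y ↔ Sim H w y' := fun w =>
    ⟨fun h1 => sim_trans h1 h', fun h1 => sim_trans h1 (sim_symm h')⟩
  have e2 : nbc H x y = H.neighborSet x ∩ {w | Sim H w y} := rfl
  have e3 : nbc H x' y' = H.neighborSet x' ∩ {w | Sim H w y} := by
    ext w
    show H.Adj x' w ∧ Sim H w y' ↔ H.Adj x' w ∧ Sim H w y
    rw [e1]
  rw [e2, e3]
  refine sim_sat h fun u v huv => ?_
  exact ⟨fun h1 => sim_trans (sim_symm huv) h1, fun h1 => sim_trans huv h1⟩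

theorem edge_count [Finite V] (H : SimpleGraph V) (x y : V) :
    {x' | Sim H x' x}.ncard * (nbc H x y).ncard = {y' | Sim H y' y}.ncard * (nbc H y x).ncard := by
  classical
  have := Fintype.ofFinite V
  have key := Finset.sum_card_bipartiteAbove_eq_sum_card_bipartiteBelow
    (s := {x' | Sim H x' x}.toFinset) (t := {y' | Sim H y' y}.toFinset) (r := H.Adj)
  have h1 : ∀ a ∈ {x' | Sim H x' x}.toFinset,
      (Finset.bipartiteAbove H.Adj {y' | Sim H y' y}.toFinset a).card = (nbc H x y).ncard := by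
    intro a ha
    rw [Set.mem_toFinset] at ha
    have ha' : Sim H a x := ha
    rw [← nbc_ncard ha' (sim_refl H y), Set.ncard_eq_toFinset_card']
    congr 1
    ext w
    rw [Finset.mem_bipartiteAbove, Set.mem_toFinset, Set.mem_toFinset]
    show Sim H w y ∧ H.Adj a w ↔ H.Adj a w ∧ Sim H w y
    exact and_comm
  have h2 : ∀ b ∈ {y' | Sim H y' y}.toFinset,
      (Finset.bipartiteBelow H.Adj {x' | Sim H x' x}.toFinset b).card = (nbc H y x).ncard := by
    intro b hb
    rw [Set.mem_toFinset] at hb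
    have hb' : Sim H b y := hb
    rw [← nbc_ncard hb' (sim_refl H x), Set.ncard_eq_toFinset_card']
    congr 1
    ext w
    rw [Finset.mem_bipartiteBelow, Set.mem_toFinset, Set.mem_toFinset, H.adj_comm]
    show Sim H w x ∧ H.Adj b w ↔ H.Adj b w ∧ Sim H w x
    exact and_comm
  rw [Finset.sum_congr rfl h1, Finset.sum_congr rfl h2, Finset.sum_const, Finset.sum_const,
    smul_eq_mul, smul_eq_mul] at key
  rw [Set.ncard_eq_toFinset_card' {x' | Sim H x' x}, Set.ncard_eq_toFinset_card' {y' | Sim H y' y}]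
  exact key

end Pool.Agent.H24.GC
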