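import Pool.Agent.H24.GC.Defs
import Pool.Agent.H79.Thr.Member

/-!
# JOB GC-16: membership in NP

`covers_fin`: let `k = Nat.card V`, `e : V ≃ Fin k`. `Covers G H ↔ Covers G (H.comap e.symm)` (compose with
`e`, `e.symm`). So let `V = Fin k`.
`maxdeg_of_covers`: with `d = k` (a cover maps the neighbourhood of `v` injectively to `H`).
`mem_cover_fin`: by `maxdeg_of_covers` the set is
`{x | ∃ n G, x = enc G ∧ MaxDegLE G k ∧ Covers G H}`; apply `mem_of_chk k` (file
`Pool.Agent.H79.Thr.Member`) with the check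
`ckv k T (n, x, y) = (range n).all fun u => decide (mcol y k u < k) && ((range n).all fun v =>
  !(ment x n u v) || T.getD (mcol y k u * k + mcol y k v) false) &&
  ((range k).all fun c => !(T.getD (mcol y k u * k + c) false) ||
    decide (((range n).filter fun v => ment x n u v && decide (mcol y k v = c)).length = 1))`
where the table `T = enc H` is a constant (`ment_enc` says what its entries are). For a cover `f` the word
`mword f` passes (`mcol_mword`, `ment_enc`): for `c` adjacent to `f u` there is exactly one neighbour `v` of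
`u` with `f v = c`. Conversely let `y` pass; `f u = mcol y k u` is a map to `Fin k`; the second
check says that it maps `N(u)` to `N(f u)`, the third one that every `c ∈ N(f u)` has exactly one
preimage in `N(u)`: so `f` is a cover. Polynomial time: as for `mchkC` in the file cited. The bound on the
length of the certificate is `mword_length`.
-/

namespace Pool.Agent.H24.GC

open Pool.Agent.PPS Pool.Agent.H64.Cook Pool.Agent.H79.Thr

variable {V : Type}

theorem covers_fin {A : Type} (G : SimpleGraph A) (H : SimpleGraph V) {k : ℕ} (e : V ≃ Fin k) :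
    Covers G H ↔ Covers G (H.comap e.symm) := by
  have h1 : ∀ x : V, Set.BijOn e (H.neighborSet x) ((H.comap e.symm).neighborSet (e x)) := by
    intro x
    refine ⟨?_, e.injective.injOn, ?_⟩
    · intro w hw
      show H.Adj (e.symm (e x)) (e.symm (e w))
      rw [e.symm_apply_apply, e.symm_apply_apply]
      exact hw
    · intro w hw
      have hw' : H.Adj (e.symm (e x)) (e.symm w) := hw
      rw [e.symm_apply_apply] at hw'
      exact ⟨e.symm w, hw', e.apply_symm_apply w⟩
  have h2 : ∀ c : Fin k, Set.BijOn e.symm ((H.comap e.symm).neighborSet c)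
      (H.neighborSet (e.symm c)) := by
    intro c
    refine ⟨fun w hw => hw, e.symm.injective.injOn, ?_⟩
    intro w hw
    refine ⟨e w, ?_, e.symm_apply_apply w⟩
    show H.Adj (e.symm c) (e.symm (e w))
    rw [e.symm_apply_apply]
    exact hw
  constructor
  · rintro ⟨f, hf⟩
    exact ⟨fun a => e (f a), fun v => (h1 (f v)).comp (hf v)⟩
  · rintro ⟨f, hf⟩
    exact ⟨fun a => e.symm (f a), fun v => (h2 (f v)).comp (hf v)⟩

theorem maxdeg_of_covers {n k : ℕ} {G : SimpleGraph (Fin n)} {H : SimpleGraph (Fin k)}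
    (h : Covers G H) : MaxDegLE G k := by
  obtain ⟨f, hf⟩ := h
  intro v
  refine ⟨Set.toFinite _, ?_⟩
  rw [← (hf v).injOn.ncard_image]
  have h1 := Set.ncard_le_ncard (Set.subset_univ (f '' G.neighborSet v)) (Set.toFinite _)
  rw [Set.ncard_univ, Nat.card_eq_fintype_card, Fintype.card_fin] at h1
  exact h1

theorem Memb_filter_one {n : ℕ} (p : ℕ → Bool) :
    ((List.range n).filter p).length = 1 ↔ ∃ v, v < n ∧ p v = true ∧
      ∀ w, w < n → p w = true → w = v := by
  rw [← List.toFinset_card_of_nodup (List.nodup_range.filter _), Finset.card_eq_one]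
  constructor
  · rintro ⟨a, ha⟩
    have h1 : ∀ w, (w < n ∧ p w = true) ↔ w = a := by
      intro w
      have h2 : w ∈ ((List.range n).filter p).toFinset ↔ w ∈ ({a} : Finset ℕ) := by rw [ha]
      simpa only [List.mem_toFinset, List.mem_filter, List.mem_range, Finset.mem_singleton]
        using h2
    exact ⟨a, ((h1 a).2 rfl).1, ((h1 a).2 rfl).2, fun w hw hw' => (h1 w).1 ⟨hw, hw'⟩⟩
  · rintro ⟨v, hv, hpv, huniq⟩
    refine ⟨v, ?_⟩
    ext w
    simp only [List.mem_toFinset, List.mem_filter, List.mem_range, Finset.mem_singleton]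
    constructor
    · rintro ⟨h1, h2⟩
      exact huniq w h1 h2
    · rintro rfl
      exact ⟨hv, hpv⟩

/-- the check of a cover of the graph with the matrix `T` on `k` vertices -/
def ckv (T : List Bool) (k : ℕ) (z : ℕ × (List Bool × List Bool)) : Bool :=
  (List.range z.1).all fun u => decide (mcol z.2.2 k u < k) &&
    (((List.range z.1).all fun v =>
      !(ment z.2.1 z.1 u v && !(ment T k (mcol z.2.2 k u) (mcol z.2.2 k v)))) &&
    ((List.range k).all fun c => !(ment T k (mcol z.2.2 k u) c &&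
      !(decide (((List.range z.1).filter fun v =>
        ment z.2.1 z.1 u v && decide (mcol z.2.2 k v = c)).length = 1)))))

theorem Memb_PT_ckv (T : List Bool) (k : ℕ) : PT true (ckv T k) := by
  unfold ckv
  have h1 : PT true (fun w : (ℕ × (List Bool × List Bool)) × ℕ =>
      (List.range w.1.1).all fun v =>
      !(ment w.1.2.1 w.1.1 w.2 v && !(ment T k (mcol w.1.2.2 k w.2) (mcol w.1.2.2 k v)))) :=
    H64.Cook.PT.all' (m := true) (l := fun w : (ℕ × (List Bool × List Bool)) × ℕ => List.range w.1.1)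
      (f := fun w : ((ℕ × (List Bool × List Bool)) × ℕ) × ℕ =>
        !(ment w.1.1.2.1 w.1.1.1 w.1.2 w.2 &&
          !(ment T k (mcol w.1.1.2.2 k w.1.2) (mcol w.1.1.2.2 k w.2)))) (by fun_prop) (by fun_prop)
  have h2 : PT true (fun w : ((ℕ × (List Bool × List Bool)) × ℕ) × ℕ =>
      ((List.range w.1.1.1).filter fun v =>
        ment w.1.1.2.1 w.1.1.1 w.1.2 v && decide (mcol w.1.1.2.2 k v = w.2))) :=
    H64.Cook.PT.filter' (m := true)
      (l := fun w : ((ℕ × (List Bool × List Bool)) × ℕ) × ℕ => List.range w.1.1.1)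
      (f := fun w : (((ℕ × (List Bool × List Bool)) × ℕ) × ℕ) × ℕ =>
        ment w.1.1.1.2.1 w.1.1.1.1 w.1.1.2 w.2 && decide (mcol w.1.1.1.2.2 k w.2 = w.1.2))
      (by fun_prop) (by fun_prop)
  have h3 : PT true (fun w : (ℕ × (List Bool × List Bool)) × ℕ =>
      (List.range k).all fun c => !(ment T k (mcol w.1.2.2 k w.2) c &&
      !(decide (((List.range w.1.1).filter fun v =>
        ment w.1.2.1 w.1.1 w.2 v && decide (mcol w.1.2.2 k v = c)).length = 1)))) :=
    H64.Cook.PT.all' (m := true) (l := fun w : (ℕ × (List Bool × List Bool)) × ℕ => List.range k)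
      (f := fun w : ((ℕ × (List Bool × List Bool)) × ℕ) × ℕ =>
        !(ment T k (mcol w.1.1.2.2 k w.1.2) w.2 &&
      !(decide (((List.range w.1.1.1).filter fun v =>
        ment w.1.1.2.1 w.1.1.1 w.1.2 v && decide (mcol w.1.1.2.2 k v = w.2)).length = 1))))
      (by fun_prop) (by fun_prop)
  exact H64.Cook.PT.all' (m := true) (l := fun z : ℕ × (List Bool × List Bool) => List.range z.1)
    (f := fun w : (ℕ × (List Bool × List Bool)) × ℕ => decide (mcol w.1.2.2 k w.2 < k) &&
      (((List.range w.1.1).all fun v =>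
      !(ment w.1.2.1 w.1.1 w.2 v && !(ment T k (mcol w.1.2.2 k w.2) (mcol w.1.2.2 k v)))) &&
      ((List.range k).all fun c => !(ment T k (mcol w.1.2.2 k w.2) c &&
      !(decide (((List.range w.1.1).filter fun v =>
        ment w.1.2.1 w.1.1 w.2 v && decide (mcol w.1.2.2 k v = c)).length = 1))))))
    (by fun_prop) (PT.and' (by fun_prop) (PT.and' h1 h3))

theorem Memb_ckv_of {n k : ℕ} {G : SimpleGraph (Fin n)} {H : SimpleGraph (Fin k)}
    {f : Fin n → Fin k} (hf : IsCover G H f) : ckv (enc H) k (n, enc G, mword f) = true := by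
  have hcol : ∀ (u : ℕ) (hu : u < n), mcol (mword f) k u = (f ⟨u, hu⟩ : ℕ) :=
    fun u hu => mcol_mword f ⟨u, hu⟩
  have hG : ∀ (u v : ℕ) (hu : u < n) (hv : v < n),
      ment (enc G) n u v = true ↔ G.Adj ⟨u, hu⟩ ⟨v, hv⟩ :=
    fun u v hu hv => ment_enc G ⟨u, hu⟩ ⟨v, hv⟩
  have hH : ∀ (u v : ℕ) (hu : u < k) (hv : v < k),
      ment (enc H) k u v = true ↔ H.Adj ⟨u, hu⟩ ⟨v, hv⟩ :=
    fun u v hu hv => ment_enc H ⟨u, hu⟩ ⟨v, hv⟩
  simp only [ckv, List.all_eq_true, List.mem_range, Bool.and_eq_true, decide_eq_true_eq,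
    Bool.not_eq_true']
  intro u hu
  refine ⟨?_, ?_, ?_⟩
  · rw [hcol u hu]
    exact (f _).2
  · intro v hv
    rw [← Bool.not_eq_true]
    simp only [Bool.and_eq_true, Bool.not_eq_true']
    rintro ⟨h1, h2⟩
    rw [← Bool.not_eq_true] at h2
    apply h2
    rw [hcol u hu, hcol v hv, hH _ _ (f _).2 (f _).2]
    exact (hf ⟨u, hu⟩).mapsTo ((hG u v hu hv).1 h1)
  · intro c hc
    rw [← Bool.not_eq_true]
    simp only [Bool.and_eq_true, Bool.not_eq_true', decide_eq_false_iff_not]
    rintro ⟨h1, h2⟩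
    apply h2
    rw [hcol u hu, hH _ _ (f _).2 hc] at h1
    obtain ⟨v, hv, hvc⟩ := (hf ⟨u, hu⟩).surjOn h1
    rw [Memb_filter_one]
    refine ⟨v, v.2, ?_, ?_⟩
    · rw [Bool.and_eq_true, decide_eq_true_eq]
      refine ⟨(hG u v hu v.2).2 hv, ?_⟩
      rw [hcol v v.2]
      exact congrArg Fin.val hvc
    · intro w hw hw2
      rw [Bool.and_eq_true, decide_eq_true_eq, hcol w hw] at hw2
      have h3 : f ⟨w, hw⟩ = f v := by
        rw [hvc]
        exact Fin.ext hw2.2
      have h4 := (hf ⟨u, hu⟩).injOn ((hG u w hu hw).1 hw2.1) hv h3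
      exact congrArg Fin.val h4

theorem Memb_of_ckv {n k : ℕ} {G : SimpleGraph (Fin n)} {H : SimpleGraph (Fin k)}
    {y : List Bool} (h : ckv (enc H) k (n, enc G, y) = true) : Covers G H := by
  have hG : ∀ (u v : ℕ) (hu : u < n) (hv : v < n),
      ment (enc G) n u v = true ↔ G.Adj ⟨u, hu⟩ ⟨v, hv⟩ :=
    fun u v hu hv => ment_enc G ⟨u, hu⟩ ⟨v, hv⟩
  have hH : ∀ (u v : ℕ) (hu : u < k) (hv : v < k),
      ment (enc H) k u v = true ↔ H.Adj ⟨u, hu⟩ ⟨v, hv⟩ :=
    fun u v hu hv => ment_enc H ⟨u, hu⟩ ⟨v, hv⟩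
  simp only [ckv, List.all_eq_true, List.mem_range, Bool.and_eq_true, decide_eq_true_eq,
    Bool.not_eq_true'] at h
  have hlt : ∀ u : Fin n, mcol y k u < k := fun u => (h u u.2).1
  refine ⟨fun u => ⟨mcol y k u, hlt u⟩, fun u => ?_⟩
  obtain ⟨h0, h1, h2⟩ := h u u.2
  have huniq : ∀ c : Fin k, H.Adj ⟨mcol y k u, hlt u⟩ c → ∃ v : Fin n, G.Adj u v ∧
      mcol y k v = (c : ℕ) ∧ ∀ w : Fin n, G.Adj u w → mcol y k w = (c : ℕ) → w = v := by
    intro c hc
    have h3 := h2 c c.2
    rw [← Bool.not_eq_true] at h3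
    simp only [Bool.and_eq_true, Bool.not_eq_true', decide_eq_false_iff_not, not_and, not_not]
      at h3
    have h4 := h3 ((hH _ _ (hlt u) c.2).2 hc)
    rw [Memb_filter_one] at h4
    obtain ⟨v, hv, hpv, hu'⟩ := h4
    rw [Bool.and_eq_true, decide_eq_true_eq] at hpv
    refine ⟨⟨v, hv⟩, (hG u v u.2 hv).1 hpv.1, hpv.2, ?_⟩
    intro w hw hwc
    refine Fin.ext (hu' w w.2 ?_)
    rw [Bool.and_eq_true, decide_eq_true_eq]
    exact ⟨(hG u w u.2 w.2).2 hw, hwc⟩
  have hmaps : ∀ v : Fin n, G.Adj u v → H.Adj ⟨mcol y k u, hlt u⟩ ⟨mcol y k v, hlt v⟩ := by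
    intro v hv
    have h3 := h1 v v.2
    rw [← Bool.not_eq_true] at h3
    simp only [Bool.and_eq_true, Bool.not_eq_true', not_and, Bool.not_eq_false] at h3
    exact (hH _ _ (hlt u) (hlt v)).1 (h3 ((hG u v u.2 v.2).2 hv))
  refine ⟨fun v hv => hmaps v hv, ?_, ?_⟩
  · intro v hv w hw hvw
    obtain ⟨v0, -, -, hu0⟩ := huniq _ (hmaps v hv)
    rw [hu0 v hv rfl, hu0 w hw (congrArg Fin.val hvw).symm]
  · intro c hc
    obtain ⟨v, hv, hvc, -⟩ := huniq c hc
    exact ⟨v, hv, Fin.ext hvc⟩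

theorem mem_cover_fin {k : ℕ} (H : SimpleGraph (Fin k)) :
    {x : List Bool | ∃ (n : ℕ) (G : SimpleGraph (Fin n)), x = enc G ∧ Covers G H} ∈ NP := by
  have h1 : {x : List Bool | ∃ (n : ℕ) (G : SimpleGraph (Fin n)), x = enc G ∧ Covers G H} =
      {x : List Bool | ∃ (n : ℕ) (G : SimpleGraph (Fin n)), x = enc G ∧ MaxDegLE G k ∧
        Covers G H} := by
    ext x
    constructor
    · rintro ⟨n, G, h2, h3⟩
      exact ⟨n, G, h2, maxdeg_of_covers h3, h3⟩
    · rintro ⟨n, G, h2, -, h3⟩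
      exact ⟨n, G, h2, h3⟩
  rw [h1]
  refine mem_of_chk k (fun _ G => Covers G H) (chk := ckv (enc H) k) (Memb_PT_ckv _ k)
    (Polynomial.C k * Polynomial.X + 1) ?_ ?_
  · rintro n G ⟨f, hf⟩
    exact ⟨mword f, mword_length f, Memb_ckv_of hf⟩
  · intro n G y h
    exact Memb_of_ckv h

theorem mem_cover [Finite V] (H : SimpleGraph V) :
    {x : List Bool | ∃ (n : ℕ) (G : SimpleGraph (Fin n)), x = enc G ∧ Covers G H} ∈ NP := by
  have e : V ≃ Fin (Nat.card V) := Finite.equivFin V
  have h := mem_cover_fin (H.comap e.symm)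
  have h2 : {x : List Bool | ∃ (n : ℕ) (G : SimpleGraph (Fin n)), x = enc G ∧ Covers G H} =
      {x : List Bool | ∃ (n : ℕ) (G : SimpleGraph (Fin n)), x = enc G ∧
        Covers G (H.comap e.symm)} := by
    ext x
    constructor
    · rintro ⟨n, G, h1, h2⟩
      exact ⟨n, G, h1, (covers_fin G H e).1 h2⟩
    · rintro ⟨n, G, h1, h2⟩
      exact ⟨n, G, h1, (covers_fin G H e).2 h2⟩
  rw [h2]
  exact h

end Pool.Agent.H24.GC
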