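import Pool.Agent.H24.GC.CaseK
import Pool.Agent.H24.GC.CaseK1
import Pool.Agent.H24.GC.CaseB
import Pool.Agent.H24.GC.CaseC
import Pool.Agent.H24.GC.Memb

/-!
# The theorem
-/

namespace Pool.Agent.H24.GC

open Pool.Agent.PPS Pool.Agent.H64.Cook Pool.Agent.H79.Thr

variable {V : Type} {H : SimpleGraph V}

/-- `x` and `x'` are different vertices of one class of the degree partition and have a common
neighbour in the class of `c` -/
def Lnk (H : SimpleGraph V) (c x x' : V) : Prop :=
  x ≠ x' ∧ Sim H x x' ∧ ∃ y, Sim H y c ∧ H.Adj x y ∧ H.Adj x' y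

theorem npc_of_hard [Finite V] (h : HardH H) : NPComplete (fun _ G => Covers G H) :=
  ⟨mem_cover H, h⟩

theorem local_part [Finite V] {x y : V} (hxy : H.Adj x y) (h3 : 3 ≤ (nbc H x y).ncard)
    (h : (2 ≤ (nbc H y x).ncard ∧ NoCut H (Ty H x y)) ∨
      ∃ z, H.Adj y z ∧ ¬ Sim H z x ∧ NoCut H (fun a b => Ty H x y a b ∨ Ty H z y a b)) :
    HardH H := by
  rcases h with ⟨h2, hcut⟩ | ⟨z, hz, hzx, hcut⟩
  · exact case_K2 hxy h3 h2 hcut
  · by_cases h2 : 2 ≤ (nbc H y x).ncard
    · exact case_K2 hxy h3 h2 (hcut.mono (fun _ _ h => Or.inl h))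
    · have h1 : 0 < (nbc H y x).ncard := by
        rw [Set.ncard_pos]
        exact ⟨x, hxy.symm, sim_refl H x⟩
      exact case_K1 hxy h3 (by omega) hz hzx hcut

theorem nbc_congr [Finite V] {x y y' : V} (h : Sim H y y') : nbc H x y = nbc H x y' := by
  ext w
  exact ⟨fun hw => ⟨hw.1, sim_trans hw.2 h⟩, fun hw => ⟨hw.1, sim_trans hw.2 (sim_symm h)⟩⟩

theorem global_part [Finite V] (hH : H.IsEdgeConnected 3)
    (h : (∃ x y, 3 ≤ (nbc H x y).ncard) ∨
      (∃ x y y', H.Adj x y ∧ H.Adj x y' ∧ Sim H y y' ∧ nbc H y x ≠ nbc H y' x) ∨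
      (∃ c d x x₁ x₂ x₃ x₄, Lnk H c x x₁ ∧ Lnk H d x₁ x₂ ∧ Lnk H d x x₃ ∧ Lnk H c x₃ x₄ ∧
        x₂ ≠ x₄)) : HardH H := by
  have hP : ∀ P, NoCut H P := nocut_of_edgeConnected hH
  by_cases ha : ∃ x y, 3 ≤ (nbc H x y).ncard
  · obtain ⟨x, y, h3⟩ := ha
    have hne : (nbc H x y).Nonempty := by
      rw [← Set.ncard_pos]
      omega
    obtain ⟨y', hy', hyy⟩ := hne
    rw [← nbc_congr hyy] at h3
    by_cases h2 : 2 ≤ (nbc H y' x).ncard
    · exact local_part hy' h3 (Or.inl ⟨h2, hP _⟩)
    · obtain ⟨z, hz, hzx⟩ := exists_other (y := x) (hP _) hy'.ne.symm (by omega)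
      exact local_part hy' h3 (Or.inr ⟨z, hz, hzx, hP _⟩)
  · push Not at ha
    have h2 : ∀ x y, (nbc H x y).ncard ≤ 2 := fun x y => by
      have := ha x y
      omega
    by_cases hb : ∃ x y y', H.Adj x y ∧ H.Adj x y' ∧ Sim H y y' ∧ nbc H y x ≠ nbc H y' x
    · obtain ⟨x, y, y', hxy, hxy', hyy, hne⟩ := hb
      exact case_B (hP _) h2 hxy hxy' hyy hne
    · have hb' : ∀ x y y', H.Adj x y → H.Adj x y' → Sim H y y' → nbc H y x = nbc H y' x := by
        intro x y y' h1 h2 h3
        by_contra h4
        exact hb ⟨x, y, y', h1, h2, h3, h4⟩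
      rcases h with ⟨x, y, h3⟩ | h | ⟨c, d, x, x₁, x₂, x₃, x₄, l1, l2, l3, l4, hne⟩
      · have := ha x y
        omega
      · exact absurd h hb
      · -- the other element of a set with two elements
        have hpair : ∀ z w y, Lnk H z w y → ∀ u, Sim H u z → H.Adj w u → nbc H u w = {w, y} := by
          intro z w y hl u hu hwu
          obtain ⟨h1, h3, v, h4, h5, h6⟩ := hl
          have e1 : nbc H u w = nbc H v w := hb' w u v hwu h5 (sim_trans hu (sim_symm h4))
          have e2 : {w, y} ⊆ nbc H v w := by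
            intro t ht
            rcases ht with rfl | rfl
            · exact ⟨h5.symm, sim_refl H _⟩
            · exact ⟨h6.symm, sim_symm h3⟩
          rw [e1]
          symm
          apply Set.eq_of_subset_of_ncard_le e2
          rw [Set.ncard_pair h1]
          exact h2 v w
        have hsymm : ∀ z w y, Lnk H z w y → Lnk H z y w := by
          rintro z w y ⟨h1, h3, v, h4, h5, h6⟩
          exact ⟨h1.symm, sim_symm h3, v, h4, h6, h5⟩
        have huniq : ∀ z w y y', Lnk H z w y → Lnk H z w y' → y = y' := by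
          intro z w y y' hl hl'
          obtain ⟨h1, h3, v, h4, h5, h6⟩ := hl
          have e := hpair z w y' hl' v h4 h5
          have : y ∈ nbc H v w := ⟨h6.symm, sim_symm h3⟩
          rw [e] at this
          rcases this with h | h
          · exact absurd h.symm h1
          · exact h
        have hcd : ¬ Sim H c d := by
          intro hcd
          have hch : ∀ w y, Lnk H d w y → Lnk H c w y := by
            rintro w y ⟨h1, h3, v, h4, h5, h6⟩
            exact ⟨h1, h3, v, sim_trans h4 (sim_symm hcd), h5, h6⟩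
          have e1 : x₂ = x := huniq c x₁ x₂ x (hch _ _ l2) (hsymm _ _ _ l1)
          have e2 : x₃ = x₁ := huniq c x x₃ x₁ (hch _ _ l3) l1
          subst e2
          have e3 : x₄ = x := huniq c x₃ x₄ x l4 (hsymm _ _ _ l1)
          exact hne (e1.trans e3.symm)
        let cc : Bool → V := fun e => if e then d else c
        have hyp : HypC H x cc := by
          constructor
          · intro e
            cases e
            · obtain ⟨h1, h3, v, h4, h5, h6⟩ := l1
              exact ⟨v, h4, h5⟩
            · obtain ⟨h1, h3, v, h4, h5, h6⟩ := l3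
              exact ⟨v, h4, h5⟩
          · intro e
            have key : ∀ z y, Lnk H z x y → (nbc H z x).ncard = 2 := by
              intro z y hl
              obtain ⟨h1, h3, v, h4, h5, h6⟩ := hl
              rw [nbc_ncard (sim_symm h4) (sim_refl H x),
                hpair z x y ⟨h1, h3, v, h4, h5, h6⟩ v h4 h5, Set.ncard_pair h1]
            cases e
            · exact key c x₁ l1
            · exact key d x₃ l3
          · exact hb'
        obtain ⟨D, hD⟩ := exists_dihC hyp
        have hi2 : ∀ (w : {w : V // Sim H w x}) (e : Bool) (y : V), Lnk H (cc e) w.1 y →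
            (D.i₂ (w, e)).1.1 = y := by
          intro w e y hl
          obtain ⟨h1, h3, v, h4, h5, h6⟩ := hl
          have e1 := hD.h₂ (w, e) v h4 h5
          have h7 : y ∈ nbc H v x := ⟨h6.symm, sim_trans (sim_symm h3) w.2⟩
          rw [e1] at h7
          rcases h7 with h | h
          · exact absurd h.symm h1
          · exact h.symm
        refine case_C (hP _) h2 hyp hcd hD ⟨x, sim_refl H x⟩ ?_
        intro heq
        apply hne
        have a1 : (D.i₂ (⟨x, sim_refl H x⟩, false)).1.1 = x₁ := hi2 _ false x₁ l1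
        have a3 : (D.i₂ (⟨x, sim_refl H x⟩, true)).1.1 = x₃ := hi2 _ true x₃ l3
        have a2 : (D.i₂ ((D.i₂ (⟨x, sim_refl H x⟩, false)).1, true)).1.1 = x₂ := by
          apply hi2
          rw [a1]
          exact l2
        have a4 : (D.i₂ ((D.i₂ (⟨x, sim_refl H x⟩, true)).1, false)).1.1 = x₄ := by
          apply hi2
          rw [a3]
          exact l4
        rw [← a2, ← a4, heq]

/-- Let `H` be a finite graph. (1) If a vertex `x` has at least three neighbours in the class of a
neighbour `y`, and either `y` has at least two neighbours in the class of `x` and no edge cut with at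
most two edges consists of edges of the type `x y`, or `y` has a neighbour `z` outside of the class
of `x` and no edge cut with at most two edges consists of edges of the types `x y`, `z y`, then
`H`-LBHOM is NP-complete. (2) If `H` is 3-edge-connected and (a) some vertex has three neighbours in
one class, or (b) a vertex `x` has two neighbours in one class which have different neighbourhoods in
the class of `x`, or (c) two swaps of a class do not commute, then `H`-LBHOM is NP-complete. -/
theorem gc_main [Finite V] (H : SimpleGraph V) :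
    (∀ x y, H.Adj x y → 3 ≤ (nbc H x y).ncard →
      ((2 ≤ (nbc H y x).ncard ∧ NoCut H (Ty H x y)) ∨
        ∃ z, H.Adj y z ∧ ¬ Sim H z x ∧ NoCut H (fun a b => Ty H x y a b ∨ Ty H z y a b)) →
      NPComplete (fun _ G => Covers G H)) ∧
    (H.IsEdgeConnected 3 →
      ((∃ x y, 3 ≤ (nbc H x y).ncard) ∨
      (∃ x y y', H.Adj x y ∧ H.Adj x y' ∧ Sim H y y' ∧ nbc H y x ≠ nbc H y' x) ∨
      (∃ c d x x₁ x₂ x₃ x₄, Lnk H c x x₁ ∧ Lnk H d x₁ x₂ ∧ Lnk H d x x₃ ∧ Lnk H c x₃ x₄ ∧
        x₂ ≠ x₄)) →
      NPComplete (fun _ G => Covers G H)) :=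
  ⟨fun _ _ hxy h3 h => npc_of_hard (local_part hxy h3 h),
    fun hH h => npc_of_hard (global_part hH h)⟩

end Pool.Agent.H24.GC
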