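import Pool.Agent.H24.GC.PDef

/-!
# JOB GC-18: a definable relation gives NP-hardness

The final pattern: hub variables `false, true` of type `τ`, terminal variables `Z` of types `tZ`; the
relation `R` on `Bool ⊕ Z` is defined by killer pieces; every terminal variable `z` occurs in exactly one
further (non killer) piece `np z : Q`, as the arc `ar z`. Let `Y, B, tY, r₁, r₂, z₁, z₂` be the data of
`hR : PDef ...`. Build `p : Pattern K.W`: `Pc = B ⊕ Q`, `Sl = (B × Bool) ⊕ Z`,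
auxiliary variables `Z ⊕ Y`, `pc (inl (b, _)) = inl b`, `pc (inr z) = inr (np z)`,
`ar (inl (b, false)) = r₁ b`, `ar (inl (b, true)) = r₂ b`, `ar (inr z) = ar z`; the symbol of
`inl (b, false)` is `z₁ b : (Bool ⊕ Z) ⊕ Y` (as an element of `Bool ⊕ (Z ⊕ Y)`, `Equiv.sumAssoc`), the
symbol of `inl (b, true)` is `z₂ b`, the symbol of `inr z` is the variable `z`; `kil (inl _) = True`,
`kil (inr _) = False`. `Pattern.OK`: `inj`: for `inl b` the arcs `r₁ b ≠ r₂ b`, `r₁ b ≠ (r₂ b).swap` and an arc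
is different from its own reverse (`adj`); for `inr q` it is `hinj`. `hub`, `aux`: all slots with a given
symbol have the type of this symbol (`SlTy`), so any two agree up to `Sim` (`sim_trans`, `sim_symm`).
`non`: a non killer slot is `inr z`, with the symbol `z`. `str`: the cut of `inl b` is
`cut2 (r₁ b) (r₂ b)` (`Straight` depends only on the truth values of the cut). `p.Rel K a b` is
`∃ v : Z → V × V, R (Sum.elim (hub values) v) ∧ ∀ q, ∃ f, ...`: the pieces `inl b` give `KR`. Apply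
`hard_of_pattern`.
-/

namespace Pool.Agent.H24.GC

variable {V : Type} {H : SimpleGraph V}

/-- the relation between the hub variables -/
def FinRel (K : Kit H) {Z Q : Type} (R : (Bool ⊕ Z → V × V) → Prop) (np : Z → Q)
    (ar : Z → K.W × K.W) (a b : V × V) : Prop :=
  ∃ v : Z → V × V, R (Sum.elim (fun h : Bool => if h then b else a) v) ∧
    ∀ q, ∃ f : K.W → V, IsCover K.gr H f ∧ ∀ z, np z = q → (f (ar z).1, f (ar z).2) = v z

/-- the pattern -/
def hdPat {W Z Q Y B : Type} (np : Z → Q) (ar : Z → W × W) (r₁ r₂ : B → W × W)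
    (z₁ z₂ : B → (Bool ⊕ Z) ⊕ Y) : Pattern W where
  Pc := B ⊕ Q
  Sl := (B × Bool) ⊕ Z
  Y := Z ⊕ Y
  pc := Sum.elim (fun b => Sum.inl b.1) (fun z => Sum.inr (np z))
  ar := Sum.elim (fun b => if b.2 then r₂ b.1 else r₁ b.1) ar
  sy := Sum.elim (fun b => Equiv.sumAssoc Bool Z Y (if b.2 then z₂ b.1 else z₁ b.1))
    (fun z => Sum.inr (Sum.inl z))
  kil := Sum.elim (fun _ => True) (fun _ => False)

theorem hd_straight {K : Kit H} {c c' : K.W → K.W → Prop} (h : Straight H K.gr K.π c)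
    (hc : ∀ w w', c' w w' ↔ c w w') : Straight H K.gr K.π c' := by
  have h1 : c' = c := by
    funext w w'
    exact propext (hc w w')
  rw [h1]
  exact h

theorem hdPat_ty {K : Kit H} {Z Q Y B : Type} {τ : V × V} {tZ : Z → V × V} {tY : Y → V × V}
    {np : Z → Q} {ar : Z → K.W × K.W} (hty : ∀ z, SlTy K (ar z) (tZ z))
    {r₁ r₂ : B → K.W × K.W} {z₁ z₂ : B → (Bool ⊕ Z) ⊕ Y}
    (hT : ∀ b, SlTy K (r₁ b) (Sum.elim (Sum.elim (fun _ => τ) tZ) tY (z₁ b)) ∧
      SlTy K (r₂ b) (Sum.elim (Sum.elim (fun _ => τ) tZ) tY (z₂ b)))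
    (s : (B × Bool) ⊕ Z) :
    SlTy K ((hdPat np ar r₁ r₂ z₁ z₂).ar s)
      (Sum.elim (fun _ : Bool => τ) (Sum.elim tZ tY) ((hdPat np ar r₁ r₂ z₁ z₂).sy s)) := by
  rcases s with ⟨b, i⟩ | z
  · cases i
    · show SlTy K (r₁ b) (Sum.elim (fun _ : Bool => τ) (Sum.elim tZ tY)
        (Equiv.sumAssoc Bool Z Y (z₁ b)))
      rw [pdef_assoc]
      exact (hT b).1
    · show SlTy K (r₂ b) (Sum.elim (fun _ : Bool => τ) (Sum.elim tZ tY)
        (Equiv.sumAssoc Bool Z Y (z₂ b)))
      rw [pdef_assoc]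
      exact (hT b).2
  · exact hty z

theorem hdPat_ok [Finite V] {K : Kit H} {Z Q Y B : Type} [Finite Z] [Finite Q] [Finite Y]
    [Finite B] {τ : V × V} {tZ : Z → V × V} {tY : Y → V × V} {np : Z → Q} {ar : Z → K.W × K.W}
    (hadj : ∀ z, K.gr.Adj (ar z).1 (ar z).2) (hty : ∀ z, SlTy K (ar z) (tZ z))
    (hstr : ∀ z, Straight H K.gr K.π (cut1 (ar z)))
    (hinj : ∀ z z', np z = np z' → (ar z = ar z' ∨ ar z = (ar z').swap) → z = z')
    {r₁ r₂ : B → K.W × K.W} {z₁ z₂ : B → (Bool ⊕ Z) ⊕ Y} (hK : ∀ b, Kl K (r₁ b) (r₂ b))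
    (hT : ∀ b, SlTy K (r₁ b) (Sum.elim (Sum.elim (fun _ => τ) tZ) tY (z₁ b)) ∧
      SlTy K (r₂ b) (Sum.elim (Sum.elim (fun _ => τ) tZ) tY (z₂ b))) :
    (hdPat np ar r₁ r₂ z₁ z₂).OK K where
  finP := inferInstanceAs (Finite (B ⊕ Q))
  finS := inferInstanceAs (Finite ((B × Bool) ⊕ Z))
  finY := inferInstanceAs (Finite (Z ⊕ Y))
  adj := by
    rintro (⟨b, i⟩ | z)
    · cases i
      · exact (hK b).adj₁
      · exact (hK b).adj₂
    · exact hadj z
  inj := by
    rintro (⟨b, i⟩ | z) (⟨b', i'⟩ | z') hpc har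
    · have hb : b = b' := Sum.inl.inj hpc
      subst hb
      cases i <;> cases i'
      · rfl
      · exfalso
        rcases har with har | har
        · exact (hK b).ne har
        · exact (hK b).ne' har
      · exfalso
        have har' : r₂ b = r₁ b ∨ r₂ b = (r₁ b).swap := har
        rcases har' with har | har
        · exact (hK b).ne har.symm
        · exact (hK b).ne' (by rw [har, Prod.swap_swap])
      · rfl
    · exact (Sum.inl_ne_inr hpc).elim
    · exact (Sum.inr_ne_inl hpc).elim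
    · have hz : np z = np z' := Sum.inr.inj hpc
      rw [hinj z z' hz har]
  hub := by
    intro s s' h h' hs hs'
    have h1 := hdPat_ty (Q := Q) (np := np) hty hT s
    have h2 := hdPat_ty (Q := Q) (np := np) hty hT s'
    rw [hs] at h1
    rw [hs'] at h2
    exact ⟨sim_trans h1.1 (sim_symm h2.1), sim_trans h1.2 (sim_symm h2.2)⟩
  aux := by
    intro s s' y hs hs'
    have h1 := hdPat_ty (Q := Q) (np := np) hty hT s
    have h2 := hdPat_ty (Q := Q) (np := np) hty hT s'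
    rw [hs] at h1
    rw [hs'] at h2
    exact ⟨sim_trans h1.1 (sim_symm h2.1), sim_trans h1.2 (sim_symm h2.2)⟩
  hubk := by
    rintro (⟨b, i⟩ | z) h hs
    · exact trivial
    · exact (Sum.inr_ne_inl hs).elim
  non := by
    rintro (⟨b, i⟩ | z) (⟨b', i'⟩ | z') hs hk hk'
    · exact (hk trivial).elim
    · exact (hk trivial).elim
    · exact (hk' trivial).elim
    · have h1 : z = z' := Sum.inl.inj (Sum.inr.inj hs)
      rw [h1]
  str := by
    rintro (b | q) hk
    · refine hd_straight (hK b).str fun w w' => ?_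
      constructor
      · rintro ⟨(⟨b', i⟩ | z), hs, ha⟩
        · have hb : b' = b := Sum.inl.inj hs
          subst hb
          cases i
          · exact Or.inl ha.symm
          · exact Or.inr ha.symm
        · exact (Sum.inr_ne_inl hs).elim
      · rintro (h | h)
        · exact ⟨Sum.inl (b, false), rfl, h.symm⟩
        · exact ⟨Sum.inl (b, true), rfl, h.symm⟩
    · exact hk.elim
  str1 := by
    rintro (⟨b, i⟩ | z)
    · cases i
      · exact (hK b).str₁
      · exact (hK b).str₂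
    · exact hstr z

theorem hdPat_rel {K : Kit H} {Z Q Y B : Type} {R : (Bool ⊕ Z → V × V) → Prop}
    {np : Z → Q} {ar : Z → K.W × K.W} {r₁ r₂ : B → K.W × K.W} {z₁ z₂ : B → (Bool ⊕ Z) ⊕ Y}
    (hv : ∀ v, R v ↔ ∃ y : Y → V × V, ∀ b,
      KR K (r₁ b) (r₂ b) (Sum.elim v y (z₁ b)) (Sum.elim v y (z₂ b))) (a b : V × V) :
    (hdPat np ar r₁ r₂ z₁ z₂).Rel K a b ↔ FinRel K R np ar a b := by
  constructor
  · rintro ⟨v, h⟩
    have h' : ∀ c : B ⊕ Q, ∃ f : K.W → V, IsCover K.gr H f ∧ ∀ s : (B × Bool) ⊕ Z,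
        (hdPat np ar r₁ r₂ z₁ z₂).pc s = c →
        (f ((hdPat np ar r₁ r₂ z₁ z₂).ar s).1, f ((hdPat np ar r₁ r₂ z₁ z₂).ar s).2) =
        Sum.elim (fun h : Bool => if h then b else a) v ((hdPat np ar r₁ r₂ z₁ z₂).sy s) := h
    have v' : Z ⊕ Y → V × V := v
    refine ⟨fun z => v (Sum.inl z), (hv _).2 ⟨fun y => v (Sum.inr y), fun c => ?_⟩, fun q => ?_⟩
    · obtain ⟨f, hf, hs⟩ := h' (Sum.inl c)
      have e1 : (f (r₁ c).1, f (r₁ c).2) = Sum.elim (fun h : Bool => if h then b else a) v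
          (Equiv.sumAssoc Bool Z Y (z₁ c)) := hs (Sum.inl (c, false)) rfl
      have e2 : (f (r₂ c).1, f (r₂ c).2) = Sum.elim (fun h : Bool => if h then b else a) v
          (Equiv.sumAssoc Bool Z Y (z₂ c)) := hs (Sum.inl (c, true)) rfl
      have e3 : ∀ z : (Bool ⊕ Z) ⊕ Y, Sum.elim (fun h : Bool => if h then b else a) v
          (Equiv.sumAssoc Bool Z Y z) = Sum.elim (Sum.elim (fun h : Bool => if h then b else a)
            (fun z => v (Sum.inl z))) (fun y => v (Sum.inr y)) z := by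
        rintro ((z | z) | z) <;> rfl
      rw [e3] at e1 e2
      exact ⟨f, hf, e1, e2⟩
    · obtain ⟨f, hf, hs⟩ := h' (Sum.inr q)
      refine ⟨f, hf, fun z hz => ?_⟩
      exact hs (Sum.inr z) (congrArg Sum.inr hz)
  · rintro ⟨v, hR, hq⟩
    obtain ⟨y, hy⟩ := (hv _).1 hR
    refine ⟨Sum.elim v y, ?_⟩
    rintro (c | q)
    · obtain ⟨f, hf, e1, e2⟩ := hy c
      refine ⟨f, hf, ?_⟩
      rintro (⟨c', i⟩ | z) hs
      · have hc : c' = c := Sum.inl.inj hs
        subst hc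
        cases i
        · show (f (r₁ c').1, f (r₁ c').2) = Sum.elim (fun h : Bool => if h then b else a)
            (Sum.elim v y) (Equiv.sumAssoc Bool Z Y (z₁ c'))
          rw [pdef_assoc]
          exact e1
        · show (f (r₂ c').1, f (r₂ c').2) = Sum.elim (fun h : Bool => if h then b else a)
            (Sum.elim v y) (Equiv.sumAssoc Bool Z Y (z₂ c'))
          rw [pdef_assoc]
          exact e2
      · exact (Sum.inr_ne_inl hs).elim
    · obtain ⟨f, hf, hz⟩ := hq q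
      refine ⟨f, hf, ?_⟩
      rintro (⟨c', i⟩ | z) hs
      · exact (Sum.inl_ne_inr hs).elim
      · exact hz z (Sum.inr.inj hs)

theorem hard_of_def [Finite V] [Nonempty V] {K : Kit H} {Z Q : Type} [Finite Z] [Finite Q]
    {τ : V × V} {tZ : Z → V × V} {R : (Bool ⊕ Z → V × V) → Prop}
    (hR : PDef K (Sum.elim (fun _ => τ) tZ) R) {np : Z → Q} {ar : Z → K.W × K.W}
    (hadj : ∀ z, K.gr.Adj (ar z).1 (ar z).2) (hty : ∀ z, SlTy K (ar z) (tZ z))
    (hstr : ∀ z, Straight H K.gr K.π (cut1 (ar z)))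
    (hinj : ∀ z z', np z = np z' → (ar z = ar z' ∨ ar z = (ar z').swap) → z = z')
    (hdeg : ∀ w : K.W, ∃ w', K.gr.Adj w w') {d : ℕ} (hd : 3 ≤ d) (β : V × V → Fin d)
    (γ : Fin d → V × V) (h1 : ∀ a b, FinRel K R np ar a b → β a ≠ β b)
    (h2 : ∀ s t, s ≠ t → FinRel K R np ar (γ s) (γ t)) : HardH H := by
  obtain ⟨Y, B, fY, fB, tY, r₁, r₂, z₁, z₂, hK, hT, hv⟩ := hR
  exact hard_of_pattern (hdPat_ok hadj hty hstr hinj hK hT) hdeg hd β γ
    (fun a b h => h1 a b ((hdPat_rel hv a b).1 h))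
    (fun s t h => (hdPat_rel hv _ _).2 (h2 s t h))

end Pool.Agent.H24.GC
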