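import Pool.Agent.H24.GC.RedSpec
import Pool.Agent.H79.Thr.ColK

/-!
# JOB GC-15: a pattern gives NP-hardness

`mat_cover`: as in the proof of `mat_spec` (file `Pool.Agent.H79.Thr.Conv`): `mat RE = enc G` for
`G = (relG RE).comap (verts RE).get`. By `h1`, `h2` the vertices of `verts RE` are exactly the elements of
the range of `ι` (an element of `verts RE` is an endpoint of an entry of `RE`, so in the range;
conversely `ι a` has a neighbour `ι b`, so it is in `verts RE`, `Conv.mem_verts`). So `G` is isomorphic to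
`GA` (bijection `i ↦ ι⁻¹ ((verts RE).get i)` with `h`), and `Covers` is invariant under isomorphism
(`covers_iso`: compose with the isomorphism).

`hard_of_pattern`: for `L ∈ NP` take `φ` from `hardk hd hL` (file `Pool.Agent.H79.Thr.ColK`), the tables of
`redE_spec hp`, and the function `x ↦ mat (redE cst m J pcT tl hd sy (φ x))`; it is in `FP` by
`mem_FP_iff`, `PT.mat'`, `PT.redE'` (see `star_npc_of_gadget` in `Pool.Agent.H79.Thr.StarMain`). With `E = φ x`:
`x ∈ L ↔ EColourable d E ↔ (∃ a, ∀ e ∈ E, p.Rel K (a e.1) (a e.2)) ↔ Covers (graph) H ↔ Covers G H`; second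
step: from a colouring `h` take `a = γ ∘ h` (`h2`), from `a` take the colouring `β ∘ a` (`h1`);
third step: `pattern_iff`; last step `mat_cover`. Every vertex of the graph of the instance has a
neighbour by `exists_nu` (`hp.adj`, `hp.inj`) and `hdeg`.
-/

namespace Pool.Agent.H24.GC

open Pool.Agent.PPS Pool.Agent.H64.Cook Pool.Agent.H79.Thr

variable {V : Type} {H : SimpleGraph V}

theorem hardPat_iso {A B : Type} {G : SimpleGraph A} {G' : SimpleGraph B} (e : G ≃g G')
    (h : Covers G' H) : Covers G H := by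
  obtain ⟨f, hf⟩ := h
  refine ⟨fun a => f (e a), fun v => ?_⟩
  have h1 : Set.BijOn e (G.neighborSet v) (G'.neighborSet (e v)) := by
    refine ⟨fun w hw => e.map_adj_iff.2 hw, e.injective.injOn,
      fun w hw => ⟨e.symm w, ?_, e.apply_symm_apply w⟩⟩
    show G.Adj v (e.symm w)
    rw [← e.map_adj_iff, e.apply_symm_apply]
    exact hw
  exact (hf (e v)).comp h1

theorem covers_iso {A B : Type} {G : SimpleGraph A} {G' : SimpleGraph B} (e : G ≃g G')
    (H : SimpleGraph V) : Covers G H ↔ Covers G' H := by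
  exact ⟨hardPat_iso e.symm, hardPat_iso e⟩

theorem mat_cover {F A : Type} [DecidableEq F] (RE : List (F × F)) (GA : SimpleGraph A)
    (ι : A → F) (hι : Function.Injective ι) (h : ∀ a b, GA.Adj a b ↔ (relG RE).Adj (ι a) (ι b))
    (h1 : ∀ e ∈ RE, e.1 ∈ Set.range ι ∧ e.2 ∈ Set.range ι) (h2 : ∀ a, ∃ b, GA.Adj a b) :
    ∃ (n : ℕ) (G : SimpleGraph (Fin n)), mat RE = enc G ∧
      ∀ (V : Type) (H : SimpleGraph V), (Covers G H ↔ Covers GA H) := by
  classical
  have hnd : (verts RE).Nodup := List.nodup_dedup _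
  have hinj : Function.Injective (fun i : Fin (verts RE).length => (verts RE).get i) :=
    List.nodup_iff_injective_get.1 hnd
  refine ⟨(verts RE).length,
    (relG RE).comap (fun i : Fin (verts RE).length => (verts RE).get i), ?_, ?_⟩
  · have h3 : ∀ {γ : Type} (g : F → γ),
        (verts RE).map g = List.ofFn (fun i : Fin (verts RE).length => g ((verts RE).get i)) := by
      intro γ g
      conv_lhs => rw [← List.ofFn_get (verts RE)]
      rw [List.map_ofFn]
      rfl
    unfold mat enc
    rw [List.flatMap_def, h3]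
    congr 1
    congr 1
    funext u
    rw [h3]
    congr 1
    funext v
    rw [Bool.eq_iff_iff]
    simp [relG]
  · intro V H
    have hr : ∀ i : Fin (verts RE).length, ∃ a, ι a = (verts RE).get i := by
      intro i
      have h3 : (verts RE).get i ∈ verts RE := List.get_mem _ _
      unfold verts at h3
      rw [List.mem_dedup, List.mem_flatMap] at h3
      obtain ⟨e, he, h4⟩ := h3
      have h5 := h1 e he
      rw [List.mem_cons, List.mem_cons] at h4
      rcases h4 with h4 | h4 | h4
      · obtain ⟨a, ha⟩ := h5.1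
        exact ⟨a, ha.trans h4.symm⟩
      · obtain ⟨a, ha⟩ := h5.2
        exact ⟨a, ha.trans h4.symm⟩
      · exact absurd h4 List.not_mem_nil
    choose ψ hψ using hr
    have hbij : Function.Bijective ψ := by
      constructor
      · intro i j hij
        apply hinj
        show (verts RE).get i = (verts RE).get j
        rw [← hψ i, ← hψ j, hij]
      · intro a
        obtain ⟨b, hab⟩ := h2 a
        obtain ⟨i, hi⟩ := List.get_of_mem (Conv.mem_verts ((h a b).1 hab))
        refine ⟨i, hι ?_⟩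
        rw [hψ i, hi]
    apply covers_iso
    refine ⟨Equiv.ofBijective ψ hbij, ?_⟩
    intro i j
    show GA.Adj (ψ i) (ψ j) ↔ (relG RE).Adj ((verts RE).get i) ((verts RE).get j)
    rw [h, hψ, hψ]

theorem hard_of_pattern [Finite V] [Nonempty V] {K : Kit H} {p : Pattern K.W} (hp : p.OK K)
    (hdeg : ∀ w : K.W, ∃ w', K.gr.Adj w w') {d : ℕ} (hd : 3 ≤ d) (β : V × V → Fin d)
    (γ : Fin d → V × V) (h1 : ∀ a b, p.Rel K a b → β a ≠ β b)
    (h2 : ∀ s t, s ≠ t → p.Rel K (γ s) (γ t)) : HardH H := by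
  classical
  intro L hL
  obtain ⟨φ, hφ, hφ'⟩ := hardk hd hL
  obtain ⟨cst, m, J, pcT, tl, hdT, sy, hs⟩ := redE_spec hp
  refine ⟨fun x => mat (redE cst m J pcT tl hdT sy (φ x)), ?_, fun x => ?_⟩
  · rw [mem_FP_iff]
    exact PT.mat' (PT.redE' cst m J pcT tl hdT sy hφ)
  · obtain ⟨sg, ι, s1, s2, s3, s4, s5⟩ := hs (ℕ × V3) (φ x)
    have h3 : ∀ a : (p.inst (φ x) sg).Vx, ∃ b, ((p.inst (φ x) sg).graph K.gr).Adj a b := by
      rintro ⟨q, w⟩
      obtain ⟨nu, hnu, -⟩ := exists_nu (g := K.gr) (I := p.inst (φ x) sg)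
        (fun o => hp.adj o.2) (fun o o' ho ho' => Prod.ext (Prod.ext_iff.1 ho).1
          (hp.inj o.2 o'.2 (Prod.ext_iff.1 ho).2 ho'))
      obtain ⟨w', hw'⟩ := hdeg w
      exact ⟨nu q w w', (hnu q w).mapsTo hw'⟩
    obtain ⟨n, G, g1, g2⟩ := mat_cover _ _ ι s3 s4 s5 h3
    refine ⟨n, G, g1, ?_⟩
    rw [g2 V H, pattern_iff hp (φ x) sg s1 s2, (hφ' x).2]
    constructor
    · rintro ⟨h, hh⟩
      exact ⟨fun u => γ (h u), fun e he => h2 _ _ (hh e he)⟩
    · rintro ⟨a, ha⟩
      exact ⟨fun u => β (a u), fun e he => h1 _ _ (ha e he)⟩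

end Pool.Agent.H24.GC
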