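import Pool.Agent.H24.GC.Perm

/-!
# JOB GC-4: the fibres of the universal kit

Write `a w = {x | Sim H w x}.ncard`, `p w = {σ | CP H w w σ}.ncard`; both positive (`sim_refl`,
`cp_refl`). By `cp_card_eq`, `p w = {σ | CP H w x σ}.ncard` for all `x ~ w`, hence
`Nat.card (Loc H w) = a w * p w`. Let `n = Nat.card T`, `M = ∏ v, (a v * p v) ^ n` and
`c w = M / (a w * p w) ^ n` (exact division, `Finset.dvd_prod_of_mem`), so that
`Nat.card (St H T c w) = (a w * p w) ^ n * c w = M`.

`bij_exists`, last part. Let `H.Adj w w'`. For `s : St H T c w` put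
`g s = fun t => ((s.1 t).1.1, (s.1 t).1.2 w')` and for `s' : St H T c w'` put
`h s' = fun t => ((s'.1 t).1.2 w, (s'.1 t).1.1)` (both `T → V × V`). Then `Lk H w w' s s' ↔ h s' = g s`.
So it suffices that the fibres of `g` and `h` over every `z : T → V × V` have the same number of
elements (then take bijections of the fibres and `Equiv.ofFiberEquiv`). If for some `t` the pair
`z t = (x, x')` does not satisfy `Sim H w x ∧ H.Adj x x' ∧ Sim H w' x'`, then both fibres are empty:
for `s` in the first one `x = (s.1 t).1.1 ~ w`, `x' = σ w' ~ w'` and `H.Adj x x'` as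
`CP H w x σ`, `H.Adj w w'`; the same for `s'` with the roles exchanged. Otherwise the first fibre has
`(∏ t, q t) * c w` elements where `q t = {σ | CP H w x σ ∧ σ w' = x'}.ncard` and
`p w = (nbc H w w').ncard * q t` (`cp_card`, `cp_card_eq`); so with `k = (nbc H w w').ncard`:
`(fibre) * (k * a w) ^ n = (∏ t, k * q t) * (a w) ^ n * c w = (p w * a w) ^ n * c w = M`. In the same
way, with `k' = (nbc H w' w).ncard`: `(second fibre) * (k' * a w') ^ n = M`. By `edge_count`
`k * a w = k' * a w' > 0` (`w' ∈ nbc H w w'`), so the two numbers are equal.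

`bij_pres`: `B' = B.trans (Equiv.swap (B s₀) s₀')`. As `Lk s s' ↔ h s' = g s`, and
`h (B s₀) = g s₀ = h s₀'`, the swap does not change `h`.
-/

namespace Pool.Agent.H24.GC

variable {V : Type}

/-- local states at `w`: a vertex `x ~ w` and a class preserving permutation `σ` which maps the
neighbourhood of `w` onto the neighbourhood of `x` -/
abbrev Loc (H : SimpleGraph V) (w : V) : Type :=
  {l : V × Equiv.Perm V // Sim H w l.1 ∧ CP H w l.1 l.2}

/-- states at `w`: a family of local states and an index -/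
abbrev St (H : SimpleGraph V) (T : Type) (c : V → ℕ) (w : V) : Type := (T → Loc H w) × Fin (c w)

/-- the state `s` at `w` may be joined to the state `s'` at `w'` -/
def Lk (H : SimpleGraph V) {T : Type} {c : V → ℕ} (w w' : V) (s : St H T c w)
    (s' : St H T c w') : Prop :=
  ∀ t, (s'.1 t).1.1 = (s.1 t).1.2 w' ∧ (s'.1 t).1.2 w = (s.1 t).1.1

theorem kitA_good [Finite V] {H : SimpleGraph V} {w w' x x' : V} (hww : H.Adj w w')
    (h1 : Sim H w x) (h2 : H.Adj x x') (h3 : Sim H w' x') :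
    (nbc H w w').ncard * Nat.card {l : Loc H w // l.1.1 = x ∧ l.1.2 w' = x'} =
      {σ | CP H w w σ}.ncard := by
  rw [cp_card_eq (sim_refl H w) (sim_refl H w) h1, cp_card h1 hww h2 h3,
    ← Nat.card_coe_set_eq {σ | CP H w x σ ∧ σ w' = x'}]
  congr 1
  refine Nat.card_congr
    { toFun := fun l => ⟨l.1.1.2, ?_⟩
      invFun := fun σ => ⟨⟨(x, σ.1), h1, σ.2.1⟩, rfl, σ.2.2⟩
      left_inv := ?_
      right_inv := ?_ }
  · obtain ⟨⟨⟨y, σ⟩, h4, h5⟩, h6, h7⟩ := l
    have h6' : y = x := h6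
    subst h6'
    exact ⟨h5, h7⟩
  · rintro ⟨⟨⟨y, σ⟩, h4, h5⟩, h6, h7⟩
    have h6' : y = x := h6
    subst h6'
    rfl
  · rintro ⟨σ, h4, h5⟩
    rfl

theorem kitA_bad [Finite V] {H : SimpleGraph V} {w w' x x' : V} (hww : H.Adj w w')
    (h : ¬ (Sim H w x ∧ H.Adj x x' ∧ Sim H w' x')) :
    Nat.card {l : Loc H w // l.1.1 = x ∧ l.1.2 w' = x'} = 0 := by
  have : IsEmpty {l : Loc H w // l.1.1 = x ∧ l.1.2 w' = x'} := by
    refine ⟨?_⟩
    rintro ⟨⟨⟨y, σ⟩, h4, h5⟩, h6, h7⟩
    have h6' : y = x := h6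
    have h7' : σ w' = x' := h7
    subst h6' h7'
    exact h ⟨h4, (h5.2 w').1 hww, sim_symm (h5.1 w')⟩
  exact Nat.card_of_isEmpty

theorem kitA_loc [Finite V] (H : SimpleGraph V) (w : V) :
    Nat.card (Loc H w) = {x | Sim H w x}.ncard * {σ | CP H w w σ}.ncard := by
  classical
  have : Fintype {x | Sim H w x} := Fintype.ofFinite _
  have e : Loc H w ≃ Σ x : {x | Sim H w x}, {σ | CP H w x.1 σ} :=
    { toFun := fun l => ⟨⟨l.1.1, l.2.1⟩, ⟨l.1.2, l.2.2⟩⟩
      invFun := fun s => ⟨(s.1.1, s.2.1), s.1.2, s.2.2⟩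
      left_inv := fun _ => rfl
      right_inv := fun _ => rfl }
  rw [Nat.card_congr e, Nat.card_sigma]
  have h1 : ∀ x : {x | Sim H w x}, Nat.card {σ | CP H w x.1 σ} = {σ | CP H w w σ}.ncard := by
    intro x
    rw [Nat.card_coe_set_eq]
    exact (cp_card_eq (sim_refl H w) (sim_refl H w) x.2).symm
  rw [Finset.sum_congr rfl (fun x _ => h1 x), Finset.sum_const, smul_eq_mul, Finset.card_univ,
    ← Nat.card_eq_fintype_card, Nat.card_coe_set_eq]

theorem kitA_fib [Finite V] {H : SimpleGraph V} {T : Type} [Fintype T] {c : V → ℕ} (w w' : V)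
    (z : T → V × V) :
    Nat.card {s : St H T c w // ∀ t, (s.1 t).1.1 = (z t).1 ∧ (s.1 t).1.2 w' = (z t).2} =
      (∏ t, Nat.card {l : Loc H w // l.1.1 = (z t).1 ∧ l.1.2 w' = (z t).2}) * c w := by
  have e : {s : St H T c w // ∀ t, (s.1 t).1.1 = (z t).1 ∧ (s.1 t).1.2 w' = (z t).2} ≃
      (∀ t, {l : Loc H w // l.1.1 = (z t).1 ∧ l.1.2 w' = (z t).2}) × Fin (c w) :=
    { toFun := fun s => (fun t => ⟨s.1.1 t, s.2 t⟩, s.1.2)
      invFun := fun u => ⟨(fun t => (u.1 t).1, u.2), fun t => (u.1 t).2⟩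
      left_inv := fun _ => rfl
      right_inv := fun _ => rfl }
  rw [Nat.card_congr e, Nat.card_prod, Nat.card_pi, Nat.card_fin]

theorem kitA_all [Finite V] {H : SimpleGraph V} {T : Type} [Fintype T] {c : V → ℕ} {M : ℕ}
    {w w' : V} (hww : H.Adj w w')
    (hM : ({x | Sim H w x}.ncard * {σ | CP H w w σ}.ncard) ^ Fintype.card T * c w = M)
    (z : T → V × V)
    (hz : ∀ t, Sim H w (z t).1 ∧ H.Adj (z t).1 (z t).2 ∧ Sim H w' (z t).2) :
    ((∏ t, Nat.card {l : Loc H w // l.1.1 = (z t).1 ∧ l.1.2 w' = (z t).2}) * c w) *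
      ({x | Sim H w x}.ncard * (nbc H w w').ncard) ^ Fintype.card T = M := by
  have h1 : (nbc H w w').ncard ^ Fintype.card T *
      ∏ t, Nat.card {l : Loc H w // l.1.1 = (z t).1 ∧ l.1.2 w' = (z t).2} =
      {σ | CP H w w σ}.ncard ^ Fintype.card T := by
    rw [← Finset.card_univ, ← Finset.prod_const, ← Finset.prod_mul_distrib,
      ← Finset.prod_const]
    exact Finset.prod_congr rfl fun t _ => kitA_good hww (hz t).1 (hz t).2.1 (hz t).2.2
  rw [← hM, mul_pow, mul_pow, ← h1]
  ring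

theorem bij_exists [Finite V] (H : SimpleGraph V) (T : Type) [Finite T] :
    ∃ (c : V → ℕ) (M : ℕ), 0 < M ∧ (∀ w, 0 < c w) ∧ (∀ w, Nat.card (St H T c w) = M) ∧
      ∀ w w', H.Adj w w' → ∃ B : St H T c w ≃ St H T c w', ∀ s, Lk H w w' s (B s) := by
  classical
  have : Fintype V := Fintype.ofFinite V
  have : Fintype T := Fintype.ofFinite T
  have ha : ∀ v, 0 < {x | Sim H v x}.ncard := fun v =>
    (Set.ncard_pos (Set.toFinite _)).2 ⟨v, sim_refl H v⟩
  have hp : ∀ v, 0 < {σ | CP H v v σ}.ncard := fun v =>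
    (Set.ncard_pos (Set.toFinite _)).2 ⟨Equiv.refl V, cp_refl H v⟩
  let d : V → ℕ := fun v => ({x | Sim H v x}.ncard * {σ | CP H v v σ}.ncard) ^ Fintype.card T
  have hd : ∀ v, 0 < d v := fun v => pow_pos (mul_pos (ha v) (hp v)) _
  let M : ℕ := ∏ v, d v
  have hM : 0 < M := Finset.prod_pos fun v _ => hd v
  have hdM : ∀ v, d v ∣ M := fun v => Finset.dvd_prod_of_mem d (Finset.mem_univ v)
  let c : V → ℕ := fun v => M / d v
  have hc : ∀ v, d v * c v = M := fun v => Nat.mul_div_cancel' (hdM v)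
  have hcpos : ∀ v, 0 < c v := fun v => by
    rcases Nat.eq_zero_or_pos (c v) with h | h
    · have := hc v
      rw [h, mul_zero] at this
      omega
    · exact h
  refine ⟨c, M, hM, hcpos, ?_, ?_⟩
  · intro w
    rw [Nat.card_prod, Nat.card_fun, Nat.card_fin, kitA_loc, Nat.card_eq_fintype_card (α := T)]
    exact hc w
  · intro w w' hww
    have key : ∀ z : T → V × V,
        Nat.card {s : St H T c w // (fun t => ((s.1 t).1.1, (s.1 t).1.2 w')) = z} =
        Nat.card {s : St H T c w' // (fun t => ((s.1 t).1.2 w, (s.1 t).1.1)) = z} := by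
      intro z
      have e1 : Nat.card {s : St H T c w // (fun t => ((s.1 t).1.1, (s.1 t).1.2 w')) = z} =
          Nat.card {s : St H T c w // ∀ t, (s.1 t).1.1 = (z t).1 ∧ (s.1 t).1.2 w' = (z t).2} := by
        refine Nat.card_congr (Equiv.subtypeEquivRight fun s => ?_)
        rw [funext_iff]
        exact forall_congr' fun t => Prod.ext_iff
      have e2 : Nat.card {s : St H T c w' // (fun t => ((s.1 t).1.2 w, (s.1 t).1.1)) = z} =
          Nat.card {s : St H T c w' // ∀ t, (s.1 t).1.1 = ((z t).swap).1 ∧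
            (s.1 t).1.2 w = ((z t).swap).2} := by
        refine Nat.card_congr (Equiv.subtypeEquivRight fun s => ?_)
        rw [funext_iff]
        exact forall_congr' fun t => Prod.ext_iff.trans and_comm
      rw [e1, e2, kitA_fib, kitA_fib w' w (fun t => (z t).swap)]
      by_cases hz : ∀ t, Sim H w (z t).1 ∧ H.Adj (z t).1 (z t).2 ∧ Sim H w' (z t).2
      · have h1 := kitA_all hww (hc w) z hz
        have h2 := kitA_all hww.symm (hc w') (fun t => (z t).swap)
          (fun t => ⟨(hz t).2.2, (hz t).2.1.symm, (hz t).1⟩)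
        have h3 := edge_count H w w'
        have es : ∀ v, {x' | Sim H x' v} = {x | Sim H v x} := fun v => by
          ext x
          exact ⟨sim_symm, sim_symm⟩
        rw [es, es] at h3
        rw [← h3] at h2
        have h4 : 0 < ({x | Sim H w x}.ncard * (nbc H w w').ncard) ^ Fintype.card T := by
          refine pow_pos (mul_pos (ha w) ?_) _
          exact (Set.ncard_pos (Set.toFinite _)).2 ⟨w', hww, sim_refl H w'⟩
        exact Nat.eq_of_mul_eq_mul_right h4 (h1.trans h2.symm)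
      · push Not at hz
        obtain ⟨t, ht⟩ := hz
        have b1 : ¬ (Sim H w (z t).1 ∧ H.Adj (z t).1 (z t).2 ∧ Sim H w' (z t).2) :=
          fun h => ht h.1 h.2.1 h.2.2
        have b2 : ¬ (Sim H w' (z t).2 ∧ H.Adj (z t).2 (z t).1 ∧ Sim H w (z t).1) :=
          fun h => ht h.2.2 h.2.1.symm h.1
        have z1 := Finset.prod_eq_zero (Finset.mem_univ t) (kitA_bad hww b1)
          (f := fun t => Nat.card {l : Loc H w // l.1.1 = (z t).1 ∧ l.1.2 w' = (z t).2})
        have z2 := Finset.prod_eq_zero (Finset.mem_univ t) (kitA_bad hww.symm b2)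
          (f := fun t => Nat.card {l : Loc H w' // l.1.1 = ((z t).swap).1 ∧
            l.1.2 w = ((z t).swap).2})
        rw [z1, z2, zero_mul, zero_mul]
    refine ⟨Equiv.ofFiberEquiv (f := fun (s : St H T c w) t => ((s.1 t).1.1, (s.1 t).1.2 w'))
      (g := fun (s : St H T c w') t => ((s.1 t).1.2 w, (s.1 t).1.1))
      fun z => (Finite.card_eq.1 (key z)).some, fun s t => ?_⟩
    have hm := Equiv.ofFiberEquiv_map
      (f := fun (s : St H T c w) t => ((s.1 t).1.1, (s.1 t).1.2 w'))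
      (g := fun (s : St H T c w') t => ((s.1 t).1.2 w, (s.1 t).1.1))
      (fun z => (Finite.card_eq.1 (key z)).some) s
    have h1 := Prod.mk_inj.1 (congrFun hm t)
    exact ⟨h1.2, h1.1⟩

theorem bij_pres {H : SimpleGraph V} {T : Type} {c : V → ℕ} {w w' : V}
    (B : St H T c w ≃ St H T c w') (hB : ∀ s, Lk H w w' s (B s)) {s₀ : St H T c w}
    {s₀' : St H T c w'} (h : Lk H w w' s₀ s₀') :
    ∃ B' : St H T c w ≃ St H T c w', (∀ s, Lk H w w' s (B' s)) ∧ B' s₀ = s₀' := by
  classical
  refine ⟨B.trans (Equiv.swap (B s₀) s₀'), fun s => ?_, ?_⟩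
  · rw [Equiv.trans_apply]
    by_cases h1 : B s = B s₀
    · rw [h1, Equiv.swap_apply_left, B.injective h1]
      exact h
    · by_cases h2 : B s = s₀'
      · rw [h2, Equiv.swap_apply_right]
        intro t
        have h3 := hB s t
        rw [h2] at h3
        have h4 := h t
        have h5 := hB s₀ t
        exact ⟨h5.1.trans (h4.1.symm.trans h3.1), h5.2.trans (h4.2.symm.trans h3.2)⟩
      · rw [Equiv.swap_apply_of_ne_of_ne h1 h2]
        exact hB s
  · rw [Equiv.trans_apply, Equiv.swap_apply_left]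

end Pool.Agent.H24.GC
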