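import Pool.Agent.H24.GC.Types
import Pool.Agent.H24.GC.KitA

/-!
# JOB GC-5: the universal kit

A common finite cover with many covering maps (in the style of Leighton). Let
`T = {d : V × Perm V × (V → Perm V) // Sim H w₀ d.1 ∧ CP H w₀ d.1 d.2.1 ∧
  ∀ u, H.Adj w₀ u → CP H u (d.2.1 u) (d.2.2 u) ∧ d.2.2 u w₀ = d.1}` (finite), `c`, `M` from
`bij_exists`. The vertices are `W = Bool × Σ w, St H T c w`, `π (b, w, s) = w`, `sd (b, w, s) = b`;
`card W = 2 * ∑ w, M = 2 * M * card V`. Base state `s₀ : St H T c w₀`, `s₀.1 t = (x, σ)` for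
`t = (x, σ, τ)`, and for `u ∈ N(w₀)` the state `s u`, `(s u).1 t = (σ u, τ u)` (index `0`, possible as
`0 < c`). They satisfy `Lk H w₀ u s₀ (s u)`. Choose bijections `B w w' : St w ≃ St w'` for
`H.Adj w w'` with `Lk H w w' s (B w w' s)` for all `s`, and with `B w₀ u s₀ = s u` for all
`u ∈ N(w₀)` (`bij_pres`; distinguish the cases `w = w₀`, `w ≠ w₀`).
Adjacency: `(true, w, s) ~ (false, w', B w w' s)` for `H.Adj w w'` (and symmetric). Then
* the neighbours of `(true, w, s)` are the `(false, w', B w w' s)`, `w' ∈ N(w)`;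
* the neighbours of `(false, w', s')` are the `(true, w, (B w w').symm s')`, `w ∈ N(w')`.
So `π` is a cover. For `t : T` let `F t (b, w, s) = (s.1 t).1.1`. It is a cover: let `(x, σ) = s.1 t`. On
the neighbours of `(true, w, s)` its value is `((B w w' s).1 t).1.1 = σ w'` (`Lk`), and `σ` maps `N(w)`
bijectively onto `N(x)` (`CP`). For `(false, w', s')`, `(x, σ) = s'.1 t`, the value at
`(true, w, s)`, `B w w' s = s'`, is `(s.1 t).1.1 = (s'.1 t).1.2 w = σ w`.
Base vertex `w = (true, w₀, s₀)`. `Univ`: given `x, σ, τ` let `t` be the corresponding element of `T` and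
`f = F t`: `f w = x`; the neighbour `(false, u, s u)` has the value `((s u).1 t).1.1 = σ u`; a neighbour
`(true, v, s)` of `(false, u, s u)` has the value `((s u).1 t).1.2 v = τ u v` by the formula above.
-/

namespace Pool.Agent.H24.GC

variable {V : Type}

/-- a finite graph with a covering map to `H` -/
structure Kit (H : SimpleGraph V) where
  W : Type
  fin : Finite W
  gr : SimpleGraph W
  π : W → V
  cov : IsCover gr H π

attribute [instance] Kit.fin

/-- the number of vertices is `c` times the number of vertices of `H` -/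
def Kit.Mult {H : SimpleGraph V} (K : Kit H) (c : ℕ) : Prop := Nat.card K.W = c * Nat.card V

/-- the ball of radius two around `w` can be mapped by covers in all ways which are possible in the
universal cover -/
def Kit.Univ {H : SimpleGraph V} (K : Kit H) (w : K.W) : Prop :=
  ∀ (x : V) (σ : Equiv.Perm V) (τ : V → Equiv.Perm V), Sim H (K.π w) x → CP H (K.π w) x σ →
    (∀ u, H.Adj (K.π w) u → CP H u (σ u) (τ u) ∧ τ u (K.π w) = x) →
    ∃ f : K.W → V, IsCover K.gr H f ∧ f w = x ∧ (∀ u, K.gr.Adj w u → f u = σ (K.π u)) ∧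
      ∀ u v, K.gr.Adj w u → K.gr.Adj u v → f v = τ (K.π u) (K.π v)

section KitAux

variable {H : SimpleGraph V} {T : Type} {c : V → ℕ}

/-- the vertices of the kit -/
abbrev KitW (H : SimpleGraph V) (T : Type) (c : V → ℕ) : Type := Bool × (Σ w, St H T c w)

/-- the arcs of the kit -/
def KitR (B : ∀ w w', H.Adj w w' → (St H T c w ≃ St H T c w')) (p q : KitW H T c) : Prop :=
  p.1 = true ∧ q.1 = false ∧ ∃ h : H.Adj p.2.1 q.2.1, B p.2.1 q.2.1 h p.2.2 = q.2.2

/-- the graph of the kit -/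
def KitG (B : ∀ w w', H.Adj w w' → (St H T c w ≃ St H T c w')) : SimpleGraph (KitW H T c) where
  Adj p q := KitR B p q ∨ KitR B q p
  symm := ⟨fun _ _ h => h.symm⟩
  loopless := ⟨fun p h => by
    rcases h with h | h
    · exact Bool.noConfusion (h.1.symm.trans h.2.1)
    · exact Bool.noConfusion (h.1.symm.trans h.2.1)⟩

theorem KitG_true (B : ∀ w w', H.Adj w w' → (St H T c w ≃ St H T c w')) {w : V}
    {s : St H T c w} {q : KitW H T c} (h : (KitG B).Adj (true, ⟨w, s⟩) q) :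
    ∃ (w' : V) (hw : H.Adj w w'), q = (false, ⟨w', B w w' hw s⟩) := by
  obtain ⟨b, w', s'⟩ := q
  rcases h with ⟨-, h2, h3, h4⟩ | ⟨h1, h2, h3⟩
  · have h2' : b = false := h2
    have h3' : H.Adj w w' := h3
    have h4' : B w w' h3' s = s' := h4
    clear h4 h3 h2
    subst h2'
    subst h4'
    exact ⟨w', h3', rfl⟩
  · exact Bool.noConfusion h2

theorem KitG_false (B : ∀ w w', H.Adj w w' → (St H T c w ≃ St H T c w')) {w' : V}
    {s' : St H T c w'} {q : KitW H T c} (h : (KitG B).Adj (false, ⟨w', s'⟩) q) :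
    ∃ (w : V) (hw : H.Adj w w') (s : St H T c w), q = (true, ⟨w, s⟩) ∧ B w w' hw s = s' := by
  obtain ⟨b, w, s⟩ := q
  rcases h with ⟨h1, h2, h3⟩ | ⟨h1, h2, h3, h4⟩
  · exact Bool.noConfusion h1
  · have h1' : b = true := h1
    have h3' : H.Adj w w' := h3
    have h4' : B w w' h3' s = s' := h4
    clear h4 h3 h2 h1
    subst h1'
    exact ⟨w, h3', s, rfl, h4'⟩

theorem KitG_adj (B : ∀ w w', H.Adj w w' → (St H T c w ≃ St H T c w')) {w w' : V}
    (h : H.Adj w w') (s : St H T c w) :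
    (KitG B).Adj (true, ⟨w, s⟩) (false, ⟨w', B w w' h s⟩) :=
  Or.inl ⟨rfl, rfl, h, rfl⟩

theorem KitG_cover (B : ∀ w w', H.Adj w w' → (St H T c w ≃ St H T c w')) :
    IsCover (KitG B) H (fun p => p.2.1) := by
  rintro ⟨b, w, s⟩
  cases b with
  | true =>
    refine ⟨?_, ?_, ?_⟩
    · intro q hq
      obtain ⟨w', hw, rfl⟩ := KitG_true B hq
      exact hw
    · intro q hq q' hq' he
      obtain ⟨w', hw, rfl⟩ := KitG_true B hq
      obtain ⟨w'', hw', rfl⟩ := KitG_true B hq'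
      have he' : w' = w'' := he
      subst he'
      rfl
    · intro w' hw
      exact ⟨_, KitG_adj B hw s, rfl⟩
  | false =>
    refine ⟨?_, ?_, ?_⟩
    · intro q hq
      obtain ⟨w', hw, s', rfl, -⟩ := KitG_false B hq
      exact hw.symm
    · intro q hq q' hq' he
      obtain ⟨w', hw, s', rfl, h1⟩ := KitG_false B hq
      obtain ⟨w'', hw', s'', rfl, h2⟩ := KitG_false B hq'
      have he' : w' = w'' := he
      subst he'
      have h3 : s' = s'' := (B w' w hw).injective (h1.trans h2.symm)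
      rw [h3]
    · intro w' hw
      have hw' : H.Adj w' w := SimpleGraph.Adj.symm hw
      refine ⟨(true, ⟨w', (B w' w hw').symm s⟩), ?_, rfl⟩
      have h1 := KitG_adj B hw' ((B w' w hw').symm s)
      rw [Equiv.apply_symm_apply] at h1
      exact h1.symm

theorem KitG_val (B : ∀ w w', H.Adj w w' → (St H T c w ≃ St H T c w'))
    (hB : ∀ w w' (h : H.Adj w w') s, Lk H w w' s (B w w' h s)) (t : T) {p q : KitW H T c}
    (h : (KitG B).Adj p q) : (q.2.2.1 t).1.1 = (p.2.2.1 t).1.2 q.2.1 := by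
  obtain ⟨b, w, s⟩ := p
  cases b with
  | true =>
    obtain ⟨w', hw, rfl⟩ := KitG_true B h
    exact (hB w w' hw s t).1
  | false =>
    obtain ⟨w', hw, s', rfl, h1⟩ := KitG_false B h
    subst h1
    exact (hB w' w hw s' t).2.symm

theorem KitG_F (B : ∀ w w', H.Adj w w' → (St H T c w ≃ St H T c w'))
    (hB : ∀ w w' (h : H.Adj w w') s, Lk H w w' s (B w w' h s)) (t : T) :
    IsCover (KitG B) H (fun p => (p.2.2.1 t).1.1) := by
  intro p
  have hcp : CP H p.2.1 (p.2.2.1 t).1.1 (p.2.2.1 t).1.2 := (p.2.2.1 t).2.2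
  have h1 : Set.BijOn (p.2.2.1 t).1.2 (H.neighborSet p.2.1)
      (H.neighborSet (p.2.2.1 t).1.1) := by
    refine ⟨fun v hv => (hcp.2 v).1 hv, (p.2.2.1 t).1.2.injective.injOn, ?_⟩
    intro v hv
    refine ⟨(p.2.2.1 t).1.2.symm v, ?_, Equiv.apply_symm_apply _ _⟩
    refine (hcp.2 _).2 ?_
    rw [Equiv.apply_symm_apply]
    exact hv
  refine (h1.comp (KitG_cover B p)).congr ?_
  intro q hq
  exact (KitG_val B hB t hq).symm

end KitAux

theorem kit_exists [Finite V] (H : SimpleGraph V) (w₀ : V) :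
    ∃ (K : Kit H) (sd : K.W → Bool) (M : ℕ) (w : K.W), (∀ u v, K.gr.Adj u v → sd u ≠ sd v) ∧
      K.Mult (2 * M) ∧ K.π w = w₀ ∧ sd w = true ∧ K.Univ w := by
  classical
  let T : Type := {d : V × Equiv.Perm V × (V → Equiv.Perm V) // Sim H w₀ d.1 ∧
    CP H w₀ d.1 d.2.1 ∧ ∀ u, H.Adj w₀ u → CP H u (d.2.1 u) (d.2.2 u) ∧ d.2.2 u w₀ = d.1}
  have hT : Finite T := inferInstance
  obtain ⟨c, M, hM, hc, hcard, hbij⟩ := bij_exists H T
  let s₀ : St H T c w₀ := (fun t => ⟨(t.1.1, t.1.2.1), t.2.1, t.2.2.1⟩, ⟨0, hc w₀⟩)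
  have key : ∀ w w' (h : H.Adj w w'), ∃ B : St H T c w ≃ St H T c w',
      (∀ s, Lk H w w' s (B s)) ∧ ∀ (hw : w₀ = w) (t : T),
        ((B (hw ▸ s₀)).1 t).1 = (t.1.2.1 w', t.1.2.2 w') := by
    intro w w' h
    obtain ⟨B, hB⟩ := hbij w w' h
    by_cases hw : w₀ = w
    · obtain ⟨B', hB', hBs⟩ : ∃ B' : St H T c w ≃ St H T c w', (∀ s, Lk H w w' s (B' s)) ∧
          ∀ t : T, ((B' (hw ▸ s₀)).1 t).1 = (t.1.2.1 w', t.1.2.2 w') := by
        subst hw
        let s₁ : St H T c w' := (fun t => ⟨(t.1.2.1 w', t.1.2.2 w'),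
          sim_symm (t.2.2.1.1 w'), (t.2.2.2 w' h).1⟩, ⟨0, hc w'⟩)
        have hL : Lk H w₀ w' s₀ s₁ := fun t => ⟨rfl, (t.2.2.2 w' h).2⟩
        obtain ⟨B', hB', he⟩ := bij_pres B hB hL
        refine ⟨B', hB', fun t => ?_⟩
        show ((B' s₀).1 t).1 = (t.1.2.1 w', t.1.2.2 w')
        rw [he]
      exact ⟨B', hB', fun _ t => hBs t⟩
    · exact ⟨B, hB, fun hw' => absurd hw' hw⟩
  choose B hB hB0 using key
  have hfin : ∀ w, Finite (St H T c w) := fun w => inferInstance
  let K : Kit H := ⟨KitW H T c, inferInstance, KitG B, fun p => p.2.1, KitG_cover B⟩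
  refine ⟨K, fun p => p.1, M, (true, ⟨w₀, s₀⟩), ?_, ?_, rfl, rfl, ?_⟩
  · intro p q h he
    rcases h with h | h
    · exact Bool.noConfusion ((h.1.symm.trans he).trans h.2.1)
    · exact Bool.noConfusion ((h.1.symm.trans he.symm).trans h.2.1)
  · show Nat.card (KitW H T c) = 2 * M * Nat.card V
    have := Fintype.ofFinite V
    rw [Nat.card_prod, Nat.card_sigma]
    simp only [hcard, Finset.sum_const, Finset.card_univ, smul_eq_mul, Nat.card_eq_fintype_card,
      Fintype.card_bool]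
    ring
  · intro x σ τ h1 h2 h3
    let t : T := ⟨(x, σ, τ), h1, h2, h3⟩
    refine ⟨fun p => (p.2.2.1 t).1.1, KitG_F B hB t, rfl, ?_, ?_⟩
    · intro u hu
      exact KitG_val B hB t hu
    · intro u v hu hv
      have h4 : (v.2.2.1 t).1.1 = (u.2.2.1 t).1.2 v.2.1 := KitG_val B hB t hv
      obtain ⟨u', hu', rfl⟩ := KitG_true B hu
      have h5 := hB0 w₀ u' hu' rfl t
      have h6 : ((B w₀ u' hu' s₀).1 t).1 = (σ u', τ u') := h5
      show (v.2.2.1 t).1.1 = τ u' v.2.1
      rw [h4]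
      show ((B w₀ u' hu' s₀).1 t).1.2 v.2.1 = τ u' v.2.1
      rw [h6]

end Pool.Agent.H24.GC
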