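import Pool.Agent.H24.GC.HardPat

/-!
# JOB GC-17: relations defined by killer pieces

A killer piece `r₁, r₂` (`Kl`) is a copy of the kit with the two cut arcs `r₁, r₂`; it defines the relation
`KR K r₁ r₂` between the values of the two arcs. `PDef K tX R`: the relation `R` on the assignments
`v : X → V × V` is defined by a finite system of such relations with auxiliary variables `Y`
(projected away); `tX`, `tY` are the types of the variables.

`PDef.atom`: `Y = Empty`, `B = Unit`. `PDef.all`: take `Y = Σ i, Y i`, `B = Σ i, B i`; given `y i` for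
every `i` combine them (and `ι` finite gives finiteness). `PDef.and`: the same with two (or use `PDef.all`
for `Bool`). `PDef.ex`: `R (Sum.elim v u)` on `X ⊕ X₁`, new auxiliary variables `Y' = X₁ ⊕ Y`.
`PDef.comap`: replace the variable `x` by `ρ x`; the types match up to `Sim` (`sim_trans`, `sim_symm`).
`PDef.congr`: clear.
-/

namespace Pool.Agent.H24.GC

variable {V : Type} {H : SimpleGraph V}

/-- the relation of the piece with the two cut arcs `r₁, r₂` -/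
def KR (K : Kit H) (r₁ r₂ : K.W × K.W) (a b : V × V) : Prop :=
  ∃ f : K.W → V, IsCover K.gr H f ∧ (f r₁.1, f r₁.2) = a ∧ (f r₂.1, f r₂.2) = b

/-- `r₁, r₂` are the cut arcs of a killer piece -/
structure Kl (K : Kit H) (r₁ r₂ : K.W × K.W) : Prop where
  adj₁ : K.gr.Adj r₁.1 r₁.2
  adj₂ : K.gr.Adj r₂.1 r₂.2
  ne : r₁ ≠ r₂
  ne' : r₁ ≠ r₂.swap
  str : Straight H K.gr K.π (cut2 r₁ r₂)
  str₁ : Straight H K.gr K.π (cut1 r₁)
  str₂ : Straight H K.gr K.π (cut1 r₂)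

/-- the arc `r` has the type `t` -/
def SlTy (K : Kit H) (r : K.W × K.W) (t : V × V) : Prop :=
  Sim H (K.π r.1) t.1 ∧ Sim H (K.π r.2) t.2

/-- `R` is defined by killer pieces; `tX` gives the types of the variables -/
def PDef (K : Kit H) {X : Type} (tX : X → V × V) (R : (X → V × V) → Prop) : Prop :=
  ∃ (Y B : Type) (_ : Finite Y) (_ : Finite B) (tY : Y → V × V) (r₁ r₂ : B → K.W × K.W)
    (z₁ z₂ : B → X ⊕ Y), (∀ b, Kl K (r₁ b) (r₂ b)) ∧
    (∀ b, SlTy K (r₁ b) (Sum.elim tX tY (z₁ b)) ∧ SlTy K (r₂ b) (Sum.elim tX tY (z₂ b))) ∧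
    ∀ v, R v ↔ ∃ y : Y → V × V, ∀ b,
      KR K (r₁ b) (r₂ b) (Sum.elim v y (z₁ b)) (Sum.elim v y (z₂ b))

theorem PDef.congr {K : Kit H} {X : Type} {tX : X → V × V} {R R' : (X → V × V) → Prop}
    (h : PDef K tX R) (hR : ∀ v, R v ↔ R' v) : PDef K tX R' := by
  obtain ⟨Y, B, fY, fB, tY, r₁, r₂, z₁, z₂, h1, h2, h3⟩ := h
  exact ⟨Y, B, fY, fB, tY, r₁, r₂, z₁, z₂, h1, h2, fun v => (hR v).symm.trans (h3 v)⟩

theorem PDef.atom {K : Kit H} {X : Type} {tX : X → V × V} {r₁ r₂ : K.W × K.W}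
    (h : Kl K r₁ r₂) {i j : X} (hi : SlTy K r₁ (tX i)) (hj : SlTy K r₂ (tX j)) :
    PDef K tX (fun v => KR K r₁ r₂ (v i) (v j)) := by
  refine ⟨Empty, Unit, inferInstance, inferInstance, Empty.elim, fun _ => r₁, fun _ => r₂,
    fun _ => Sum.inl i, fun _ => Sum.inl j, fun _ => h, fun _ => ⟨hi, hj⟩, fun v => ?_⟩
  constructor
  · intro hv
    exact ⟨fun y => y.elim, fun _ => hv⟩
  · rintro ⟨y, hy⟩
    exact hy ()

theorem pdef_map {X C ι : Type} {Y : ι → Type} (v : X → C) (y : (Σ i, Y i) → C) (i : ι)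
    (z : X ⊕ Y i) :
    Sum.elim v y (Sum.map id (Sigma.mk i) z) = Sum.elim v (fun q => y ⟨i, q⟩) z := by
  cases z <;> rfl

theorem PDef.all {K : Kit H} {X ι : Type} [Finite ι] {tX : X → V × V}
    {R : ι → (X → V × V) → Prop} (h : ∀ i, PDef K tX (R i)) :
    PDef K tX (fun v => ∀ i, R i v) := by
  choose Y B fY fB tY r₁ r₂ z₁ z₂ h1 h2 h3 using h
  refine ⟨Σ i, Y i, Σ i, B i, inferInstance, inferInstance, fun q => tY q.1 q.2,
    fun b => r₁ b.1 b.2, fun b => r₂ b.1 b.2, fun b => Sum.map id (Sigma.mk b.1) (z₁ b.1 b.2),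
    fun b => Sum.map id (Sigma.mk b.1) (z₂ b.1 b.2), fun b => h1 b.1 b.2, fun b => ?_,
    fun v => ?_⟩
  · rw [pdef_map, pdef_map]
    exact h2 b.1 b.2
  · constructor
    · intro hv
      choose y hy using fun i => (h3 i v).1 (hv i)
      refine ⟨fun q => y q.1 q.2, fun b => ?_⟩
      rw [pdef_map, pdef_map]
      exact hy b.1 b.2
    · rintro ⟨y, hy⟩ i
      refine (h3 i v).2 ⟨fun q => y ⟨i, q⟩, fun b => ?_⟩
      have h4 := hy ⟨i, b⟩
      rw [pdef_map, pdef_map] at h4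
      exact h4

theorem PDef.and {K : Kit H} {X : Type} {tX : X → V × V} {R R' : (X → V × V) → Prop}
    (h : PDef K tX R) (h' : PDef K tX R') : PDef K tX (fun v => R v ∧ R' v) := by
  have h1 : PDef K tX (fun v => ∀ b : Bool, (fun b => cond b R R') b v) := by
    apply PDef.all
    intro b
    cases b
    · exact h'
    · exact h
  refine h1.congr fun v => ?_
  constructor
  · intro hv
    exact ⟨hv true, hv false⟩
  · rintro ⟨h2, h3⟩ b
    cases b
    · exact h3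
    · exact h2

theorem pdef_assoc {X X₁ Y C : Type} (v : X → C) (u : X₁ → C) (y : Y → C)
    (z : (X ⊕ X₁) ⊕ Y) :
    Sum.elim v (Sum.elim u y) (Equiv.sumAssoc X X₁ Y z) = Sum.elim (Sum.elim v u) y z := by
  rcases z with (z | z) | z <;> rfl

theorem PDef.ex {K : Kit H} {X X₁ : Type} [Finite X₁] {tX : X → V × V} {t₁ : X₁ → V × V}
    {R : (X ⊕ X₁ → V × V) → Prop} (h : PDef K (Sum.elim tX t₁) R) :
    PDef K tX (fun v => ∃ u : X₁ → V × V, R (Sum.elim v u)) := by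
  obtain ⟨Y, B, fY, fB, tY, r₁, r₂, z₁, z₂, h1, h2, h3⟩ := h
  refine ⟨X₁ ⊕ Y, B, inferInstance, inferInstance, Sum.elim t₁ tY, r₁, r₂,
    fun b => Equiv.sumAssoc X X₁ Y (z₁ b), fun b => Equiv.sumAssoc X X₁ Y (z₂ b), h1,
    fun b => ?_, fun v => ?_⟩
  · rw [pdef_assoc, pdef_assoc]
    exact h2 b
  · constructor
    · rintro ⟨u, hu⟩
      obtain ⟨y, hy⟩ := (h3 _).1 hu
      refine ⟨Sum.elim u y, fun b => ?_⟩
      rw [pdef_assoc, pdef_assoc]
      exact hy b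
    · rintro ⟨y, hy⟩
      refine ⟨y ∘ Sum.inl, (h3 _).2 ⟨y ∘ Sum.inr, fun b => ?_⟩⟩
      have h4 := hy b
      rw [← Sum.elim_comp_inl_inr y, pdef_assoc, pdef_assoc] at h4
      exact h4

theorem pdef_rho {X X' Y C : Type} (v : X' → C) (y : Y → C) (ρ : X → X') (z : X ⊕ Y) :
    Sum.elim v y (Sum.map ρ id z) = Sum.elim (v ∘ ρ) y z := by
  cases z <;> rfl

theorem PDef.comap [Finite V] {K : Kit H} {X X' : Type} {tX : X → V × V} {tX' : X' → V × V}
    {R : (X → V × V) → Prop} (h : PDef K tX R) (ρ : X → X')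
    (hρ : ∀ x, Sim H (tX x).1 (tX' (ρ x)).1 ∧ Sim H (tX x).2 (tX' (ρ x)).2) :
    PDef K tX' (fun v => R (v ∘ ρ)) := by
  obtain ⟨Y, B, fY, fB, tY, r₁, r₂, z₁, z₂, h1, h2, h3⟩ := h
  have key : ∀ (r : K.W × K.W) (z : X ⊕ Y), SlTy K r (Sum.elim tX tY z) →
      SlTy K r (Sum.elim tX' tY (Sum.map ρ id z)) := by
    intro r z hz
    cases z with
    | inl x => exact ⟨sim_trans hz.1 (hρ x).1, sim_trans hz.2 (hρ x).2⟩
    | inr y => exact hz
  refine ⟨Y, B, fY, fB, tY, r₁, r₂, fun b => Sum.map ρ id (z₁ b), fun b => Sum.map ρ id (z₂ b),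
    h1, fun b => ⟨key _ _ (h2 b).1, key _ _ (h2 b).2⟩, fun v => ?_⟩
  simp only [pdef_rho]
  exact h3 (v ∘ ρ)

end Pool.Agent.H24.GC
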