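import Pool.Agent.H24.GC.CoreB

/-!
# JOB GC-12: patterns

A pattern is a finite constraint system with two hub variables (`Sum.inl false`, `Sum.inl true`) and
auxiliary variables `Y`. For a list `E` of pairs one takes a copy of the pattern for every element
`e = (u, v)` of `E`, with the hub variables replaced by `u` and `v`.

`pattern_iff`: `core` for `p.inst E sg`, `var = p.var E`, `kil (k, c) = p.kil c`. The conditions
`Inst.OK`: `fin`: products of finite types. `adj`, `inj`, `str1`: from `Pattern.OK`. `sim1`, `sim2`: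
`var (sg o) = var o` means that the symbols of `o.2` and `(sg o).2` are both hubs or the same `inr y`;
`hub` and `aux`. `non`: `p.var E o = p.var E o'`, both pieces not killers: by `hubk` the symbols are
not hubs, so they are `inr (k, y)`, `k = o.1 = o'.1`, and `o.2 = o'.2` by `non`. `str`: for the
piece `(k, c)` the cut is `∃ s, p.pc s = c ∧ p.ar s = (w, w')`.
The right side of `core` with `a : α ⊕ (Fin E.length × p.Y) → V × V` is equivalent to the right side of
`pattern_iff`: given `a` take `fun u => a (inl u)`, and for the element `e = E[k]` of `E` the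
values `v y = a (inr (k, y))`; conversely choose for every `k` the values `v k : p.Y → V × V` of
`Pattern.Rel` for `E[k]`.
-/

namespace Pool.Agent.H24.GC

variable {V : Type} {H : SimpleGraph V}

/-- a pattern: pieces `Pc`, slots `Sl`, auxiliary variables `Y`; the slot `s` belongs to the piece
`pc s`, is the arc `ar s` and carries the variable `sy s`; `kil` tells the killer pieces -/
structure Pattern (W : Type) where
  Pc : Type
  Sl : Type
  Y : Type
  pc : Sl → Pc
  ar : Sl → W × W
  sy : Sl → Bool ⊕ Y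
  kil : Pc → Prop

/-- the relation between the two hub variables defined by the pattern -/
def Pattern.Rel (K : Kit H) (p : Pattern K.W) (a b : V × V) : Prop :=
  ∃ v : p.Y → V × V, ∀ c, ∃ f : K.W → V, IsCover K.gr H f ∧ ∀ s, p.pc s = c →
    (f (p.ar s).1, f (p.ar s).2) = Sum.elim (fun h : Bool => if h then b else a) v (p.sy s)

structure Pattern.OK (K : Kit H) (p : Pattern K.W) : Prop where
  finP : Finite p.Pc
  finS : Finite p.Sl
  finY : Finite p.Y
  adj : ∀ s, K.gr.Adj (p.ar s).1 (p.ar s).2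
  inj : ∀ s s', p.pc s = p.pc s' → (p.ar s = p.ar s' ∨ p.ar s = (p.ar s').swap) → s = s'
  hub : ∀ s s' h h', p.sy s = Sum.inl h → p.sy s' = Sum.inl h' →
    Sim H (K.π (p.ar s).1) (K.π (p.ar s').1) ∧ Sim H (K.π (p.ar s).2) (K.π (p.ar s').2)
  aux : ∀ s s' y, p.sy s = Sum.inr y → p.sy s' = Sum.inr y →
    Sim H (K.π (p.ar s).1) (K.π (p.ar s').1) ∧ Sim H (K.π (p.ar s).2) (K.π (p.ar s').2)
  hubk : ∀ s h, p.sy s = Sum.inl h → p.kil (p.pc s)
  non : ∀ s s', p.sy s = p.sy s' → ¬ p.kil (p.pc s) → ¬ p.kil (p.pc s') → s = s'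
  str : ∀ c, p.kil c → Straight H K.gr K.π (fun w w' => ∃ s, p.pc s = c ∧ p.ar s = (w, w'))
  str1 : ∀ s, Straight H K.gr K.π (cut1 (p.ar s))

/-- the variable of an occurrence -/
def Pattern.var {W : Type} (p : Pattern W) {α : Type} (E : List (α × α))
    (o : Fin E.length × p.Sl) : α ⊕ (Fin E.length × p.Y) :=
  Sum.elim (fun h : Bool => Sum.inl (if h then (E.get o.1).2 else (E.get o.1).1))
    (fun y => Sum.inr (o.1, y)) (p.sy o.2)

/-- the instance for the list `E` -/
def Pattern.inst {W : Type} (p : Pattern W) {α : Type} (E : List (α × α))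
    (sg : Equiv.Perm (Fin E.length × p.Sl)) : Inst W where
  P := Fin E.length × p.Pc
  O := Fin E.length × p.Sl
  pc o := (o.1, p.pc o.2)
  ar o := p.ar o.2
  sg := sg

theorem Pattern_var_inl {W : Type} (p : Pattern W) {α : Type} (E : List (α × α))
    (o : Fin E.length × p.Sl) {h : Bool} (hs : p.sy o.2 = Sum.inl h) :
    p.var E o = Sum.inl (if h then (E.get o.1).2 else (E.get o.1).1) := by
  unfold Pattern.var
  rw [hs]
  rfl

theorem Pattern_var_inr {W : Type} (p : Pattern W) {α : Type} (E : List (α × α))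
    (o : Fin E.length × p.Sl) {y : p.Y} (hs : p.sy o.2 = Sum.inr y) :
    p.var E o = Sum.inr (o.1, y) := by
  unfold Pattern.var
  rw [hs]
  rfl

/-- occurrences of the same variable have similar arcs -/
theorem Pattern_sim {K : Kit H} {p : Pattern K.W} (hp : p.OK K) {α : Type} (E : List (α × α))
    (o o' : Fin E.length × p.Sl) (h : p.var E o = p.var E o') :
    Sim H (K.π (p.ar o.2).1) (K.π (p.ar o'.2).1) ∧
      Sim H (K.π (p.ar o.2).2) (K.π (p.ar o'.2).2) := by
  rcases hs : p.sy o.2 with b | y <;> rcases hs' : p.sy o'.2 with b' | y'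
  · exact hp.hub _ _ b b' hs hs'
  · rw [Pattern_var_inl p E o hs, Pattern_var_inr p E o' hs'] at h
    exact absurd h (by simp)
  · rw [Pattern_var_inr p E o hs, Pattern_var_inl p E o' hs'] at h
    exact absurd h (by simp)
  · rw [Pattern_var_inr p E o hs, Pattern_var_inr p E o' hs'] at h
    have h2 : y = y' := congrArg Prod.snd (Sum.inr.inj h)
    rw [← h2] at hs'
    exact hp.aux _ _ y hs hs'

theorem Pattern_OK {K : Kit H} {p : Pattern K.W} (hp : p.OK K) {α : Type} (E : List (α × α))
    (sg : Equiv.Perm (Fin E.length × p.Sl)) (h1 : ∀ o, p.var E (sg o) = p.var E o)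
    (h2 : ∀ o o', p.var E o = p.var E o' → sg.SameCycle o o') :
    (p.inst E sg).OK K (p.var E) (fun q => p.kil q.2) where
  fin := by
    have := hp.finS
    exact (inferInstance : Finite (Fin E.length × p.Sl))
  adj o := hp.adj o.2
  inj := by
    intro o o' h3 h4
    have h5 : (o.1, p.pc o.2) = (o'.1, p.pc o'.2) := h3
    obtain ⟨h6, h7⟩ := Prod.ext_iff.1 h5
    exact Prod.ext h6 (hp.inj _ _ h7 h4)
  sim1 o := (Pattern_sim hp E (sg o) o (h1 o)).1
  sim2 o := (Pattern_sim hp E (sg o) o (h1 o)).2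
  var_sg := h1
  cyc := h2
  non := by
    intro o o' h3 h4 h5
    have h4' : ¬ p.kil (p.pc o.2) := h4
    have h5' : ¬ p.kil (p.pc o'.2) := h5
    rcases hs : p.sy o.2 with b | y
    · exact absurd (hp.hubk _ b hs) h4'
    · rcases hs' : p.sy o'.2 with b' | y'
      · exact absurd (hp.hubk _ b' hs') h5'
      · rw [Pattern_var_inr p E o hs, Pattern_var_inr p E o' hs'] at h3
        obtain ⟨h6, h7⟩ := Prod.ext_iff.1 (Sum.inr.inj h3)
        dsimp only at h6 h7
        exact Prod.ext h6 (hp.non _ _ (by rw [hs, hs', h7]) h4' h5')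
  str := by
    rintro ⟨k, c⟩ hq
    have h3 : (fun w w' => ∃ o : Fin E.length × p.Sl,
        (p.inst E sg).pc o = (k, c) ∧ (p.inst E sg).ar o = (w, w')) =
        fun w w' => ∃ s, p.pc s = c ∧ p.ar s = (w, w') := by
      funext w w'
      apply propext
      constructor
      · rintro ⟨o, h4, h5⟩
        exact ⟨o.2, congrArg Prod.snd h4, h5⟩
      · rintro ⟨s, h4, h5⟩
        exact ⟨(k, s), by
          show (k, p.pc s) = (k, c)
          rw [h4], h5⟩
    show Straight H K.gr K.π (fun w w' => ∃ o : Fin E.length × p.Sl,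
        (p.inst E sg).pc o = (k, c) ∧ (p.inst E sg).ar o = (w, w'))
    rw [h3]
    exact hp.str c hq
  str1 o := hp.str1 o.2

theorem pattern_iff [Finite V] [Nonempty V] {K : Kit H} {p : Pattern K.W} (hp : p.OK K)
    {α : Type} (E : List (α × α)) (sg : Equiv.Perm (Fin E.length × p.Sl))
    (h1 : ∀ o, p.var E (sg o) = p.var E o)
    (h2 : ∀ o o', p.var E o = p.var E o' → sg.SameCycle o o') :
    Covers ((p.inst E sg).graph K.gr) H ↔ ∃ a : α → V × V, ∀ e ∈ E, p.Rel K (a e.1) (a e.2) := by
  rw [core (Pattern_OK hp E sg h1 h2)]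
  constructor
  · rintro ⟨a, ha⟩
    refine ⟨fun u => a (Sum.inl u), fun e he => ?_⟩
    obtain ⟨k, hk⟩ := List.mem_iff_get.1 he
    refine ⟨fun y => a (Sum.inr (k, y)), fun c => ?_⟩
    obtain ⟨f, hf, h3⟩ := ha (k, c)
    refine ⟨f, hf, fun s hs => ?_⟩
    have h4 : (f (p.ar s).1, f (p.ar s).2) = a (p.var E (k, s)) := h3 (k, s) (by
      show (k, p.pc s) = (k, c)
      rw [hs])
    rw [h4]
    rcases hsy : p.sy s with b | y
    · rw [Pattern_var_inl p E (k, s) hsy]
      show a (Sum.inl (if b then (E.get k).2 else (E.get k).1)) =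
        if b then a (Sum.inl e.2) else a (Sum.inl e.1)
      rw [hk]
      cases b <;> rfl
    · rw [Pattern_var_inr p E (k, s) hsy]
      rfl
  · rintro ⟨a, ha⟩
    have h3 : ∀ k : Fin E.length, p.Rel K (a (E.get k).1) (a (E.get k).2) :=
      fun k => ha _ (List.get_mem _ _)
    choose v hv using h3
    refine ⟨Sum.elim a (fun q => v q.1 q.2), ?_⟩
    rintro ⟨k, c⟩
    obtain ⟨f, hf, h4⟩ := hv k c
    refine ⟨f, hf, ?_⟩
    rintro ⟨k', s⟩ ho
    have h5 : (k', p.pc s) = (k, c) := ho
    have h6 : k' = k := congrArg Prod.fst h5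
    have h7 : p.pc s = c := congrArg Prod.snd h5
    subst h6
    show (f (p.ar s).1, f (p.ar s).2) = Sum.elim a (fun q => v q.1 q.2) (p.var E (k', s))
    rw [h4 s h7]
    rcases hsy : p.sy s with b | y
    · rw [Pattern_var_inl p E (k', s) hsy]
      cases b <;> rfl
    · rw [Pattern_var_inr p E (k', s) hsy]
      rfl

end Pool.Agent.H24.GC
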