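import Pool.Agent.H24.GC.Equit

/-!
# JOB GC-3: class preserving permutations

Let `w ~ x` (`Sim`). For every class `D` the sets `N(w) ∩ D` and `N(x) ∩ D` have the same number of
elements (`sim_sat`), so the sets `D \ N(w)` and `D \ N(x)` too.
`exists_cp`: with the functions `g v = (class of v, v ∈ N(w))` and `h v = (class of v, v ∈ N(x))`
(values in `Quotient × Prop`, the quotient by the setoid `Sim`) the fibres of `g` and `h` over each point
have the same number of elements, so there are bijections between the fibres and `Equiv.ofFiberEquiv`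
(take `σ` with `h (σ v) = g v`) gives `σ`.
`cp_comp`, `cp_symm`: clear (`sim_trans`, `sim_symm`).
`cp_swap`: if `a, b ∈ N(x)` (or both not) and `a ~ b` then `CP H x x (swap a b)`.
`cp_one`: `swap (σ w₁) x₁ ∘ σ`; `cp_two`: apply `cp_one` and then swap again: with `σ w₁ = x₁` take
`swap (σ w₂) x₂ ∘ σ`; it still maps `w₁` to `x₁` since `σ w₂ ≠ σ w₁ = x₁` and `x₂ ≠ x₁`.
`cp_card_eq`: for `ρ` with `CP w' w ρ`, `ρ'` with `CP x x' ρ'` the map `σ ↦ ρ' ∘ σ ∘ ρ` is a bijection
from `{σ | CP w x σ}` to `{σ | CP w' x' σ}`.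
`cp_card`: `{σ | CP w x σ}` is the disjoint union over `x'' ∈ nbc H x x'` of the sets
`{σ | CP w x σ ∧ σ w' = x''}` (`σ w' ∈ N(x)`, `σ w' ~ w' ~ x'`), and composition with `swap x' x''` is a
bijection between these sets for `x'` and `x''`; the number of the `x''` is
`(nbc H x x').ncard = (nbc H w w').ncard`.
-/

namespace Pool.Agent.H24.GC

variable {V : Type} {H : SimpleGraph V}

/-- `σ` preserves the classes and maps the neighbourhood of `w` onto the neighbourhood of `x` -/
def CP (H : SimpleGraph V) (w x : V) (σ : Equiv.Perm V) : Prop :=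
  (∀ v, Sim H (σ v) v) ∧ ∀ v, H.Adj w v ↔ H.Adj x (σ v)

theorem cp_refl (H : SimpleGraph V) (w : V) : CP H w w (Equiv.refl V) :=
  ⟨fun v => sim_refl H v, fun _ => Iff.rfl⟩

theorem cp_comp [Finite V] {w x y : V} {σ τ : Equiv.Perm V} (h : CP H w x σ) (h' : CP H x y τ) :
    CP H w y (σ.trans τ) :=
  ⟨fun v => sim_trans (h'.1 (σ v)) (h.1 v), fun v => (h.2 v).trans (h'.2 (σ v))⟩

theorem cp_symm [Finite V] {w x : V} {σ : Equiv.Perm V} (h : CP H w x σ) : CP H x w σ.symm := by
  constructor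
  · intro v
    have h1 := h.1 (σ.symm v)
    rw [Equiv.apply_symm_apply] at h1
    exact sim_symm h1
  · intro v
    have h1 := h.2 (σ.symm v)
    rw [Equiv.apply_symm_apply] at h1
    exact h1.symm

theorem cp_swap [Finite V] [DecidableEq V] {x a b : V} (h : Sim H a b)
    (h' : H.Adj x a ↔ H.Adj x b) : CP H x x (Equiv.swap a b) := by
  constructor
  · intro v
    by_cases h1 : v = a
    · rw [h1, Equiv.swap_apply_left]
      exact sim_symm h
    · by_cases h2 : v = b
      · rw [h2, Equiv.swap_apply_right]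
        exact h
      · rw [Equiv.swap_apply_of_ne_of_ne h1 h2]
        exact sim_refl H v
  · intro v
    by_cases h1 : v = a
    · rw [h1, Equiv.swap_apply_left]
      exact h'
    · by_cases h2 : v = b
      · rw [h2, Equiv.swap_apply_right]
        exact h'.symm
      · rw [Equiv.swap_apply_of_ne_of_ne h1 h2]

/-- the setoid of the classes -/
def cpSetoid (V : Type) [Finite V] (H : SimpleGraph V) : Setoid V where
  r := Sim H
  iseqv := ⟨sim_refl H, sim_symm, sim_trans⟩

theorem exists_cp [Finite V] {w x : V} (h : Sim H w x) : ∃ σ, CP H w x σ := by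
  classical
  let S := cpSetoid V H
  have key : ∀ z : Quotient S × Prop,
      Nat.card {v : V // ((Quotient.mk S v, H.Adj w v) : Quotient S × Prop) = z} =
      Nat.card {v : V // ((Quotient.mk S v, H.Adj x v) : Quotient S × Prop) = z} := by
    rintro ⟨q, P⟩
    have hD : ∀ u v, Sim H u v → (u ∈ {v | Quotient.mk S v = q} ↔ v ∈ {v | Quotient.mk S v = q}) := by
      intro u v huv
      have : Quotient.mk S u = Quotient.mk S v := Quotient.sound huv
      show Quotient.mk S u = q ↔ Quotient.mk S v = q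
      rw [this]
    have h1 := sim_sat h hD
    have e1 : ∀ y : V, ({v : V | ((Quotient.mk S v, H.Adj y v) : Quotient S × Prop) = (q, P)}) =
        if P then H.neighborSet y ∩ {v | Quotient.mk S v = q}
        else {v | Quotient.mk S v = q} \ H.neighborSet y := by
      intro y
      ext v
      by_cases hP : P
      · rw [if_pos hP]
        have : (H.Adj y v = P) ↔ H.Adj y v := by simp [hP]
        show ((Quotient.mk S v, H.Adj y v) : Quotient S × Prop) = (q, P) ↔
          (H.Adj y v ∧ Quotient.mk S v = q)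
        rw [Prod.mk_inj, this]
        exact and_comm
      · rw [if_neg hP]
        have : (H.Adj y v = P) ↔ ¬ H.Adj y v := by simp [hP]
        show ((Quotient.mk S v, H.Adj y v) : Quotient S × Prop) = (q, P) ↔
          (Quotient.mk S v = q ∧ ¬ H.Adj y v)
        rw [Prod.mk_inj, this]
    show ({v : V | ((Quotient.mk S v, H.Adj w v) : Quotient S × Prop) = (q, P)}).ncard =
      ({v : V | ((Quotient.mk S v, H.Adj x v) : Quotient S × Prop) = (q, P)}).ncard
    rw [e1, e1]
    by_cases hP : P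
    · rw [if_pos hP, if_pos hP, h1]
    · rw [if_neg hP, if_neg hP]
      have h2 := Set.ncard_inter_add_ncard_sdiff_eq_ncard {v | Quotient.mk S v = q}
        (H.neighborSet w)
      have h3 := Set.ncard_inter_add_ncard_sdiff_eq_ncard {v | Quotient.mk S v = q}
        (H.neighborSet x)
      rw [Set.inter_comm] at h2 h3
      omega
  refine ⟨Equiv.ofFiberEquiv (f := fun v => ((Quotient.mk S v, H.Adj w v) : Quotient S × Prop))
    (g := fun v => ((Quotient.mk S v, H.Adj x v) : Quotient S × Prop))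
    fun z => (Finite.card_eq.1 (key z)).some, ?_⟩
  have hm := Equiv.ofFiberEquiv_map
    (f := fun v => ((Quotient.mk S v, H.Adj w v) : Quotient S × Prop))
    (g := fun v => ((Quotient.mk S v, H.Adj x v) : Quotient S × Prop))
    fun z => (Finite.card_eq.1 (key z)).some
  constructor
  · intro v
    have h1 := (Prod.mk_inj.1 (hm v)).1
    exact Quotient.exact h1
  · intro v
    have h1 := (Prod.mk_inj.1 (hm v)).2
    rw [h1]

theorem cp_one [Finite V] {w x w₁ x₁ : V} (h : Sim H w x) (hw : H.Adj w w₁) (hx : H.Adj x x₁)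
    (h₁ : Sim H w₁ x₁) : ∃ σ, CP H w x σ ∧ σ w₁ = x₁ := by
  classical
  obtain ⟨σ, hσ⟩ := exists_cp h
  refine ⟨σ.trans (Equiv.swap (σ w₁) x₁), cp_comp hσ (cp_swap (sim_trans (hσ.1 w₁) h₁)
    (iff_of_true ((hσ.2 w₁).1 hw) hx)), ?_⟩
  rw [Equiv.trans_apply, Equiv.swap_apply_left]

theorem cp_two [Finite V] {w x w₁ x₁ w₂ x₂ : V} (h : Sim H w x) (hw₁ : H.Adj w w₁)
    (hx₁ : H.Adj x x₁) (h₁ : Sim H w₁ x₁) (hw₂ : H.Adj w w₂) (hx₂ : H.Adj x x₂)
    (h₂ : Sim H w₂ x₂) (hw : w₁ ≠ w₂) (hx : x₁ ≠ x₂) :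
    ∃ σ, CP H w x σ ∧ σ w₁ = x₁ ∧ σ w₂ = x₂ := by
  classical
  obtain ⟨σ, hσ, h3⟩ := cp_one h hw₁ hx₁ h₁
  refine ⟨σ.trans (Equiv.swap (σ w₂) x₂), cp_comp hσ (cp_swap (sim_trans (hσ.1 w₂) h₂)
    (iff_of_true ((hσ.2 w₂).1 hw₂) hx₂)), ?_, ?_⟩
  · rw [Equiv.trans_apply, h3]
    refine Equiv.swap_apply_of_ne_of_ne (fun h4 => hw ?_) hx
    rw [← h3] at h4
    exact σ.injective h4
  · rw [Equiv.trans_apply, Equiv.swap_apply_left]

theorem cp_card_eq [Finite V] {w x w' x' : V} (h : Sim H w x) (hw : Sim H w w')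
    (hx : Sim H x x') : {σ | CP H w x σ}.ncard = {σ | CP H w' x' σ}.ncard := by
  have _ := h
  obtain ⟨ρ, hρ⟩ := exists_cp (sim_symm hw)
  obtain ⟨ρ', hρ'⟩ := exists_cp hx
  have hinj : Function.Injective (fun σ : Equiv.Perm V => ρ.trans (σ.trans ρ')) := by
    intro σ τ hst
    ext v
    have h1 := congrArg (fun π : Equiv.Perm V => π (ρ.symm v)) hst
    simp only [Equiv.trans_apply, Equiv.apply_symm_apply] at h1
    exact ρ'.injective h1
  have himg : {σ | CP H w' x' σ} =
      (fun σ : Equiv.Perm V => ρ.trans (σ.trans ρ')) '' {σ | CP H w x σ} := by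
    ext τ
    constructor
    · intro hτ
      refine ⟨ρ.symm.trans (τ.trans ρ'.symm), cp_comp (cp_symm hρ) (cp_comp hτ (cp_symm hρ')), ?_⟩
      ext v
      simp
    · rintro ⟨σ, hσ, rfl⟩
      exact cp_comp hρ (cp_comp hσ hρ')
  rw [himg, Set.ncard_image_of_injective _ hinj]

theorem cp_fib_eq [Finite V] {w x w' x' x'' : V} (h1 : Sim H x'' x') (hx : H.Adj x x')
    (hx' : H.Adj x x'') :
    {σ | CP H w x σ ∧ σ w' = x''}.ncard = {σ | CP H w x σ ∧ σ w' = x'}.ncard := by
  classical
  have hs : CP H x x (Equiv.swap x' x'') := cp_swap (sim_symm h1) (iff_of_true hx hx')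
  have hinj : Function.Injective (fun σ : Equiv.Perm V => σ.trans (Equiv.swap x' x'')) := by
    intro σ τ hst
    ext v
    have h1 := congrArg (fun π : Equiv.Perm V => π v) hst
    simp only [Equiv.trans_apply] at h1
    exact (Equiv.swap x' x'').injective h1
  have himg : {σ | CP H w x σ ∧ σ w' = x'} =
      (fun σ : Equiv.Perm V => σ.trans (Equiv.swap x' x'')) '' {σ | CP H w x σ ∧ σ w' = x''} := by
    ext τ
    constructor
    · rintro ⟨hτ, hτ'⟩
      refine ⟨τ.trans (Equiv.swap x' x''), ⟨cp_comp hτ hs, ?_⟩, ?_⟩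
      · rw [Equiv.trans_apply, hτ', Equiv.swap_apply_left]
      · ext v
        simp
    · rintro ⟨σ, ⟨hσ, hσ'⟩, rfl⟩
      refine ⟨cp_comp hσ hs, ?_⟩
      show (Equiv.swap x' x'') (σ w') = x'
      rw [hσ', Equiv.swap_apply_right]
  rw [himg, Set.ncard_image_of_injective _ hinj]

theorem cp_card [Finite V] {w x w' x' : V} (h : Sim H w x) (hw : H.Adj w w') (hx : H.Adj x x')
    (h' : Sim H w' x') :
    {σ | CP H w x σ}.ncard = (nbc H w w').ncard * {σ | CP H w x σ ∧ σ w' = x'}.ncard := by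
  classical
  have hS : {σ | CP H w x σ}.Finite := Set.toFinite _
  have hN : (nbc H x x').Finite := Set.toFinite _
  have hmap : ∀ σ ∈ hS.toFinset, σ w' ∈ hN.toFinset := by
    intro σ hσ
    rw [Set.Finite.mem_toFinset] at hσ ⊢
    exact ⟨(hσ.2 w').1 hw, sim_trans (hσ.1 w') h'⟩
  rw [Set.ncard_eq_toFinset_card _ hS, Finset.card_eq_sum_card_fiberwise hmap, nbc_ncard h h',
    Set.ncard_eq_toFinset_card _ hN, ← smul_eq_mul, ← Finset.sum_const]
  refine Finset.sum_congr rfl fun x'' hx'' => ?_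
  rw [Set.Finite.mem_toFinset] at hx''
  rw [← cp_fib_eq (w := w) (w' := w') hx''.2 hx hx''.1,
    Set.ncard_eq_toFinset_card _ (Set.toFinite _)]
  congr 1
  ext σ
  simp only [Finset.mem_filter, Set.Finite.mem_toFinset]
  rfl

end Pool.Agent.H24.GC
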