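import Pool.Agent.H79.Thr.Conv
import Pool.Agent.H24.GC.Cyc

/-!
# JOB GC-13: the list of edges is computed in polynomial time

`redE cst m J pcT tl hd sy E` is the list of the edges of the graph of the instance for `E`; the vertices are
coded as `(k, (c, w))` (vertex `w` of the copy `k` of the piece `c < m`) and `(k, (m + j, w))` (vertex
`w` of the copy `k` of the spacer of the slot `j < J`).
`PT.redE'`: combine `PT.flatMap'`, `PT.map'`, `PT.filter'`, `PT.dedup'`, `PT.append'`, `PT.getD'`,
`PT.range'`, `PT.length'`, constants and `fun_prop`, as in `PT.mat'` (file `Pool.Agent.H79.Thr.Conv`); the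
variables are compared with `decide (_ = _)`. Generalise over the dependence on `E` by pairs
`α' × β` as in the files cited.
-/

namespace Pool.Agent.H24.GC

open Pool.Agent.PPS Pool.Agent.H64.Cook Pool.Agent.H79.Thr

section

variable {α : Type} [Inhabited α]

/-- code of the variable of the slot number `o.2` of the copy `o.1` -/
def vcode (sy : List ℕ) (E : List (α × α)) (o : ℕ × ℕ) : ℕ × (ℕ × α) :=
  if sy.getD o.2 0 = 0 then (0, (0, (E.getD o.1 default).1))
  else if sy.getD o.2 0 = 1 then (0, (0, (E.getD o.1 default).2))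
  else (o.1 + 1, (sy.getD o.2 0, default))

/-- the occurrences -/
def ocs (n J : ℕ) : List (ℕ × ℕ) :=
  (List.range n).flatMap (fun k => (List.range J).map (fun j => (k, j)))

/-- the list of the edges of the instance for `E` -/
def redE [DecidableEq α] (cst : List ((ℕ × ℕ) × (ℕ × ℕ))) (m J : ℕ) (pcT tl hd sy : List ℕ)
    (E : List (α × α)) : List ((ℕ × (ℕ × ℕ)) × (ℕ × (ℕ × ℕ))) :=
  (List.range E.length).flatMap (fun k => cst.map (fun e => ((k, e.1), (k, e.2)))) ++
  (crossPairs (ocs E.length J) (vcode sy E) (0, 0)).map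
    (fun q => ((q.1.1, (m + q.1.2, tl.getD q.1.2 0)), (q.2.1, (pcT.getD q.2.2 0, hd.getD q.2.2 0))))

omit [Inhabited α] in
private theorem PT.fibAux {B D Z : Type} [Rep B] [Rep D] [Rep Z] [DecidableEq Z] {m : Bool}
    {l : B → List D} {vr : B × D → Z} (hl : PT m l) (hv : PT m vr) {z : B → Z} (hz : PT m z) :
    PT m (fun b => fib (l b) (fun o => vr (b, o)) (z b)) := by
  unfold fib
  refine H64.Cook.PT.filter' (m := m) (l := l)
    (f := fun w : B × D => decide (vr w = z w.1)) hl ?_
  have h1 : PT m (fun w : B × D => z w.1) := hz.comp' PT.fst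
  exact PT.decideEq hv h1

omit [Inhabited α] in
private theorem PT.crossAux {B D Z : Type} [Rep B] [Rep D] [Rep Z] [DecidableEq Z] {m : Bool}
    {l : B → List D} {vr : B × D → Z} (hl : PT m l) (hv : PT m vr) (d : D) :
    PT m (fun b => crossPairs (l b) (fun o => vr (b, o)) d) := by
  have h0 : PT m (fun b => (l b).map (fun o => vr (b, o))) :=
    PT.map' (m := m) (l := l) (f := vr) hl hv
  have h1 : PT m (fun b => ((l b).map (fun o => vr (b, o))).dedup) := H64.ENC.PT.dedup' h0
  have hl1 : PT m (fun w : B × Z => l w.1) := hl.comp' PT.fst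
  have hv1 : PT m (fun w : (B × Z) × D => vr (w.1.1, w.2)) := hv.comp' (by fun_prop)
  have hf : PT m (fun w : B × Z => fib (l w.1) (fun o => vr (w.1, o)) w.2) :=
    PT.fibAux (B := B × Z) (l := fun w => l w.1) (vr := fun w => vr (w.1.1, w.2)) hl1 hv1 PT.snd
  have hf1 : PT m (fun w : (B × Z) × ℕ => fib (l w.1.1) (fun o => vr (w.1.1, o)) w.1.2) :=
    hf.comp' (f := fun w : (B × Z) × ℕ => w.1) PT.fst
  unfold crossPairs
  refine H64.Cook.PT.flatMap' (m := m) (l := fun b => ((l b).map (fun o => vr (b, o))).dedup)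
    (f := fun w : B × Z => (List.range (fib (l w.1) (fun o => vr (w.1, o)) w.2).length).map
      (fun i => ((fib (l w.1) (fun o => vr (w.1, o)) w.2).getD i d,
        ((fib (l w.1) (fun o => vr (w.1, o)) w.2) ++
          (fib (l w.1) (fun o => vr (w.1, o)) w.2)).getD (i + 1) d))) h1 ?_
  refine PT.map' (m := m)
    (l := fun w : B × Z => List.range (fib (l w.1) (fun o => vr (w.1, o)) w.2).length)
    (f := fun w : (B × Z) × ℕ => ((fib (l w.1.1) (fun o => vr (w.1.1, o)) w.1.2).getD w.2 d,
        ((fib (l w.1.1) (fun o => vr (w.1.1, o)) w.1.2) ++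
          (fib (l w.1.1) (fun o => vr (w.1.1, o)) w.1.2)).getD (w.2 + 1) d)) ?_ ?_
  · fun_prop
  · fun_prop

private theorem PT.vcodeAux [Rep α] (sy : List ℕ) {B : Type} [Rep B] {m : Bool}
    {E : B → List (α × α)} (hE : PT m E) :
    PT m (fun z : B × (ℕ × ℕ) => vcode sy (E z.1) z.2) := by
  have hE1 : PT m (fun z : B × (ℕ × ℕ) => E z.1) := hE.comp' PT.fst
  have h : PT m (fun z : B × (ℕ × ℕ) =>
      (bif decide (sy.getD z.2.2 0 = 0) then
        ((0 : ℕ), ((0 : ℕ), ((E z.1).getD z.2.1 (default : α × α)).1))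
      else (bif decide (sy.getD z.2.2 0 = 1) then
        ((0 : ℕ), ((0 : ℕ), ((E z.1).getD z.2.1 (default : α × α)).2))
      else (z.2.1 + 1, (sy.getD z.2.2 0, (default : α)))))) := by
    fun_prop
  refine h.of_eq ?_
  intro z
  unfold vcode
  by_cases h0 : sy.getD z.2.2 0 = 0
  · rw [if_pos h0, decide_eq_true h0, cond_true]
  · by_cases h1 : sy.getD z.2.2 0 = 1
    · rw [if_neg h0, if_pos h1, decide_eq_false h0, decide_eq_true h1, cond_false, cond_true]
    · rw [if_neg h0, if_neg h1, decide_eq_false h0, decide_eq_false h1, cond_false, cond_false]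

private theorem PT.ocsAux (J : ℕ) {B : Type} [Rep B] {m : Bool} {n : B → ℕ} (hn : PT m n) :
    PT m (fun b => ocs (n b) J) := by
  unfold ocs
  refine H64.Cook.PT.flatMap' (m := m) (l := fun b => List.range (n b))
    (f := fun z : B × ℕ => (List.range J).map (fun j => (z.2, j))) (by fun_prop) ?_
  exact PT.map' (m := m) (l := fun _ : B × ℕ => List.range J)
    (f := fun w : (B × ℕ) × ℕ => (w.1.2, w.2)) (by fun_prop) (by fun_prop)

theorem PT.redE' [Rep α] [DecidableEq α] (cst : List ((ℕ × ℕ) × (ℕ × ℕ))) (m J : ℕ)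
    (pcT tl hd sy : List ℕ) {β : Type} [Rep β] {E : β → List (α × α)} (hE : PT true E) :
    PT true (fun b => redE cst m J pcT tl hd sy (E b)) := by
  have hlen : PT true (fun b => (E b).length) := by fun_prop
  have hcr : PT true (fun b => crossPairs (ocs (E b).length J) (vcode sy (E b)) (0, 0)) :=
    PT.crossAux (l := fun b => ocs (E b).length J)
      (vr := fun z : β × (ℕ × ℕ) => vcode sy (E z.1) z.2) (PT.ocsAux J hlen)
      (PT.vcodeAux sy hE) (0, 0)
  unfold redE
  refine PT.append' ?_ ?_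
  · refine H64.Cook.PT.flatMap' (m := true) (l := fun b => List.range (E b).length)
      (f := fun z : β × ℕ => cst.map (fun e => ((z.2, e.1), (z.2, e.2)))) (by fun_prop) ?_
    exact PT.map' (m := true) (l := fun _ : β × ℕ => cst)
      (f := fun w : (β × ℕ) × ((ℕ × ℕ) × (ℕ × ℕ)) => ((w.1.2, w.2.1), (w.1.2, w.2.2)))
      (by fun_prop) (by fun_prop)
  · exact PT.map' (m := true)
      (l := fun b => crossPairs (ocs (E b).length J) (vcode sy (E b)) (0, 0))
      (f := fun w : β × ((ℕ × ℕ) × (ℕ × ℕ)) =>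
        ((w.2.1.1, (m + w.2.1.2, tl.getD w.2.1.2 0)),
          (w.2.2.1, (pcT.getD w.2.2.2 0, hd.getD w.2.2.2 0)))) hcr (by fun_prop)

end

end Pool.Agent.H24.GC
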