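import Pool.Agent.H24.GC.Pattern
import Pool.Agent.H24.GC.RedPT

/-!
# JOB GC-14: the list of edges describes the graph of the instance

Choose injections `eW : K.W → ℕ`, `eP : p.Pc → ℕ` with values `< m`, a bijection `eS : p.Sl ≃ Fin J`
and an injection `eY : p.Y → ℕ` (`Finite.equivFin`). Tables (lists of length `J`, `List.ofFn`):
`pcT[j] = eP (p.pc s)`, `tl[j] = eW (p.ar s).1`, `hd[j] = eW (p.ar s).2`, `sy[j] = 0, 1, eY y + 2` if
`p.sy s = inl false, inl true, inr y`, where `s = eS.symm j`.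
`ι ((inl (k, c)), w) = (k, (eP c, eW w))`, `ι ((inr (k, s)), w) = (k, (m + eS s, eW w))`; injective.
`cst` = the list (`Finset.toList` of a finite set, or `Set.Finite.toFinset`) of all the pairs
* `((eP c, eW w), (eP c, eW w'))`, `w ~ w'`, no slot `s` of `c` has the arc `(w, w')` or `(w', w)`;
* `((m + eS s, eW w), (m + eS s, eW w'))`, `w ~ w'`, `p.ar s ≠ (w, w')`, `(w', w)`;
* `((eP (p.pc s), eW (p.ar s).1), (m + eS s, eW (p.ar s).2))`.
With `k` these are exactly the images under `ι × ι` of the first three kinds of edges `Inst.Ed`.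
The code of the variable: for `o = (k, s)` let `ec o = (k, eS s)`. Then
`vcode sy E (ec o) = vcode sy E (ec o') ↔ p.var E o = p.var E o'` (the code of the hub `u` is
`(0, (0, u))`, the code of `inr (k, y)` is `(k + 1, (eY y + 2, default))`; `E.getD k default = E.get k`).
`ec` is a bijection from `Fin E.length × p.Sl` onto the elements of the list `ocs E.length J` (no
duplicates). Take the permutation of `exists_cyc` for this list and `vcode sy E`, and transport it by `ec`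
to `sg` (`Equiv.Perm.subtypePerm`, or define `sg o` as the `ec`-preimage of the image of `ec o`; powers and
`SameCycle` are transported too, with integer powers or by finiteness natural powers). The last part of `redE` then
consists of the images of the edges of the fourth kind: `e ∈ crossPairs ... ↔ e.1 = ec o`,
`e.2 = ec (sg o)` for some `o`.
So `relG (redE ...)` restricted to the image of `ι` is the graph of the instance (the edges of the graph are
`Ed x y ∨ Ed y x`, and `Ed x y` implies `x ≠ y`), and all entries of `redE` are in the range of `ι`.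
-/

namespace Pool.Agent.H24.GC

open Pool.Agent.H79.Thr

variable {V : Type} {H : SimpleGraph V}

section RedSpecAux

variable {W : Type}

/-- the edges inside one copy of the pattern -/
def RedSpecLR (g : SimpleGraph W) (p : Pattern W) (x y : (p.Pc ⊕ p.Sl) × W) : Prop :=
  (∃ c w w', g.Adj w w' ∧ (∀ s, p.pc s = c → p.ar s ≠ (w, w') ∧ p.ar s ≠ (w', w)) ∧
    x = (Sum.inl c, w) ∧ y = (Sum.inl c, w')) ∨
  (∃ s w w', g.Adj w w' ∧ p.ar s ≠ (w, w') ∧ p.ar s ≠ (w', w) ∧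
    x = (Sum.inr s, w) ∧ y = (Sum.inr s, w')) ∨
  (∃ s, x = (Sum.inl (p.pc s), (p.ar s).1) ∧ y = (Sum.inr s, (p.ar s).2))

/-- the copy number `k` -/
def RedSpecMk {p : Pattern W} {n : ℕ} (k : Fin n) (u : (p.Pc ⊕ p.Sl) × W) :
    ((Fin n × p.Pc) ⊕ (Fin n × p.Sl)) × W :=
  (Sum.map (Prod.mk k) (Prod.mk k) u.1, u.2)

theorem RedSpec_Ed (g : SimpleGraph W) (p : Pattern W) {α : Type} (E : List (α × α))
    (sg : Equiv.Perm (Fin E.length × p.Sl)) (x y : (p.inst E sg).Vx) :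
    (p.inst E sg).Ed g x y ↔
      (∃ (k : Fin E.length) (u v : (p.Pc ⊕ p.Sl) × W), RedSpecLR g p u v ∧
        x = RedSpecMk k u ∧ y = RedSpecMk k v) ∨
      (∃ o : Fin E.length × p.Sl, x = (Sum.inr o, (p.ar o.2).1) ∧
        y = (Sum.inl ((sg o).1, p.pc (sg o).2), (p.ar (sg o).2).2)) := by
  constructor
  · rintro (⟨⟨k, c⟩, w, w', h1, h2, hx, hy⟩ | ⟨⟨k, s⟩, w, w', h1, h2, h3, hx, hy⟩ |
      ⟨⟨k, s⟩, hx, hy⟩ | ⟨o, hx, hy⟩)
    · refine Or.inl ⟨k, (Sum.inl c, w), (Sum.inl c, w'), Or.inl ⟨c, w, w', h1, ?_, rfl, rfl⟩,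
        hx, hy⟩
      intro s hs
      exact h2 (k, s) (by rw [← hs]; rfl)
    · exact Or.inl ⟨k, (Sum.inr s, w), (Sum.inr s, w'),
        Or.inr (Or.inl ⟨s, w, w', h1, h2, h3, rfl, rfl⟩), hx, hy⟩
    · exact Or.inl ⟨k, (Sum.inl (p.pc s), (p.ar s).1), (Sum.inr s, (p.ar s).2),
        Or.inr (Or.inr ⟨s, rfl, rfl⟩), hx, hy⟩
    · exact Or.inr ⟨o, hx, hy⟩
  · rintro (⟨k, u, v, ⟨c, w, w', h1, h2, rfl, rfl⟩ | ⟨s, w, w', h1, h2, h3, rfl, rfl⟩ |
      ⟨s, rfl, rfl⟩, hx, hy⟩ | ⟨o, hx, hy⟩)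
    · refine Or.inl ⟨(k, c), w, w', h1, ?_, hx, hy⟩
      rintro ⟨k', s⟩ ho
      exact h2 s (congrArg Prod.snd ho)
    · exact Or.inr (Or.inl ⟨(k, s), w, w', h1, h2, h3, hx, hy⟩)
    · exact Or.inr (Or.inr (Or.inl ⟨(k, s), hx, hy⟩))
    · exact Or.inr (Or.inr (Or.inr ⟨o, hx, hy⟩))

theorem RedSpec_ocs_mem {n J : ℕ} {o : ℕ × ℕ} : o ∈ ocs n J ↔ o.1 < n ∧ o.2 < J := by
  obtain ⟨k, j⟩ := o
  have h : ocs n J = (List.range n) ×ˢ (List.range J) := rfl
  rw [h, List.mem_product, List.mem_range, List.mem_range]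

theorem RedSpec_ocs_nodup (n J : ℕ) : (ocs n J).Nodup :=
  List.Nodup.product List.nodup_range List.nodup_range

theorem RedSpec_getD {J : ℕ} (f : Fin J → ℕ) {j : ℕ} (hj : j < J) :
    (List.ofFn f).getD j 0 = f ⟨j, hj⟩ := by
  rw [List.getD_eq_getElem _ _ (by rw [List.length_ofFn]; exact hj), List.getElem_ofFn]

theorem RedSpec_pow {D D' : Type} {sg : Equiv.Perm D} {sg' : Equiv.Perm D'} {ec : D → D'}
    (h : ∀ o, ec (sg o) = sg' (ec o)) (i : ℕ) (o : D) : ec ((sg ^ i) o) = (sg' ^ i) (ec o) := by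
  induction i generalizing o with
  | zero => rfl
  | succ i ih =>
    rw [pow_succ, pow_succ, Equiv.Perm.mul_apply, Equiv.Perm.mul_apply, ih, h]

theorem RedSpec_same {D D' : Type} {sg : Equiv.Perm D} {sg' : Equiv.Perm D'} {ec : D → D'}
    (hi : Function.Injective ec) (h : ∀ o, ec (sg o) = sg' (ec o)) {o o' : D}
    (hs : sg'.SameCycle (ec o) (ec o')) : sg.SameCycle o o' := by
  obtain ⟨i, hi'⟩ := hs
  refine ⟨i, hi ?_⟩
  rw [← hi']
  cases i with
  | ofNat i => exact RedSpec_pow h i o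
  | negSucc i =>
    rw [zpow_negSucc, zpow_negSucc]
    have h1 : ec ((sg ^ (i + 1)) ((sg ^ (i + 1))⁻¹ o)) = _ := RedSpec_pow h (i + 1) _
    have h2 : (sg ^ (i + 1)) ((sg ^ (i + 1))⁻¹ o) = o := Equiv.apply_symm_apply _ o
    rw [h2] at h1
    rw [h1]
    exact (Equiv.symm_apply_apply (sg' ^ (i + 1)) _).symm

/-- the permutation transported by `ec` -/
theorem RedSpec_perm {D D' : Type} (l : List D') (sg' : Equiv.Perm D')
    (hl : ∀ o, o ∈ l ↔ sg' o ∈ l) (ec : D → D') (hi : Function.Injective ec)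
    (hr : ∀ o, o ∈ l ↔ ∃ x, ec x = o) :
    ∃ sg : Equiv.Perm D, ∀ o, ec (sg o) = sg' (ec o) := by
  have h1 : ∀ o, ∃ x, ec x = sg' (ec o) := fun o => (hr _).1 ((hl _).1 ((hr _).2 ⟨o, rfl⟩))
  have h2 : ∀ o, ∃ x, ec x = sg'.symm (ec o) := by
    intro o
    refine (hr _).1 ((hl _).2 ?_)
    rw [Equiv.apply_symm_apply]
    exact (hr _).2 ⟨o, rfl⟩
  choose f hf using h1
  choose f' hf' using h2
  refine ⟨⟨f, f', fun o => hi ?_, fun o => hi ?_⟩, hf⟩
  · rw [hf', hf, Equiv.symm_apply_apply]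
  · rw [hf, hf', Equiv.apply_symm_apply]

end RedSpecAux

theorem redE_spec {K : Kit H} {p : Pattern K.W} (hp : p.OK K) :
    ∃ (cst : List ((ℕ × ℕ) × (ℕ × ℕ))) (m J : ℕ) (pcT tl hd sy : List ℕ),
      ∀ (α : Type) [Inhabited α] [DecidableEq α] (E : List (α × α)),
        ∃ (sg : Equiv.Perm (Fin E.length × p.Sl)) (ι : (p.inst E sg).Vx → ℕ × (ℕ × ℕ)),
          (∀ o, p.var E (sg o) = p.var E o) ∧
          (∀ o o', p.var E o = p.var E o' → sg.SameCycle o o') ∧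
          Function.Injective ι ∧
          (∀ a b, ((p.inst E sg).graph K.gr).Adj a b ↔
            (relG (redE cst m J pcT tl hd sy E)).Adj (ι a) (ι b)) ∧
          ∀ e ∈ redE cst m J pcT tl hd sy E, e.1 ∈ Set.range ι ∧ e.2 ∈ Set.range ι := by
  classical
  have hfP := hp.finP
  have hfS := hp.finS
  have hfY := hp.finY
  let eP := Finite.equivFin p.Pc
  let eS := Finite.equivFin p.Sl
  let eY := Finite.equivFin p.Y
  let eW := Finite.equivFin K.W
  let m := Nat.card p.Pc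
  let J := Nat.card p.Sl
  let cU : (p.Pc ⊕ p.Sl) × K.W → ℕ × ℕ := fun u =>
    (Sum.elim (fun c => (eP c : ℕ)) (fun s => m + (eS s : ℕ)) u.1, (eW u.2 : ℕ))
  have hcU : Function.Injective cU := by
    rintro ⟨q, w⟩ ⟨q', w'⟩ h
    obtain ⟨h1, h2⟩ := Prod.ext_iff.1 h
    have hw : w = w' := eW.injective (Fin.ext h2)
    subst hw
    rcases q with c | s <;> rcases q' with c' | s'
    · have h3 : (eP c : ℕ) = (eP c' : ℕ) := h1
      rw [eP.injective (Fin.ext h3)]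
    · have h3 : (eP c : ℕ) = m + (eS s' : ℕ) := h1
      have := (eP c).2
      omega
    · have h3 : m + (eS s : ℕ) = (eP c' : ℕ) := h1
      have := (eP c').2
      omega
    · have h3 : m + (eS s : ℕ) = m + (eS s' : ℕ) := h1
      rw [eS.injective (Fin.ext (Nat.add_left_cancel h3))]
  let symc : Bool ⊕ p.Y → ℕ := Sum.elim (fun b => if b then 1 else 0) (fun y => (eY y : ℕ) + 2)
  let pcT : List ℕ := List.ofFn (fun j : Fin J => (eP (p.pc (eS.symm j)) : ℕ))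
  let tl : List ℕ := List.ofFn (fun j : Fin J => (eW (p.ar (eS.symm j)).1 : ℕ))
  let hd : List ℕ := List.ofFn (fun j : Fin J => (eW (p.ar (eS.symm j)).2 : ℕ))
  let sy : List ℕ := List.ofFn (fun j : Fin J => symc (p.sy (eS.symm j)))
  have hpcT : ∀ s, pcT.getD (eS s : ℕ) 0 = (eP (p.pc s) : ℕ) := by
    intro s
    rw [RedSpec_getD _ (eS s).2]
    simp
  have htl : ∀ s, tl.getD (eS s : ℕ) 0 = (eW (p.ar s).1 : ℕ) := by
    intro s
    rw [RedSpec_getD _ (eS s).2]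
    simp
  have hhd : ∀ s, hd.getD (eS s : ℕ) 0 = (eW (p.ar s).2 : ℕ) := by
    intro s
    rw [RedSpec_getD _ (eS s).2]
    simp
  have hsy : ∀ s, sy.getD (eS s : ℕ) 0 = symc (p.sy s) := by
    intro s
    rw [RedSpec_getD _ (eS s).2]
    simp
  have hfin : {e : ((p.Pc ⊕ p.Sl) × K.W) × ((p.Pc ⊕ p.Sl) × K.W) |
      RedSpecLR K.gr p e.1 e.2}.Finite := Set.toFinite _
  let cst : List ((ℕ × ℕ) × (ℕ × ℕ)) := hfin.toFinset.toList.map (fun e => (cU e.1, cU e.2))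
  have hcst : ∀ e, e ∈ cst ↔ ∃ u v, RedSpecLR K.gr p u v ∧ (cU u, cU v) = e := by
    intro e
    rw [List.mem_map]
    constructor
    · rintro ⟨⟨u, v⟩, h1, h2⟩
      rw [Finset.mem_toList, Set.Finite.mem_toFinset] at h1
      exact ⟨u, v, h1, h2⟩
    · rintro ⟨u, v, h1, h2⟩
      refine ⟨(u, v), ?_, h2⟩
      rw [Finset.mem_toList, Set.Finite.mem_toFinset]
      exact h1
  refine ⟨cst, m, J, pcT, tl, hd, sy, ?_⟩
  intro α _ _ E
  let ec : Fin E.length × p.Sl → ℕ × ℕ := fun o => ((o.1 : ℕ), (eS o.2 : ℕ))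
  have hec : Function.Injective ec := by
    rintro ⟨k, s⟩ ⟨k', s'⟩ h
    obtain ⟨h1, h2⟩ := Prod.ext_iff.1 h
    have h3 : k = k' := Fin.ext h1
    have h4 : s = s' := eS.injective (Fin.ext h2)
    rw [h3, h4]
  have hecr : ∀ o, o ∈ ocs E.length J ↔ ∃ x, ec x = o := by
    intro o
    rw [RedSpec_ocs_mem]
    constructor
    · rintro ⟨h1, h2⟩
      refine ⟨(⟨o.1, h1⟩, eS.symm ⟨o.2, h2⟩), ?_⟩
      show ((o.1 : ℕ), (eS (eS.symm ⟨o.2, h2⟩) : ℕ)) = o
      rw [Equiv.apply_symm_apply]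
    · rintro ⟨x, rfl⟩
      exact ⟨x.1.2, (eS x.2).2⟩
  let enc : α ⊕ (Fin E.length × p.Y) → ℕ × (ℕ × α) :=
    Sum.elim (fun a => (0, (0, a))) (fun ky => ((ky.1 : ℕ) + 1, ((eY ky.2 : ℕ) + 2, default)))
  have henc : Function.Injective enc := by
    rintro (a | ⟨k, y⟩) (a' | ⟨k', y'⟩) h
    · have h1 : a = a' := congrArg (fun z => z.2.2) h
      rw [h1]
    · have h1 : (0 : ℕ) = (k' : ℕ) + 1 := congrArg (fun z => z.1) h
      omega
    · have h1 : (k : ℕ) + 1 = 0 := congrArg (fun z => z.1) h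
      omega
    · have h1 : (k : ℕ) + 1 = (k' : ℕ) + 1 := congrArg (fun z => z.1) h
      have h2 : (eY y : ℕ) + 2 = (eY y' : ℕ) + 2 := congrArg (fun z => z.2.1) h
      rw [Fin.ext (Nat.add_right_cancel h1), eY.injective (Fin.ext (Nat.add_right_cancel h2))]
  have hvc : ∀ o, vcode sy E (ec o) = enc (p.var E o) := by
    rintro ⟨k, s⟩
    have hE : E.getD (k : ℕ) default = E.get k := List.getD_eq_getElem _ _ k.2
    have h1 : sy.getD (ec (k, s)).2 0 = symc (p.sy s) := hsy s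
    have h2 : E.getD (ec (k, s)).1 default = E.get k := hE
    unfold vcode
    rw [h1, h2]
    unfold Pattern.var
    show _ = enc (Sum.elim (fun h : Bool => Sum.inl (if h then (E.get k).2 else (E.get k).1))
      (fun y => Sum.inr (k, y)) (p.sy s))
    rcases p.sy s with b | y
    · cases b
      · rfl
      · rfl
    · have h3 : symc (Sum.inr y) = (eY y : ℕ) + 2 := rfl
      rw [h3, if_neg (by omega), if_neg (by omega)]
      rfl
  obtain ⟨sg', hl', hv', hs', hc'⟩ := exists_cyc (ocs E.length J)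
    (RedSpec_ocs_nodup _ _) (vcode sy E) (0, 0)
  obtain ⟨sg, hsg⟩ := RedSpec_perm (ocs E.length J) sg' hl' ec hec hecr
  let ι : (p.inst E sg).Vx → ℕ × (ℕ × ℕ) := fun x =>
    (Sum.elim (fun o : Fin E.length × p.Pc => (o.1 : ℕ))
      (fun o : Fin E.length × p.Sl => (o.1 : ℕ)) x.1,
     (Sum.elim (fun o : Fin E.length × p.Pc => (eP o.2 : ℕ))
      (fun o : Fin E.length × p.Sl => m + (eS o.2 : ℕ)) x.1, (eW x.2 : ℕ)))
  have hmk : ∀ (k : Fin E.length) (u : (p.Pc ⊕ p.Sl) × K.W),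
      ι (RedSpecMk k u) = ((k : ℕ), cU u) := by
    rintro k ⟨c | s, w⟩
    · rfl
    · rfl
  have hsurj : ∀ x : (p.inst E sg).Vx, ∃ (k : Fin E.length) (u : (p.Pc ⊕ p.Sl) × K.W),
      x = RedSpecMk k u := by
    rintro ⟨⟨k, c⟩ | ⟨k, s⟩, w⟩
    · exact ⟨k, (Sum.inl c, w), rfl⟩
    · exact ⟨k, (Sum.inr s, w), rfl⟩
  have hι : Function.Injective ι := by
    intro x y h
    obtain ⟨k, u, rfl⟩ := hsurj x
    obtain ⟨k', u', rfl⟩ := hsurj y
    rw [hmk, hmk] at h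
    obtain ⟨h1, h2⟩ := Prod.ext_iff.1 h
    have h3 : k = k' := Fin.ext h1
    have h4 : u = u' := hcU h2
    rw [h3, h4]
  have hmem : ∀ e, e ∈ redE cst m J pcT tl hd sy E ↔
      ∃ x y, (p.inst E sg).Ed K.gr x y ∧ e = (ι x, ι y) := by
    intro e
    unfold redE
    rw [List.mem_append, List.mem_flatMap, List.mem_map]
    constructor
    · rintro (⟨k, hk, h1⟩ | ⟨q, hq, rfl⟩)
      · rw [List.mem_map] at h1
        obtain ⟨e', he', rfl⟩ := h1
        obtain ⟨u, v, huv, rfl⟩ := (hcst e').1 he'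
        have hk' : k < E.length := List.mem_range.1 hk
        refine ⟨RedSpecMk ⟨k, hk'⟩ u, RedSpecMk ⟨k, hk'⟩ v,
          (RedSpec_Ed K.gr p E sg _ _).2 (Or.inl ⟨⟨k, hk'⟩, u, v, huv, rfl, rfl⟩), ?_⟩
        rw [hmk, hmk]
      · obtain ⟨h1, h2⟩ := (hc' q).1 hq
        obtain ⟨o, ho⟩ := (hecr _).1 h1
        have h3 : q.2 = ec (sg o) := by rw [h2, ← ho, hsg]
        refine ⟨(Sum.inr o, (p.ar o.2).1), (Sum.inl ((sg o).1, p.pc (sg o).2),
          (p.ar (sg o).2).2), (RedSpec_Ed K.gr p E sg _ _).2 (Or.inr ⟨o, rfl, rfl⟩), ?_⟩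
        rw [h3, ← ho]
        show (((o.1 : ℕ), (m + (eS o.2 : ℕ), tl.getD (eS o.2 : ℕ) 0)),
          (((sg o).1 : ℕ), (pcT.getD (eS (sg o).2 : ℕ) 0, hd.getD (eS (sg o).2 : ℕ) 0))) = _
        rw [htl, hpcT, hhd]
        rfl
    · rintro ⟨x, y, hxy, rfl⟩
      rcases (RedSpec_Ed K.gr p E sg x y).1 hxy with ⟨k, u, v, huv, rfl, rfl⟩ | ⟨o, rfl, rfl⟩
      · refine Or.inl ⟨(k : ℕ), List.mem_range.2 k.2, ?_⟩
        rw [List.mem_map]
        refine ⟨(cU u, cU v), (hcst _).2 ⟨u, v, huv, rfl⟩, ?_⟩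
        rw [hmk, hmk]
      · refine Or.inr ⟨(ec o, ec (sg o)), (hc' _).2 ⟨(hecr _).2 ⟨o, rfl⟩, hsg o⟩, ?_⟩
        show (((o.1 : ℕ), (m + (eS o.2 : ℕ), tl.getD (eS o.2 : ℕ) 0)),
          (((sg o).1 : ℕ), (pcT.getD (eS (sg o).2 : ℕ) 0, hd.getD (eS (sg o).2 : ℕ) 0))) = _
        rw [htl, hpcT, hhd]
        rfl
  refine ⟨sg, ι, ?_, ?_, hι, ?_, ?_⟩
  · intro o
    apply henc
    rw [← hvc, ← hvc, hsg, hv']
  · intro o o' h
    refine RedSpec_same hec hsg (hs' _ ((hecr _).2 ⟨o, rfl⟩) _ ((hecr _).2 ⟨o', rfl⟩) ?_)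
    rw [hvc, hvc, h]
  · intro a b
    constructor
    · intro h
      refine ⟨fun he => h.ne (hι he), ?_⟩
      rcases h with h | h
      · exact Or.inl ((hmem _).2 ⟨a, b, h, rfl⟩)
      · exact Or.inr ((hmem _).2 ⟨b, a, h, rfl⟩)
    · rintro ⟨-, h | h⟩
      · obtain ⟨x, y, hxy, he⟩ := (hmem _).1 h
        obtain ⟨h1, h2⟩ := Prod.ext_iff.1 he
        rw [hι h1, hι h2]
        exact Or.inl hxy
      · obtain ⟨x, y, hxy, he⟩ := (hmem _).1 h
        obtain ⟨h1, h2⟩ := Prod.ext_iff.1 he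
        rw [hι h1, hι h2]
        exact Or.inr hxy
  · intro e he
    obtain ⟨x, y, -, rfl⟩ := (hmem _).1 he
    exact ⟨⟨x, rfl⟩, ⟨y, rfl⟩⟩

end Pool.Agent.H24.GC
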