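import Pool.Agent.H24.GC.BDef
import Pool.Agent.H24.GC.Dih
import Pool.Agent.H24.GC.Straight

/-!
# JOB GC-21: rings give NP-hardness

`TD K c S`: the relation `S` between the tails of arcs of type `c` is defined by killer pieces.
`TD.and`: `BDef.and`. `TD.comp`: `BDef.comp`; the intermediate arc has a tail `z ~ c.1`, and
conversely every `z ~ c.1` has a neighbour `~ c.2` (`hc : H.Adj c.1 c.2`, `nbc_ncard`). `TD.pw`: induction with
`TD.comp` (`pw ... 0` is equality, `hT`).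
`pw_ring`: induction on `k`: the tails reached from `tl a` by at most `k` steps are `tl (τ ^ t a)`,
`|t| ≤ k`; note that `D.per (τ ^ t a) = n` again, and `S` is reflexive on the ring by `hstep`.

`ring_hard`. Let `L = n / 2`. Terminal variables `Z = Fin 3`: `s = 0` (constant), `u = 1`, `t = 2`; pieces
`Q = Bool`, `np 0 = false`, `np 1 = np 2 = true`; `ar 0 = rC`, `ar 1 = rF`, `ar 2 = rF'`; all types are `c`.
`R v` is: `pw S n` between the tails of `s` and the hub `false`, equality of the tails of the hub `false`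
and `u`, and `pw S (L - 1)` between the tails of `t` and the hub `true` (all with `IsC`), definable by
`TD.pw`, `hT`, `PDef.comap`, `PDef.and`. Apply `hard_of_def` with `d = n`.
`β a = lab a.1` (`Dih.exists_lab`). If `FinRel ... a b`: by `hC` the tail of `s` is `tl e` with
`per e = n`; so `a.1 = tl (τ ^ i e)` (`pw_ring`); let `e' = τ ^ i e`, `per e' = n`. By `hF1` the tail of `t`
is `tl (τ ^ (± L) e')`, so `b.1 = tl (τ ^ j e')`, `j = ± L + k`, `|k| ≤ L - 1`, hence `j ≠ 0`,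
`|j| ≤ 2 L - 1`; by `ring_ne` `b.1 ≠ a.1`, and both are in the ring of `e'`, so `lab` differs.
`γ`: let `e₀` be the element for `f = K.π` in `hC`, and `γ i` an arc of type `c` with the tail
`tl (τ ^ i e₀)` (`hΩ`). For `i ≠ j`: with `e' = τ ^ i e₀`, `tl (τ ^ j e₀) ≠ tl e'` (`tl_iff_dvd`), so by
`ring_ne` it is `tl (τ ^ k e')`, `k ≠ 0`, `|k| ≤ 2 L - 1`; write `k = ± L + k'`, `|k'| ≤ L - 1`. Take
the values `s = (K.π rC.1, K.π rC.2)`, and `u`, `t` from the cover `f` of `hF2` for `e'` (sign `+`) or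
for `i₁ e'` (sign `-`, `tau_i₁`). The last relation by `pw_ring`.
-/

namespace Pool.Agent.H24.GC

variable {V : Type} {H : SimpleGraph V}

/-- the relation `S` between the tails of arcs of type `c` is defined by killer pieces -/
def TD (K : Kit H) (c : V × V) (S : V → V → Prop) : Prop :=
  BDef K c c (fun a b => IsC H c a ∧ IsC H c b ∧ S a.1 b.1)

/-- `k` steps of the relation `S` in the class of `c` -/
def pw (H : SimpleGraph V) (c : V) (S : V → V → Prop) : ℕ → V → V → Prop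
  | 0 => fun x y => x = y
  | k + 1 => fun x y => ∃ z, Sim H z c ∧ pw H c S k x z ∧ S z y

theorem TD.and {K : Kit H} {c : V × V} {S S' : V → V → Prop} (h : TD K c S) (h' : TD K c S') :
    TD K c (fun x y => S x y ∧ S' x y) := by
  refine BDef.congr (BDef.and h h') fun a b => ?_
  constructor
  · rintro ⟨⟨h1, h2, h3⟩, -, -, h4⟩
    exact ⟨h1, h2, h3, h4⟩
  · rintro ⟨h1, h2, h3, h4⟩
    exact ⟨⟨h1, h2, h3⟩, h1, h2, h4⟩

/-- an arc of type `c` with a given tail -/
private theorem ring_arc [Finite V] {c : V × V} (hc : H.Adj c.1 c.2) {z : V}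
    (hz : Sim H z c.1) : ∃ a : V × V, IsC H c a ∧ a.1 = z := by
  have h1 : c.2 ∈ nbc H c.1 c.2 := ⟨hc, sim_refl H _⟩
  have h2 : (nbc H z c.2).ncard = (nbc H c.1 c.2).ncard := nbc_ncard hz (sim_refl H _)
  have h3 : 0 < (nbc H c.1 c.2).ncard := Set.ncard_pos (Set.toFinite _) |>.2 ⟨_, h1⟩
  rw [← h2, Set.ncard_pos (Set.toFinite _)] at h3
  obtain ⟨y, hy1, hy2⟩ := h3
  exact ⟨(z, y), ⟨hy1, hz, hy2⟩, rfl⟩

theorem TD.comp [Finite V] {K : Kit H} {c : V × V} (hc : H.Adj c.1 c.2) {S S' : V → V → Prop}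
    (h : TD K c S) (h' : TD K c S') : TD K c (fun x y => ∃ z, Sim H z c.1 ∧ S x z ∧ S' z y) := by
  refine BDef.congr (BDef.comp h h') fun a b => ?_
  constructor
  · rintro ⟨e, ⟨h1, h2, h3⟩, -, h4, h5⟩
    exact ⟨h1, h4, e.1, h2.2.1, h3, h5⟩
  · rintro ⟨h1, h2, z, hz, h3, h4⟩
    obtain ⟨e, he, rfl⟩ := ring_arc hc hz
    exact ⟨e, ⟨h1, he, h3⟩, he, h2, h4⟩

theorem TD.pw [Finite V] {K : Kit H} {c : V × V} (hc : H.Adj c.1 c.2) {S : V → V → Prop}
    (hT : TD K c (fun x y => x = y)) (h : TD K c S) (k : ℕ) : TD K c (pw H c.1 S k) := by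
  induction k with
  | zero => exact hT
  | succ k ih => exact TD.comp hc ih h

private theorem ring_pow_add {Ω : Type} (D : Dih Ω V) (s t : ℤ) (a : Ω) :
    (D.tau ^ s) ((D.tau ^ t) a) = (D.tau ^ (s + t)) a := by
  rw [zpow_add, Equiv.Perm.mul_apply]

theorem pw_ring {Ω : Type} {D : Dih Ω V} {c : V} {S : V → V → Prop} {n : ℕ}
    (hΩ : ∀ a, Sim H (D.tl a) c)
    (hstep : ∀ a, D.per a = n → ∀ x', S (D.tl a) x' ↔
      x' = D.tl a ∨ x' = D.tl (D.tau a) ∨ x' = D.tl (D.tau.symm a))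
    {a : Ω} (ha : D.per a = n) (k : ℕ) (x' : V) :
    pw H c S k (D.tl a) x' ↔ ∃ t : ℤ, |t| ≤ k ∧ x' = D.tl ((D.tau ^ t) a) := by
  have e1 : ∀ t : ℤ, D.tau ((D.tau ^ t) a) = (D.tau ^ (t + 1)) a := by
    intro t
    have h := ring_pow_add D 1 t a
    rw [zpow_one, add_comm] at h
    exact h
  have e2 : ∀ t : ℤ, D.tau.symm ((D.tau ^ t) a) = (D.tau ^ (t - 1)) a := by
    intro t
    have h := ring_pow_add D (-1) t a
    rw [zpow_neg_one, neg_add_eq_sub] at h
    exact h
  induction k generalizing x' with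
  | zero =>
    constructor
    · intro h
      have h' : D.tl a = x' := h
      exact ⟨0, by simp, by rw [zpow_zero]; exact h'.symm⟩
    · rintro ⟨t, ht, h⟩
      have ht' : t = 0 := by
        rw [Nat.cast_zero] at ht
        exact abs_nonpos_iff.1 ht
      rw [ht', zpow_zero] at h
      exact h.symm
  | succ k ih =>
    constructor
    · rintro ⟨z, -, h1, h2⟩
      obtain ⟨t, ht, rfl⟩ := (ih z).1 h1
      have hp : D.per ((D.tau ^ t) a) = n := (D.per_pow t a).trans ha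
      rw [hstep _ hp] at h2
      rw [abs_le] at ht
      rcases h2 with h2 | h2 | h2
      · exact ⟨t, by rw [abs_le]; push_cast; constructor <;> omega, h2⟩
      · rw [e1] at h2
        exact ⟨t + 1, by rw [abs_le]; push_cast; constructor <;> omega, h2⟩
      · rw [e2] at h2
        exact ⟨t - 1, by rw [abs_le]; push_cast; constructor <;> omega, h2⟩
    · rintro ⟨t, ht, rfl⟩
      rw [abs_le] at ht
      push_cast at ht
      have key : ∃ s : ℤ, |s| ≤ k ∧ (t = s ∨ t = s + 1 ∨ t = s - 1) := by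
        rcases lt_trichotomy t 0 with h | h | h
        · exact ⟨t + 1, by rw [abs_le]; constructor <;> omega, by omega⟩
        · exact ⟨0, by simp, by omega⟩
        · exact ⟨t - 1, by rw [abs_le]; constructor <;> omega, by omega⟩
      obtain ⟨s, hs, hst⟩ := key
      refine ⟨D.tl ((D.tau ^ s) a), hΩ _, (ih _).2 ⟨s, hs, rfl⟩, ?_⟩
      have hp : D.per ((D.tau ^ s) a) = n := (D.per_pow s a).trans ha
      rw [hstep _ hp, e1, e2]
      rcases hst with rfl | rfl | rfl
      · exact Or.inl rfl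
      · exact Or.inr (Or.inl rfl)
      · exact Or.inr (Or.inr rfl)

/-- a relation between tails as a relation between two variables of the final pattern -/
private theorem ring_def [Finite V] {K : Kit H} {c : V × V} {S : V → V → Prop}
    (h : TD K c S) (i j : Bool ⊕ Fin 3) :
    PDef K (Sum.elim (fun _ : Bool => c) (fun _ : Fin 3 => c))
      (fun v => IsC H c (v i) ∧ IsC H c (v j) ∧ S (v i).1 (v j).1) := by
  have h1 := PDef.comap (tX' := Sum.elim (fun _ : Bool => c) (fun _ : Fin 3 => c)) h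
    (fun b : Bool => if b then j else i) (by
      intro b
      have e1 : (if b = true then c else c) = c := by split_ifs <;> rfl
      have e2 : ∀ x : Bool ⊕ Fin 3,
          Sum.elim (fun _ : Bool => c) (fun _ : Fin 3 => c) x = c := by
        intro x
        rcases x with x | x <;> rfl
      simp only [e1, e2]
      exact ⟨sim_refl H _, sim_refl H _⟩)
  exact PDef.congr h1 fun v => Iff.rfl

theorem ring_hard [Finite V] [Nonempty V] {K : Kit H} (hdeg : ∀ w : K.W, ∃ w', K.gr.Adj w w')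
    (hP : NoCut H (fun _ _ => True)) {M : ℕ} (hM : K.Mult M) {c : V × V} (hc : H.Adj c.1 c.2)
    {S : V → V → Prop} (hS : TD K c S) (hT : TD K c (fun x y => x = y))
    {Ω : Type} [Finite Ω] (D : Dih Ω V) {n : ℕ} (hn : 3 ≤ n) (hΩ : ∀ a, Sim H (D.tl a) c.1)
    (hstep : ∀ a, D.per a = n → ∀ x', S (D.tl a) x' ↔
      x' = D.tl a ∨ x' = D.tl (D.tau a) ∨ x' = D.tl (D.tau.symm a))
    {rF rF' rC : K.W × K.W} (hF : K.gr.Adj rF.1 rF.2) (hF' : K.gr.Adj rF'.1 rF'.2)
    (hCa : K.gr.Adj rC.1 rC.2) (tF : SlTy K rF c) (tF' : SlTy K rF' c) (tC : SlTy K rC c)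
    (hne : rF ≠ rF') (hne' : rF ≠ rF'.swap)
    (hF1 : ∀ f : K.W → V, IsCover K.gr H f → ∀ a, D.per a = n → f rF.1 = D.tl a →
      f rF'.1 = D.tl ((D.tau ^ ((n / 2 : ℕ) : ℤ)) a) ∨
      f rF'.1 = D.tl ((D.tau ^ (-((n / 2 : ℕ) : ℤ))) a))
    (hF2 : ∀ a, D.per a = n → ∃ f : K.W → V, IsCover K.gr H f ∧ f rF.1 = D.tl a ∧
      f rF'.1 = D.tl ((D.tau ^ ((n / 2 : ℕ) : ℤ)) a))
    (hC : ∀ f : K.W → V, IsCover K.gr H f → ∃ a, D.per a = n ∧ f rC.1 = D.tl a) : HardH H := by
  classical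
  obtain ⟨L, hL⟩ : ∃ L : ℕ, L = n / 2 := ⟨_, rfl⟩
  have hL1 : 1 ≤ L := by omega
  obtain ⟨lab, hlab⟩ := D.exists_lab (n := n) (by omega)
  -- the ring of the kit
  obtain ⟨e₀, he₀, hπ⟩ := hC K.π K.cov
  have hγ : ∀ i : Fin n, ∃ g : V × V, IsC H c g ∧ g.1 = D.tl ((D.tau ^ ((i : ℕ) : ℤ)) e₀) :=
    fun i => ring_arc hc (hΩ _)
  choose γ hγ1 hγ2 using hγ
  -- arcs of covers
  have hcov : ∀ (f : K.W → V), IsCover K.gr H f → ∀ r : K.W × K.W, K.gr.Adj r.1 r.2 →
      SlTy K r c → IsC H c (f r.1, f r.2) := by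
    intro f hf r hr ht
    refine ⟨(hf r.1).mapsTo hr, ?_, ?_⟩
    · exact sim_trans (cover_sim hf K.cov r.1) ht.1
    · exact sim_trans (cover_sim hf K.cov r.2) ht.2
  have hRdef : PDef K (Sum.elim (fun _ : Bool => c) (fun _ : Fin 3 => c))
      (fun v : Bool ⊕ Fin 3 → V × V =>
        (IsC H c (v (Sum.inr 0)) ∧ IsC H c (v (Sum.inl false)) ∧
          pw H c.1 S n (v (Sum.inr 0)).1 (v (Sum.inl false)).1) ∧
        (IsC H c (v (Sum.inl false)) ∧ IsC H c (v (Sum.inr 1)) ∧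
          (v (Sum.inl false)).1 = (v (Sum.inr 1)).1) ∧
        (IsC H c (v (Sum.inr 2)) ∧ IsC H c (v (Sum.inl true)) ∧
          pw H c.1 S (L - 1) (v (Sum.inr 2)).1 (v (Sum.inl true)).1)) :=
    PDef.and (ring_def (TD.pw hc hT hS n) (Sum.inr 0) (Sum.inl false))
      (PDef.and (ring_def hT (Sum.inl false) (Sum.inr 1))
        (ring_def (TD.pw hc hT hS (L - 1)) (Sum.inr 2) (Sum.inl true)))
  refine hard_of_def (Z := Fin 3) (Q := Bool) hRdef (np := ![false, true, true])
    (ar := ![rC, rF, rF']) ?_ ?_ ?_ ?_ hdeg hn (fun a => lab a.1) γ ?_ ?_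
  · intro z
    fin_cases z
    · exact hCa
    · exact hF
    · exact hF'
  · intro z
    fin_cases z
    · exact tC
    · exact tF
    · exact tF'
  · intro z
    have hst : ∀ r : K.W × K.W, K.gr.Adj r.1 r.2 → Straight H K.gr K.π (cut1 r) := fun r hr =>
      straight_one hM hr (NoCut.mono hP fun _ _ _ => trivial)
    fin_cases z
    · exact hst _ hCa
    · exact hst _ hF
    · exact hst _ hF'
  · intro z z' hz har
    fin_cases z <;> fin_cases z'
    · rfl
    · exact absurd hz (by simp)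
    · exact absurd hz (by simp)
    · exact absurd hz (by simp)
    · rfl
    · exfalso
      have har' : rF = rF' ∨ rF = rF'.swap := har
      rcases har' with h | h
      · exact hne h
      · exact hne' h
    · exact absurd hz (by simp)
    · exfalso
      have har' : rF' = rF ∨ rF' = rF.swap := har
      rcases har' with h | h
      · exact hne h.symm
      · exact hne' (by rw [h, Prod.swap_swap])
    · rfl
  · rintro a b ⟨v, ⟨⟨-, -, r1⟩, ⟨-, -, r2⟩, -, -, r3⟩, hq⟩
    have r1' : pw H c.1 S n (v 0).1 a.1 := r1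
    have r2' : a.1 = (v 1).1 := r2
    have r3' : pw H c.1 S (L - 1) (v 2).1 b.1 := r3
    obtain ⟨f, hf, hf0⟩ := hq false
    obtain ⟨f', hf', hf1⟩ := hq true
    have v0 : (f rC.1, f rC.2) = v 0 := hf0 0 rfl
    have v1 : (f' rF.1, f' rF.2) = v 1 := hf1 1 rfl
    have v2 : (f' rF'.1, f' rF'.2) = v 2 := hf1 2 rfl
    obtain ⟨e, he, hfe⟩ := hC f hf
    rw [← v0] at r1'
    simp only at r1'
    rw [hfe, pw_ring hΩ hstep he] at r1'
    obtain ⟨i, -, hi⟩ := r1'
    have hpe : D.per ((D.tau ^ i) e) = n := (D.per_pow i e).trans he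
    generalize hε : (D.tau ^ i) e = e' at hi hpe
    have hF3 : f' rF.1 = D.tl e' := by
      rw [← hi, r2', ← v1]
    have hj : ∃ j : ℤ, j ≠ 0 ∧ |j| ≤ 2 * ((L : ℕ) : ℤ) - 1 ∧ b.1 = D.tl ((D.tau ^ j) e') := by
      rw [← v2] at r3'
      simp only at r3'
      rcases hF1 f' hf' e' hpe hF3 with h | h
      · rw [← hL] at h
        rw [h, pw_ring hΩ hstep ((D.per_pow _ e').trans hpe)] at r3'
        obtain ⟨k, hk, hb⟩ := r3'
        rw [ring_pow_add] at hb
        rw [abs_le, Nat.cast_sub hL1, Nat.cast_one] at hk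
        exact ⟨k + L, by omega, by rw [abs_le]; constructor <;> omega, hb⟩
      · rw [← hL] at h
        rw [h, pw_ring hΩ hstep ((D.per_pow _ e').trans hpe)] at r3'
        obtain ⟨k, hk, hb⟩ := r3'
        rw [ring_pow_add] at hb
        rw [abs_le, Nat.cast_sub hL1, Nat.cast_one] at hk
        exact ⟨k + -L, by omega, by rw [abs_le]; constructor <;> omega, hb⟩
    obtain ⟨j, hj0, hjL, hb⟩ := hj
    have hper3 : 3 ≤ D.per e' := by rw [hpe]; exact hn
    have hne2 := ((D.ring_ne hper3 b.1).1 ⟨j, hj0, by rw [hpe, ← hL]; exact hjL, hb⟩).2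
    have h0 : D.tl e' = D.tl ((D.tau ^ (0 : ℤ)) e') := by rw [zpow_zero]; rfl
    intro hβ
    have hβ' : lab a.1 = lab b.1 := hβ
    rw [hi, hb, h0] at hβ'
    refine hlab e' hpe 0 j ?_ hβ'
    rw [← h0, ← hb]
    exact hne2.symm
  · intro s t hst
    have hpe : D.per ((D.tau ^ ((s : ℕ) : ℤ)) e₀) = n := (D.per_pow _ e₀).trans he₀
    have htne : D.tl ((D.tau ^ ((t : ℕ) : ℤ)) e₀) ≠ D.tl ((D.tau ^ ((s : ℕ) : ℤ)) e₀) := by
      intro h
      rw [D.tl_iff_dvd, he₀] at h
      apply hst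
      apply Fin.ext
      have hs := s.2
      have ht := t.2
      have h2 : ((t : ℕ) : ℤ) - ((s : ℕ) : ℤ) = 0 := by
        apply Int.eq_zero_of_abs_lt_dvd h
        rw [abs_lt]
        constructor <;> omega
      omega
    have htm : ∃ t' : ℤ, D.tl ((D.tau ^ ((t : ℕ) : ℤ)) e₀)
        = D.tl ((D.tau ^ t') ((D.tau ^ ((s : ℕ) : ℤ)) e₀)) := by
      refine ⟨t - s, ?_⟩
      rw [ring_pow_add, sub_add_cancel]
    have hγt := hγ2 t
    have hγs := hγ2 s
    have hs0 : pw H c.1 S n (K.π rC.1) (γ s).1 := by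
      rw [hπ, pw_ring hΩ hstep he₀]
      refine ⟨((s : ℕ) : ℤ), ?_, hγs⟩
      have hs := s.2
      rw [abs_le]
      constructor <;> omega
    generalize (D.tau ^ ((s : ℕ) : ℤ)) e₀ = e' at hpe htne htm hγs
    have hper3 : 3 ≤ D.per e' := by rw [hpe]; exact hn
    obtain ⟨k, hk0, hkL, hk⟩ := (D.ring_ne hper3 _).2 ⟨htm, htne⟩
    rw [← hγt] at hk
    rw [hpe, ← hL] at hkL
    have main : ∃ f : K.W → V, IsCover K.gr H f ∧ (γ s).1 = f rF.1 ∧
        pw H c.1 S (L - 1) (f rF'.1) (γ t).1 := by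
      rw [abs_le] at hkL
      rcases lt_or_gt_of_ne hk0 with hneg | hpos
      · obtain ⟨f, hf, hf1, hf2⟩ := hF2 (D.i₁ e') ((D.per_i₁ e').trans hpe)
        have h1 : D.tl (D.i₁ e') = D.tl e' := (D.tl_iff _ _).2 (Or.inr (D.inv₁ e').symm)
        have h2 : f rF'.1 = D.tl ((D.tau ^ (-((L : ℕ) : ℤ))) e') := by
          rw [hf2, ← hL, D.tau_i₁]
          exact (D.tl_iff _ _).2 (Or.inr (D.inv₁ _).symm)
        refine ⟨f, hf, by rw [hf1, h1, hγs], ?_⟩
        rw [h2, pw_ring hΩ hstep ((D.per_pow _ e').trans hpe)]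
        refine ⟨k + L, ?_, ?_⟩
        · rw [abs_le, Nat.cast_sub hL1, Nat.cast_one]
          constructor <;> omega
        · rw [ring_pow_add, hk]
          congr 3
          omega
      · obtain ⟨f, hf, hf1, hf2⟩ := hF2 e' hpe
        refine ⟨f, hf, by rw [hf1, hγs], ?_⟩
        rw [hf2, ← hL, pw_ring hΩ hstep ((D.per_pow _ e').trans hpe)]
        refine ⟨k - L, ?_, ?_⟩
        · rw [abs_le, Nat.cast_sub hL1, Nat.cast_one]
          constructor <;> omega
        · rw [ring_pow_add, hk, sub_add_cancel]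
    obtain ⟨f, hf, hf1, hf2⟩ := main
    refine ⟨![(K.π rC.1, K.π rC.2), (f rF.1, f rF.2), (f rF'.1, f rF'.2)],
      ⟨⟨?_, hγ1 s, hs0⟩, ⟨hγ1 s, ?_, hf1⟩, ?_, hγ1 t, hf2⟩, ?_⟩
    · exact hcov K.π K.cov rC hCa tC
    · exact hcov f hf rF hF tF
    · exact hcov f hf rF' hF' tF'
    · intro q
      cases q with
      | false =>
        refine ⟨K.π, K.cov, fun z hz => ?_⟩
        fin_cases z
        · rfl
        · exact absurd hz (by simp)
        · exact absurd hz (by simp)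
      | true =>
        refine ⟨f, hf, fun z hz => ?_⟩
        fin_cases z
        · exact absurd hz (by simp)
        · rfl
        · rfl

end Pool.Agent.H24.GC
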