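import Pool.Agent.H24.GC.Ring

/-!
# JOB GC-26: the step relations are definable

`lk H x₀ c x x'`: `x, x'` are in the class of `x₀` and have a common neighbour in the class of `c`.
`tail_def`: `BDef.comp` of `sameTail_def` with its `BDef.symm` (the arcs `p o`, then `p u`, then `p o`);
the relation obtained is: `∃ e`, `e` an arc of the type `(π p, π u)` with the same tail as `a` and as `b`; such
an `e` exists for every tail `~ π p` (`nbc_ncard`: a vertex `~ π p` has a neighbour `~ π u`).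
`step_def`: compose `sameTail_def.symm` (from `(π p, π o)` to `(π p, π u)`), `sameHead_def` (to
`(π v, π u)`), its `symm` (back to `(π p, π u)`), and `sameTail_def` (to `(π p, π o)`): for
`a = (x, _)`, `b = (x', _)` this says that there are arcs `(x, y)`, `(w, y)`, `(x', y)`; the `w`
exists for every `y ~ π u`.
`step_def'`: `tail_def`, then `sameHead_def` with `u := o`, its `symm`, then `tail_def`.
All compositions with `BDef.comp`, `BDef.congr`.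
-/

namespace Pool.Agent.H24.GC

variable {V : Type} {H : SimpleGraph V}

/-- `x` and `x'` are in the class of `x₀` and have a common neighbour in the class of `c` -/
def lk (H : SimpleGraph V) (x₀ c x x' : V) : Prop :=
  Sim H x x₀ ∧ Sim H x' x₀ ∧ ∃ y, Sim H y c ∧ H.Adj x y ∧ H.Adj x' y

theorem StepDef_nbr [Finite V] {x x₀ y₀ : V} (h : Sim H x x₀) (hy : H.Adj x₀ y₀) :
    ∃ y, H.Adj x y ∧ Sim H y y₀ := by
  have h1 : (nbc H x y₀).ncard = (nbc H x₀ y₀).ncard := nbc_ncard h (sim_refl H y₀)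
  have h2 : y₀ ∈ nbc H x₀ y₀ := ⟨hy, sim_refl H y₀⟩
  have h3 : 0 < (nbc H x₀ y₀).ncard := (Set.ncard_pos (Set.toFinite _)).2 ⟨y₀, h2⟩
  rw [← h1] at h3
  obtain ⟨y, hy1⟩ := (Set.ncard_pos (Set.toFinite _)).1 h3
  exact ⟨y, hy1.1, hy1.2⟩

theorem StepDef_adj {K : Kit H} {p u : K.W} (h : K.gr.Adj p u) : H.Adj (K.π p) (K.π u) :=
  (K.cov p).mapsTo h

theorem tail_def [Finite V] {K : Kit H} {M : ℕ} (hM : K.Mult M)
    (hP : NoCut H (fun _ _ => True)) {p : K.W} (hU : K.Univ p) {u o : K.W}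
    (hu : K.gr.Adj p u) (ho : K.gr.Adj p o) (huo : ¬ Sim H (K.π u) (K.π o)) :
    TD K (K.π p, K.π o) (fun x y => x = y) := by
  have T := sameTail_def hM hP hU hu ho huo
  refine (T.symm.comp T).congr ?_
  intro a b
  constructor
  · rintro ⟨e, ⟨-, h2, h3⟩, ⟨-, h5, h6⟩⟩
    exact ⟨h2, h5, h3.symm.trans h6⟩
  · rintro ⟨h1, h2, h3⟩
    obtain ⟨y, hy, hy'⟩ := StepDef_nbr h1.2.1 (StepDef_adj hu)
    have he : IsC H (K.π p, K.π u) (a.1, y) := ⟨hy, h1.2.1, hy'⟩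
    exact ⟨(a.1, y), ⟨he, h1, rfl⟩, ⟨he, h2, h3⟩⟩

theorem step_def [Finite V] {K : Kit H} {M : ℕ} (hM : K.Mult M)
    (hP : NoCut H (fun _ _ => True)) {p : K.W} (hU : K.Univ p) {u o v : K.W}
    (hu : K.gr.Adj p u) (ho : K.gr.Adj p o) (huo : ¬ Sim H (K.π u) (K.π o))
    (hv : K.gr.Adj u v) (hvp : ¬ Sim H (K.π v) (K.π p)) :
    TD K (K.π p, K.π o) (lk H (K.π p) (K.π u)) := by
  have T := sameTail_def hM hP hU hu ho huo
  have R := sameHead_def hM hP hU hu hv hvp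
  refine (((T.symm.comp R).comp R.symm).comp T).congr ?_
  intro a b
  constructor
  · rintro ⟨⟨x3, y3⟩, ⟨⟨x2, y2⟩, ⟨⟨x1, y1⟩, ⟨h1, h2, h3⟩, ⟨-, -, h4⟩⟩, ⟨h5, -, h6⟩⟩, ⟨-, h8, h9⟩⟩
    simp only at h3 h4 h6 h9
    subst h4
    subst h6
    refine ⟨h2, h8, h2.2.1, h8.2.1, y3, h5.2.2, ?_, ?_⟩
    · rw [← h3]
      exact h1.1
    · rw [← h9]
      exact h5.1
  · rintro ⟨h1, h2, -, -, y, hy, hay, hby⟩
    obtain ⟨w, hw, hw'⟩ := StepDef_nbr hy (StepDef_adj hv)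
    have e1 : IsC H (K.π p, K.π u) (a.1, y) := ⟨hay, h1.2.1, hy⟩
    have e2 : IsC H (K.π v, K.π u) (w, y) := ⟨hw.symm, hw', hy⟩
    have e3 : IsC H (K.π p, K.π u) (b.1, y) := ⟨hby, h2.2.1, hy⟩
    exact ⟨(b.1, y), ⟨(w, y), ⟨(a.1, y), ⟨e1, h1, rfl⟩, ⟨e1, e2, rfl⟩⟩, ⟨e3, e2, rfl⟩⟩,
      ⟨e3, h2, rfl⟩⟩

theorem step_def' [Finite V] {K : Kit H} {M : ℕ} (hM : K.Mult M)
    (hP : NoCut H (fun _ _ => True)) {p : K.W} (hU : K.Univ p) {u o v : K.W}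
    (hu : K.gr.Adj p u) (ho : K.gr.Adj p o) (huo : ¬ Sim H (K.π u) (K.π o))
    (hv : K.gr.Adj o v) (hvp : ¬ Sim H (K.π v) (K.π p)) :
    TD K (K.π p, K.π o) (lk H (K.π p) (K.π o)) := by
  have T : BDef K (K.π p, K.π o) (K.π p, K.π o)
    (fun a b => IsC H (K.π p, K.π o) a ∧ IsC H (K.π p, K.π o) b ∧ a.1 = b.1) :=
    tail_def hM hP hU hu ho huo
  have R := sameHead_def hM hP hU ho hv hvp
  refine (((T.comp R).comp R.symm).comp T).congr ?_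
  intro a b
  constructor
  · rintro ⟨⟨x3, y3⟩, ⟨⟨x2, y2⟩, ⟨⟨x1, y1⟩, ⟨h1, h2, h3⟩, ⟨-, -, h4⟩⟩, ⟨h5, -, h6⟩⟩, ⟨-, h8, h9⟩⟩
    simp only at h3 h4 h6 h9
    subst h4
    subst h6
    refine ⟨h1, h8, h1.2.1, h8.2.1, y3, h5.2.2, ?_, ?_⟩
    · rw [h3]
      exact h2.1
    · rw [← h9]
      exact h5.1
  · rintro ⟨h1, h2, -, -, y, hy, hay, hby⟩
    obtain ⟨w, hw, hw'⟩ := StepDef_nbr hy (StepDef_adj hv)
    have e1 : IsC H (K.π p, K.π o) (a.1, y) := ⟨hay, h1.2.1, hy⟩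
    have e2 : IsC H (K.π v, K.π o) (w, y) := ⟨hw.symm, hw', hy⟩
    have e3 : IsC H (K.π p, K.π o) (b.1, y) := ⟨hby, h2.2.1, hy⟩
    exact ⟨(b.1, y), ⟨(w, y), ⟨(a.1, y), ⟨h1, e1, rfl⟩, ⟨e1, e2, rfl⟩⟩, ⟨e3, e2, rfl⟩⟩,
      ⟨e3, h2, rfl⟩⟩

end Pool.Agent.H24.GC
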