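import Pool.Agent.H24.GC.Equit

/-!
# JOB GC-2: covers preserve the classes

`sim_of_cover`. Let `R` be the setoid on `V` generated by `Sim H` and the pairs `(F a, π a)`
(`Relation.EqvGen.setoid`). Claim: `R` is equitable; then `R (F a) (π a)` gives the result. Let `C` be a
class of `R`; it is saturated for `Sim H` and for the pairs `(F a, π a)`. Induct on `EqvGen`. For `Sim x y`
use `sim_sat`. For the pair `(F a, π a)`: `F` maps `N_G(a)` bijectively onto `N_H(F a)`, so
`N_H(F a) ∩ C` has as many elements as `{b ∈ N_G(a) | F b ∈ C}`; here `F b ∈ C ↔ π b ∈ C ↔ e b ∈ C`, where `e`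
is the bijection `N_G(a) → N_H(π a)` of `Typed`; so it has as many elements as `N_H(π a) ∩ C`
(`Set.InjOn.ncard_image` or `Set.ncard_congr`).
`typed_cover`: take `e = g`.
`cover_sim`: `sim_of_cover` with `typed_cover`.
`cover_class`: `f` maps `{u ∈ N(a) | Sim (π u) y}` bijectively onto `nbc H (f a) y`.
-/

namespace Pool.Agent.H24.GC

variable {A V : Type} {H : SimpleGraph V}

/-- `π` is compatible with the classes: the neighbours of `a` are mapped to the classes of the
neighbours of `π a`, with multiplicities -/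
def Typed (G : SimpleGraph A) (H : SimpleGraph V) (π : A → V) : Prop :=
  ∀ a, ∃ e : A → V, Set.BijOn e (G.neighborSet a) (H.neighborSet (π a)) ∧
    ∀ b, G.Adj a b → Sim H (e b) (π b)

/-- the generating relation -/
def TyRel (H : SimpleGraph V) (π F : A → V) (u v : V) : Prop :=
  Sim H u v ∨ ∃ a, u = F a ∧ v = π a

theorem ty_equitable [Finite V] {G : SimpleGraph A} {π F : A → V} (hπ : Typed G H π)
    (hF : IsCover G H F) : Equitable H (Relation.EqvGen.setoid (TyRel H π F)) := by
  intro x y z hxy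
  set R : Setoid V := Relation.EqvGen.setoid (TyRel H π F) with hR
  set C : Set V := {w | R w z} with hC
  have hsat : ∀ u v, R u v → (u ∈ C ↔ v ∈ C) := fun u v h =>
    ⟨fun hu => R.trans' (R.symm' h) hu, fun hv => R.trans' h hv⟩
  have hrel : ∀ u v, TyRel H π F u v → R u v := fun u v h => Relation.EqvGen.rel u v h
  have hxy' : Relation.EqvGen (TyRel H π F) x y := hxy
  show (H.neighborSet x ∩ C).ncard = (H.neighborSet y ∩ C).ncard
  induction hxy' with
  | rel u v h =>
    rcases h with h | ⟨a, rfl, rfl⟩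
    · exact sim_sat h fun u v huv => hsat u v (hrel u v (Or.inl huv))
    · obtain ⟨e, he, hs⟩ := hπ a
      have h1 : H.neighborSet (F a) ∩ C = F '' {b | G.Adj a b ∧ F b ∈ C} := by
        ext w
        constructor
        · rintro ⟨hw, hwC⟩
          obtain ⟨b, hb, rfl⟩ := (hF a).surjOn hw
          exact ⟨b, ⟨hb, hwC⟩, rfl⟩
        · rintro ⟨b, ⟨hb, hbC⟩, rfl⟩
          exact ⟨(hF a).mapsTo hb, hbC⟩
      have h2 : H.neighborSet (π a) ∩ C = e '' {b | G.Adj a b ∧ e b ∈ C} := by
        ext w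
        constructor
        · rintro ⟨hw, hwC⟩
          obtain ⟨b, hb, rfl⟩ := he.surjOn hw
          exact ⟨b, ⟨hb, hwC⟩, rfl⟩
        · rintro ⟨b, ⟨hb, hbC⟩, rfl⟩
          exact ⟨he.mapsTo hb, hbC⟩
      have h3 : {b | G.Adj a b ∧ F b ∈ C} = {b | G.Adj a b ∧ e b ∈ C} := by
        ext b
        simp only [Set.mem_setOf_eq]
        refine and_congr_right fun hb => ?_
        rw [hsat (F b) (π b) (hrel _ _ (Or.inr ⟨b, rfl, rfl⟩)),
          hsat (e b) (π b) (hrel _ _ (Or.inl (hs b hb)))]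
      rw [h1, h2, Set.ncard_image_of_injOn ((hF a).injOn.mono fun b hb => hb.1),
        Set.ncard_image_of_injOn (he.injOn.mono fun b hb => hb.1), h3]
  | refl u => rfl
  | symm u v _ ih => exact (ih ‹_›).symm
  | trans u v w _ _ ih1 ih2 => exact (ih1 ‹_›).trans (ih2 ‹_›)

theorem sim_of_cover [Finite V] {G : SimpleGraph A} {π F : A → V} (hπ : Typed G H π)
    (hF : IsCover G H F) (a : A) : Sim H (F a) (π a) :=
  ⟨_, ty_equitable hπ hF, Relation.EqvGen.rel _ _ (Or.inr ⟨a, rfl, rfl⟩)⟩

theorem typed_cover {G : SimpleGraph A} {g : A → V} (hg : IsCover G H g) : Typed G H g :=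
  fun a => ⟨g, hg a, fun _ _ => sim_refl H _⟩

theorem cover_sim [Finite V] {G : SimpleGraph A} {f g : A → V} (hf : IsCover G H f)
    (hg : IsCover G H g) (a : A) : Sim H (f a) (g a) :=
  sim_of_cover (typed_cover hg) hf a

theorem cover_class [Finite V] {G : SimpleGraph A} {f g : A → V} (hf : IsCover G H f)
    (hg : IsCover G H g) (a : A) (y : V) :
    Set.BijOn f {u | G.Adj a u ∧ Sim H (g u) y} (nbc H (f a) y) := by
  refine ⟨?_, (hf a).injOn.mono fun u hu => hu.1, ?_⟩
  · rintro u ⟨hu, hs⟩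
    exact ⟨(hf a).mapsTo hu, sim_trans (cover_sim hf hg u) hs⟩
  · rintro w ⟨hw, hs⟩
    obtain ⟨u, hu, rfl⟩ := (hf a).surjOn hw
    exact ⟨u, ⟨hu, sim_trans (cover_sim hg hf u) hs⟩, rfl⟩

end Pool.Agent.H24.GC
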